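import Pool.Agent.Lib.MP_4a2528_ag.Split

/-!
A concrete ring of potentials: polynomials in `x`, `r`, `rho_j`.
-/

set_option linter.unusedSectionVars false

namespace MP4a

open PowerSeries Finset

/-- the variables -/
inductive Vr (n : ℕ) where
  | x : Vr n
  | r : Vr n
  | rho (j : Fin n) : Vr n

section conc
variable {n : ℕ} {S : Type*} [CommRing S] [Algebra ℚ S]

variable (n S) in
/-- the ring of potentials -/
abbrev PA := MvPolynomial (Vr n) S

variable (n S) in
/-- the variable `x` -/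
noncomputable def vx : PA n S := MvPolynomial.X Vr.x
variable (n S) in
/-- the variable `r` -/
noncomputable def vr : PA n S := MvPolynomial.X Vr.r
variable (S) in
/-- the variables `rho` -/
noncomputable def vq (j : Fin n) : PA n S := MvPolynomial.X (Vr.rho j)

variable (n S) in
/-- logarithmic `x`-derivative of `r` -/
noncomputable def gx : PA n S := ∑ j : Fin n, vq S j * aa 1 (vx n S) 0 j

/-- values of the `x`-derivation on variables -/
noncomputable def fx : Vr n → PA n S
  | Vr.x => 1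
  | Vr.r => vr n S * gx n S
  | Vr.rho _ => 0

/-- values of the `rho`-derivation on variables -/
noncomputable def fr (i : Fin n) : Vr n → PA n S
  | Vr.x => 0
  | Vr.r => vr n S * aa 0 (vx n S) 0 i
  | Vr.rho j => if i = j then 1 else 0

variable (n S) in
/-- the `x`-derivation -/
noncomputable def Sx : Derivation S (PA n S) (PA n S) := MvPolynomial.mkDerivation S fx
variable (S) in
/-- the `rho`-derivations -/
noncomputable def Sr (i : Fin n) : Derivation S (PA n S) (PA n S) :=
  MvPolynomial.mkDerivation S (fr i)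

variable (n S) in
/-- the `x`-derivation over the rationals -/
noncomputable def Qx : Derivation ℚ (PA n S) (PA n S) := (Sx n S).restrictScalars ℚ
variable (S) in
/-- the `rho`-derivations over the rationals -/
noncomputable def Qr (i : Fin n) : Derivation ℚ (PA n S) (PA n S) := (Sr S i).restrictScalars ℚ

theorem Qx_x : Qx n S (vx n S) = 1 := MvPolynomial.mkDerivation_X _ _ _
theorem Qx_r : Qx n S (vr n S) = vr n S * gx n S := MvPolynomial.mkDerivation_X _ _ _
theorem Qx_q (j : Fin n) : Qx n S (vq S j) = 0 := MvPolynomial.mkDerivation_X _ _ _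
theorem Qr_x (i : Fin n) : Qr S i (vx n S) = 0 := MvPolynomial.mkDerivation_X _ _ _
theorem Qr_r (i : Fin n) : Qr S i (vr n S) = vr n S * aa 0 (vx n S) 0 i :=
  MvPolynomial.mkDerivation_X _ _ _
theorem Qr_q (i j : Fin n) : Qr S i (vq S j) = if i = j then 1 else 0 :=
  MvPolynomial.mkDerivation_X _ _ _

theorem Qx_C (a : S) : Qx n S (MvPolynomial.C a) = 0 := MvPolynomial.derivation_C _ _
theorem Qr_C (i : Fin n) (a : S) : Qr S i (MvPolynomial.C a) = 0 := MvPolynomial.derivation_C _ _

theorem comm_of_gens (D E : Derivation S (PA n S) (PA n S))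
    (h : ∀ v, D (E (MvPolynomial.X v)) = E (D (MvPolynomial.X v))) (a : PA n S) :
    D (E a) = E (D a) := by
  have : ⁅D, E⁆ = 0 := by
    refine MvPolynomial.derivation_ext fun v => ?_
    rw [Derivation.commutator_apply, h, sub_self]; rfl
  have h2 := congrArg (fun F : Derivation S (PA n S) (PA n S) => F a) this
  simp only [Derivation.commutator_apply] at h2
  exact sub_eq_zero.1 h2

theorem Qx_aa (k j : ℕ) : Qx n S (aa k (vx n S) 0 j) = aa (k + 1) (vx n S) 0 j := by
  rw [der_aa, Qx_x, map_zero]; ring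

theorem Qr_aa (i : Fin n) (k j : ℕ) : Qr S i (aa k (vx n S) 0 j) = 0 := by
  rw [der_aa, Qr_x, map_zero]; ring

theorem Qr_gx (i : Fin n) : Qr S i (gx n S) = aa 1 (vx n S) 0 i := by
  rw [gx, map_sum, Finset.sum_eq_single i]
  · rw [Derivation.leibniz, Qr_aa, Qr_q, if_pos rfl]; simp
  · intro j _ hj
    rw [Derivation.leibniz, Qr_aa, Qr_q, if_neg (Ne.symm hj)]; simp
  · intro h; exact absurd (Finset.mem_univ _) h

theorem Q_comm_x (i : Fin n) (a : PA n S) : Qx n S (Qr S i a) = Qr S i (Qx n S a) := by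
  refine comm_of_gens (Sx n S) (Sr S i) ?_ a
  rintro (_ | _ | j)
  · change Qx n S (Qr S i (vx n S)) = Qr S i (Qx n S (vx n S))
    rw [Qr_x, Qx_x, map_zero, Derivation.map_one_eq_zero]
  · change Qx n S (Qr S i (vr n S)) = Qr S i (Qx n S (vr n S))
    rw [Qr_r, Qx_r, Derivation.leibniz, Derivation.leibniz, Qx_r, Qr_r, Qx_aa, Qr_gx]
    simp only [smul_eq_mul]; ring
  · change Qx n S (Qr S i (vq S j)) = Qr S i (Qx n S (vq S j))
    rw [Qr_q, Qx_q, map_zero]
    split_ifs <;> simp

theorem Q_comm_r (i l : Fin n) (a : PA n S) : Qr S i (Qr S l a) = Qr S l (Qr S i a) := by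
  refine comm_of_gens (Sr S i) (Sr S l) ?_ a
  rintro (_ | _ | j)
  · change Qr S i (Qr S l (vx n S)) = Qr S l (Qr S i (vx n S))
    rw [Qr_x, Qr_x, map_zero, map_zero]
  · change Qr S i (Qr S l (vr n S)) = Qr S l (Qr S i (vr n S))
    rw [Qr_r, Qr_r, Derivation.leibniz, Derivation.leibniz, Qr_r, Qr_r, Qr_aa, Qr_aa]
    simp only [smul_eq_mul]; ring
  · change Qr S i (Qr S l (vq S j)) = Qr S l (Qr S i (vq S j))
    rw [Qr_q, Qr_q]
    split_ifs <;> simp

variable (n S) in
/-- the concrete potentials -/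
noncomputable def cP : Pot n (PA n S) where
  dx := Qx n S
  dr := Qr S
  comm_x := Q_comm_x
  comm_r := Q_comm_r
  x := vx n S
  rho := vq S
  dx_x := Qx_x
  dx_rho := Qx_q
  dr_x := Qr_x
  dr_rho := Qr_q
  r := vr n S
  dx_r := by
    rw [Qx_r, gx, map_sum]
    refine congrArg₂ (· * ·) rfl (sum_congr rfl fun j _ => ?_)
    rw [Derivation.leibniz, Qx_aa, Qx_q]; simp
  dr_r := fun i => by
    rw [Qr_r, map_sum, Finset.sum_eq_single i]
    · rw [Derivation.leibniz, Qr_aa, Qr_q, if_pos rfl]; simp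
    · intro j _ hj
      rw [Derivation.leibniz, Qr_aa, Qr_q, if_neg (Ne.symm hj)]; simp
    · intro h; exact absurd (Finset.mem_univ _) h

/-- values of the parity on variables -/
noncomputable def fpi : Vr n → PA n S
  | Vr.x => -vx n S
  | Vr.r => vr n S
  | Vr.rho j => (-1) ^ (j : ℕ) * vq S j

/-- values of the evaluation on variables -/
noncomputable def fev : Vr n → S
  | Vr.x => 0
  | Vr.r => 1
  | Vr.rho _ => 0

variable (n S) in
/-- the parity -/
noncomputable def cpi : PA n S →ₐ[S] PA n S := MvPolynomial.aeval fpi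

variable (n S) in
/-- the evaluation -/
noncomputable def cev : PA n S →ₐ[S] S := MvPolynomial.aeval fev

theorem cpi_x : cpi n S (vx n S) = -vx n S := MvPolynomial.aeval_X _ _
theorem cpi_r : cpi n S (vr n S) = vr n S := MvPolynomial.aeval_X _ _
theorem cpi_q (j : Fin n) : cpi n S (vq S j) = (-1) ^ (j : ℕ) * vq S j := MvPolynomial.aeval_X _ _
theorem cpi_C (a : S) : cpi n S (MvPolynomial.C a) = MvPolynomial.C a := (cpi n S).commutes a
theorem cev_x : cev n S (vx n S) = 0 := MvPolynomial.aeval_X _ _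
theorem cev_r : cev n S (vr n S) = 1 := MvPolynomial.aeval_X _ _
theorem cev_q (j : Fin n) : cev n S (vq S j) = 0 := MvPolynomial.aeval_X _ _
theorem cev_C (a : S) : cev n S (MvPolynomial.C a) = a := (cev n S).commutes a

theorem twist (D E : Derivation S (PA n S) (PA n S)) (g : PA n S →ₐ[S] PA n S) (c : PA n S)
    (h : ∀ v, g (D (MvPolynomial.X v)) = c * E (g (MvPolynomial.X v))) (a : PA n S) :
    g (D a) = c * E (g a) := by
  induction a using MvPolynomial.induction_on with
  | C s =>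
    have h1 : g (MvPolynomial.C s) = MvPolynomial.C s := g.commutes s
    rw [MvPolynomial.derivation_C, map_zero, h1, MvPolynomial.derivation_C, mul_zero]
  | add p q hp hq => rw [map_add, map_add, hp, hq, map_add, map_add, mul_add]
  | mul_X p v hp =>
    rw [D.leibniz, map_mul, E.leibniz]
    simp only [smul_eq_mul, map_add, map_mul, hp, h]
    ring

theorem cpi_aa0 (j : ℕ) : cpi n S (aa 0 (vx n S) 0 j) = (-1) ^ j * aa 0 (vx n S) 0 j := by
  have := map_aa ((cpi n S : PA n S →ₐ[S] PA n S) : PA n S →+* PA n S) 0 (vx n S) 0 j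
  rw [RingHom.coe_coe] at this
  rw [this, cpi_x, map_zero, aa_at_zero, aa_at_zero, neg_pow]
  ring

theorem cpi_aa1 (j : ℕ) : cpi n S (aa 1 (vx n S) 0 j) = -((-1) ^ j * aa 1 (vx n S) 0 j) := by
  rcases j with _ | j
  · rw [aa_succ_zero, map_zero]; simp
  · rw [aa_succ_succ, cpi_aa0, pow_succ]; ring

theorem cpi_gx : cpi n S (gx n S) = -gx n S := by
  rw [gx, map_sum, ← sum_neg_distrib]
  refine sum_congr rfl fun j _ => ?_
  rw [map_mul, cpi_q, cpi_aa1]
  have h3 : ((-1 : PA n S)) ^ (j : ℕ) * (-1) ^ (j : ℕ) = 1 := by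
    rw [← mul_pow]; simp
  linear_combination (-(vq S j * aa 1 (vx n S) 0 j)) * h3

theorem cpi_dx (a : PA n S) : cpi n S (Qx n S a) = -Qx n S (cpi n S a) := by
  have := twist (Sx n S) (Sx n S) (cpi n S) (-1) ?_ a
  · rw [neg_one_mul] at this; exact this
  · rintro (_ | _ | j)
    · change cpi n S (Qx n S (vx n S)) = -1 * Qx n S (cpi n S (vx n S))
      rw [Qx_x, cpi_x, map_neg, Qx_x, map_one]; ring
    · change cpi n S (Qx n S (vr n S)) = -1 * Qx n S (cpi n S (vr n S))
      rw [Qx_r, cpi_r, Qx_r, map_mul, cpi_r, cpi_gx]; ring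
    · change cpi n S (Qx n S (vq S j)) = -1 * Qx n S (cpi n S (vq S j))
      rw [Qx_q, cpi_q, map_zero]
      have : Qx n S ((-1) ^ (j : ℕ) * vq S j) = 0 := by
        rw [Derivation.leibniz, Derivation.leibniz_pow, Qx_q]; simp
      rw [this, mul_zero]

theorem cpi_dr (i : Fin n) (a : PA n S) :
    cpi n S (Qr S i a) = (-1) ^ (i : ℕ) * Qr S i (cpi n S a) := by
  have h3 : ((-1 : PA n S)) ^ (i : ℕ) * (-1) ^ (i : ℕ) = 1 := by
    rw [← mul_pow]; simp
  refine twist (Sr S i) (Sr S i) (cpi n S) ((-1) ^ (i : ℕ)) ?_ a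
  rintro (_ | _ | j)
  · change cpi n S (Qr S i (vx n S)) = _ * Qr S i (cpi n S (vx n S))
    rw [Qr_x, cpi_x, map_neg, Qr_x, map_zero]; simp
  · change cpi n S (Qr S i (vr n S)) = _ * Qr S i (cpi n S (vr n S))
    rw [Qr_r, cpi_r, Qr_r, map_mul, cpi_r, cpi_aa0]; ring
  · change cpi n S (Qr S i (vq S j)) = _ * Qr S i (cpi n S (vq S j))
    rw [Qr_q, cpi_q, Derivation.leibniz, Derivation.leibniz_pow, Qr_q]
    simp only [map_neg, Derivation.map_one_eq_zero, smul_eq_mul, neg_zero, smul_zero, mul_zero,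
      add_zero]
    split_ifs with h
    · subst h
      rw [map_one, mul_one, h3]
    · rw [map_zero]; simp

theorem cev_cpi (a : PA n S) : cev n S (cpi n S a) = cev n S a := by
  have : (cev n S).comp (cpi n S) = cev n S := by
    refine MvPolynomial.algHom_ext ?_
    rintro (_ | _ | j)
    · change cev n S (cpi n S (vx n S)) = cev n S (vx n S)
      rw [cpi_x, map_neg, cev_x, neg_zero]
    · change cev n S (cpi n S (vr n S)) = cev n S (vr n S)
      rw [cpi_r]
    · change cev n S (cpi n S (vq S j)) = cev n S (vq S j)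
      rw [cpi_q, map_mul, cev_q, mul_zero]
  exact congrArg (fun f : PA n S →ₐ[S] S => f a) this

variable (κ : ℕ → S)

/-- constant couplings -/
noncomputable def ck (m : ℕ) : PA n S := MvPolynomial.C (κ m)

theorem ck_dr (j : Fin n) (m : ℕ) : (cP n S).dr j (ck κ m) = 0 := Qr_C _ _

variable {κ}

theorem ck_even (hκ : EvenSeq n κ) : EvenSeq n (ck (n := n) κ) where
  zero := by rw [ck, hκ.zero, map_zero]
  odd := fun m hm => by rw [ck, hκ.odd m hm, map_zero]
  big := fun m hm => by rw [ck, hκ.big m hm, map_zero]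

/-- the concrete model -/
noncomputable def cM (hκ : EvenSeq n κ) : Model n (PA n S) S :=
  (cP n S).model (ck κ) (ck_dr κ) (ck_even hκ)
    ((cpi n S : PA n S →ₐ[S] PA n S) : PA n S →+* PA n S)
    ((cev n S : PA n S →ₐ[S] S) : PA n S →+* S) cpi_x cpi_q cpi_r (fun _ => cpi_C _) cpi_dx cpi_dr
    cev_cpi cev_x cev_q cev_r

theorem cM_kb (hκ : EvenSeq n κ) (m : ℕ) : (cM hκ).kb m = κ m := cev_C _

/-- evaluation on `h`-series -/
noncomputable def eH : (PA n S)⟦X⟧ →+* S⟦X⟧ :=
  PowerSeries.map ((cev n S : PA n S →ₐ[S] S) : PA n S →+* S)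

/-- evaluation on all series -/
noncomputable def eHH : (PA n S)⟦X⟧⟦X⟧⟦X⟧ →+* S⟦X⟧⟦X⟧⟦X⟧ := PowerSeries.map (PowerSeries.map eH)

theorem coeff_eHH (f : (PA n S)⟦X⟧⟦X⟧⟦X⟧) (p m : ℕ) :
    coeff m (coeff p (eHH f)) = eH (coeff m (coeff p f)) := by
  rw [eHH, coeff_map, coeff_map]

theorem cM_W [IsDomain S] (hκ : EvenSeq n κ) (p m : ℕ) : coeff m (coeff p (cM hκ).Wb)
    = coeff (2 * m) (coeff m (coeff p (eHH ((cP n S).LZ (ck κ))))) := by
  have hr : (cP n S).r ≠ 0 := MvPolynomial.X_ne_zero _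
  have h := (cP n S).extract (ck κ) (ck_dr κ) hr m p
  rw [coeff_eHH, eH, coeff_map, h]
  rw [Model.Wb, Model.evS, coeff_map, Model.evB, coeff_map]
  rfl

end conc

end MP4a
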