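import Pool.Agent.Lib.MP_4a2528_ag.Glue

/-!
The coupled solution at the origin: the closed system for `R`, `v`, `J`, `Q` and the formula for
the genus one part.
-/

set_option linter.unusedSectionVars false

namespace MP4a

open PowerSeries Matrix

namespace Model

variable {n : ℕ} {A S : Type*} [CommRing A] [Algebra ℚ A] [CommRing S] [Algebra ℚ S]
  (M : Model n A S)

/-- `z d/dz` on `S[[z]][[s]]` -/
noncomputable def EU {S : Type*} [CommRing S] [Algebra ℚ S] :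
    Derivation ℚ S⟦X⟧⟦X⟧ S⟦X⟧⟦X⟧ := liftD eu

theorem evS_EU (Y : A⟦X⟧⟦X⟧) : M.evS (liftD eu Y) = EU (M.evS Y) := by
  refine map_liftD M.evB eu eu (fun a => ?_) Y
  exact map_eu _ _

theorem evS_dX (Y : A⟦X⟧⟦X⟧) : M.evS (dX Y) = dX (M.evS Y) := map_dX _ _

theorem evS_CC (a : A) : M.evS (C (C a)) = C (C (M.ev a)) := by simp [evS, evB]

/-- transport -/
noncomputable def st (b : A⟦X⟧) : A⟦X⟧⟦X⟧ := M.hj.fl.star b

theorem chainEU (Y : A⟦X⟧) : liftD eu (M.hj.fl.star Y) = M.hj.fl.star (eu Y)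
    + X * ∑ j : Fin n, M.hj.fl.star (M.P.Dr j Y) * liftD eu (M.hj.V j) :=
  M.hj.fl.chain M.hj.TT_V eu (fun j b => (M.P.Dr_eu j b).symm) Y

theorem chainDr (i : Fin n) (Y : A⟦X⟧) : liftD (M.P.Dr i) (M.hj.fl.star Y)
    = M.hj.fl.star (M.P.Dr i Y)
    + X * ∑ j : Fin n, M.hj.fl.star (M.P.Dr j Y) * liftD (M.P.Dr i) (M.hj.V j) :=
  M.hj.fl.chain M.hj.TT_V (M.P.Dr i) (fun j b => M.P.Dr_Dr i j b) Y

/-- the evaluated quantities -/
noncomputable def Rb : S⟦X⟧⟦X⟧ := M.evS (M.hj.fl.star (Pot.RR M.F0))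
noncomputable def vb : S⟦X⟧⟦X⟧ := M.evS (M.hj.fl.star (M.P.vv M.F0))
noncomputable def Th : S⟦X⟧⟦X⟧ := M.evS (M.hj.fl.star (M.P.Dx (M.P.uu M.F0)))
noncomputable def Jb (j : Fin n) : S⟦X⟧⟦X⟧ := M.evS (M.hj.J j)
noncomputable def Qb : Matrix (Fin n) (Fin n) S⟦X⟧⟦X⟧ := M.hj.QM.map M.evS
noncomputable def Kb : Matrix (Fin n) (Fin n) S⟦X⟧⟦X⟧ := M.hj.KM.map M.evS
noncomputable def kb (m : ℕ) : S := M.ev (M.k m)
noncomputable def Vb (j : ℕ) : S⟦X⟧⟦X⟧ :=
  C (C (M.kb j)) + ∑ l : Fin n, C (C (aK M.kb j l)) * M.Jb l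
noncomputable def Wb : S⟦X⟧⟦X⟧ := M.evS M.W1

theorem ev_aK (i j : ℕ) : M.ev (aK M.k i j) = aK M.kb i j := by
  simp [aK, kb]

theorem ev_bK (i j : ℕ) : M.ev (bK M.k i j) = bK M.kb i j := by
  simp [bK, kb]

theorem evS_V (j : Fin n) : M.evS (M.hj.V j) = M.Vb j := by
  rw [HJ.V, Vb, map_add, map_sum]
  congr 1
  · exact M.evS_CC _
  · refine Finset.sum_congr rfl fun l _ => ?_
    rw [map_mul]
    change M.evS (C (C (aK M.k j l))) * _ = _
    rw [M.evS_CC, ev_aK]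
    rfl

theorem ev_uu : M.evS (M.hj.fl.star (M.P.uu M.F0)) = 0 := M.evS_odd M.piB_uu
theorem ev_DxRR : M.evS (M.hj.fl.star (M.P.Dx (Pot.RR M.F0))) = 0 := M.evS_odd M.piB_DxRR
theorem ev_Dxvv : M.evS (M.hj.fl.star (M.P.Dx (M.P.vv M.F0))) = 0 := M.evS_odd M.piB_Dxvv

/-- composition of transport and evaluation -/
noncomputable def evst : A⟦X⟧ →+* S⟦X⟧⟦X⟧ := M.evS.comp M.hj.fl.star

theorem evst_apply (b : A⟦X⟧) : M.evst b = M.evS (M.hj.fl.star b) := rfl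

theorem star_rho (j : Fin n) : M.hj.fl.star (C (M.P.rho j)) = C (C (M.P.rho j)) + X * M.hj.V j := by
  refine M.hj.fl.star_eq ?_ ?_
  · rw [map_add, Derivation.leibniz, M.hj.fl.TT_X, M.hj.TT_V, Flow.TT_apply]
    have e : ∑ i : Fin n, M.hj.fl.V i * M.hj.fl.L i (C (C (M.P.rho j))) = M.hj.V j := by
      rw [Finset.sum_eq_single j]
      · change M.hj.V j * liftD (M.P.Dr j) (C (C (M.P.rho j))) = _
        rw [liftD_C, M.P.Dr_Crho, if_pos rfl, map_one, mul_one]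
      · intro i _ hi
        change M.hj.V i * liftD (M.P.Dr i) (C (C (M.P.rho j))) = _
        rw [liftD_C, M.P.Dr_Crho, if_neg hi, map_zero, mul_zero]
      · intro h; exact absurd (Finset.mem_univ _) h
    rw [e, dX_C]
    simp
  · simp

theorem evst_rho (j : Fin n) : M.evst (C (M.P.rho j)) = X * M.Vb j := by
  rw [evst_apply, star_rho, map_add, map_mul, evS_V, M.evS_CC, M.ev_rho]
  simp [evS]

theorem evst_rhoN (j : ℕ) (hn : n ≤ j → M.Vb j = 0) : M.evst (C (M.P.rhoN j)) = X * M.Vb j := by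
  rw [Pot.rhoN]
  split_ifs with h
  · exact M.evst_rho ⟨j, h⟩
  · rw [map_zero, map_zero, hn (by omega), mul_zero]

theorem evst_x : M.evst (C M.P.x) = 0 := by
  have h : M.hj.fl.star (C M.P.x) = C (C M.P.x) :=
    M.hj.fl.star_const fun j => M.P.Dr_Cx j
  rw [evst_apply, h, M.evS_CC, M.ev_x, map_zero, map_zero]

theorem kb_even : EvenSeq n M.kb where
  zero := by rw [kb, M.k_even.zero, map_zero]
  odd := fun m hm => by rw [kb, M.k_even.odd m hm, map_zero]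
  big := fun m hm => by rw [kb, M.k_even.big m hm, map_zero]

theorem Vb_big (j : ℕ) (hj : n ≤ j) : M.Vb j = 0 := by
  rw [Vb, M.kb_even.big j hj, map_zero, map_zero, zero_add]
  refine Finset.sum_eq_zero fun l _ => ?_
  rw [aK, M.kb_even.big _ (by omega)]
  simp

/-- (h1) -/
theorem EU_Rb : EU M.Rb = M.Rb * (1 + EU M.vb) := by
  rw [Rb, vb, ← evS_EU, ← evS_EU, M.chainEU, M.chainEU]
  have e1 : eu (Pot.RR M.F0) = Pot.RR M.F0 * (1 + eu (M.P.vv M.F0)) := by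
    rw [Pot.eu_RR M.sol0, Pot.eu_vv]; ring
  have e2 : ∀ j : Fin n, M.P.Dr j (Pot.RR M.F0) = Pot.RR M.F0 * M.P.Dr j (M.P.vv M.F0) :=
    fun j => Pot.Dr_RR M.sol0 j
  simp only [e1, e2, map_mul, map_add, map_one]
  have e3 : ∑ j : Fin n, M.hj.fl.star (Pot.RR M.F0) * M.hj.fl.star (M.P.Dr j (M.P.vv M.F0))
        * liftD eu (M.hj.V j)
      = M.hj.fl.star (Pot.RR M.F0) * ∑ j : Fin n, M.hj.fl.star (M.P.Dr j (M.P.vv M.F0))
        * liftD eu (M.hj.V j) := by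
    rw [Finset.mul_sum]; exact Finset.sum_congr rfl fun j _ => by ring
  rw [e3, map_mul]
  ring

/-- (h2) -/
theorem vb_eq : M.vb = ∑ j : Fin n, X * M.Vb j * aa 0 0 M.Rb j := by
  have h := congrArg M.evst (Pot.hodograph M.sol0).2
  rw [map_sum] at h
  rw [vb, ← evst_apply, h]
  refine Finset.sum_congr rfl fun j _ => ?_
  rw [map_mul, evst_rho, map_aa, evst_apply, ev_uu]
  rfl

/-- (h3) -/
theorem Th_eq : M.Th = 1 + ∑ j : Fin n, X * M.Vb j * (M.Th * (M.Rb * cc 2 0 M.Rb j)) := by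
  have h := congrArg M.evst (Pot.Dx_uu_eq M.sol0)
  rw [map_add, map_one, map_sum] at h
  have e : M.Th = M.evst (M.P.Dx (M.P.uu M.F0)) := rfl
  rw [e, h]
  congr 1
  refine Finset.sum_congr rfl fun j _ => ?_
  rw [map_mul, evst_rho, map_add, map_mul, map_mul, map_mul, map_cc, map_aa]
  have e1 : M.evst (M.P.Dx (Pot.RR M.F0)) = 0 := M.ev_DxRR
  have e2 : M.evst (M.P.uu M.F0) = 0 := M.ev_uu
  rw [e1, e2, zero_mul, add_zero, ← h]
  rfl

/-- (h4) -/
theorem EU_Jb (j : Fin n) : EU (M.Jb j) = M.Rb * cc 0 0 M.Rb j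
    + X * ∑ i : Fin n, M.Qb i j * ∑ l : Fin n, C (C (aK M.kb i l)) * EU (M.Jb l) := by
  rw [Jb, ← evS_EU]
  conv_lhs => rw [M.hj.J_eq]
  rw [M.hj_coeff0]
  change M.evS (liftD eu (M.hj.fl.star (M.P.Dr j M.F0))) = _
  rw [M.chainEU, map_add, map_mul, map_sum]
  congr 1
  · rw [← evst_apply, (Pot.first_der M.sol0 j).1, map_mul, map_cc]
    have e2 : M.evst (M.P.uu M.F0) = 0 := M.ev_uu
    rw [e2]; rfl
  · have hX : M.evS X = X := by simp [evS]
    rw [hX]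
    congr 1
    refine Finset.sum_congr rfl fun i _ => ?_
    rw [map_mul]
    have e3 : M.evS (M.hj.fl.star (M.P.Dr i (M.P.Dr j M.F0))) = M.Qb i j := by
      rw [Qb, Matrix.map_apply, HJ.QM, Matrix.of_apply, M.hj_coeff0]
      rfl
    rw [e3]
    congr 1
    have e4 : liftD eu (M.hj.V i) = ∑ l, C (M.hj.A0 i l) * liftD eu (M.hj.J l) :=
      M.hj.L_V eu (fun j => by change eu (C _) = 0; simp) (fun i j => by change eu (C _) = 0; simp) i
    rw [e4, map_sum]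
    refine Finset.sum_congr rfl fun l _ => ?_
    rw [map_mul, evS_EU]
    change M.evS (C (C (aK M.k i l))) * _ = _
    rw [M.evS_CC, ev_aK]
    rfl

/-- (h5) -/
theorem EU_Qb (i j : Fin n) : EU (M.Qb i j) = alph 0 M.Rb i j * EU M.Rb := by
  have e3 : M.Qb i j = M.evS (M.hj.fl.star (M.P.Dr i (M.P.Dr j M.F0))) := by
    rw [Qb, Matrix.map_apply, HJ.QM, Matrix.of_apply, M.hj_coeff0]
    rfl
  have key : liftD eu (M.hj.fl.star (M.P.Dr i (M.P.Dr j M.F0)))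
      = M.hj.fl.star (alph (M.P.uu M.F0) (Pot.RR M.F0) i j) * liftD eu (M.hj.fl.star (Pot.RR M.F0))
      + M.hj.fl.star (bet (M.P.uu M.F0) (Pot.RR M.F0) i j)
        * liftD eu (M.hj.fl.star (M.P.uu M.F0)) := by
    rw [M.chainEU, M.chainEU, M.chainEU, Pot.second_der_eu M.sol0]
    simp only [Pot.second_der_Dr M.sol0, map_add, map_mul, add_mul, Finset.sum_add_distrib,
      mul_add, Finset.mul_sum]
    have c1 : ∀ a : A⟦X⟧⟦X⟧, ∀ f : Fin n → A⟦X⟧⟦X⟧, ∀ g : Fin n → A⟦X⟧⟦X⟧,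
        ∑ l, X * (a * f l * g l) = ∑ l, a * (X * (f l * g l)) := fun a f g =>
      Finset.sum_congr rfl fun l _ => by ring
    rw [c1, c1]
    ring
  rw [e3, ← evS_EU, key, map_add, map_mul, map_mul, evS_EU, evS_EU, ev_uu, map_zero, mul_zero,
    add_zero, ← evst_apply, map_alph]
  have e2 : M.evst (M.P.uu M.F0) = 0 := M.ev_uu
  rw [e2]
  rfl

theorem chain_unit {d e : A⟦X⟧} (h1 : d * eu e = eu d)
    (h2 : ∀ j, d * M.P.Dr j e = M.P.Dr j d) :
    M.hj.fl.star d * liftD eu (M.hj.fl.star e) = liftD eu (M.hj.fl.star d) := by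
  rw [M.chainEU, M.chainEU, ← h1, map_mul, mul_add]
  congr 1
  rw [← mul_assoc, mul_comm _ X, mul_assoc, Finset.mul_sum]
  congr 1
  refine Finset.sum_congr rfl fun j _ => ?_
  rw [← h2, map_mul]; ring

/-- evaluation of the discriminant equation -/
theorem EU_Phi : M.Th ^ 2 * EU (M.evst (Pot.Phi M.P M.F0 M.F1)) = EU (M.Th ^ 2) := by
  have h := M.chain_unit (d := Pot.Dis M.P M.F0) (e := Pot.Phi M.P M.F0 M.F1)
    (Pot.Phi_eu M.sol0 M.sol1) (fun j => Pot.Phi_D M.sol0 M.sol1 (M.P.dr j))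
  have hD : M.evst (Pot.Dis M.P M.F0) = M.Th ^ 2 := by
    rw [Pot.Dis, map_sub, map_mul, map_pow, map_pow]
    have e1 : M.evst (M.P.Dx (M.P.vv M.F0)) = 0 := M.ev_Dxvv
    rw [e1]
    simp [Th, evst_apply]
  have h2 := congrArg M.evS h
  rw [map_mul, evS_EU, evS_EU, ← evst_apply, ← evst_apply, hD] at h2
  exact h2

/-- evaluated matrix of constants -/
noncomputable def Ab : Matrix (Fin n) (Fin n) S⟦X⟧⟦X⟧ := Matrix.of fun i j => C (C (aK M.kb i j))

noncomputable def Nb : Matrix (Fin n) (Fin n) S⟦X⟧⟦X⟧ := M.hj.NM.map M.evS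

theorem AM_map : M.hj.AM.map M.evS = M.Ab := by
  ext1 i j
  rw [Matrix.map_apply, HJ.AM, Matrix.of_apply, Ab, Matrix.of_apply, ← ev_aK, ← M.evS_CC]
  rfl

theorem evS_X : M.evS X = X := by simp [evS]

theorem Nb_mul : M.Nb * (1 - (X : S⟦X⟧⟦X⟧) • (M.Qb * M.Ab)) = 1 := by
  have h := congrArg (fun N : Matrix (Fin n) (Fin n) A⟦X⟧⟦X⟧ => N.map M.evS) M.hj.NM_mul
  simp only [Matrix.map_mul] at h
  rw [Matrix.map_one _ (map_zero _) (map_one _)] at h
  have e : (1 - (X : A⟦X⟧⟦X⟧) • (M.hj.QM * M.hj.AM)).map M.evS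
      = 1 - (X : S⟦X⟧⟦X⟧) • (M.Qb * M.Ab) := by
    rw [← AM_map, Qb, ← Matrix.map_mul]
    ext1 i j
    simp only [Matrix.map_apply, Matrix.sub_apply, Matrix.smul_apply, smul_eq_mul, map_sub,
      map_mul, evS_X]
    congr 1
    rw [Matrix.one_apply, Matrix.one_apply]
    split_ifs <;> simp
  rw [e] at h
  exact h

theorem Kb_eq : M.Kb = M.Ab * M.Nb := by
  rw [Kb, M.hj.KM_eq, Matrix.map_mul, AM_map]; rfl

theorem Qb_symm : M.Qbᵀ = M.Qb := by
  ext1 i j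
  have h := congrFun (congrFun M.hj.QM_symm i) j
  rw [Matrix.transpose_apply] at h
  rw [Matrix.transpose_apply, Qb, Matrix.map_apply, Matrix.map_apply, h]

/-- the quadratic term -/
noncomputable def Sb : S⟦X⟧⟦X⟧ := ∑ j : Fin n, ∑ l : Fin n, C (C (bK M.kb j l)) * (M.Jb j * M.Jb l)

theorem evS_S1 : M.evS M.hj.S1 = M.Sb := by
  rw [HJ.S1, Sb, map_sum]
  refine Finset.sum_congr rfl fun j _ => ?_
  rw [map_sum]
  refine Finset.sum_congr rfl fun l _ => ?_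
  rw [map_mul, map_mul]
  change M.evS (C (C (bK M.k j l))) * _ = _
  rw [M.evS_CC, ev_bK]
  rfl

theorem evst_rx : M.evst (C M.P.rx) = X * M.Vb 0 := by
  have e : (C M.P.rx : A⟦X⟧) = ∑ j : Fin n, C (M.P.rho j) * aa 0 (C M.P.x) 0 j := by
    rw [Pot.rx, map_sum]
    refine Finset.sum_congr rfl fun j _ => ?_
    rw [map_mul, map_aa]; simp
  rw [e, map_sum]
  have e2 : ∀ j : Fin n, M.evst (C (M.P.rho j) * aa 0 (C M.P.x) 0 j)
      = if (j : ℕ) = 0 then X * M.Vb 0 else 0 := by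
    intro j
    rw [map_mul, evst_rho, map_aa, evst_x, map_zero, aa_at_zero]
    split_ifs with h
    · rw [h]; simp
    · rw [zero_pow h, mul_zero, mul_zero]
  rw [Finset.sum_congr rfl fun j _ => e2 j]
  rcases Nat.eq_zero_or_pos n with hn | hn
  · subst hn
    rw [M.Vb_big 0 le_rfl]; simp
  · rw [Finset.sum_eq_single (⟨0, hn⟩ : Fin n)]
    · simp
    · intro j _ hj
      rw [if_neg]
      intro h; exact hj (Fin.ext h)
    · intro h; exact absurd (Finset.mem_univ _) h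

theorem twelve_bK (j l : ℕ) : (12 : S⟦X⟧⟦X⟧) * C (C (bK M.kb j l)) = C (C (aK M.kb (j + 2) l)) := by
  have h12 : (12 : S⟦X⟧⟦X⟧) = C (C (algebraMap ℚ S 12)) :=
    (map_ofNat ((C (R := S⟦X⟧)).comp ((C (R := S)).comp (algebraMap ℚ S))) 12).symm
  rw [h12, ← map_mul, ← map_mul, bK, aK, ← mul_assoc, ← map_mul]
  norm_num
  rw [show j + 2 + l + 2 = j + l + 4 by ring]

theorem sum_V_J : ∑ j : Fin n, M.Vb (j + 2) * M.Jb j = M.Vb 0 + 12 * M.Sb := by
  have e1 : ∀ j : Fin n, M.Vb (j + 2) * M.Jb j = C (C (aK M.kb 0 j)) * M.Jb j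
      + ∑ l : Fin n, 12 * (C (C (bK M.kb j l)) * (M.Jb j * M.Jb l)) := by
    intro j
    rw [Vb, add_mul, Finset.sum_mul]
    congr 1
    · congr 3
      have h := M.kb_even.neg_one_mul (j + 2)
      rw [pow_add] at h
      rw [aK, zero_add]
      linear_combination -h
    · refine Finset.sum_congr rfl fun l _ => ?_
      rw [← M.twelve_bK]; ring
  rw [Finset.sum_congr rfl fun j _ => e1 j, Finset.sum_add_distrib, Vb, M.kb_even.zero, map_zero,
    map_zero, zero_add, Sb, Finset.mul_sum]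
  congr 1
  exact Finset.sum_congr rfl fun j _ => by rw [Finset.mul_sum]

theorem evst_F1 : 24 * M.evst M.F1 = M.evst (Pot.Phi M.P M.F0 M.F1) - M.vb - 12 * (X * M.Sb) := by
  have h1 : M.evst (Pot.Phi M.P M.F0 M.F1) = 24 * M.evst M.F1 + M.evst (M.P.Dx (M.P.Dx M.F0))
      + M.evst (Pot.TT2 M.P M.F0) := by
    rw [Pot.Phi, map_add, map_add, map_mul]
    congr 3
    exact map_ofNat _ 24
  have h2 : M.vb = M.evst (C M.P.rx) + M.evst (M.P.Dx (M.P.Dx M.F0)) := by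
    rw [← map_add]; rfl
  have h3 : M.evst (Pot.TT2 M.P M.F0) = X * (M.Vb 0 + 12 * M.Sb) := by
    rw [Pot.TT2, map_sum, ← sum_V_J, Finset.mul_sum]
    refine Finset.sum_congr rfl fun j _ => ?_
    rw [map_mul, M.evst_rhoN _ (M.Vb_big _)]
    have : M.evst (M.P.Dr j M.F0) = M.Jb j := by
      rw [Jb, M.hj.J_eq, M.hj_coeff0]; rfl
    rw [this]; ring
  rw [h1, h3, h2, evst_rx]
  ring

/-- (h6) -/
theorem EU_Wb : 24 * EU M.Wb = EU (M.evst (Pot.Phi M.P M.F0 M.F1)) - EU M.vb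
    + 12 * (X * (M.Kb * dM EU M.Qb).trace) := by
  have h := M.hj.one_loop eu (fun j b => (M.P.Dr_eu j b).symm)
    (fun i j => by change eu (C _) = 0; simp)
  have h2 := congrArg M.evS h
  have hh : M.evS (algebraMap ℚ _ (1 / 2)) = algebraMap ℚ _ (1 / 2) := by
    rw [RingHom.map_rat_algebraMap]
  have e1 : M.evS ((M.hj.KM * dM (liftD eu) M.hj.QM).trace) = (M.Kb * dM EU M.Qb).trace := by
    simp only [Matrix.trace, Matrix.diag, Matrix.mul_apply, map_sum, map_mul]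
    refine Finset.sum_congr rfl fun i _ => Finset.sum_congr rfl fun j _ => ?_
    rw [dM_apply, dM_apply, evS_EU]
    rfl
  rw [map_add, map_add, map_mul, map_mul, map_mul, map_mul, evS_X, evS_EU, evS_EU, evS_EU, hh,
    evS_S1, e1, M.hj_coeff1] at h2
  have h3 : M.evS M.hj.W1 = M.Wb := rfl
  rw [h3, ← evst_apply] at h2
  have n24 : ∀ f : S⟦X⟧⟦X⟧, EU (24 * f) = 24 * EU f := by
    intro f
    have h' : ∀ f : S⟦X⟧⟦X⟧, (24 : S⟦X⟧⟦X⟧) * f = (24 : ℚ) • f := fun f => by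
      rw [Algebra.smul_def, map_ofNat (algebraMap ℚ S⟦X⟧⟦X⟧) 24]
    rw [h', h', Derivation.map_smul]
  have n12 : ∀ f : S⟦X⟧⟦X⟧, EU (12 * (X * f)) = 12 * (X * EU f) := by
    intro f
    have h' : ∀ f : S⟦X⟧⟦X⟧, (12 : S⟦X⟧⟦X⟧) * f = (12 : ℚ) • f := fun f => by
      rw [Algebra.smul_def, map_ofNat (algebraMap ℚ S⟦X⟧⟦X⟧) 12]
    rw [h', h', Derivation.map_smul, Derivation.leibniz]
    have : EU (X : S⟦X⟧⟦X⟧) = 0 := by rw [EU, liftD_X]
    rw [this]; simp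
  have h4 := congrArg EU M.evst_F1
  rw [n24, map_sub, map_sub, n12] at h4
  have h5 : (24 : S⟦X⟧⟦X⟧) * algebraMap ℚ _ (1 / 2) = 12 := by
    have e24 : (24 : S⟦X⟧⟦X⟧) = algebraMap ℚ _ 24 := (map_ofNat (algebraMap ℚ _) 24).symm
    rw [e24, ← map_mul]
    norm_num
    exact map_ofNat (algebraMap ℚ _) 12
  rw [h2]
  linear_combination h4 + (X * EU M.Sb + X * (M.Kb * dM EU M.Qb).trace) * h5

theorem dX_Rb : dX M.Rb = M.Rb * dX M.vb := by
  rw [Rb, vb, ← evS_dX, ← evS_dX, ← map_mul]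
  congr 1
  have h1 := M.hj.fl.TT_star (Pot.RR M.F0)
  have h2 := M.hj.fl.TT_star (M.P.vv M.F0)
  rw [Flow.TT_apply, sub_eq_zero] at h1 h2
  rw [h1, h2, Finset.mul_sum]
  refine Finset.sum_congr rfl fun i _ => ?_
  have c1 := M.chainDr i (Pot.RR M.F0)
  have c2 := M.chainDr i (M.P.vv M.F0)
  have e2 : ∀ j : Fin n, M.P.Dr j (Pot.RR M.F0) = Pot.RR M.F0 * M.P.Dr j (M.P.vv M.F0) :=
    fun j => Pot.Dr_RR M.sol0 j
  simp only [e2, map_mul] at c1
  have e3 : ∑ j : Fin n, M.hj.fl.star (Pot.RR M.F0) * M.hj.fl.star (M.P.Dr j (M.P.vv M.F0))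
        * liftD (M.P.Dr i) (M.hj.V j)
      = M.hj.fl.star (Pot.RR M.F0) * ∑ j : Fin n, M.hj.fl.star (M.P.Dr j (M.P.vv M.F0))
        * liftD (M.P.Dr i) (M.hj.V j) := by
    rw [Finset.mul_sum]; exact Finset.sum_congr rfl fun j _ => by ring
  rw [e3] at c1
  change M.hj.fl.V i * liftD (M.P.Dr i) (M.hj.fl.star (Pot.RR M.F0)) = M.hj.fl.star (Pot.RR M.F0)
    * (M.hj.fl.V i * liftD (M.P.Dr i) (M.hj.fl.star (M.P.vv M.F0)))
  rw [c1, c2]
  ring

/-- elements without constant coefficient in `z` keep this property -/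
theorem evst_cc {b : A⟦X⟧} (hb : constantCoeff b = 0) :
    PowerSeries.map (constantCoeff (R := S)) (M.evst b) = 0 := by
  obtain ⟨b', rfl⟩ : X ∣ b := X_dvd_iff.2 hb
  have h : M.hj.fl.star (X : A⟦X⟧) = C X := by
    refine M.hj.fl.star_const fun j => ?_
    change liftD (M.P.dr j) X = 0
    rw [liftD_X]
  rw [map_mul, map_mul]
  have h2 : M.evst X = C X := by
    rw [evst_apply, h]; simp [evS, evB]
  rw [h2]
  simp

end Model

/-! ### swapping the two variables -/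

/-- exchange of the two variables -/
noncomputable def swapS {S : Type*} [CommRing S] : S⟦X⟧⟦X⟧ →+* S⟦X⟧⟦X⟧ where
  toFun f := PowerSeries.mk fun a => PowerSeries.mk fun b => coeff a (coeff b f)
  map_one' := by
    ext a b
    simp only [coeff_mk, coeff_one]
    by_cases ha : a = 0 <;> by_cases hb : b = 0 <;> simp [ha, hb, coeff_one]
  map_zero' := by ext a b; simp
  map_add' f g := by ext a b; simp
  map_mul' f g := by
    ext a b
    simp only [coeff_mk, coeff_mul, map_sum]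
    rw [Finset.sum_comm]

@[simp] theorem coeff_swapS {S : Type*} [CommRing S] (f : S⟦X⟧⟦X⟧) (a b : ℕ) :
    coeff b (coeff a (swapS f)) = coeff a (coeff b f) := by
  simp [swapS]

theorem swapS_EU {S : Type*} [CommRing S] [Algebra ℚ S] (f : S⟦X⟧⟦X⟧) :
    swapS (Model.EU f) = eu (swapS f) := by
  ext a b
  have : ((a : ℕ) : S⟦X⟧) = C (a : S) := by simp
  rw [coeff_swapS, Model.EU, coeff_liftD, coeff_eu, coeff_eu, this, coeff_C_mul, coeff_swapS]

theorem swapS_dX {S : Type*} [CommRing S] [Algebra ℚ S] (f : S⟦X⟧⟦X⟧) :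
    swapS (dX f) = liftD dX (swapS f) := by
  ext a b
  have e : ∀ g : S⟦X⟧, coeff a (g * ((b : S⟦X⟧) + 1)) = coeff a g * ((b : S) + 1) := by
    intro g
    have : ((b : S⟦X⟧) + 1) = C ((b : S) + 1) := by simp
    rw [this, coeff_mul_C]
  rw [coeff_swapS, coeff_dX, coeff_liftD, coeff_dX, coeff_swapS, e]

theorem swapS_CC {S : Type*} [CommRing S] (a : S) : swapS (C (C a)) = C (C a) := by
  ext i j
  rw [coeff_swapS]
  simp only [coeff_C]
  by_cases hi : i = 0 <;> by_cases hj : j = 0 <;> simp [hi, hj, coeff_C]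

theorem swapS_X {S : Type*} [CommRing S] : swapS (X : S⟦X⟧⟦X⟧) = C X := by
  ext i j
  rw [coeff_swapS]
  simp only [coeff_C, coeff_X]
  by_cases hi : i = 0 <;> by_cases hj : j = 1 <;> simp [hi, hj, coeff_X, coeff_one]

end MP4a
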