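import Pool.Agent.Lib.MP_4a2528_ag.Exact
import Pool.Agent.Lib.MP_4a2528_ag.StatD

/-!
The coupled sum over Young diagrams, its logarithm, and its genus expansion.
-/

set_option linter.unusedSectionVars false

namespace MP4a

open PowerSeries Finset

section general
variable {R : Type*} [CommRing R] [Algebra ℚ R]

theorem swapS_swapS (f : R⟦X⟧⟦X⟧) : swapS (swapS f) = f := by
  ext a b; rw [coeff_swapS, coeff_swapS]

/-- constant coefficient in the inner variable -/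
noncomputable def cci : R⟦X⟧⟦X⟧ →+* R⟦X⟧ := PowerSeries.map (constantCoeff (R := R))

theorem cci_swapS (f : R⟦X⟧⟦X⟧) : cci (swapS f) = constantCoeff f := by
  ext b
  rw [cci, coeff_map, ← coeff_zero_eq_constantCoeff_apply, coeff_swapS,
    coeff_zero_eq_constantCoeff_apply]

theorem cc_swapS (f : R⟦X⟧⟦X⟧) : constantCoeff (swapS f) = cci f := by
  rw [← cci_swapS, swapS_swapS]

theorem EU_swapS (f : R⟦X⟧⟦X⟧) : Model.EU (swapS f) = swapS (eu f) := by
  rw [← swapS_swapS (Model.EU (swapS f)), swapS_EU, swapS_swapS]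

theorem exists_log2 (Z : R⟦X⟧⟦X⟧) (h : cci Z = 1) :
    ∃ L : R⟦X⟧⟦X⟧, cci L = 0 ∧ Model.EU L * Z = Model.EU Z := by
  obtain ⟨L, h0, h1⟩ := exists_log (swapS Z) (by rw [cc_swapS, h])
  refine ⟨swapS L, by rw [cci_swapS, h0], ?_⟩
  have := congrArg swapS h1
  rw [map_mul, swapS_swapS, ← EU_swapS, ← EU_swapS, swapS_swapS] at this
  exact this

theorem eq_zero_of_EU {Y : R⟦X⟧⟦X⟧} (h : Model.EU Y = 0) (h0 : cci Y = 0) : Y = 0 := by
  have h1 : swapS Y = 0 := by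
    refine eq_zero_of_eu ?_ ?_
    · rw [← swapS_EU, h, map_zero]
    · rw [coeff_zero_eq_constantCoeff_apply, cc_swapS, h0]
  rw [← swapS_swapS Y, h1, map_zero]

theorem isUnit_of_cci {Z : R⟦X⟧⟦X⟧} (h : cci Z = 1) : IsUnit Z := by
  have : IsUnit (swapS Z) := by
    rw [PowerSeries.isUnit_iff_constantCoeff, cc_swapS, h]; exact isUnit_one
  have := this.map swapS
  rwa [swapS_swapS] at this

/-- derivations of the logarithm -/
theorem log_der {Z L : R⟦X⟧⟦X⟧} (hZ : cci Z = 1) (hL : cci L = 0)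
    (h : Model.EU L * Z = Model.EU Z) (E : Derivation ℚ R⟦X⟧⟦X⟧ R⟦X⟧⟦X⟧)
    (hE : ∀ f, E (Model.EU f) = Model.EU (E f)) (hc : ∀ f, cci f = 0 → cci (E f) = 0) :
    E L * Z = E Z := by
  obtain ⟨Zi, hi⟩ := (isUnit_of_cci hZ).exists_right_inv
  have h1 : Model.EU L = Model.EU Z * Zi := by
    linear_combination Zi * h - Model.EU L * hi
  have key : E L - E Z * Zi = 0 := by
    refine eq_zero_of_EU ?_ ?_
    · rw [map_sub, ← hE, h1, Derivation.leibniz, Derivation.leibniz, Pot.der_inv E hi,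
        Pot.der_inv Model.EU hi, hE]
      simp only [smul_eq_mul]
      ring
    · have h2 : cci (E Z) = 0 := by
        have : cci (E (Z - 1)) = 0 := hc _ (by rw [map_sub, hZ, map_one, sub_self])
        rwa [map_sub, Derivation.map_one_eq_zero, sub_zero] at this
      rw [map_sub, map_mul, h2, hc L hL]; ring
  have : E L = E Z * Zi := sub_eq_zero.1 key
  rw [this]
  linear_combination E Z * hi

theorem cci_dX {f : R⟦X⟧⟦X⟧} (h : cci f = 0) : cci (dX f) = 0 := by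
  rw [cci, map_dX]
  change dX (cci f) = 0
  rw [h, map_zero]

theorem cci_liftD (D : Derivation ℚ R R) {f : R⟦X⟧⟦X⟧} (h : cci f = 0) :
    cci (liftD (liftD D) f) = 0 := by
  rw [cci, map_liftD (constantCoeff (R := R)) (liftD D) D (fun a => constantCoeff_liftD D a)]
  change liftD D (cci f) = 0
  rw [h, map_zero]

end general

namespace Pot

variable {n : ℕ} {A : Type*} [CommRing A] [Algebra ℚ A] (P : Pot n A) (k : ℕ → A)

/-- the coupling matrix -/
noncomputable def AH (j l : ℕ) : A⟦X⟧ := PowerSeries.mk fun p =>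
  algebraMap ℚ A (2 / ((2 * p + 2).factorial : ℚ)) * ((-1) ^ l * k (j + l + 2 * p + 2))

/-- derivations at the three levels -/
noncomputable def D1 (j : Fin n) : Derivation ℚ A⟦X⟧ A⟦X⟧ := liftD (P.dr j)
noncomputable def D2 (j : Fin n) : Derivation ℚ A⟦X⟧⟦X⟧ A⟦X⟧⟦X⟧ := liftD (P.D1 j)
noncomputable def D3 (j : Fin n) : Derivation ℚ A⟦X⟧⟦X⟧⟦X⟧ A⟦X⟧⟦X⟧⟦X⟧ := liftD (P.D2 j)

theorem D3_comm (i j : Fin n) (f : A⟦X⟧⟦X⟧⟦X⟧) : P.D3 i (P.D3 j f) = P.D3 j (P.D3 i f) :=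
  liftD_comm (fun a => liftD_comm (fun a => liftD_comm (P.comm_r i j) a) a) f

/-- right hand side of the evolution equation -/
noncomputable def gR (a : ℕ → ℕ → A⟦X⟧) (e : A⟦X⟧) (W : A⟦X⟧⟦X⟧⟦X⟧) : A⟦X⟧⟦X⟧⟦X⟧ :=
  ∑ j : Fin n, C (C (C (k j))) * P.D3 j W
    + algebraMap ℚ _ (1 / 2) * ∑ j : Fin n, ∑ l : Fin n, C (C (a j l))
      * (C (C e) * P.D3 j (P.D3 l W) + P.D3 j W * P.D3 l W)

theorem causal_gR (a : ℕ → ℕ → A⟦X⟧) (e : A⟦X⟧) : Causal (P.gR k a e) := by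
  refine Causal.add ?_ ?_
  · exact Causal.sum _ fun j => (causal_const _).mul (causal_id.liftD _)
  · refine (causal_const _).mul ?_
    exact Causal.sum _ fun j => Causal.sum _ fun l => (causal_const _).mul
      (((causal_const _).mul ((causal_id.liftD _).liftD _)).add
        ((causal_id.liftD _).mul (causal_id.liftD _)))

/-- the coupled genus expansion -/
noncomputable def WH : A⟦X⟧⟦X⟧⟦X⟧ := (ode_exists (P.causal_gR k (AH k) X) P.FH).choose
theorem WH_eq : dX (P.WH k) = P.gR k (AH k) X (P.WH k) :=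
  (ode_exists (P.causal_gR k (AH k) X) P.FH).choose_spec.1
theorem WH_zero : coeff 0 (P.WH k) = P.FH :=
  (ode_exists (P.causal_gR k (AH k) X) P.FH).choose_spec.2

/-! ### the explicit coupled sum -/

/-- the shifted coordinate -/
noncomputable def xk (c : ℤ) : A⟦X⟧ := Tk P.dx c P.x

/-- the power sums of the contents -/
noncomputable def pj (μ : YoungDiagram) (j : ℕ) : A⟦X⟧ :=
  ∑ c ∈ μ.cells, aa 0 (P.xk (cont c)) 0 j

/-- the interaction -/
noncomputable def qm (μ : YoungDiagram) : A⟦X⟧ :=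
  ∑ j : Fin n, C (k j) * P.pj μ j
    + algebraMap ℚ _ (1 / 2) * ∑ j : Fin n, ∑ l : Fin n, phi (AH k j l)
      * (X ^ 2 * (P.pj μ j * P.pj μ l))

/-- the weight of a diagram -/
noncomputable def wt (μ : YoungDiagram) : A⟦X⟧ :=
  algebraMap ℚ _ (wH μ) * ∏ c ∈ μ.cells, P.rk (cont c)

/-- the coupled sum -/
noncomputable def ZZ : A⟦X⟧⟦X⟧⟦X⟧ := PowerSeries.mk fun p => PowerSeries.mk fun m =>
  ∑ μ ∈ ydF m, P.wt μ * (algebraMap ℚ _ (1 / (p.factorial : ℚ)) * P.qm k μ ^ p)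

theorem coeff_ZZ (p m : ℕ) : coeff m (coeff p (P.ZZ k))
    = ∑ μ ∈ ydF m, P.wt μ * (algebraMap ℚ _ (1 / (p.factorial : ℚ)) * P.qm k μ ^ p) := by
  rw [ZZ, coeff_mk, coeff_mk]

theorem ZZ_zero : coeff 0 (P.ZZ k) = P.ta 0 := by
  ext1 m
  rw [coeff_ZZ, ta, tau, coeff_mk]
  refine sum_congr rfl fun μ _ => ?_
  simp [wt]

theorem qm_bot : P.qm k ⊥ = 0 := by
  simp [qm, pj]

theorem cci_ZZ : cci (P.ZZ k) = 1 := by
  ext1 p
  rw [cci, coeff_map, ← coeff_zero_eq_constantCoeff_apply, coeff_ZZ, ydF_zero, sum_singleton,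
    qm_bot, wt, wH, coeff_one]
  rcases Nat.eq_zero_or_pos p with h | h
  · subst h; simp
  · rw [zero_pow h.ne', if_neg h.ne']; simp

theorem D1_rk (i : Fin n) (c : ℤ) : P.D1 i (P.rk c) = P.rk c * aa 0 (P.xk c) 0 i := by
  rw [D1, rk, liftD_Tk P.dx (P.dr i) (fun a => P.comm_x i a)]
  have : P.dr i P.r = P.r * aa 0 P.x 0 i := by
    have h := P.dr_r i
    have h2 := P.dr_rx i
    rw [rx] at h2
    rw [h, h2]
  rw [this, map_mul, map_aa, map_zero]
  rfl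

theorem D1_xk (i : Fin n) (c : ℤ) : P.D1 i (P.xk c) = 0 := by
  rw [D1, xk, liftD_Tk P.dx (P.dr i) (fun a => P.comm_x i a), P.dr_x, map_zero]

theorem D1_pj (i : Fin n) (μ : YoungDiagram) (j : ℕ) : P.D1 i (P.pj μ j) = 0 := by
  rw [pj, map_sum]
  refine sum_eq_zero fun c _ => ?_
  rw [der_aa, D1_xk, map_zero]
  ring

theorem D1_wt (i : Fin n) (μ : YoungDiagram) : P.D1 i (P.wt μ) = P.wt μ * P.pj μ i := by
  rw [wt, Derivation.leibniz, Derivation.map_algebraMap, der_prod]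
  have : ∑ c ∈ μ.cells, P.D1 i (P.rk (cont c)) * ∏ c' ∈ μ.cells.erase c, P.rk (cont c')
      = (∏ c ∈ μ.cells, P.rk (cont c)) * P.pj μ i := by
    rw [pj, mul_sum]
    refine sum_congr rfl fun c hc => ?_
    rw [D1_rk, ← mul_prod_erase μ.cells _ hc]
    ring
  rw [this]
  simp only [smul_eq_mul]
  ring

variable (hk : ∀ j m, P.dr j (k m) = 0)

include hk in
theorem D1_phiAH (i : Fin n) (j l : ℕ) : P.D1 i (phi (AH k j l)) = 0 := by
  have h0 : ∀ m, P.dr i (coeff m (AH k j l)) = 0 := by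
    intro m
    rw [AH, coeff_mk, Derivation.leibniz, Derivation.leibniz, hk, Derivation.leibniz_pow,
      Derivation.map_algebraMap]
    simp
  ext m
  rw [D1, coeff_liftD, map_zero]
  by_cases h : 2 ∣ m
  · obtain ⟨q, rfl⟩ := h
    rw [coeff_phi_even, h0]
  · rw [coeff_phi_odd _ _ h, map_zero]

include hk in
theorem D1_qm (i : Fin n) (μ : YoungDiagram) : P.D1 i (P.qm k μ) = 0 := by
  have hC : ∀ m, P.D1 i (C (k m)) = 0 := fun m => by rw [D1, liftD_C, hk, map_zero]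
  have hX : P.D1 i (X ^ 2) = 0 := by
    rw [Derivation.leibniz_pow, D1, liftD_X]; simp
  rw [qm, map_add, map_sum, Derivation.leibniz, Derivation.map_algebraMap, map_sum]
  have e1 : ∑ x : Fin n, P.D1 i (C (k x) * P.pj μ x) = 0 := by
    refine sum_eq_zero fun j _ => ?_
    rw [Derivation.leibniz, hC, D1_pj]; simp
  have e2 : ∑ x : Fin n, P.D1 i (∑ l : Fin n, phi (AH k x l)
      * (X ^ 2 * (P.pj μ x * P.pj μ l))) = 0 := by
    refine sum_eq_zero fun j _ => ?_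
    rw [map_sum]
    refine sum_eq_zero fun l _ => ?_
    simp only [Derivation.leibniz, P.D1_phiAH k hk, hX, D1_pj]
    simp
  rw [e1, e2]; simp

include hk in
/-- the evolution equation for the coupled sum -/
theorem ZZ_eq : dX (P.ZZ k) = ∑ j : Fin n, C (C (C (k j))) * P.D3 j (P.ZZ k)
    + algebraMap ℚ _ (1 / 2) * ∑ j : Fin n, ∑ l : Fin n, C (C (phi (AH k j l)))
      * (C (C (X ^ 2)) * P.D3 j (P.D3 l (P.ZZ k))) := by
  have hq : ∀ (i : Fin n) (μ : YoungDiagram) (p : ℕ), P.D1 i (algebraMap ℚ _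
      (1 / (p.factorial : ℚ)) * P.qm k μ ^ p) = 0 := by
    intro i μ p
    rw [Derivation.leibniz, Derivation.leibniz_pow, P.D1_qm k hk, Derivation.map_algebraMap]
    simp
  have hD : ∀ (i : Fin n) (p m : ℕ), coeff m (coeff p (P.D3 i (P.ZZ k)))
      = ∑ μ ∈ ydF m, P.wt μ * P.pj μ i
        * (algebraMap ℚ _ (1 / (p.factorial : ℚ)) * P.qm k μ ^ p) := by
    intro i p m
    rw [D3, coeff_liftD, D2, coeff_liftD, coeff_ZZ, map_sum]
    refine sum_congr rfl fun μ _ => ?_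
    rw [Derivation.leibniz, hq, D1_wt]
    simp only [smul_eq_mul]
    ring
  have hDD : ∀ (i j : Fin n) (p m : ℕ), coeff m (coeff p (P.D3 j (P.D3 i (P.ZZ k))))
      = ∑ μ ∈ ydF m, P.wt μ * (P.pj μ j * P.pj μ i)
        * (algebraMap ℚ _ (1 / (p.factorial : ℚ)) * P.qm k μ ^ p) := by
    intro i j p m
    have h1 : coeff m (coeff p (P.D3 j (P.D3 i (P.ZZ k))))
        = P.D1 j (coeff m (coeff p (P.D3 i (P.ZZ k)))) := by
      generalize P.D3 i (P.ZZ k) = f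
      rw [D3, coeff_liftD, D2, coeff_liftD]
    rw [h1, hD i p m, map_sum]
    refine sum_congr rfl fun μ _ => ?_
    rw [Derivation.leibniz, hq, Derivation.leibniz, D1_pj, D1_wt]
    simp only [smul_eq_mul]
    ring
  have c2 : ∀ (a : A⟦X⟧) (f : A⟦X⟧⟦X⟧⟦X⟧) (p m : ℕ), coeff m (coeff p (C (C a) * f))
      = a * coeff m (coeff p f) := by
    intro a f p m
    rw [coeff_C_mul, coeff_C_mul]
  have ch : ∀ (f : A⟦X⟧⟦X⟧⟦X⟧) (p m : ℕ), coeff m (coeff p (algebraMap ℚ _ (1 / 2) * f))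
      = algebraMap ℚ _ (1 / 2) * coeff m (coeff p f) := by
    intro f p m
    rw [PowerSeries.algebraMap_apply, PowerSeries.algebraMap_apply, c2]
  ext1 p
  ext1 m
  rw [map_add, map_add, ch]
  simp only [map_sum, c2, hD, hDD]
  rw [coeff_dX]
  have e0 : coeff m (coeff (p + 1) (P.ZZ k) * ((p : A⟦X⟧⟦X⟧) + 1))
      = ((p + 1 : ℕ) : A⟦X⟧) * coeff m (coeff (p + 1) (P.ZZ k)) := by
    have : ((p : A⟦X⟧⟦X⟧) + 1) = C ((p + 1 : ℕ) : A⟦X⟧) := by simp
    rw [this, coeff_mul_C, mul_comm]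
  rw [e0, coeff_ZZ, mul_sum]
  have e1 : ∀ μ : YoungDiagram, ((p + 1 : ℕ) : A⟦X⟧) * (P.wt μ * (algebraMap ℚ _
      (1 / ((p + 1).factorial : ℚ)) * P.qm k μ ^ (p + 1)))
      = P.qm k μ * (P.wt μ * (algebraMap ℚ _ (1 / (p.factorial : ℚ)) * P.qm k μ ^ p)) := by
    intro μ
    have h : ((p + 1 : ℕ) : A⟦X⟧) * algebraMap ℚ _ (1 / ((p + 1).factorial : ℚ))
        = algebraMap ℚ _ (1 / (p.factorial : ℚ)) := by
      have h2 : ((p + 1 : ℕ) : A⟦X⟧) = algebraMap ℚ _ ((p + 1 : ℕ) : ℚ) := by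
        rw [map_natCast]
      rw [h2, ← map_mul]
      congr 1
      rw [Nat.factorial_succ]
      push_cast
      field_simp
    rw [← h]; ring
  rw [sum_congr rfl fun μ _ => e1 μ]
  have e2 : ∀ μ : YoungDiagram, P.qm k μ * (P.wt μ * (algebraMap ℚ _ (1 / (p.factorial : ℚ))
      * P.qm k μ ^ p))
      = ∑ j : Fin n, C (k j) * (P.wt μ * P.pj μ j
        * (algebraMap ℚ _ (1 / (p.factorial : ℚ)) * P.qm k μ ^ p))
      + algebraMap ℚ _ (1 / 2) * ∑ j : Fin n, ∑ l : Fin n, phi (AH k j l)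
      * (X ^ 2 * (P.wt μ * (P.pj μ j * P.pj μ l)
        * (algebraMap ℚ _ (1 / (p.factorial : ℚ)) * P.qm k μ ^ p))) := by
    intro μ
    set y := algebraMap ℚ A⟦X⟧ (1 / (p.factorial : ℚ)) * P.qm k μ ^ p
    rw [qm, add_mul, sum_mul]
    congr 1
    · exact sum_congr rfl fun j _ => by ring
    · rw [mul_assoc, sum_mul]
      congr 1
      refine sum_congr rfl fun j _ => ?_
      rw [sum_mul]
      exact sum_congr rfl fun l _ => by ring
  rw [sum_congr rfl fun μ _ => e2 μ, sum_add_distrib]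
  congr 1
  · rw [sum_comm]
    exact sum_congr rfl fun j _ => by rw [mul_sum]
  · rw [← mul_sum]
    congr 1
    rw [sum_comm]
    refine sum_congr rfl fun j _ => ?_
    rw [sum_comm]
    refine sum_congr rfl fun l _ => ?_
    rw [mul_sum, mul_sum]

/-- the logarithm of the coupled sum -/
noncomputable def LZ : A⟦X⟧⟦X⟧⟦X⟧ := (exists_log2 (P.ZZ k) (P.cci_ZZ k)).choose
theorem LZ_cci : cci (P.LZ k) = 0 := (exists_log2 (P.ZZ k) (P.cci_ZZ k)).choose_spec.1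
theorem LZ_EU : Model.EU (P.LZ k) * P.ZZ k = Model.EU (P.ZZ k) :=
  (exists_log2 (P.ZZ k) (P.cci_ZZ k)).choose_spec.2

theorem LZ_dX : dX (P.LZ k) * P.ZZ k = dX (P.ZZ k) := by
  refine log_der (P.cci_ZZ k) (P.LZ_cci k) (P.LZ_EU k) dX ?_ ?_
  · intro f; rw [Model.EU, dX_liftD]
  · intro f hf; exact cci_dX hf

theorem LZ_D3 (j : Fin n) : P.D3 j (P.LZ k) * P.ZZ k = P.D3 j (P.ZZ k) := by
  refine log_der (P.cci_ZZ k) (P.LZ_cci k) (P.LZ_EU k) (P.D3 j) ?_ ?_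
  · intro f
    exact (liftD_comm (fun a => eu_liftD _ a) f).symm
  · intro f hf; exact cci_liftD _ hf

theorem LZ_zero : coeff 0 (P.LZ k) = P.LL := by
  have h := congrArg (coeff 0) (P.LZ_EU k)
  rw [coeff_zero_eq_constantCoeff_apply, map_mul, ← coeff_zero_eq_constantCoeff_apply,
    ← coeff_zero_eq_constantCoeff_apply, Model.EU, coeff_liftD, coeff_liftD, ZZ_zero] at h
  have h2 := P.LL_eu
  have hu : IsUnit (P.ta 0) := by
    rw [PowerSeries.isUnit_iff_constantCoeff, cc_ta]; exact isUnit_one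
  refine eq_of_eu (hu.mul_right_cancel (h.trans h2.symm)) ?_
  have h3 := congrArg (coeff 0) (P.LZ_cci k)
  rw [cci, coeff_map, map_zero] at h3
  rw [coeff_zero_eq_constantCoeff_apply, h3, coeff_zero_eq_constantCoeff_apply, LL_cc]

include hk in
theorem LZ_eq : dX (P.LZ k) = ∑ j : Fin n, C (C (C (k j))) * P.D3 j (P.LZ k)
    + algebraMap ℚ _ (1 / 2) * ∑ j : Fin n, ∑ l : Fin n, C (C (phi (AH k j l)))
      * (C (C (X ^ 2)) * (P.D3 j (P.D3 l (P.LZ k)) + P.D3 j (P.LZ k) * P.D3 l (P.LZ k))) := by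
  have hu : IsUnit (P.ZZ k) := isUnit_of_cci (P.cci_ZZ k)
  refine hu.mul_right_cancel ?_
  rw [LZ_dX, P.ZZ_eq k hk, add_mul, sum_mul, mul_assoc, sum_mul]
  have e2 : ∀ j l : Fin n, P.D3 j (P.D3 l (P.ZZ k))
      = (P.D3 j (P.D3 l (P.LZ k)) + P.D3 j (P.LZ k) * P.D3 l (P.LZ k)) * P.ZZ k := by
    intro j l
    rw [← LZ_D3, Derivation.leibniz, ← LZ_D3]
    simp only [smul_eq_mul]; ring
  refine congrArg₂ (· + ·) ?_ (congrArg₂ (· * ·) rfl ?_)
  · refine sum_congr rfl fun j _ => ?_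
    rw [← LZ_D3, mul_assoc]
  · refine sum_congr rfl fun j _ => ?_
    rw [sum_mul]
    refine sum_congr rfl fun l _ => ?_
    rw [e2, mul_assoc, mul_assoc]

theorem Psi_C (a : A⟦X⟧) : Psi (C a) = C (phi a) := by
  ext1 m
  rw [coeff_Psi, coeff_C, coeff_C]
  split_ifs with h
  · rw [h, pow_zero, one_mul]
  · rw [map_zero, mul_zero]

theorem phi_C (a : A) : phi (C a) = C a := PowerSeries.expand_C _ _ _
theorem phi_X : phi (X : A⟦X⟧) = X ^ 2 := PowerSeries.expand_X _ _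

theorem phi_D1 (j : Fin n) (f : A⟦X⟧) : phi (P.D1 j f) = P.D1 j (phi f) := by
  ext m
  rw [D1, coeff_liftD]
  by_cases h : 2 ∣ m
  · obtain ⟨q, rfl⟩ := h
    rw [coeff_phi_even, coeff_phi_even, coeff_liftD]
  · rw [coeff_phi_odd _ _ h, coeff_phi_odd _ _ h, map_zero]

theorem Psi_D2 (j : Fin n) (f : A⟦X⟧⟦X⟧) : Psi (P.D2 j f) = P.D2 j (Psi f) := by
  ext1 m
  have hX : P.D1 j ((X ^ 2) ^ m) = 0 := by
    rw [← pow_mul, Derivation.leibniz_pow, D1, liftD_X]; simp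
  rw [coeff_Psi, D2, coeff_liftD, coeff_liftD, coeff_Psi, Derivation.leibniz, hX, phi_D1]
  simp

/-- `Psi` coefficientwise in `s` -/
noncomputable def PsS {A : Type*} [CommRing A] : A⟦X⟧⟦X⟧⟦X⟧ →+* A⟦X⟧⟦X⟧⟦X⟧ := PowerSeries.map Psi

theorem PsS_D3 (j : Fin n) (f : A⟦X⟧⟦X⟧⟦X⟧) : PsS (P.D3 j f) = P.D3 j (PsS f) := by
  ext1 p
  rw [PsS, coeff_map, D3, coeff_liftD, coeff_liftD, coeff_map, Psi_D2]

theorem PsS_dX (f : A⟦X⟧⟦X⟧⟦X⟧) : PsS (dX f) = dX (PsS f) := map_dX _ _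

include hk in
/-- the exact genus expansion of the coupled logarithm -/
theorem couple [IsDomain A] (hr : P.r ≠ 0) : C (C (X ^ 2)) * P.LZ k = PsS (P.WH k) := by
  refine ode_unique (P.causal_gR k (fun j l => phi (AH k j l)) (X ^ 2)) ?_ ?_ ?_
  · have hc : ∀ (j : Fin n) (f : A⟦X⟧⟦X⟧⟦X⟧), P.D3 j (C (C (X ^ 2)) * f)
        = C (C (X ^ 2)) * P.D3 j f := by
      intro j f
      have hX : P.D1 j (X ^ 2) = 0 := by
        rw [Derivation.leibniz_pow, D1, liftD_X]; simp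
      rw [Derivation.leibniz, D3, liftD_C, D2, liftD_C, hX]
      simp
    have hd : ∀ (f : A⟦X⟧⟦X⟧⟦X⟧), dX (C (C (X ^ 2)) * f) = C (C (X ^ 2)) * dX f := by
      intro f
      rw [Derivation.leibniz, dX_C]; simp
    rw [hd, P.LZ_eq k hk, gR, mul_add, mul_sum]
    refine congrArg₂ (· + ·) ?_ ?_
    · refine sum_congr rfl fun j _ => ?_
      rw [hc]; ring
    · rw [mul_left_comm, mul_sum]
      refine congrArg₂ (· * ·) rfl ?_
      refine sum_congr rfl fun j _ => ?_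
      rw [mul_sum]
      refine sum_congr rfl fun l _ => ?_
      rw [hc, hc, hc]
      ring
  · rw [← PsS_dX, P.WH_eq, gR, gR, map_add, map_mul, map_sum, map_sum]
    have hh : (PsS (algebraMap ℚ A⟦X⟧⟦X⟧⟦X⟧ (1 / 2))) = algebraMap ℚ _ (1 / 2) := by
      rw [RingHom.map_rat_algebraMap]
    have hCC : ∀ a : A⟦X⟧, PsS (C (C a)) = C (C (phi a)) := by
      intro a
      rw [PsS, map_C, Psi_C]
    rw [hh]
    refine congrArg₂ (· + ·) ?_ (congrArg₂ (· * ·) rfl ?_)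
    · refine sum_congr rfl fun j _ => ?_
      rw [map_mul, hCC, phi_C, PsS_D3]
    · refine sum_congr rfl fun j _ => ?_
      rw [map_sum]
      refine sum_congr rfl fun l _ => ?_
      rw [map_mul, map_add, map_mul, map_mul, hCC, hCC, phi_X, PsS_D3, PsS_D3, PsS_D3]
  · rw [coeff_C_mul, LZ_zero, P.exact_LL hr, PsS, coeff_map, WH_zero]

end Pot

end MP4a
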