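import Mathlib

/-!
Coefficientwise lifts of derivations to power series, the Euler derivation `z d/dz`,
uniqueness lemmas, and solving differential equations in a power series variable.
-/

namespace MP4a

open PowerSeries

section lift
variable {A : Type*} [CommRing A] [Algebra ℚ A]

/-- coefficientwise extension of a derivation to power series -/
noncomputable def liftD (D : Derivation ℚ A A) : Derivation ℚ A⟦X⟧ A⟦X⟧ :=
  Derivation.mk'
    { toFun := fun f => PowerSeries.mk fun n => D (coeff n f)
      map_add' := fun f g => by ext n; simp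
      map_smul' := fun c f => by ext n; simp }
    (fun f g => by
      ext n
      simp only [LinearMap.coe_mk, AddHom.coe_mk, coeff_mk, smul_eq_mul, map_add, coeff_mul,
        map_sum, Derivation.leibniz]
      rw [Finset.sum_add_distrib]
      congr 1
      rw [← Finset.Nat.sum_antidiagonal_swap]
      rfl)

@[simp] theorem coeff_liftD (D : Derivation ℚ A A) (f : A⟦X⟧) (n : ℕ) :
    coeff n (liftD D f) = D (coeff n f) := by
  simp [liftD]

/-- the Euler derivation `z d/dz` -/
noncomputable def eu : Derivation ℚ A⟦X⟧ A⟦X⟧ :=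
  Derivation.mk'
    { toFun := fun f => PowerSeries.mk fun n => (n : A) * coeff n f
      map_add' := fun f g => by ext n; simp [mul_add]
      map_smul' := fun c f => by ext n; simp }
    (fun f g => by
      ext n
      simp only [LinearMap.coe_mk, AddHom.coe_mk, coeff_mk, smul_eq_mul, map_add, coeff_mul]
      rw [← Finset.Nat.sum_antidiagonal_swap (f := fun p : ℕ × ℕ =>
        (coeff p.1 g) * ((p.2 : A) * coeff p.2 f)),
        ← Finset.sum_add_distrib, Finset.mul_sum]
      refine Finset.sum_congr rfl fun p hp => ?_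
      rw [Finset.HasAntidiagonal.mem_antidiagonal] at hp
      simp only [Prod.fst_swap, Prod.snd_swap]
      rw [← hp]
      push_cast
      ring)

@[simp] theorem coeff_eu (f : A⟦X⟧) (n : ℕ) : coeff n (eu f) = (n : A) * coeff n f := by
  simp [eu]

@[simp] theorem constantCoeff_liftD (D : Derivation ℚ A A) (f : A⟦X⟧) :
    constantCoeff (liftD D f) = D (constantCoeff f) := by
  rw [← coeff_zero_eq_constantCoeff_apply, coeff_liftD, coeff_zero_eq_constantCoeff_apply]

@[simp] theorem constantCoeff_eu (f : A⟦X⟧) : constantCoeff (eu f) = 0 := by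
  rw [← coeff_zero_eq_constantCoeff_apply, coeff_eu]; simp

theorem eu_liftD (D : Derivation ℚ A A) (f : A⟦X⟧) : eu (liftD D f) = liftD D (eu f) := by
  ext n; simp

theorem liftD_comm {D E : Derivation ℚ A A} (h : ∀ a, D (E a) = E (D a)) (f : A⟦X⟧) :
    liftD D (liftD E f) = liftD E (liftD D f) := by
  ext n; simp [h]

/-- the derivation `d/dX` over `ℚ` -/
noncomputable def dX : Derivation ℚ A⟦X⟧ A⟦X⟧ := (derivative A).restrictScalars ℚ

theorem coeff_dX (f : A⟦X⟧) (n : ℕ) : coeff n (dX f) = coeff (n + 1) f * ((n : A) + 1) := by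
  simp [dX, coeff_derivative]

theorem dX_liftD (D : Derivation ℚ A A) (f : A⟦X⟧) : dX (liftD D f) = liftD D (dX f) := by
  ext n
  simp only [coeff_dX, coeff_liftD, Derivation.leibniz, smul_eq_mul, map_add,
    Derivation.map_natCast, Derivation.map_one_eq_zero]
  ring

@[simp] theorem liftD_C (D : Derivation ℚ A A) (a : A) : liftD D (C a) = C (D a) := by
  ext n; simp only [coeff_liftD, coeff_C]; split_ifs <;> simp

@[simp] theorem liftD_X (D : Derivation ℚ A A) : liftD D (X : A⟦X⟧) = 0 := by
  ext n; simp only [coeff_liftD, coeff_X]; split_ifs <;> simp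

@[simp] theorem eu_C (a : A) : eu (C a : A⟦X⟧) = 0 := by
  ext n; simp only [coeff_eu, coeff_C]; split_ifs <;> simp_all

@[simp] theorem eu_X : eu (X : A⟦X⟧) = X := by
  ext n; simp only [coeff_eu, coeff_X]; split_ifs <;> simp_all

@[simp] theorem dX_C (a : A) : dX (C a : A⟦X⟧) = 0 := by simp [dX]

@[simp] theorem dX_X : dX (X : A⟦X⟧) = 1 := by simp [dX]

theorem map_eu {A' : Type*} [CommRing A'] [Algebra ℚ A'] (g : A →+* A') (f : A⟦X⟧) :
    PowerSeries.map g (eu f) = eu (PowerSeries.map g f) := by
  ext n; simp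

theorem map_liftD {A' : Type*} [CommRing A'] [Algebra ℚ A'] (g : A →+* A')
    (D : Derivation ℚ A A) (D' : Derivation ℚ A' A') (h : ∀ a, g (D a) = D' (g a)) (f : A⟦X⟧) :
    PowerSeries.map g (liftD D f) = liftD D' (PowerSeries.map g f) := by
  ext n; simp [h]

theorem map_dX {A' : Type*} [CommRing A'] [Algebra ℚ A'] (g : A →+* A') (f : A⟦X⟧) :
    PowerSeries.map g (dX f) = dX (PowerSeries.map g f) := by
  ext n; simp [coeff_dX]

/-- cancelling a positive integer in a `ℚ`-algebra -/
theorem natCast_mul_eq_zero {n : ℕ} (hn : n ≠ 0) {a : A} (h : (n : A) * a = 0) : a = 0 := by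
  have h1 : (algebraMap ℚ A (n : ℚ)⁻¹) * ((n : A) * a) = a := by
    rw [← mul_assoc]
    have : (algebraMap ℚ A (n : ℚ)⁻¹) * (n : A) = 1 := by
      have h2 : (n : A) = algebraMap ℚ A (n : ℚ) := by simp
      rw [h2, ← map_mul, inv_mul_cancel₀ (by exact_mod_cast hn), map_one]
    rw [this, one_mul]
  rw [← h1, h, mul_zero]

theorem eq_zero_of_eu {f : A⟦X⟧} (h : eu f = 0) (h0 : coeff 0 f = 0) : f = 0 := by
  ext n
  rcases Nat.eq_zero_or_pos n with hn | hn
  · subst hn; simpa using h0
  · have := congrArg (coeff n) h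
    rw [coeff_eu, map_zero] at this
    simpa using natCast_mul_eq_zero hn.ne' this

theorem eq_of_eu {f g : A⟦X⟧} (h : eu f = eu g) (h0 : coeff 0 f = coeff 0 g) : f = g :=
  sub_eq_zero.1 (eq_zero_of_eu (by rw [map_sub, h, sub_self]) (by rw [map_sub, h0, sub_self]))

/-- (U1): `z Y' = Y g`, `g_0 = 1`, `Y_0 = Y_1 = 0` imply `Y = 0`. -/
theorem eq_zero_of_eu_mul {Y g : A⟦X⟧} (h : eu Y = Y * g) (hg : coeff 0 g = 1)
    (h0 : coeff 0 Y = 0) (h1 : coeff 1 Y = 0) : Y = 0 := by
  have key : ∀ n, coeff n Y = 0 := by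
    intro n
    induction n using Nat.strong_induction_on with
    | _ n ih =>
      rcases Nat.lt_or_ge n 2 with hn | hn
      · interval_cases n
        · exact h0
        · exact h1
      · have e := congrArg (coeff n) h
        rw [coeff_eu, coeff_mul, Finset.Nat.sum_antidiagonal_eq_sum_range_succ_mk,
          Finset.sum_range_succ] at e
        rw [Finset.sum_eq_zero] at e
        · simp only [Nat.sub_self, hg, mul_one, zero_add] at e
          have e2 : ((n - 1 : ℕ) : A) * coeff n Y = 0 := by
            rw [Nat.cast_sub (by omega), sub_mul, e]; simp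
          exact natCast_mul_eq_zero (by omega) e2
        · intro i hi
          rw [Finset.mem_range] at hi
          simp only [ih i hi, zero_mul]
  ext n; simpa using key n

/-- (U): `z Q' = ∂ P`, `z P' = R ∂ Q`, `R_0 = 0`, `P_0 = Q_0 = 0` imply `P = Q = 0`. -/
theorem eq_zero_of_wave (D : Derivation ℚ A A) {P Q R : A⟦X⟧} (hQ : eu Q = liftD D P)
    (hP : eu P = R * liftD D Q) (hR : coeff 0 R = 0) (hP0 : coeff 0 P = 0)
    (hQ0 : coeff 0 Q = 0) : P = 0 ∧ Q = 0 := by
  have key : ∀ n, coeff n P = 0 ∧ coeff n Q = 0 := by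
    intro n
    induction n using Nat.strong_induction_on with
    | _ n ih =>
      rcases Nat.eq_zero_or_pos n with hn | hn
      · subst hn; exact ⟨hP0, hQ0⟩
      · have e := congrArg (coeff n) hP
        rw [coeff_eu, coeff_mul, Finset.sum_eq_zero] at e
        · have p0 := natCast_mul_eq_zero hn.ne' e
          refine ⟨p0, ?_⟩
          have e' := congrArg (coeff n) hQ
          rw [coeff_eu, coeff_liftD, p0, map_zero] at e'
          exact natCast_mul_eq_zero hn.ne' e'
        · rintro ⟨i, j⟩ hij
          rw [Finset.HasAntidiagonal.mem_antidiagonal] at hij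
          rcases Nat.eq_zero_or_pos i with hi | hi
          · simp only [hi, hR, zero_mul]
          · simp only [coeff_liftD, (ih j (by simp at hij; omega)).2, map_zero, mul_zero]
  exact ⟨by ext n; simpa using (key n).1, by ext n; simpa using (key n).2⟩

end lift

section ode
variable {B : Type*} [CommRing B] [Algebra ℚ B]

/-- `G` is causal: the `n`-th coefficient of `G f` depends only on the coefficients `≤ n` of `f` -/
def Causal (G : B⟦X⟧ → B⟦X⟧) : Prop :=
  ∀ n f g, (∀ i ≤ n, coeff i f = coeff i g) → coeff n (G f) = coeff n (G g)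

theorem causal_id : Causal (fun f : B⟦X⟧ => f) := fun n _ _ h => h n le_rfl

theorem causal_const (c : B⟦X⟧) : Causal (fun _ : B⟦X⟧ => c) := fun _ _ _ _ => rfl

theorem Causal.add {G H : B⟦X⟧ → B⟦X⟧} (hG : Causal G) (hH : Causal H) :
    Causal (fun f => G f + H f) := by
  intro n f g h
  rw [map_add, map_add, hG n f g h, hH n f g h]

theorem Causal.mul {G H : B⟦X⟧ → B⟦X⟧} (hG : Causal G) (hH : Causal H) :
    Causal (fun f => G f * H f) := by
  intro n f g h
  rw [coeff_mul, coeff_mul]
  refine Finset.sum_congr rfl fun q hq => ?_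
  rw [Finset.HasAntidiagonal.mem_antidiagonal] at hq
  rw [hG q.1 f g fun i hi => h i (by omega), hH q.2 f g fun i hi => h i (by omega)]

theorem Causal.liftD {G : B⟦X⟧ → B⟦X⟧} (hG : Causal G) (D : Derivation ℚ B B) :
    Causal (fun f => MP4a.liftD D (G f)) := by
  intro n f g h
  rw [coeff_liftD, coeff_liftD, hG n f g h]

theorem Causal.sum {ι : Type*} (s : Finset ι) {G : ι → B⟦X⟧ → B⟦X⟧} (hG : ∀ i, Causal (G i)) :
    Causal (fun f => ∑ i ∈ s, G i f) := by
  intro n f g h
  rw [map_sum, map_sum]
  exact Finset.sum_congr rfl fun i _ => hG i n f g h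

/-- formal integral with initial value `b` -/
noncomputable def integ (b : B) (f : B⟦X⟧) : B⟦X⟧ :=
  PowerSeries.mk fun n => if n = 0 then b else algebraMap ℚ B ((n : ℚ)⁻¹) * coeff (n - 1) f

theorem ode_unique {G : B⟦X⟧ → B⟦X⟧} (hG : Causal G) {f g : B⟦X⟧} (hf : dX f = G f)
    (hg : dX g = G g) (h0 : coeff 0 f = coeff 0 g) : f = g := by
  have key : ∀ n, ∀ i ≤ n, coeff i f = coeff i g := by
    intro n
    induction n with
    | zero => intro i hi; obtain rfl : i = 0 := by omega
              exact h0
    | succ n ih =>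
      intro i hi
      rcases Nat.lt_or_ge i (n + 1) with h | h
      · exact ih i (by omega)
      · obtain rfl : i = n + 1 := by omega
        have e := hG n f g ih
        rw [← hf, ← hg, coeff_dX, coeff_dX] at e
        have e2 : ((n + 1 : ℕ) : B) * (coeff (n + 1) f - coeff (n + 1) g) = 0 := by
          push_cast; linear_combination e
        exact sub_eq_zero.1 (natCast_mul_eq_zero (by omega) e2)
  ext n; exact key n n le_rfl

theorem ode_exists {G : B⟦X⟧ → B⟦X⟧} (hG : Causal G) (b : B) :
    ∃ f : B⟦X⟧, dX f = G f ∧ coeff 0 f = b := by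
  classical
  let T : B⟦X⟧ → B⟦X⟧ := fun f => integ b (G f)
  have hT : ∀ n f g, (∀ i < n, coeff i f = coeff i g) →
      ∀ i < n + 1, coeff i (T f) = coeff i (T g) := by
    intro n f g h i hi
    simp only [T, integ, coeff_mk]
    split_ifs with h0
    · rfl
    · rw [hG (i - 1) f g fun j hj => h j (by omega)]
  have hst : ∀ n m, n ≤ m → ∀ i < n, coeff i (T^[m] 0) = coeff i (T^[n] 0) := by
    intro n
    induction n with
    | zero => intro m _ i hi; omega
    | succ n ih =>
      intro m hm i hi
      obtain ⟨m, rfl⟩ : ∃ k, m = k + 1 := ⟨m - 1, by omega⟩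
      rw [Function.iterate_succ_apply', Function.iterate_succ_apply']
      exact hT n _ _ (ih m (by omega)) i hi
  let f : B⟦X⟧ := PowerSeries.mk fun n => coeff n (T^[n + 1] 0)
  have hf : ∀ n, ∀ i < n, coeff i f = coeff i (T^[n] 0) := by
    intro n i hi
    simp only [f, coeff_mk]
    exact (hst (i + 1) n (by omega) i (by omega)).symm
  have hfix : T f = f := by
    ext n
    rw [hT (n) f (T^[n] 0) (hf n) n (by omega), ← Function.iterate_succ_apply' T n]
    simp only [f, coeff_mk]
  refine ⟨f, ?_, ?_⟩
  · ext n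
    rw [coeff_dX, ← hfix]
    rw [hfix]
    conv_lhs => rw [← hfix]
    simp only [T, integ, coeff_mk]
    rw [if_neg (by omega)]
    simp only [Nat.add_sub_cancel]
    have : algebraMap ℚ B ((n + 1 : ℕ) : ℚ)⁻¹ * ((n : B) + 1) = 1 := by
      have h2 : (n : B) + 1 = algebraMap ℚ B ((n + 1 : ℕ) : ℚ) := by simp
      rw [h2, ← map_mul, inv_mul_cancel₀ (by positivity), map_one]
    linear_combination (coeff n (G f)) * this
  · rw [← hfix]; simp [T, integ]

end ode

end MP4a
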