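import Mathlib

/-!
Hook lengths and contents of Young diagrams.
-/

namespace MP4a

open Finset

/-- the hook length of the cell `c = (i,j)` of a Young diagram: `arm + leg + 1` -/
def hookLen (μ : YoungDiagram) (c : ℕ × ℕ) : ℕ :=
  (μ.rowLen c.1 - c.2) + (μ.colLen c.2 - c.1) - 1

theorem hook_pos {μ : YoungDiagram} {c : ℕ × ℕ} (h : c ∈ μ) : 0 < hookLen μ c := by
  obtain ⟨i, j⟩ := c
  have h1 := YoungDiagram.mem_iff_lt_rowLen.1 h
  have h2 := YoungDiagram.mem_iff_lt_colLen.1 h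
  simp only [hookLen]
  omega

/-- the shifted row lengths -/
def lN (μ : YoungDiagram) (N i : ℕ) : ℕ := μ.rowLen i + (N - 1 - i)

theorem prod_cells {M : Type*} [CommMonoid M] (μ : YoungDiagram) {N : ℕ} (hN : μ.colLen 0 ≤ N)
    (F : ℕ × ℕ → M) :
    ∏ c ∈ μ.cells, F c = ∏ i ∈ range N, ∏ j ∈ range (μ.rowLen i), F (i, j) := by
  refine Finset.prod_finset_product μ.cells (range N) (fun i => range (μ.rowLen i)) ?_
  rintro ⟨i, j⟩
  rw [YoungDiagram.mem_cells, mem_range, mem_range, YoungDiagram.mem_iff_lt_rowLen]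
  refine ⟨fun h => ⟨?_, h⟩, fun h => h.2⟩
  have h2 := YoungDiagram.mem_iff_lt_colLen.1 (YoungDiagram.mem_iff_lt_rowLen.2 h)
  have h3 := μ.colLen_anti 0 j (Nat.zero_le _)
  omega

theorem sum_cells {M : Type*} [AddCommMonoid M] (μ : YoungDiagram) {N : ℕ} (hN : μ.colLen 0 ≤ N)
    (F : ℕ × ℕ → M) :
    ∑ c ∈ μ.cells, F c = ∑ i ∈ range N, ∑ j ∈ range (μ.rowLen i), F (i, j) := by
  refine Finset.sum_finset_product μ.cells (range N) (fun i => range (μ.rowLen i)) ?_
  rintro ⟨i, j⟩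
  rw [YoungDiagram.mem_cells, mem_range, mem_range, YoungDiagram.mem_iff_lt_rowLen]
  refine ⟨fun h => ⟨?_, h⟩, fun h => h.2⟩
  have h2 := YoungDiagram.mem_iff_lt_colLen.1 (YoungDiagram.mem_iff_lt_rowLen.2 h)
  have h3 := μ.colLen_anti 0 j (Nat.zero_le _)
  omega

section row
variable {μ : YoungDiagram} {N i : ℕ}

theorem mem_row_iff' {j k : ℕ} : j < μ.rowLen k ↔ k < μ.colLen j := by
  rw [← YoungDiagram.mem_iff_lt_rowLen, ← YoungDiagram.mem_iff_lt_colLen]

theorem row_injA : Set.InjOn (fun j => hookLen μ (i, j) - 1) (range (μ.rowLen i)) := by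
  intro j hj j' hj' h
  rw [coe_range, Set.mem_Iio] at hj hj'
  have h1 : i < μ.colLen j := mem_row_iff'.1 hj
  have h2 : i < μ.colLen j' := mem_row_iff'.1 hj'
  simp only [hookLen] at h
  rcases Nat.lt_trichotomy j j' with h3 | h3 | h3
  · have := μ.colLen_anti j j' h3.le; omega
  · exact h3
  · have := μ.colLen_anti j' j h3.le; omega

theorem row_injB (hi : i < N) : Set.InjOn (fun k => lN μ N i - lN μ N k - 1) (Ioo i N) := by
  intro k hk k' hk' h
  rw [coe_Ioo, Set.mem_Ioo] at hk hk'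
  have a1 := μ.rowLen_anti i k hk.1.le
  have a2 := μ.rowLen_anti i k' hk'.1.le
  simp only [lN] at h
  rcases Nat.lt_trichotomy k k' with h3 | h3 | h3
  · have := μ.rowLen_anti k k' h3.le; omega
  · exact h3
  · have := μ.rowLen_anti k' k h3.le; omega

theorem row_disj (hi : i < N) : Disjoint ((range (μ.rowLen i)).image (fun j => hookLen μ (i, j) - 1))
    ((Ioo i N).image (fun k => lN μ N i - lN μ N k - 1)) := by
  rw [Finset.disjoint_left]
  intro a ha hb
  rw [mem_image] at ha hb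
  obtain ⟨j, hj, rfl⟩ := ha
  obtain ⟨k, hk, hjk⟩ := hb
  rw [mem_range] at hj
  rw [mem_Ioo] at hk
  have h1 : i < μ.colLen j := mem_row_iff'.1 hj
  have a1 := μ.rowLen_anti i k hk.1.le
  simp only [lN, hookLen] at hjk
  rcases Nat.lt_or_ge j (μ.rowLen k) with h3 | h3
  · have h4 := mem_row_iff'.1 h3
    omega
  · have h4 : ¬ k < μ.colLen j := fun h => absurd (mem_row_iff'.2 h) (by omega)
    omega

theorem row_union (hN : μ.colLen 0 ≤ N) (hi : i < N) :
    (range (μ.rowLen i)).image (fun j => hookLen μ (i, j) - 1)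
      ∪ (Ioo i N).image (fun k => lN μ N i - lN μ N k - 1) = range (lN μ N i) := by
  refine Finset.eq_of_subset_of_card_le ?_ ?_
  · intro a ha
    rw [mem_union, mem_image, mem_image] at ha
    rw [mem_range]
    rcases ha with ⟨j, hj, rfl⟩ | ⟨k, hk, rfl⟩
    · rw [mem_range] at hj
      have h1 : i < μ.colLen j := mem_row_iff'.1 hj
      have h3 := μ.colLen_anti 0 j (Nat.zero_le _)
      simp only [lN, hookLen]
      omega
    · rw [mem_Ioo] at hk
      have a1 := μ.rowLen_anti i k hk.1.le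
      simp only [lN]
      omega
  · rw [card_union_of_disjoint (row_disj hi), card_image_of_injOn row_injA,
      card_image_of_injOn (row_injB hi), card_range, card_range, Nat.card_Ioo]
    simp only [lN]
    omega

theorem row_prod {M : Type*} [CommMonoid M] (hN : μ.colLen 0 ≤ N) (hi : i < N) (F : ℕ → M) :
    (∏ j ∈ range (μ.rowLen i), F (hookLen μ (i, j))) * ∏ k ∈ Ioo i N, F (lN μ N i - lN μ N k)
      = ∏ m ∈ range (lN μ N i), F (m + 1) := by
  rw [← row_union hN hi, prod_union (row_disj hi), prod_image row_injA, prod_image (row_injB hi)]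
  refine congrArg₂ (· * ·) ?_ ?_
  · refine prod_congr rfl fun j hj => ?_
    rw [mem_range] at hj
    have h1 : (i, j) ∈ μ := YoungDiagram.mem_iff_lt_rowLen.2 hj
    rw [Nat.sub_add_cancel (hook_pos h1)]
  · refine prod_congr rfl fun k hk => ?_
    rw [mem_Ioo] at hk
    have a1 := μ.rowLen_anti i k hk.1.le
    rw [Nat.sub_add_cancel]
    simp only [lN]; omega

theorem row_sum {M : Type*} [AddCommMonoid M] (hN : μ.colLen 0 ≤ N) (hi : i < N) (F : ℕ → M) :
    (∑ j ∈ range (μ.rowLen i), F (hookLen μ (i, j))) + ∑ k ∈ Ioo i N, F (lN μ N i - lN μ N k)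
      = ∑ m ∈ range (lN μ N i), F (m + 1) := by
  rw [← row_union hN hi, sum_union (row_disj hi), sum_image row_injA, sum_image (row_injB hi)]
  refine congrArg₂ (· + ·) ?_ ?_
  · refine sum_congr rfl fun j hj => ?_
    rw [mem_range] at hj
    have h1 : (i, j) ∈ μ := YoungDiagram.mem_iff_lt_rowLen.2 hj
    rw [Nat.sub_add_cancel (hook_pos h1)]
  · refine sum_congr rfl fun k hk => ?_
    rw [mem_Ioo] at hk
    have a1 := μ.rowLen_anti i k hk.1.le
    rw [Nat.sub_add_cancel]
    simp only [lN]; omega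

end row

/-- product of hooks times the Vandermonde product -/
theorem hook_prod {M : Type*} [CommMonoid M] (μ : YoungDiagram) {N : ℕ} (hN : μ.colLen 0 ≤ N)
    (F : ℕ → M) :
    (∏ c ∈ μ.cells, F (hookLen μ c)) * ∏ i ∈ range N, ∏ k ∈ Ioo i N, F (lN μ N i - lN μ N k)
      = ∏ i ∈ range N, ∏ m ∈ range (lN μ N i), F (m + 1) := by
  rw [prod_cells μ hN, ← prod_mul_distrib]
  exact prod_congr rfl fun i hi => row_prod hN (mem_range.1 hi) F

theorem hook_sum {M : Type*} [AddCommMonoid M] (μ : YoungDiagram) {N : ℕ} (hN : μ.colLen 0 ≤ N)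
    (F : ℕ → M) :
    (∑ c ∈ μ.cells, F (hookLen μ c)) + ∑ i ∈ range N, ∑ k ∈ Ioo i N, F (lN μ N i - lN μ N k)
      = ∑ i ∈ range N, ∑ m ∈ range (lN μ N i), F (m + 1) := by
  rw [sum_cells μ hN, ← sum_add_distrib]
  exact sum_congr rfl fun i hi => row_sum hN (mem_range.1 hi) F

/-- the content of a cell -/
def cont (c : ℕ × ℕ) : ℤ := (c.2 : ℤ) - c.1

/-- contents: product formula -/
theorem cont_prod {M : Type*} [CommMonoid M] (μ : YoungDiagram) {N : ℕ} (hN : μ.colLen 0 ≤ N)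
    (r : ℤ → M) (s : ℤ) :
    (∏ c ∈ μ.cells, r (s + cont c)) * ∏ i ∈ range N, ∏ m ∈ range i, r (s - N + 1 + m)
      = ∏ i ∈ range N, ∏ m ∈ range (lN μ N i), r (s - N + 1 + m) := by
  have e1 : ∏ i ∈ range N, ∏ m ∈ range i, r (s - N + 1 + m)
      = ∏ i ∈ range N, ∏ m ∈ range (N - 1 - i), r (s - N + 1 + m) :=
    (Finset.prod_range_reflect (fun i => ∏ m ∈ range i, r (s - N + 1 + m)) N).symm
  rw [prod_cells μ hN, e1, ← prod_mul_distrib]
  refine prod_congr rfl fun i hi => ?_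
  rw [mem_range] at hi
  rw [lN, add_comm (μ.rowLen i), Finset.prod_range_add, mul_comm]
  congr 1
  refine prod_congr rfl fun j _ => ?_
  congr 1
  simp only [cont]
  push_cast [show i ≤ N - 1 by omega, show 1 ≤ N by omega]
  ring

section second
variable {M : Type*} [CommRing M] (f : ℤ → M)

/-- second difference -/
def dd (x : ℤ) : M := f (x + 1) - 2 * f x + f (x - 1)

theorem dd_sum1 (q : ℕ) (d : ℤ) : ∑ j ∈ range q, dd f (d - j)
    = (f (d + 1) - f (d + 1 - q)) - (f d - f (d - q)) := by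
  induction q with
  | zero => simp
  | succ q ih =>
    rw [sum_range_succ, ih, dd]
    push_cast
    rw [show d + 1 - (q : ℤ) = d - q + 1 by ring, show d + 1 - ((q : ℤ) + 1) = d - q by ring,
      show d - ((q : ℤ) + 1) = d - q - 1 by ring]
    ring

theorem dd_sum2 (p q : ℕ) (d : ℤ) : ∑ j ∈ range p, ∑ j' ∈ range q, dd f (j + d - j')
    = f (p + d) + f (d - q) - f (p + d - q) - f d := by
  induction p with
  | zero => simp
  | succ p ih =>
    rw [sum_range_succ, ih, dd_sum1]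
    push_cast
    rw [show (p : ℤ) + 1 + d = p + d + 1 by ring]
    ring

theorem sum_symm_pairs {N : ℕ} (g : ℕ → ℕ → M) (hs : ∀ i k, g i k = g k i) (h0 : ∀ i, g i i = 0) :
    ∑ i ∈ range N, ∑ k ∈ range N, g i k = 2 * ∑ i ∈ range N, ∑ k ∈ Ioo i N, g i k := by
  have e1 : ∀ i ∈ range N, ∑ k ∈ range N, g i k
      = ∑ k ∈ range i, g i k + ∑ k ∈ Ioo i N, g i k := by
    intro i hi
    rw [mem_range] at hi
    have : range N = range i ∪ (insert i (Ioo i N)) := by
      ext a; simp only [mem_range, mem_union, mem_insert, mem_Ioo]; omega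
    rw [this, sum_union, sum_insert, h0, zero_add]
    · simp
    · rw [Finset.disjoint_left]
      intro a ha
      simp only [mem_range] at ha
      simp only [mem_insert, mem_Ioo]; omega
  rw [sum_congr rfl e1, sum_add_distrib, two_mul]
  congr 1
  rw [Finset.sum_sigma', Finset.sum_sigma']
  refine Finset.sum_bij' (fun x _ => ⟨x.2, x.1⟩) (fun x _ => ⟨x.2, x.1⟩) ?_ ?_ ?_ ?_ ?_
  · rintro ⟨i, k⟩ h
    simp only [mem_sigma, mem_range, mem_Ioo] at h ⊢; omega
  · rintro ⟨i, k⟩ h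
    simp only [mem_sigma, mem_range, mem_Ioo] at h ⊢; omega
  · rintro ⟨i, k⟩ _; rfl
  · rintro ⟨i, k⟩ _; rfl
  · rintro ⟨i, k⟩ _; exact hs _ _

/-- hook sums of even functions in terms of contents -/
theorem hook_content (μ : YoungDiagram) (he : ∀ x, f (-x) = f x) (h0 : f 0 = 0) :
    2 * ∑ c ∈ μ.cells, f (hookLen μ c) = 2 * ∑ c ∈ μ.cells, f (cont c)
      + ∑ c ∈ μ.cells, ∑ c' ∈ μ.cells, dd f (cont c - cont c') := by
  obtain ⟨N, hN⟩ : ∃ N, μ.colLen 0 ≤ N := ⟨_, le_rfl⟩
  have H := hook_sum μ hN (fun m => f (m : ℤ))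
  -- the double sum
  have e1 : ∑ c ∈ μ.cells, ∑ c' ∈ μ.cells, dd f (cont c - cont c')
      = ∑ i ∈ range N, ∑ k ∈ range N, (f (μ.rowLen i + (k - i)) + f (k - i - μ.rowLen k)
        - f (μ.rowLen i + (k - i) - μ.rowLen k) - f (k - i)) := by
    rw [sum_cells μ hN]
    refine sum_congr rfl fun i _ => ?_
    have : ∀ j ∈ range (μ.rowLen i), ∑ c' ∈ μ.cells, dd f (cont (i, j) - cont c')
        = ∑ k ∈ range N, ∑ j' ∈ range (μ.rowLen k), dd f (j + (k - i : ℤ) - j') := by
      intro j _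
      rw [sum_cells μ hN]
      refine sum_congr rfl fun k _ => sum_congr rfl fun j' _ => ?_
      congr 1
      simp only [cont]
      ring
    rw [sum_congr rfl this, sum_comm]
    refine sum_congr rfl fun k _ => ?_
    exact dd_sum2 f _ _ _
  have e2 : ∑ i ∈ range N, ∑ k ∈ range N, f (k - i - μ.rowLen k)
      = ∑ i ∈ range N, ∑ k ∈ range N, f (μ.rowLen i + (k - i)) := by
    rw [sum_comm]
    refine sum_congr rfl fun k _ => sum_congr rfl fun i _ => ?_
    rw [← he]
    congr 1; ring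
  have e3 : ∑ i ∈ range N, ∑ k ∈ range N, f (μ.rowLen i + (k - i) - μ.rowLen k)
      = 2 * ∑ i ∈ range N, ∑ k ∈ Ioo i N, f ((lN μ N i - lN μ N k : ℕ) : ℤ) := by
    rw [sum_symm_pairs (fun i k : ℕ => f (μ.rowLen i + (k - i) - μ.rowLen k))]
    · congr 1
      refine sum_congr rfl fun i hi => sum_congr rfl fun k hk => ?_
      rw [mem_range] at hi
      rw [mem_Ioo] at hk
      have a1 := μ.rowLen_anti i k hk.1.le
      congr 1
      simp only [lN]
      omega
    · intro i k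
      rw [← he]
      congr 1; ring
    · intro i
      rw [show ((μ.rowLen i : ℤ) + (i - i) - μ.rowLen i) = 0 by ring, h0]
  have e4 : ∑ i ∈ range N, ∑ k ∈ range N, f ((k : ℤ) - i)
      = 2 * ∑ i ∈ range N, ∑ m ∈ range i, f ((m : ℤ) - i) := by
    rw [sum_symm_pairs (fun i k : ℕ => f ((k : ℤ) - i))]
    · congr 1
      rw [Finset.sum_sigma', Finset.sum_sigma']
      refine Finset.sum_bij' (fun x _ => ⟨x.2, x.1⟩) (fun x _ => ⟨x.2, x.1⟩) ?_ ?_ ?_ ?_ ?_
      · rintro ⟨i, k⟩ h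
        simp only [mem_sigma, mem_range, mem_Ioo] at h ⊢; omega
      · rintro ⟨i, k⟩ h
        simp only [mem_sigma, mem_range, mem_Ioo] at h ⊢; omega
      · rintro ⟨i, k⟩ _; rfl
      · rintro ⟨i, k⟩ _; rfl
      · rintro ⟨i, k⟩ _
        simp only
        rw [← he]; congr 1; ring
    · intro i k
      rw [← he]; congr 1; ring
    · intro i; rw [sub_self, h0]
  have e5 : ∑ c ∈ μ.cells, f (cont c) + ∑ i ∈ range N, ∑ k ∈ range N, f (μ.rowLen i + (k - i))
      = ∑ i ∈ range N, ∑ m ∈ range i, f ((m : ℤ) - i)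
        + ∑ i ∈ range N, ∑ m ∈ range (lN μ N i), f ((m + 1 : ℕ) : ℤ) := by
    rw [sum_cells μ hN, ← sum_add_distrib, ← sum_add_distrib]
    refine sum_congr rfl fun i hi => ?_
    rw [mem_range] at hi
    have a : ∑ j ∈ range (μ.rowLen i), f (cont (i, j)) + ∑ k ∈ range N, f (μ.rowLen i + (k - i))
        = ∑ m ∈ range (μ.rowLen i + N), f ((m : ℤ) - i) := by
      rw [Finset.sum_range_add]
      refine congrArg₂ (· + ·) rfl (sum_congr rfl fun k _ => ?_)
      congr 1; push_cast; ring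
    have b : μ.rowLen i + N = i + (lN μ N i + 1) := by simp only [lN]; omega
    rw [a, b, Finset.sum_range_add, Finset.sum_range_succ']
    refine congrArg₂ (· + ·) rfl ?_
    have c : f (((i + 0 : ℕ) : ℤ) - i) = 0 := by
      rw [show (((i + 0 : ℕ) : ℤ) - i) = 0 by push_cast; ring, h0]
    rw [c, add_zero]
    refine sum_congr rfl fun m _ => ?_
    congr 1; push_cast; ring
  rw [e1]
  simp only [sum_sub_distrib, sum_add_distrib]
  rw [e2, e3, e4]
  linear_combination 2 * H - 2 * e5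

end second

end MP4a
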