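import Pool.Agent.Lib.MP_4a2528_ag.Concrete
import Pool.Agent.Lib.MP_4a2528_ag.Hook

/-!
Evaluation of the coupled sum at the origin of the potentials: hook lengths.
-/

set_option linter.unusedSectionVars false

namespace MP4a

open PowerSeries Finset

/-- coefficients of `2 cosh T - 2` -/
def ch2 (i : ℕ) : ℚ := if Even i ∧ 2 ≤ i then 2 / (i.factorial : ℚ) else 0

theorem sum_anti {M : Type*} [AddCommMonoid M] {N n : ℕ} (h : N < n) (F : ℕ → ℕ → M) :
    ∑ p ∈ HasAntidiagonal.antidiagonal N, F p.1 p.2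
      = ∑ j ∈ range n, if j ≤ N then F j (N - j) else 0 := by
  rw [Finset.Nat.sum_antidiagonal_eq_sum_range_succ_mk, ← Finset.sum_filter]
  refine sum_congr ?_ fun _ _ => rfl
  ext j; simp only [mem_filter, mem_range]; omega

theorem coeff_rexp (u : ℚ) (m : ℕ) : coeff m (rescale u (exp ℚ)) = u ^ m / m.factorial := by
  rw [coeff_rescale, coeff_exp]
  simp [div_eq_mul_inv]

theorem comb (a b : ℚ) {n N : ℕ} (h : N < n) : ∑ j ∈ range n, ∑ l ∈ range n,
    (if j + l ≤ N then a ^ j / j.factorial * ((-b) ^ l / l.factorial) * ch2 (N - j - l) else 0)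
    = ((a - b + 1) ^ N - 2 * (a - b) ^ N + (a - b - 1) ^ N) / N.factorial := by
  have hc : (PowerSeries.mk ch2 : ℚ⟦X⟧) = rescale 1 (exp ℚ) + rescale (-1) (exp ℚ)
      - (rescale 0 (exp ℚ) + rescale 0 (exp ℚ)) := by
    ext m
    rw [coeff_mk, map_sub, map_add, map_add, coeff_rexp, coeff_rexp, coeff_rexp, ch2]
    rcases Nat.eq_zero_or_pos m with h0 | h0
    · subst h0; norm_num
    · rw [zero_pow h0.ne', one_pow]
      rcases Nat.even_or_odd m with he | ho
      · have : 2 ≤ m := by obtain ⟨q, hq⟩ := he; omega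
        rw [if_pos ⟨he, this⟩, he.neg_one_pow]; ring
      · rw [if_neg (fun hh => (Nat.not_even_iff_odd.2 ho) hh.1), ho.neg_one_pow]; ring
  have key : rescale a (exp ℚ) * (rescale (-b) (exp ℚ) * PowerSeries.mk ch2)
      = rescale (a - b + 1) (exp ℚ) + rescale (a - b - 1) (exp ℚ)
        - (rescale (a - b) (exp ℚ) + rescale (a - b) (exp ℚ)) := by
    rw [hc, ← mul_assoc, exp_mul_exp_eq_exp_add, mul_sub, mul_add, mul_add, exp_mul_exp_eq_exp_add,
      exp_mul_exp_eq_exp_add, exp_mul_exp_eq_exp_add]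
    have a1 : a + -b + 1 = a - b + 1 := by ring
    have a2 : a + -b + -1 = a - b - 1 := by ring
    have a3 : a + -b + 0 = a - b := by ring
    rw [a1, a2, a3]
  have h2 := congrArg (coeff N) key
  rw [coeff_mul, map_sub, map_add, map_add, coeff_rexp, coeff_rexp, coeff_rexp,
    sum_anti h (fun i j => coeff i (rescale a (exp ℚ))
      * coeff j (rescale (-b) (exp ℚ) * PowerSeries.mk ch2))] at h2
  have e3 : ((a - b + 1) ^ N - 2 * (a - b) ^ N + (a - b - 1) ^ N) / (N.factorial : ℚ)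
      = (a - b + 1) ^ N / N.factorial + (a - b - 1) ^ N / N.factorial
        - ((a - b) ^ N / N.factorial + (a - b) ^ N / N.factorial) := by ring
  rw [e3, ← h2]
  refine sum_congr rfl fun j _ => ?_
  by_cases hj : j ≤ N
  · rw [if_pos hj, coeff_mul, sum_anti (n := n) (by omega : N - j < n)
      (fun i j => coeff i (rescale (-b) (exp ℚ)) * coeff j (PowerSeries.mk ch2)), mul_sum]
    refine sum_congr rfl fun l _ => ?_
    by_cases hl : j + l ≤ N
    · rw [if_pos hl, if_pos (by omega), coeff_rexp, coeff_rexp, coeff_mk]; ring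
    · rw [if_neg hl, if_neg (by omega), mul_zero]
  · rw [if_neg hj]
    exact sum_eq_zero fun l _ => if_neg (by omega)

section ev
variable {n : ℕ} {S : Type*} [CommRing S] [Algebra ℚ S] (κ : ℕ → S)

/-- the interaction function `κ(yX)` -/
noncomputable def fk (y : ℤ) : S⟦X⟧ := PowerSeries.mk fun m =>
  κ m * algebraMap ℚ S ((y : ℚ) ^ m / m.factorial)

/-- divided powers of `cX` -/
noncomputable def ej (c : ℤ) (j : ℕ) : S⟦X⟧ :=
  C (algebraMap ℚ S ((c : ℚ) ^ j / j.factorial)) * X ^ j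

theorem coeff_phi_AH (j l q : ℕ) : coeff q (phi (Pot.AH κ j l)) = if Even q then
    algebraMap ℚ S (2 / ((q + 2).factorial : ℚ)) * ((-1) ^ l * κ (j + l + q + 2)) else 0 := by
  rcases Nat.even_or_odd' q with ⟨p, hp | hp⟩
  · subst hp
    rw [coeff_phi_even, if_pos (even_two_mul p), Pot.AH, coeff_mk]
  · subst hp
    rw [coeff_phi_odd _ _ (by omega), if_neg (by simp)]

theorem neg_one_pow_alg (l : ℕ) : ((-1 : S)) ^ l = algebraMap ℚ S ((-1) ^ l) := by simp

theorem dd_fk (hκ : EvenSeq n κ) (a b : ℤ) : ∑ j : Fin n, ∑ l : Fin n,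
    phi (Pot.AH κ j l) * (X ^ 2 * (ej a j * ej b l)) = dd (fk κ) (a - b) := by
  ext N
  have hR : coeff N (dd (fk κ) (a - b)) = κ N * algebraMap ℚ S
      ((((a : ℚ) - b + 1) ^ N - 2 * ((a : ℚ) - b) ^ N + ((a : ℚ) - b - 1) ^ N) / N.factorial) := by
    rw [dd, map_add, map_sub, two_mul, map_add, fk, fk, fk, coeff_mk, coeff_mk, coeff_mk]
    push_cast
    simp only [sub_div, add_div, map_add, map_sub, two_mul]
    ring
  have hL : ∀ j l : ℕ, coeff N (phi (Pot.AH κ j l) * (X ^ 2 * (ej a j * ej b l)))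
      = κ N * algebraMap ℚ S (if j + l ≤ N then (a : ℚ) ^ j / j.factorial
        * ((-(b : ℚ)) ^ l / l.factorial) * ch2 (N - j - l) else 0) := by
    intro j l
    have e : phi (Pot.AH κ j l) * (X ^ 2 * (ej a j * ej b l)) = X ^ (2 + j + l)
        * (C (algebraMap ℚ S ((a : ℚ) ^ j / j.factorial)
          * algebraMap ℚ S ((b : ℚ) ^ l / l.factorial)) * phi (Pot.AH κ j l)) := by
      simp only [ej, map_mul, pow_add]; ring
    rw [e, coeff_X_pow_mul', coeff_C_mul, coeff_phi_AH]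
    by_cases h : 2 + j + l ≤ N
    · rw [if_pos h, if_pos (by omega : j + l ≤ N)]
      have h2 : N - (2 + j + l) + 2 = N - j - l := by omega
      have h3 : j + l + (N - (2 + j + l)) + 2 = N := by omega
      have h4 : Even (N - (2 + j + l)) ↔ Even (N - j - l) := by
        rw [← h2, Nat.even_add]; simp
      rw [h3, h2]
      by_cases he : Even (N - (2 + j + l))
      · rw [if_pos he, ch2, if_pos ⟨h4.1 he, by omega⟩, neg_pow (b : ℚ), neg_one_pow_alg]
        simp only [map_mul, mul_div_assoc]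
        ring
      · rw [if_neg he, ch2, if_neg (fun hh => he (h4.2 hh.1))]
        simp
    · rw [if_neg h]
      split_ifs with h5
      · have : ch2 (N - j - l) = 0 := by
          rw [ch2, if_neg]
          rintro ⟨_, h6⟩; omega
        rw [this]; simp
      · simp
  rw [map_sum, hR]
  simp only [map_sum, hL]
  rw [Fin.sum_univ_eq_sum_range (fun j => ∑ l : Fin n, κ N * algebraMap ℚ S
    (if j + (l : ℕ) ≤ N then (a : ℚ) ^ j / j.factorial
        * ((-(b : ℚ)) ^ (l : ℕ) / (l : ℕ).factorial) * ch2 (N - j - l) else 0)) n]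
  rcases Nat.lt_or_ge N n with h | h
  · rw [← comb _ _ h, map_sum, mul_sum]
    refine sum_congr rfl fun j _ => ?_
    rw [map_sum, mul_sum, Fin.sum_univ_eq_sum_range (fun l => κ N * algebraMap ℚ S
      (if j + l ≤ N then (a : ℚ) ^ j / j.factorial
        * ((-(b : ℚ)) ^ l / l.factorial) * ch2 (N - j - l) else 0)) n]
  · rw [hκ.big N h]; simp

theorem sum_ej (hκ : EvenSeq n κ) (c : ℤ) : ∑ j : Fin n, C (κ j) * ej c j = fk κ c := by
  ext N
  rw [map_sum, fk, coeff_mk]
  have h1 : ∀ j : ℕ, coeff N (C (κ j) * ej c j) = if N = j then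
      κ N * algebraMap ℚ S ((c : ℚ) ^ N / N.factorial) else 0 := by
    intro j
    rw [ej, coeff_C_mul, coeff_C_mul, coeff_X_pow]
    split_ifs with h
    · subst h; ring
    · ring
  simp only [h1]
  rw [Fin.sum_univ_eq_sum_range (fun j => if N = j then
      κ N * algebraMap ℚ S ((c : ℚ) ^ N / N.factorial) else 0) n, Finset.sum_ite_eq]
  split_ifs with h
  · rfl
  · rw [mem_range, not_lt] at h
    rw [hκ.big N h, zero_mul]

variable {κ}

theorem eH_rk (c : ℤ) : eH ((cP n S).rk c) = 1 := by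
  have h1 : dX ((cP n S).rk c)
      = (c : (PA n S)⟦X⟧) * ((cP n S).rk c * Tk (Qx n S) c (gx n S)) := by
    rw [Pot.rk, dX_Tk, liftD_Tk _ _ (fun _ => rfl)]
    have : (cP n S).dx (cP n S).r = (cP n S).r * gx n S := Qx_r
    rw [this, map_mul]; rfl
  have h2 : eH (Tk (Qx n S) c (gx n S)) = 0 := by
    rw [gx, map_sum, map_sum]
    refine sum_eq_zero fun j _ => ?_
    rw [map_mul, map_mul]
    have : Tk (Qx n S) c (vq S j) = C (vq S j) :=
      Tk_eq _ (by rw [dX_C, liftD_C, Qx_q]; simp) (by simp)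
    rw [this, eH, map_C]
    have : ((cev n S : PA n S →ₐ[S] S) : PA n S →+* S) (vq S j) = 0 := cev_q j
    rw [this, map_zero, zero_mul]
  have h3 : dX (eH ((cP n S).rk c)) = 0 := by
    have e : dX (eH ((cP n S).rk c)) = eH (dX ((cP n S).rk c)) := (map_dX _ _).symm
    rw [e, h1, map_mul, map_mul, h2, mul_zero, mul_zero]
  refine ode_unique (G := fun _ => 0) (causal_const 0) h3 ?_ ?_
  · exact Derivation.map_one_eq_zero _
  · rw [eH, coeff_map, Pot.rk, coeff_zero_Tk, coeff_zero_eq_constantCoeff_apply, map_one]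
    exact cev_r

theorem eH_xk (c : ℤ) : eH ((cP n S).xk c) = (c : S⟦X⟧) * X := by
  have h : (cP n S).xk c = C (vx n S) + (c : (PA n S)⟦X⟧) * X := by
    refine Tk_eq _ ?_ ?_
    · have e1 : (cP n S).dx (vx n S) = 1 := Qx_x
      have e2 : ∀ D : Derivation ℚ (PA n S)⟦X⟧ (PA n S)⟦X⟧, D ((c : (PA n S)⟦X⟧) * X)
          = (c : (PA n S)⟦X⟧) * D X := by
        intro D
        rw [Derivation.leibniz, Derivation.map_intCast]; simp
      rw [map_add, map_add, dX_C, liftD_C, e1, e2, e2, dX_X, liftD_X]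
      simp
    · simp only [map_add, coeff_zero_C]
      rw [coeff_zero_eq_constantCoeff_apply, map_mul]
      simp; rfl
  rw [h, map_add, map_mul, map_intCast]
  have e1 : eH (C (vx n S)) = 0 := by
    rw [eH, map_C]
    have : ((cev n S : PA n S →ₐ[S] S) : PA n S →+* S) (vx n S) = 0 := cev_x
    rw [this, map_zero]
  have e2 : eH (X : (PA n S)⟦X⟧) = X := by rw [eH, map_X]
  rw [e1, e2, zero_add]

theorem eH_aa (c : ℤ) (j : ℕ) : eH (aa 0 ((cP n S).xk c) 0 j) = ej c j := by
  have h0 := map_aa (eH : (PA n S)⟦X⟧ →+* S⟦X⟧) 0 ((cP n S).xk c) 0 j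
  rw [h0, eH_xk, map_zero, aa_at_zero, ej, mul_pow, ← mul_assoc,
    PowerSeries.algebraMap_apply]
  have : ((c : S⟦X⟧)) ^ j = C (algebraMap ℚ S ((c : ℚ) ^ j)) := by simp
  have e : 1 / (j.factorial : ℚ) * (c : ℚ) ^ j = (c : ℚ) ^ j / j.factorial := by ring
  rw [this, ← map_mul, ← map_mul, e]

theorem eH_pj (μ : YoungDiagram) (j : ℕ) : eH ((cP n S).pj μ j) = ∑ c ∈ μ.cells, ej (cont c) j := by
  rw [Pot.pj, map_sum]
  exact sum_congr rfl fun c _ => eH_aa _ _

theorem eH_phi_AH (j l : ℕ) : eH (phi (Pot.AH (ck (n := n) κ) j l)) = phi (Pot.AH κ j l) := by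
  ext q
  rw [eH, coeff_map, coeff_phi_AH, coeff_phi_AH]
  split_ifs
  · rw [map_mul, map_mul, RingHom.map_rat_algebraMap, map_pow, map_neg, map_one]
    have : ∀ m, ((cev n S : PA n S →ₐ[S] S) : PA n S →+* S) (ck κ m) = κ m := fun m => cev_C _
    rw [this]
  · rw [map_zero]

/-- evaluation of the interaction: a sum over hooks -/
theorem eH_qm (hκ : EvenSeq n κ) (μ : YoungDiagram) :
    eH ((cP n S).qm (ck κ) μ) = ∑ c ∈ μ.cells, fk κ (hookLen μ c) := by
  have hev : ∀ x, fk κ (-x) = fk κ x := by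
    intro x
    ext m
    rw [fk, fk, coeff_mk, coeff_mk]
    push_cast
    rcases Nat.even_or_odd m with h | h
    · rw [h.neg_pow]
    · rw [hκ.odd m h, zero_mul, zero_mul]
  have h0 : fk κ 0 = 0 := by
    ext m
    rw [fk, coeff_mk, map_zero]
    rcases Nat.eq_zero_or_pos m with h | h
    · rw [h, hκ.zero, zero_mul]
    · rw [Int.cast_zero, zero_pow h.ne', zero_div, map_zero, mul_zero]
  have H := hook_content (fk κ) μ hev h0
  have e1 : eH ((cP n S).qm (ck κ) μ) = ∑ c ∈ μ.cells, fk κ (cont c)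
      + algebraMap ℚ _ (1 / 2) * ∑ c ∈ μ.cells, ∑ c' ∈ μ.cells, dd (fk κ) (cont c - cont c') := by
    rw [Pot.qm, map_add, map_mul, RingHom.map_rat_algebraMap, map_sum, map_sum]
    refine congrArg₂ (· + ·) ?_ (congrArg₂ (· * ·) rfl ?_)
    · have : ∀ j : Fin n, eH (C (ck κ j) * (cP n S).pj μ j)
          = ∑ c ∈ μ.cells, C (κ j) * ej (cont c) j := by
        intro j
        rw [map_mul, eH_pj, eH, map_C, mul_sum]
        have : ((cev n S : PA n S →ₐ[S] S) : PA n S →+* S) (ck κ j) = κ j := cev_C _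
        rw [this]
      rw [sum_congr rfl fun j _ => this j, sum_comm]
      exact sum_congr rfl fun c _ => sum_ej κ hκ _
    · have : ∀ j l : Fin n, eH (phi (Pot.AH (ck κ) j l)
          * (X ^ 2 * ((cP n S).pj μ j * (cP n S).pj μ l)))
          = ∑ c ∈ μ.cells, ∑ c' ∈ μ.cells, phi (Pot.AH κ j l)
            * (X ^ 2 * (ej (cont c) j * ej (cont c') l)) := by
        intro j l
        rw [map_mul, map_mul, map_mul, map_pow, eH_phi_AH, eH_pj, eH_pj]
        have e2 : eH (X : (PA n S)⟦X⟧) = X := by rw [eH, map_X]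
        rw [e2, sum_mul_sum, mul_sum, mul_sum]
        refine sum_congr rfl fun c _ => ?_
        rw [mul_sum, mul_sum]
      rw [sum_congr rfl fun j _ => map_sum eH _ _]
      rw [sum_congr rfl fun j _ => sum_congr rfl fun l _ => this j l]
      rw [sum_congr rfl fun j _ => sum_comm, sum_comm]
      refine sum_congr rfl fun c _ => ?_
      rw [sum_congr rfl fun j _ => sum_comm, sum_comm]
      exact sum_congr rfl fun c' _ => dd_fk κ hκ _ _
  rw [e1]
  have hh : (algebraMap ℚ S⟦X⟧ (1 / 2)) * 2 = 1 := by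
    have : (2 : S⟦X⟧) = algebraMap ℚ _ (2 : ℚ) := (map_ofNat (algebraMap ℚ S⟦X⟧) 2).symm
    rw [this, ← map_mul]; norm_num
  linear_combination (-(algebraMap ℚ S⟦X⟧ (1 / 2))) * H
    + (∑ c ∈ μ.cells, fk κ (hookLen μ c) - ∑ c ∈ μ.cells, fk κ (cont c)) * hh

theorem eH_wt (μ : YoungDiagram) : eH ((cP n S).wt μ) = algebraMap ℚ _ (wH μ) := by
  rw [Pot.wt, map_mul, RingHom.map_rat_algebraMap, map_prod]
  rw [prod_congr rfl fun c _ => eH_rk (cont c), prod_const_one, mul_one]

/-- the coupled sum evaluated: exponential sum over hooks -/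
theorem coeff_eHH_ZZ (hκ : EvenSeq n κ) (p m : ℕ) :
    coeff m (coeff p (eHH ((cP n S).ZZ (ck κ)))) = ∑ μ ∈ ydF m, algebraMap ℚ _ (wH μ)
      * (algebraMap ℚ _ (1 / (p.factorial : ℚ)) * (∑ c ∈ μ.cells, fk κ (hookLen μ c)) ^ p) := by
  rw [coeff_eHH, Pot.coeff_ZZ, map_sum]
  refine sum_congr rfl fun μ _ => ?_
  rw [map_mul, map_mul, map_pow, RingHom.map_rat_algebraMap, eH_wt, eH_qm hκ]

end ev

end MP4a
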