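import Pool.Agent.Lib.MP_4a2528_ag.Poly

/-!
The genus zero and genus one solutions of the Toda recursion, in terms of two functions `u`, `R`.
-/

namespace MP4a

open PowerSeries

/-- potentials: commuting derivations `dx`, `dr j` and coordinates `x`, `rho j`; `r` plays the role
of `exp (rho(x))`. -/
structure Pot (n : ℕ) (A : Type*) [CommRing A] [Algebra ℚ A] where
  dx : Derivation ℚ A A
  dr : Fin n → Derivation ℚ A A
  comm_x : ∀ j a, dx (dr j a) = dr j (dx a)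
  comm_r : ∀ i j a, dr i (dr j a) = dr j (dr i a)
  x : A
  rho : Fin n → A
  dx_x : dx x = 1
  dx_rho : ∀ j, dx (rho j) = 0
  dr_x : ∀ j, dr j x = 0
  dr_rho : ∀ i j, dr i (rho j) = if i = j then 1 else 0
  r : A
  dx_r : dx r = r * dx (∑ j : Fin n, rho j * aa 0 x 0 j)
  dr_r : ∀ i, dr i r = r * dr i (∑ j : Fin n, rho j * aa 0 x 0 j)

namespace Pot

variable {n : ℕ} {A : Type*} [CommRing A] [Algebra ℚ A] (P : Pot n A)

/-- `rho(x)` -/
noncomputable def rx : A := ∑ j : Fin n, P.rho j * aa 0 P.x 0 j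

/-- `rho` extended by zero -/
noncomputable def rhoN (m : ℕ) : A := if h : m < n then P.rho ⟨m, h⟩ else 0

/-- derivation `d/dx` on `A[[z]]` -/
noncomputable def Dx : Derivation ℚ A⟦X⟧ A⟦X⟧ := liftD P.dx

/-- derivation `d/d rho_j` on `A[[z]]` -/
noncomputable def Dr (j : Fin n) : Derivation ℚ A⟦X⟧ A⟦X⟧ := liftD (P.dr j)

theorem Dx_eu (f : A⟦X⟧) : P.Dx (eu f) = eu (P.Dx f) := (eu_liftD _ _).symm
theorem Dr_eu (j : Fin n) (f : A⟦X⟧) : P.Dr j (eu f) = eu (P.Dr j f) := (eu_liftD _ _).symm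
theorem Dx_Dr (j : Fin n) (f : A⟦X⟧) : P.Dx (P.Dr j f) = P.Dr j (P.Dx f) :=
  liftD_comm (P.comm_x j) f
theorem Dr_Dr (i j : Fin n) (f : A⟦X⟧) : P.Dr i (P.Dr j f) = P.Dr j (P.Dr i f) :=
  liftD_comm (P.comm_r i j) f

@[simp] theorem cc_Dx (f : A⟦X⟧) : constantCoeff (P.Dx f) = P.dx (constantCoeff f) := by
  simp [Dx]
@[simp] theorem cc_Dr (j : Fin n) (f : A⟦X⟧) :
    constantCoeff (P.Dr j f) = P.dr j (constantCoeff f) := by simp [Dr]

@[simp] theorem Dx_Cx : P.Dx (C P.x) = 1 := by simp [Dx, P.dx_x]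
@[simp] theorem Dr_Cx (j : Fin n) : P.Dr j (C P.x) = 0 := by simp [Dr, P.dr_x]
@[simp] theorem Dx_Crho (j : Fin n) : P.Dx (C (P.rho j)) = 0 := by simp [Dx, P.dx_rho]
@[simp] theorem Dr_Crho (i j : Fin n) : P.Dr i (C (P.rho j)) = if i = j then 1 else 0 := by
  rw [Dr, liftD_C, P.dr_rho]; split_ifs <;> simp
@[simp] theorem Dx_CrhoN (j : ℕ) : P.Dx (C (P.rhoN j)) = 0 := by
  rw [rhoN]; split_ifs <;> simp

theorem Dx_CrhoN_mul (j : ℕ) (f : A⟦X⟧) : P.Dx (C (P.rhoN j) * f) = C (P.rhoN j) * P.Dx f := by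
  rw [Derivation.leibniz]; simp

theorem Dx_Crho_mul (j : Fin n) (f : A⟦X⟧) : P.Dx (C (P.rho j) * f) = C (P.rho j) * P.Dx f := by
  rw [Derivation.leibniz]; simp

/-- sums against `rho` over `Fin n` as sums over `range n` -/
theorem sum_rho (f : ℕ → A⟦X⟧) :
    ∑ j : Fin n, C (P.rho j) * f j = ∑ j ∈ Finset.range n, C (P.rhoN j) * f j := by
  rw [← Fin.sum_univ_eq_sum_range (fun j => C (P.rhoN j) * f j)]
  refine Finset.sum_congr rfl fun j _ => ?_
  simp [rhoN]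

theorem sum_shift_two (f g : ℕ → A⟦X⟧) (h0 : g 0 = 0) (h1 : g 1 = 0)
    (h : ∀ j, g (j + 2) = f j) :
    ∑ j ∈ Finset.range n, C (P.rhoN (j + 2)) * f j = ∑ j ∈ Finset.range n, C (P.rhoN j) * g j := by
  have e1 : ∑ j ∈ Finset.range (n + 2), C (P.rhoN j) * g j
      = ∑ j ∈ Finset.range n, C (P.rhoN j) * g j := by
    rw [Finset.sum_range_succ, Finset.sum_range_succ]
    simp [rhoN]
  rw [← e1, Finset.sum_range_succ', Finset.sum_range_succ', h0, h1]
  simp only [mul_zero, add_zero]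
  exact Finset.sum_congr rfl fun j _ => by rw [h]

theorem dr_rx (i : Fin n) : P.dr i P.rx = aa 0 P.x 0 i := by
  rw [rx, map_sum, Finset.sum_eq_single i]
  · rw [Derivation.leibniz, der_aa, P.dr_x, P.dr_rho]
    simp
  · intro j _ hj
    rw [Derivation.leibniz, der_aa, P.dr_x, P.dr_rho, if_neg (Ne.symm hj)]
    simp
  · intro h; exact absurd (Finset.mem_univ _) h

/-- the genus zero data -/
structure Sol0 (F : A⟦X⟧) : Prop where
  c0 : coeff 0 F = 0
  c1 : coeff 1 F = P.r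
  eq : eu (eu (eu F)) = eu (eu F) * (1 + P.Dx (P.Dx (eu F)))

variable {P}

/-- `R = (z d/dz)^2 F` -/
noncomputable def RR (F : A⟦X⟧) : A⟦X⟧ := eu (eu F)

variable (P) in
/-- `u = x + dx (z d/dz) F` -/
noncomputable def uu (F : A⟦X⟧) : A⟦X⟧ := C P.x + P.Dx (eu F)

variable (P) in
/-- `v = rho(x) + dx^2 F` -/
noncomputable def vv (F : A⟦X⟧) : A⟦X⟧ := C P.rx + P.Dx (P.Dx F)

variable {F : A⟦X⟧}

theorem coeff_zero_RR (F : A⟦X⟧) : coeff 0 (RR F) = 0 := by simp [RR]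
@[simp] theorem cc_RR (F : A⟦X⟧) : constantCoeff (RR F) = 0 := by simp [RR]
@[simp] theorem cc_uu : constantCoeff (P.uu F) = P.x := by simp [uu]
theorem Sol0.cc (h : P.Sol0 F) : constantCoeff F = 0 := by
  rw [← coeff_zero_eq_constantCoeff_apply, h.c0]
theorem cc_vv (h : P.Sol0 F) : constantCoeff (P.vv F) = P.rx := by simp [vv, h.cc]

theorem eu_uu : eu (P.uu F) = P.Dx (RR F) := by
  simp [uu, RR, Dx_eu]

theorem Dx_uu : P.Dx (P.uu F) = 1 + P.Dx (P.Dx (eu F)) := by simp [uu]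

theorem eu_vv : eu (P.vv F) = P.Dx (P.uu F) - 1 := by
  simp [vv, uu, Dx_eu]

theorem eu_RR (h : P.Sol0 F) : eu (RR F) = RR F * P.Dx (P.uu F) := by
  rw [Dx_uu]; exact h.eq

/-- `D R = R (D v)` for a derivation `D` commuting with `dx` and satisfying `D r = r D(rho(x))` -/
theorem D_RR (h : P.Sol0 F) (D : Derivation ℚ A A) (hD : ∀ a, P.dx (D a) = D (P.dx a))
    (hr : D P.r = P.r * D P.rx) : liftD D (RR F) = RR F * liftD D (P.vv F) := by
  rw [← sub_eq_zero]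
  have hc : ∀ f, P.Dx (liftD D f) = liftD D (P.Dx f) := fun f => liftD_comm hD f
  refine eq_zero_of_eu_mul (g := P.Dx (P.uu F)) ?_ ?_ ?_ ?_
  · rw [map_sub, Derivation.leibniz, eu_liftD, eu_liftD, eu_RR h, eu_vv, Derivation.leibniz, map_sub,
      Derivation.map_one_eq_zero]
    simp only [smul_eq_mul]
    ring
  · rw [Dx_uu]
    simp
  · simp
  · rw [map_sub, coeff_liftD, coeff_mul, Finset.Nat.antidiagonal_succ]
    simp [RR, coeff_liftD, h.c1, hr, cc_vv h]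

theorem Dx_RR (h : P.Sol0 F) : P.Dx (RR F) = RR F * P.Dx (P.vv F) :=
  D_RR h P.dx (fun _ => rfl) P.dx_r

theorem Dr_RR (h : P.Sol0 F) (j : Fin n) : P.Dr j (RR F) = RR F * P.Dr j (P.vv F) :=
  D_RR h (P.dr j) (fun a => P.comm_x j a) (P.dr_r j)

theorem Dr_vv (j : Fin n) : P.Dr j (P.vv F) = aa 0 (C P.x) 0 j + P.Dx (P.Dx (P.Dr j F)) := by
  rw [vv, map_add, Dx_Dr, Dx_Dr]
  congr 1
  rw [Dr, liftD_C, dr_rx, map_aa]
  simp

/-- first derivatives in the potentials -/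
theorem first_der (h : P.Sol0 F) (j : Fin n) :
    eu (P.Dr j F) = RR F * cc 0 (P.uu F) (RR F) j ∧
    P.Dx (P.Dr j F) + aa 0 (C P.x) 0 (j + 1) = aa 0 (P.uu F) (RR F) (j + 1) := by
  have key := eq_zero_of_wave P.dx
    (P := eu (P.Dr j F) - RR F * cc 0 (P.uu F) (RR F) j)
    (Q := P.Dx (P.Dr j F) + aa 0 (C P.x) 0 (j + 1) - aa 0 (P.uu F) (RR F) (j + 1))
    (R := RR F) ?_ ?_ (coeff_zero_RR F) ?_ ?_
  · exact ⟨sub_eq_zero.1 key.1, sub_eq_zero.1 key.2⟩
  · change _ = P.Dx _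
    rw [map_sub, map_add, map_sub, der_aa, der_aa, der_Rcc, eu_uu, eu_RR h]
    simp only [aa_succ_succ, cc_succ_succ, eu_C, map_zero, Dx_eu]
    ring
  · change _ = _ * P.Dx _
    have e1 : eu (eu (P.Dr j F)) = RR F * (aa 0 (C P.x) 0 j + P.Dx (P.Dx (P.Dr j F))) := by
      rw [← Dr_vv, ← Dr_RR h, RR, Dr_eu, Dr_eu]
    rw [map_sub, e1, der_Rcc, map_sub, map_add, der_aa, der_aa, eu_uu, eu_RR h]
    simp only [aa_succ_succ, cc_succ_succ, map_zero, Dx_Cx]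
    ring
  · simp
  · have e1 : coeff 0 (aa 0 (P.uu F) (RR F) (j + 1)) = aa 0 P.x 0 (j + 1) := by
      rw [coeff_zero_eq_constantCoeff_apply, map_aa (constantCoeff (R := A)), cc_RR, cc_uu]
    have e2 : coeff 0 (aa 0 (C P.x) 0 (j + 1) : A⟦X⟧) = aa 0 P.x 0 (j + 1) := by
      rw [coeff_zero_eq_constantCoeff_apply, map_aa (constantCoeff (R := A))]
      simp
    rw [map_sub, map_add, e1, e2]
    simp [h.cc]

/-- the hodograph equations -/
theorem hodograph (h : P.Sol0 F) :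
    P.uu F = C P.x + ∑ j : Fin n, C (P.rho j) * (RR F * cc 1 (P.uu F) (RR F) j) ∧
    P.vv F = ∑ j : Fin n, C (P.rho j) * aa 0 (P.uu F) (RR F) j := by
  have key := eq_zero_of_wave P.dx
    (P := C P.x + ∑ j : Fin n, C (P.rho j) * (RR F * cc 1 (P.uu F) (RR F) j) - P.uu F)
    (Q := ∑ j : Fin n, C (P.rho j) * aa 0 (P.uu F) (RR F) j - P.vv F)
    (R := RR F) ?_ ?_ (coeff_zero_RR F) ?_ ?_
  · exact ⟨(sub_eq_zero.1 key.1).symm, (sub_eq_zero.1 key.2).symm⟩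
  · change _ = P.Dx _
    rw [map_sub, map_sub, map_add, map_sum, map_sum, eu_vv, Dx_Cx]
    have : ∀ j : Fin n, eu (C (P.rho j) * aa 0 (P.uu F) (RR F) j)
        = P.Dx (C (P.rho j) * (RR F * cc 1 (P.uu F) (RR F) j)) := by
      intro j
      rw [Derivation.leibniz, Derivation.leibniz, der_aa, der_Rcc, eu_uu, eu_RR h]
      simp only [eu_C, Dx_Crho, smul_eq_mul, mul_zero, add_zero]
      ring
    simp only [this]
    ring
  · change _ = _ * P.Dx _
    rw [map_sub, map_sub, map_add, map_sum, map_sum, eu_uu, Dx_RR h, eu_C, zero_add, mul_sub,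
      Finset.mul_sum]
    congr 1
    refine Finset.sum_congr rfl fun j _ => ?_
    rw [Derivation.leibniz (D := eu), Derivation.leibniz (D := P.Dx), der_aa, der_Rcc, eu_uu, eu_RR h]
    simp only [eu_C, Dx_Crho, smul_eq_mul, mul_zero, add_zero]
    ring
  · simp
  · have e1 : ∀ j : Fin n, coeff 0 (aa 0 (P.uu F) (RR F) j) = aa 0 P.x 0 j := by
      intro j
      rw [coeff_zero_eq_constantCoeff_apply, map_aa (constantCoeff (R := A)), cc_RR, cc_uu]
    rw [map_sub, map_sum]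
    simp only [coeff_C_mul, e1]
    simp [cc_vv h, rx]

theorem Dr_uu (h : P.Sol0 F) (i : Fin n) : P.Dr i (P.uu F) =
    P.Dx (P.uu F) * (RR F * cc 1 (P.uu F) (RR F) i) + P.Dx (RR F) * aa 0 (P.uu F) (RR F) i := by
  rw [← der_Rcc, ← (first_der h i).1]
  nth_rewrite 1 [uu]
  rw [map_add, Dr_Cx, zero_add, ← Dx_Dr, Dr_eu]

theorem Dr_RR' (h : P.Sol0 F) (i : Fin n) : P.Dr i (RR F) =
    RR F * (P.Dx (P.uu F) * aa 0 (P.uu F) (RR F) i + P.Dx (RR F) * cc 1 (P.uu F) (RR F) i) := by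
  have e : P.Dx (P.Dx (P.Dr i F) + aa 0 (C P.x) 0 (i + 1)) = P.Dr i (P.vv F) := by
    rw [map_add, der_aa, Dr_vv, Dx_Cx, aa_succ_succ]
    simp [add_comm]
  rw [Dr_RR h, ← e, (first_der h i).2, der_aa, aa_succ_succ, cc_succ_succ]

/-- second derivatives -/
theorem second_der_eu (h : P.Sol0 F) (i j : Fin n) : eu (P.Dr i (P.Dr j F)) =
    alph (P.uu F) (RR F) i j * eu (RR F) + bet (P.uu F) (RR F) i j * eu (P.uu F) := by
  rw [← Dr_eu, (first_der h j).1, der_Rcc, Dr_uu h, Dr_RR' h, eu_uu, eu_RR h, alph, bet]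
  ring

theorem second_der_Dr (h : P.Sol0 F) (k i j : Fin n) : P.Dr k (P.Dr i (P.Dr j F)) =
    alph (P.uu F) (RR F) i j * P.Dr k (RR F) + bet (P.uu F) (RR F) i j * P.Dr k (P.uu F) := by
  refine eq_of_eu ?_ ?_
  · rw [← Dr_eu, second_der_eu h]
    obtain ⟨w1, h1⟩ := der_alph (P.uu F) (RR F) i j
    obtain ⟨w2, h2⟩ := der_bet (P.uu F) (RR F) i j
    simp only [map_add, Derivation.leibniz, smul_eq_mul, h1, h2, Dr_eu]
    ring
  · simp [h.cc, P.dr_x]

/-- derivative of `u` in `x`, from the hodograph equation -/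
theorem Dx_uu_eq (h : P.Sol0 F) : P.Dx (P.uu F) = 1 + ∑ j : Fin n, C (P.rho j) *
    (P.Dx (P.uu F) * (RR F * cc 2 (P.uu F) (RR F) j) + P.Dx (RR F) * aa 1 (P.uu F) (RR F) j) := by
  conv_lhs => rw [(hodograph h).1]
  rw [map_add, Dx_Cx, map_sum]
  congr 1
  refine Finset.sum_congr rfl fun j _ => ?_
  rw [Derivation.leibniz, der_Rcc]
  simp

/-! ### genus one -/

/-- the genus one recursion, relative to the genus zero solution `F` -/
structure Sol1 (P : Pot n A) (F G : A⟦X⟧) : Prop where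
  c0 : coeff 0 G = 0
  c1 : coeff 1 G = 0
  eq : eu (eu (eu G)) = eu (eu G) * (1 + P.Dx (P.Dx (eu F)))
    + eu (eu F) * (P.Dx (P.Dx (eu G)) + algebraMap ℚ _ (1 / 12) * P.Dx (P.Dx (P.Dx (P.Dx (eu F)))))

variable {G : A⟦X⟧}

theorem Sol1.cc (h : Sol1 P F G) : constantCoeff G = 0 := by
  rw [← coeff_zero_eq_constantCoeff_apply, h.c0]

theorem genus_one_wave (h : P.Sol0 F) (h1 : Sol1 P F G) : eu (eu G) =
    RR F * (P.Dx (P.Dx G) + algebraMap ℚ _ (1 / 12) * P.Dx (P.Dx (P.Dx (P.Dx F)))) := by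
  rw [← sub_eq_zero]
  refine eq_zero_of_eu_mul (g := P.Dx (P.uu F)) ?_ ?_ ?_ ?_
  · rw [map_sub, h1.eq, Derivation.leibniz, eu_RR h, Dx_uu, map_add, Derivation.leibniz,
      Derivation.map_algebraMap, RR]
    simp only [smul_eq_mul, mul_zero, add_zero, Dx_eu]
    ring
  · rw [Dx_uu]
    simp
  · simp
  · rw [map_sub, coeff_mul, Finset.Nat.antidiagonal_succ]
    simp [h1.c1, h1.cc, h.cc]

/-- `sum rho_{j+2} dF/drho_j` -/
noncomputable def TT2 (P : Pot n A) (F : A⟦X⟧) : A⟦X⟧ :=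
  ∑ j : Fin n, C (P.rhoN (j + 2)) * P.Dr j F

/-- the genus one combination `24 G + dx^2 F + sum rho_{j+2} dF/drho_j` -/
noncomputable def Phi (P : Pot n A) (F G : A⟦X⟧) : A⟦X⟧ :=
  24 * G + P.Dx (P.Dx F) + TT2 P F

/-- the discriminant `u_x^2 - R v_x^2` -/
noncomputable def Dis (P : Pot n A) (F : A⟦X⟧) : A⟦X⟧ :=
  P.Dx (P.uu F) ^ 2 - RR F * P.Dx (P.vv F) ^ 2

theorem Dx_Dx_rx : P.Dx (P.Dx (C P.rx)) = ∑ j : Fin n, C (P.rhoN (j + 2)) * aa 0 (C P.x) 0 j := by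
  have e : (C P.rx : A⟦X⟧) = ∑ j ∈ Finset.range n, C (P.rhoN j) * aa 0 (C P.x) 0 j := by
    rw [← sum_rho P (fun j => aa 0 (C P.x) 0 j), rx, map_sum]
    refine Finset.sum_congr rfl fun j _ => ?_
    rw [map_mul, map_aa]; simp
  have e2 : ∑ j : Fin n, C (P.rhoN (j + 2)) * aa 0 (C P.x) 0 j
      = ∑ j ∈ Finset.range n, C (P.rhoN (j + 2)) * (aa 0 (C P.x) 0 j : A⟦X⟧) :=
    Fin.sum_univ_eq_sum_range (fun j => C (P.rhoN (j + 2)) * (aa 0 (C P.x) 0 j : A⟦X⟧)) n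
  rw [e2, P.sum_shift_two (fun j => aa 0 (C P.x) 0 j) (fun j => aa 2 (C P.x) 0 j)
    (aa_succ_zero _ _ _) (by rw [show (1 : ℕ) = 0 + 1 from rfl, aa_succ_succ, aa_succ_zero])
    (fun j => by rw [aa_succ_succ, aa_succ_succ]), e, map_sum, map_sum]
  refine Finset.sum_congr rfl fun j _ => ?_
  rw [Dx_CrhoN_mul, der_aa, Dx_Cx, map_zero, zero_mul, add_zero, one_mul, Dx_CrhoN_mul, der_aa,
    Dx_Cx, map_zero, zero_mul, add_zero, one_mul]

theorem Phi_wave (h : P.Sol0 F) (h1 : Sol1 P F G) : eu (eu (Phi P F G)) =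
    RR F * P.Dx (P.Dx (Phi P F G)) + 2 * RR F * P.Dx (P.Dx (P.vv F))
      + RR F * P.Dx (P.vv F) ^ 2 := by
  have hT : eu (eu (TT2 P F)) = RR F * P.Dx (P.Dx (TT2 P F)) + RR F * P.Dx (P.Dx (C P.rx)) := by
    rw [Dx_Dx_rx, TT2]
    simp only [map_sum, Finset.mul_sum]
    rw [← Finset.sum_add_distrib]
    refine Finset.sum_congr rfl fun j _ => ?_
    have e1 : eu (eu (P.Dr j F)) = RR F * (aa 0 (C P.x) 0 j + P.Dx (P.Dx (P.Dr j F))) := by
      rw [← Dr_vv, ← Dr_RR h, RR, Dr_eu, Dr_eu]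
    simp only [Derivation.leibniz, eu_C, smul_eq_mul, mul_zero, add_zero, Dx_CrhoN, e1]
    ring
  have hG := genus_one_wave h h1
  have hF : eu (eu (P.Dx (P.Dx F))) = P.Dx (RR F * P.Dx (P.vv F)) := by
    rw [← Dx_RR h, RR]; simp only [Dx_eu]
  have hv : P.Dx (P.Dx (P.Dx (P.Dx F))) = P.Dx (P.Dx (P.vv F)) - P.Dx (P.Dx (C P.rx)) := by
    rw [vv, map_add, map_add]; ring
  have h12 : (24 : A⟦X⟧) * algebraMap ℚ _ (1 / 12) = 2 := by
    have : (24 : A⟦X⟧) = algebraMap ℚ _ 24 := (map_ofNat (algebraMap ℚ A⟦X⟧) 24).symm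
    rw [this, ← map_mul]
    norm_num
    exact map_ofNat (algebraMap ℚ A⟦X⟧) 2
  have h24 : ∀ D : Derivation ℚ A⟦X⟧ A⟦X⟧, ∀ f, D (24 * f) = 24 * D f := by
    intro D f
    have h' : ∀ f : A⟦X⟧, (24 : A⟦X⟧) * f = (24 : ℚ) • f := fun f => by
      rw [Algebra.smul_def, map_ofNat (algebraMap ℚ A⟦X⟧) 24]
    rw [h', h', D.map_smul]
  rw [Phi]
  simp only [map_add, h24, hT, hG, hF, hv, Derivation.leibniz, smul_eq_mul]
  rw [Dx_RR h]
  linear_combination (RR F * (P.Dx (P.Dx (P.vv F)) - P.Dx (P.Dx (C P.rx)))) * h12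

theorem Dis_cc (h : P.Sol0 F) : constantCoeff (Dis P F) = 1 := by
  have : constantCoeff (P.Dx (P.uu F)) = 1 := by simp [P.dx_x]
  rw [Dis, map_sub, map_pow, this, map_mul, cc_RR]
  simp

/-- the derivations of `Dis` by `eu` and `Dx` -/
theorem Dis_key (h : P.Sol0 F) :
    Dis P F * eu (eu (Dis P F)) - eu (Dis P F) ^ 2
      - RR F * (Dis P F * P.Dx (P.Dx (Dis P F)) - P.Dx (Dis P F) ^ 2)
      = Dis P F ^ 2 * (2 * RR F * P.Dx (P.Dx (P.vv F)) + RR F * P.Dx (P.vv F) ^ 2) := by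
  have e1 : eu (P.Dx (P.uu F)) = RR F * P.Dx (P.vv F) ^ 2 + RR F * P.Dx (P.Dx (P.vv F)) := by
    rw [← Dx_eu, eu_uu, Dx_RR h, Derivation.leibniz, Dx_RR h]
    simp only [smul_eq_mul]; ring
  have e2 : eu (P.Dx (P.vv F)) = P.Dx (P.Dx (P.uu F)) := by
    rw [← Dx_eu, eu_vv]; simp
  have e3 := eu_RR h
  have e4 := Dx_RR h
  have e5 : eu (P.Dx (P.Dx (P.uu F))) = RR F * P.Dx (P.vv F) ^ 3
      + 3 * RR F * P.Dx (P.vv F) * P.Dx (P.Dx (P.vv F)) + RR F * P.Dx (P.Dx (P.Dx (P.vv F))) := by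
    rw [← Dx_eu, e1]
    simp only [map_add, Derivation.leibniz, Derivation.leibniz_pow, smul_eq_mul, e4,
      nsmul_eq_mul]
    push_cast
    ring
  have e6 : eu (P.Dx (P.Dx (P.vv F))) = P.Dx (P.Dx (P.Dx (P.uu F))) := by
    rw [← Dx_eu, e2]
  generalize hp : P.Dx (P.uu F) = p at *
  generalize hq : P.Dx (P.vv F) = q at *
  generalize hR : RR F = R at *
  have d1 : eu (Dis P F) = R * p * q ^ 2 + 2 * R * p * P.Dx q - 2 * R * q * P.Dx p := by
    rw [Dis, hp, hq, hR]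
    simp only [map_sub, Derivation.leibniz, Derivation.leibniz_pow, smul_eq_mul, e1, e2, e3,
      nsmul_eq_mul]
    push_cast
    ring
  have d2 : P.Dx (Dis P F) = 2 * p * P.Dx p - R * q ^ 3 - 2 * R * q * P.Dx q := by
    rw [Dis, hp, hq, hR]
    simp only [map_sub, Derivation.leibniz, Derivation.leibniz_pow, smul_eq_mul, e4,
      nsmul_eq_mul]
    push_cast
    ring
  have two : ∀ (D : Derivation ℚ A⟦X⟧ A⟦X⟧) (f : A⟦X⟧), D (2 * f) = 2 * D f := by
    intro D f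
    have h' : ∀ f : A⟦X⟧, (2 : A⟦X⟧) * f = (2 : ℚ) • f := fun f => by
      rw [Algebra.smul_def, map_ofNat (algebraMap ℚ A⟦X⟧) 2]
    rw [h', h', D.map_smul]
  have d3 : eu (eu (Dis P F)) = R * p * (p * q ^ 2)
      + R * ((R * q ^ 2 + R * P.Dx q) * q ^ 2 + 2 * p * q * P.Dx p)
      + 2 * (R * p * p * P.Dx q + R * (R * q ^ 2 + R * P.Dx q) * P.Dx q
        + R * p * P.Dx (P.Dx p))
      - 2 * (R * p * q * P.Dx p + R * P.Dx p * P.Dx p
        + R * q * (R * q ^ 3 + 3 * R * q * P.Dx q + R * P.Dx (P.Dx q))) := by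
    have r1 : eu (Dis P F) = R * (p * q ^ 2) + 2 * (R * (p * P.Dx q)) - 2 * (R * (q * P.Dx p)) := by
      rw [d1]; ring
    rw [r1]
    simp only [map_add, map_sub, two, Derivation.leibniz, Derivation.leibniz_pow, smul_eq_mul, e1,
      e2, e3, e5, e6, nsmul_eq_mul]
    push_cast
    ring
  have d4 : P.Dx (P.Dx (Dis P F)) = 2 * (P.Dx p ^ 2 + p * P.Dx (P.Dx p))
      - (R * q * q ^ 3 + R * (3 * q ^ 2 * P.Dx q))
      - 2 * (R * q * (q * P.Dx q) + R * (P.Dx q ^ 2 + q * P.Dx (P.Dx q))) := by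
    have r1 : P.Dx (Dis P F) = 2 * (p * P.Dx p) - R * q ^ 3 - 2 * (R * (q * P.Dx q)) := by
      rw [d2]; ring
    rw [r1]
    simp only [map_sub, two, Derivation.leibniz, Derivation.leibniz_pow, smul_eq_mul,
      e4, nsmul_eq_mul]
    push_cast
    ring
  rw [d3, d4, d1, d2, Dis, hp, hq, hR]
  ring

theorem der_inv {B : Type*} [CommRing B] [Algebra ℚ B] (D : Derivation ℚ B B) {d e : B}
    (h : d * e = 1) : D e = -(e ^ 2) * D d := by
  have h2 : d * D e + e * D d = 0 := by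
    have := congrArg D h
    rwa [Derivation.leibniz, Derivation.map_one_eq_zero] at this
  linear_combination e * h2 - D e * h

theorem Phi_eu (h : P.Sol0 F) (h1 : Sol1 P F G) :
    Dis P F * eu (Phi P F G) = eu (Dis P F) := by
  obtain ⟨E, hE⟩ : ∃ E, Dis P F * E = 1 := by
    have : IsUnit (Dis P F) := by
      rw [PowerSeries.isUnit_iff_constantCoeff, Dis_cc h]; exact isUnit_one
    exact this.exists_right_inv
  have key := eq_zero_of_wave P.dx
    (P := eu (Phi P F G) - eu (Dis P F) * E)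
    (Q := P.Dx (Phi P F G) - P.Dx (Dis P F) * E)
    (R := RR F) ?_ ?_ (coeff_zero_RR F) ?_ ?_
  · have := sub_eq_zero.1 key.1
    rw [this]
    linear_combination eu (Dis P F) * hE
  · change _ = P.Dx _
    rw [map_sub, map_sub, Derivation.leibniz, Derivation.leibniz, der_inv eu hE, der_inv P.Dx hE,
      Dx_eu, Dx_eu]
    simp only [smul_eq_mul]
    ring
  · change _ = _ * P.Dx _
    have hk := Dis_key h
    rw [map_sub, map_sub, Phi_wave h h1, Derivation.leibniz, Derivation.leibniz, der_inv eu hE,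
      der_inv P.Dx hE]
    simp only [smul_eq_mul]
    linear_combination (-(E ^ 2)) * hk
      + (eu (eu (Dis P F)) * E - RR F * P.Dx (P.Dx (Dis P F)) * E
        - (2 * RR F * P.Dx (P.Dx (P.vv F)) + RR F * P.Dx (P.vv F) ^ 2)
          * (Dis P F * E + 1)) * hE
  · simp
  · have h3 := Dis_cc h
    have h4 : constantCoeff (Phi P F G) = 0 := by
      rw [Phi, TT2]; simp [h.cc, h1.cc]
    simp [h3, h4]

/-- any derivation commuting with `eu` -/
theorem Phi_D (h : P.Sol0 F) (h1 : Sol1 P F G) (D : Derivation ℚ A A) :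
    Dis P F * liftD D (Phi P F G) = liftD D (Dis P F) := by
  obtain ⟨E, hE⟩ : ∃ E, Dis P F * E = 1 := by
    have : IsUnit (Dis P F) := by
      rw [PowerSeries.isUnit_iff_constantCoeff, Dis_cc h]; exact isUnit_one
    exact this.exists_right_inv
  have e0 := Phi_eu h h1
  have e1 : eu (Phi P F G) = eu (Dis P F) * E := by linear_combination E * e0 - eu (Phi P F G) * hE
  have key : liftD D (Phi P F G) = liftD D (Dis P F) * E := by
    refine eq_of_eu ?_ ?_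
    · rw [eu_liftD, e1, Derivation.leibniz, Derivation.leibniz, der_inv eu hE,
        der_inv (liftD D) hE, eu_liftD]
      simp only [smul_eq_mul]
      ring
    · have h3 := Dis_cc h
      have h4 : constantCoeff (Phi P F G) = 0 := by
        rw [Phi, TT2]; simp [h.cc, h1.cc]
      simp [h3, h4]
  rw [key]
  linear_combination liftD D (Dis P F) * hE

end Pot

end MP4a
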