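import Pool.Agent.Lib.MP_4a2528_ag.HCoef

/-!
The Toda equation for the sum over Young diagrams.
-/

set_option linter.unusedSectionVars false

namespace MP4a

open PowerSeries Matrix Finset

variable {A : Type*} [CommRing A] [Algebra ℚ A]

/-- the inverse square of the product of hooks -/
noncomputable def wH (μ : YoungDiagram) : ℚ := (∏ c ∈ μ.cells, ((hookLen μ c : ℚ)) ^ 2)⁻¹

/-- the sum over Young diagrams weighted by `∏ r_{s+c} / h^2` -/
noncomputable def tau (r : ℤ → A) (s : ℤ) : A⟦X⟧ := PowerSeries.mk fun n =>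
  ∑ μ ∈ ydF n, algebraMap ℚ A (wH μ) * ∏ c ∈ μ.cells, r (s + cont c)

/-- partial products -/
def Gp (r : ℤ → A) (t : ℤ) (l : ℕ) : A := ∏ m ∈ range l, r (t + m)

/-- the weights -/
noncomputable def omt (r : ℤ → A) (t : ℤ) (l : ℕ) : A :=
  algebraMap ℚ A (1 / (l.factorial : ℚ) ^ 2) * Gp r t l

/-- the constant prefactor -/
def Cp (r : ℤ → A) (t : ℤ) (N : ℕ) : A := ∏ i ∈ range N, Gp r t i

theorem prod_pairs {M : Type*} [CommMonoid M] (N : ℕ) (f : ℕ → ℕ → M) :
    ∏ i : Fin N, ∏ j ∈ Ioi i, f i j = ∏ i ∈ range N, ∏ k ∈ Ioo i N, f i k := by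
  rw [← Fin.prod_univ_eq_prod_range (fun i => ∏ k ∈ Ioo i N, f i k) N]
  refine prod_congr rfl fun i _ => ?_
  rw [← Fin.map_valEmbedding_Ioi, prod_map]
  rfl

theorem Vd_gmu_sq {n N : ℕ} (hnN : n ≤ N) {μ : YoungDiagram} (hμ : μ ∈ ydF n) :
    (Vd (gmu N μ) : A) ^ 2 * algebraMap ℚ A (∏ i ∈ range N, (1 / ((lN μ N i).factorial : ℚ) ^ 2))
      = algebraMap ℚ A (wH μ) := by
  have hμ' := mem_ydF.1 hμ
  have hc : μ.colLen 0 ≤ N := (colLen_le_card μ).trans (by omega)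
  -- reverse the order
  have e1 : (Vd (gmu N μ) : A) ^ 2 = (Vd (gmu N μ ∘ Fin.revPerm) : A) ^ 2 := by
    rw [Vd_perm, mul_pow]
    have : (((Equiv.Perm.sign (Fin.revPerm : Equiv.Perm (Fin N)) : ℤ) : A)) ^ 2 = 1 := by
      rcases Int.units_eq_one_or (Equiv.Perm.sign (Fin.revPerm : Equiv.Perm (Fin N))) with h | h <;>
        simp [h]
    rw [this, one_mul]
  have e2 : ∀ i : Fin N, (gmu N μ ∘ Fin.revPerm) i = lN μ N i := by
    intro i
    simp only [Function.comp, gmu, Fin.revPerm_apply, Fin.val_rev]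
    congr 1
    have := i.2
    omega
  have e3 : (Vd (gmu N μ ∘ Fin.revPerm) : A) ^ 2
      = algebraMap ℚ A ((∏ i ∈ range N, ∏ k ∈ Ioo i N, ((lN μ N i - lN μ N k : ℕ) : ℚ)) ^ 2) := by
    rw [Vd, det_vandermonde]
    have : ∀ i : Fin N, ((gmu N μ ∘ Fin.revPerm) i : A) = ((lN μ N i : ℕ) : A) := fun i => by
      rw [e2]
    simp only [this]
    rw [prod_pairs N (fun i k => ((lN μ N k : ℕ) : A) - ((lN μ N i : ℕ) : A)), ← prod_pow,
      ← prod_pow, map_prod]
    refine prod_congr rfl fun i hi => ?_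
    rw [← prod_pow, ← prod_pow, map_prod]
    refine prod_congr rfl fun k hk => ?_
    rw [mem_Ioo] at hk
    have a1 := μ.rowLen_anti i k hk.1.le
    have a2 : lN μ N k ≤ lN μ N i := by simp only [lN]; omega
    rw [Nat.cast_sub a2, map_pow, map_sub, map_natCast, map_natCast]
    ring
  have H := hook_prod μ hc (fun m => (m : ℚ))
  have e4 : ∏ i ∈ range N, ∏ m ∈ range (lN μ N i), (((m + 1 : ℕ)) : ℚ)
      = ∏ i ∈ range N, ((lN μ N i).factorial : ℚ) := by
    refine prod_congr rfl fun i _ => ?_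
    rw [← Nat.cast_prod, Finset.prod_range_add_one_eq_factorial]
  rw [e4] at H
  rw [e1, e3, ← map_mul]
  congr 1
  have hh : ∏ c ∈ μ.cells, (hookLen μ c : ℚ) ≠ 0 := by
    rw [prod_ne_zero_iff]
    intro c hc
    have := hook_pos ((YoungDiagram.mem_cells c).1 hc)
    exact_mod_cast this.ne'
  have hf : ∏ i ∈ range N, ((lN μ N i).factorial : ℚ) ≠ 0 := by
    rw [prod_ne_zero_iff]
    intro i _
    exact_mod_cast (Nat.factorial_ne_zero _)
  have e5 : ∏ i ∈ range N, (1 / ((lN μ N i).factorial : ℚ) ^ 2)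
      = 1 / (∏ i ∈ range N, ((lN μ N i).factorial : ℚ)) ^ 2 := by
    rw [prod_div_distrib, prod_const_one, prod_pow]
  rw [wH, prod_pow, e5, ← H]
  rw [← H] at hf
  have hv := right_ne_zero_of_mul hf
  field_simp

theorem gmu_term {n N : ℕ} (hnN : n ≤ N) {μ : YoungDiagram} (hμ : μ ∈ ydF n) (r : ℤ → A) (s : ℤ) :
    (Vd (gmu N μ) : A) ^ 2 * ∏ i, omt r (s - N + 1) (gmu N μ i)
      = Cp r (s - N + 1) N * (algebraMap ℚ A (wH μ) * ∏ c ∈ μ.cells, r (s + cont c)) := by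
  have hμ' := mem_ydF.1 hμ
  have hc : μ.colLen 0 ≤ N := (colLen_le_card μ).trans (by omega)
  have e1 : ∏ i : Fin N, omt r (s - N + 1) (gmu N μ i)
      = ∏ i ∈ range N, omt r (s - N + 1) (lN μ N i) := by
    rw [← Finset.prod_range_reflect (fun i => omt r (s - N + 1) (lN μ N i)) N]
    exact Fin.prod_univ_eq_prod_range (fun i => omt r (s - N + 1) (lN μ N (N - 1 - i))) N
  have e2 : ∏ i ∈ range N, omt r (s - N + 1) (lN μ N i)
      = algebraMap ℚ A (∏ i ∈ range N, (1 / ((lN μ N i).factorial : ℚ) ^ 2))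
        * ∏ i ∈ range N, Gp r (s - N + 1) (lN μ N i) := by
    rw [map_prod, ← prod_mul_distrib]
    rfl
  have e3 : ∏ i ∈ range N, Gp r (s - N + 1) (lN μ N i)
      = (∏ c ∈ μ.cells, r (s + cont c)) * Cp r (s - N + 1) N := (cont_prod μ hc r s).symm
  rw [e1, e2, ← mul_assoc, Vd_gmu_sq hnN hμ, e3]
  ring

/-- coefficients of the Hankel determinant -/
theorem coeff_Hd_tau {n N : ℕ} (hnN : n ≤ N) (r : ℤ → A) (s : ℤ) :
    coeff (n + ∑ i ∈ range N, i) (Hd (omt r (s - N + 1)) N)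
      = Cp r (s - N + 1) N * coeff n (tau r s) := by
  rw [coeff_Hd_SM, ← sum_ydF hnN (fun g => (Vd g : A) ^ 2 * ∏ i, omt r (s - N + 1) (g i)), tau,
    coeff_mk, Finset.mul_sum]
  exact sum_congr rfl fun μ hμ => gmu_term hnN hμ r s

theorem coeff_Hd_low {N m : ℕ} (om : ℕ → A) (h : m < ∑ i ∈ range N, i) :
    coeff m (Hd om N) = 0 := by
  rw [coeff_Hd_SM, SM_empty h, sum_empty]

/-- the Hankel determinant divided by the power of the variable -/
noncomputable def Hr (om : ℕ → A) (N : ℕ) : A⟦X⟧ :=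
  PowerSeries.mk fun n => coeff (n + ∑ i ∈ range N, i) (Hd om N)

theorem Hd_eq (om : ℕ → A) (N : ℕ) : Hd om N = X ^ (∑ i ∈ range N, i) * Hr om N := by
  ext m
  rw [coeff_X_pow_mul']
  split_ifs with h
  · rw [Hr, coeff_mk, Nat.sub_add_cancel h]
  · rw [coeff_Hd_low om (by omega)]

theorem ydF_zero : ydF 0 = {⊥} := by
  ext μ
  rw [mem_ydF, mem_singleton]
  constructor
  · intro h
    refine YoungDiagram.ext ?_
    rw [YoungDiagram.cells_bot]
    exact card_eq_zero.1 h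
  · rintro rfl
    rfl

theorem coeff_zero_tau (r : ℤ → A) (s : ℤ) : coeff 0 (tau r s) = 1 := by
  rw [tau, coeff_mk, ydF_zero, sum_singleton, wH, YoungDiagram.cells_bot]
  simp

theorem Cp_ne [IsDomain A] {r : ℤ → A} (hr : ∀ k, r k ≠ 0) (t : ℤ) (N : ℕ) : Cp r t N ≠ 0 := by
  have hG : ∀ l, Gp r t l ≠ 0 := by
    intro l
    induction l with
    | zero => simp [Gp]
    | succ l ih =>
      have : Gp r t (l + 1) = Gp r t l * r (t + l) := by rw [Gp, prod_range_succ]; rfl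
      rw [this]; exact mul_ne_zero ih (hr _)
  induction N with
  | zero => simp [Cp]
  | succ N ih =>
    have : Cp r t (N + 1) = Cp r t N * Gp r t N := by rw [Cp, prod_range_succ]; rfl
    rw [this]; exact mul_ne_zero ih (hG _)

theorem coeff_Hr {n N : ℕ} (hnN : n ≤ N) (r : ℤ → A) (s t : ℤ) (ht : t = s - N + 1) :
    coeff n (Hr (omt r t) N) = Cp r t N * coeff n (tau r s) := by
  subst ht
  rw [Hr, coeff_mk, coeff_Hd_tau hnN]

theorem X_pow_nzd (m : ℕ) : (X ^ m : A⟦X⟧) ∈ nonZeroDivisors A⟦X⟧ :=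
  pow_mem (MvPowerSeries.X_mem_nonzeroDivisors (R := A) (i := ())) m

theorem Hd_nzd [IsDomain A] {r : ℤ → A} (hr : ∀ k, r k ≠ 0) (t : ℤ) (q : ℕ) :
    Hd (omt r t) q ∈ nonZeroDivisors A⟦X⟧ := by
  rw [Hd_eq]
  refine mul_mem (X_pow_nzd _) ?_
  refine mem_nonZeroDivisors_of_ne_zero fun h0 => Cp_ne hr t q ?_
  have h1 := coeff_Hr (Nat.zero_le q) r (t + q - 1) t (by ring)
  rw [h0, map_zero, coeff_zero_tau, mul_one] at h1
  exact h1.symm

theorem eu_X_pow (e : ℕ) : eu (X ^ e : A⟦X⟧) = (e : A⟦X⟧) * X ^ e := by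
  rw [Derivation.leibniz_pow, eu_X]
  rcases e with _ | e
  · simp
  · simp only [Nat.add_sub_cancel, smul_eq_mul, nsmul_eq_mul, pow_succ]

theorem toda_Hr [IsDomain A] {r : ℤ → A} (hr : ∀ k, r k ≠ 0) (t : ℤ) (q : ℕ) :
    Hr (omt r t) (q + 1) * eu (eu (Hr (omt r t) (q + 1))) - eu (Hr (omt r t) (q + 1)) ^ 2
      = X * (Hr (omt r t) (q + 2) * Hr (omt r t) q) := by
  have h := toda_Hd (omt r t) q (Hd_nzd hr t q)
  rw [Hd_eq (omt r t) (q + 1), Hd_eq (omt r t) (q + 2), Hd_eq (omt r t) q] at h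
  set f := Hr (omt r t) (q + 1)
  set e := ∑ i ∈ range (q + 1), i with he
  have e0 : e = ∑ i ∈ range q, i + q := by rw [he, sum_range_succ]
  have e2 : ∑ i ∈ range (q + 2), i = e + (q + 1) := by rw [sum_range_succ]
  have d1 : eu (X ^ e * f) = X ^ e * ((e : A⟦X⟧) * f + eu f) := by
    rw [Derivation.leibniz, eu_X_pow]
    simp only [smul_eq_mul]; ring
  have d2 : eu (eu (X ^ e * f)) = X ^ e * ((e : A⟦X⟧) * ((e : A⟦X⟧) * f + eu f)
      + ((e : A⟦X⟧) * eu f + eu (eu f))) := by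
    have : eu ((e : A⟦X⟧) * f + eu f) = (e : A⟦X⟧) * eu f + eu (eu f) := by
      rw [map_add, Derivation.leibniz, Derivation.map_natCast]
      simp
    rw [d1, Derivation.leibniz, eu_X_pow, this]
    simp only [smul_eq_mul]; ring
  rw [d2, d1] at h
  refine (mul_cancel_left_mem_nonZeroDivisors (X_pow_nzd (A := A) (e + e))).1 ?_
  have h3 : (X : A⟦X⟧) ^ (e + e) * X = X ^ (∑ i ∈ range (q + 2), i) * X ^ (∑ i ∈ range q, i) := by
    rw [← pow_succ, ← pow_add]
    congr 1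
    omega
  rw [← mul_assoc, h3]
  calc X ^ (e + e) * (f * eu (eu f) - eu f ^ 2)
      = X ^ e * f * (X ^ e * ((e : A⟦X⟧) * ((e : A⟦X⟧) * f + eu f)
        + ((e : A⟦X⟧) * eu f + eu (eu f)))) - (X ^ e * ((e : A⟦X⟧) * f + eu f)) ^ 2 := by
        rw [pow_add]; ring
    _ = _ := by rw [h]; ring

/-- agreement of coefficients up to `n` -/
def Agr (n : ℕ) (f g : A⟦X⟧) : Prop := ∀ i ≤ n, coeff i f = coeff i g

theorem Agr.mul {n : ℕ} {f g f' g' : A⟦X⟧} (h : Agr n f g) (h' : Agr n f' g') :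
    Agr n (f * f') (g * g') := by
  intro i hi
  rw [coeff_mul, coeff_mul]
  refine sum_congr rfl fun q hq => ?_
  rw [Finset.HasAntidiagonal.mem_antidiagonal] at hq
  rw [h q.1 (by omega), h' q.2 (by omega)]

theorem Agr.sub {n : ℕ} {f g f' g' : A⟦X⟧} (h : Agr n f g) (h' : Agr n f' g') :
    Agr n (f - f') (g - g') := by
  intro i hi
  rw [map_sub, map_sub, h i hi, h' i hi]

theorem Agr.eu {n : ℕ} {f g : A⟦X⟧} (h : Agr n f g) : Agr n (MP4a.eu f) (MP4a.eu g) := by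
  intro i hi
  rw [coeff_eu, coeff_eu, h i hi]

theorem Agr.refl {n : ℕ} (f : A⟦X⟧) : Agr n f f := fun _ _ => rfl

/-- the Toda equation -/
theorem toda [IsDomain A] {r : ℤ → A} (hr : ∀ k, r k ≠ 0) (s : ℤ) :
    tau r s * eu (eu (tau r s)) - eu (tau r s) ^ 2
      = X * C (r s) * (tau r (s + 1) * tau r (s - 1)) := by
  ext n
  set q := n + 1 with hq
  set t : ℤ := s - q with ht
  have h := congrArg (coeff n) (toda_Hr hr t q)
  have a1 : Agr n (Hr (omt r t) (q + 1)) (C (Cp r t (q + 1)) * tau r s) := by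
    intro i hi
    rw [coeff_C_mul, coeff_Hr (by omega) r s t (by push_cast; ring)]
  have a2 : Agr n (Hr (omt r t) (q + 2)) (C (Cp r t (q + 2)) * tau r (s + 1)) := by
    intro i hi
    rw [coeff_C_mul, coeff_Hr (by omega) r (s + 1) t (by push_cast; ring)]
  have a3 : Agr n (Hr (omt r t) q) (C (Cp r t q) * tau r (s - 1)) := by
    intro i hi
    rw [coeff_C_mul, coeff_Hr (by omega) r (s - 1) t (by ring)]
  have b1 : Agr n (Hr (omt r t) (q + 1) * eu (eu (Hr (omt r t) (q + 1)))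
      - eu (Hr (omt r t) (q + 1)) ^ 2)
      (C (Cp r t (q + 1) ^ 2) * (tau r s * eu (eu (tau r s)) - eu (tau r s) ^ 2)) := by
    have e : C (Cp r t (q + 1) ^ 2) * (tau r s * eu (eu (tau r s)) - eu (tau r s) ^ 2)
        = (C (Cp r t (q + 1)) * tau r s) * eu (eu (C (Cp r t (q + 1)) * tau r s))
          - eu (C (Cp r t (q + 1)) * tau r s) * eu (C (Cp r t (q + 1)) * tau r s) := by
      have : ∀ c : A, ∀ f : A⟦X⟧, eu (C c * f) = C c * eu f := by
        intro c f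
        rw [Derivation.leibniz, eu_C]; simp
      simp only [this, map_pow]
      ring
    rw [e, pow_two (eu (Hr (omt r t) (q + 1)))]
    exact (a1.mul a1.eu.eu).sub (a1.eu.mul a1.eu)
  have b2 : Agr n (X * (Hr (omt r t) (q + 2) * Hr (omt r t) q))
      (C (Cp r t (q + 1) ^ 2) * (X * C (r s) * (tau r (s + 1) * tau r (s - 1)))) := by
    have c1 : Cp r t (q + 2) * Cp r t q = Cp r t (q + 1) ^ 2 * r s := by
      have g1 : Cp r t (q + 2) = Cp r t (q + 1) * Gp r t (q + 1) := by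
        rw [Cp, prod_range_succ]; rfl
      have g2 : Cp r t (q + 1) = Cp r t q * Gp r t q := by
        rw [Cp, prod_range_succ]; rfl
      have g3 : Gp r t (q + 1) = Gp r t q * r s := by
        rw [Gp, prod_range_succ, ht]
        congr 2
        ring
      rw [g1, g3, pow_two]
      nth_rewrite 3 [g2]
      ring
    have e : C (Cp r t (q + 1) ^ 2) * (X * C (r s) * (tau r (s + 1) * tau r (s - 1)))
        = X * ((C (Cp r t (q + 2)) * tau r (s + 1)) * (C (Cp r t q) * tau r (s - 1))) := by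
      have c2 := congrArg (C (R := A)) c1
      simp only [map_mul] at c2
      linear_combination (-(X * (tau r (s + 1) * tau r (s - 1)))) * c2
    rw [e]
    exact (Agr.refl X).mul (a2.mul a3)
  rw [b1 n le_rfl, b2 n le_rfl, coeff_C_mul, coeff_C_mul] at h
  exact mul_left_cancel₀ (pow_ne_zero 2 (Cp_ne hr t (q + 1))) h

end MP4a
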