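import Pool.Agent.Lib.MP_4a2528_ag.Shift
import Pool.Agent.Lib.MP_4a2528_ag.Toda
import Pool.Agent.Lib.MP_4a2528_ag.StatB

/-!
Exact genus expansion of the logarithm of the sum over Young diagrams.
-/

set_option linter.unusedSectionVars false

namespace MP4a

open PowerSeries Finset

theorem extT_X {A : Type*} [CommRing A] (T : A →+* A⟦X⟧) : extT T X = X := by
  ext m
  rw [coeff_extT]
  rcases m with _ | m
  · simp [coeff_X]
  · rw [Finset.sum_eq_single (m, 1)]
    · simp only [coeff_X, if_true, map_one, coeff_one]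
      by_cases h : m = 0 <;> simp [h]
    · rintro ⟨i, j⟩ hp hne
      rw [HasAntidiagonal.mem_antidiagonal] at hp
      have hj : j ≠ 1 := by
        rintro rfl; exact hne (by simp at hp; simp [hp])
      simp [coeff_X, hj]
    · intro h; exact absurd (by simp) h

section general
variable {R : Type*} [CommRing R] [Algebra ℚ R]

theorem exists_log (τ : R⟦X⟧) (h : constantCoeff τ = 1) :
    ∃ L : R⟦X⟧, constantCoeff L = 0 ∧ eu L * τ = eu τ := by
  obtain ⟨τi, hi⟩ : ∃ E, τ * E = 1 := by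
    have : IsUnit τ := by
      rw [PowerSeries.isUnit_iff_constantCoeff, h]; exact isUnit_one
    exact this.exists_right_inv
  refine ⟨PowerSeries.mk fun n => algebraMap ℚ R ((n : ℚ)⁻¹) * coeff n (eu τ * τi), ?_, ?_⟩
  · rw [← coeff_zero_eq_constantCoeff_apply, coeff_mk]; simp
  · have : eu (PowerSeries.mk fun n => algebraMap ℚ R ((n : ℚ)⁻¹) * coeff n (eu τ * τi))
        = eu τ * τi := by
      ext n
      rw [coeff_eu, coeff_mk]
      rcases Nat.eq_zero_or_pos n with hn | hn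
      · subst hn; simp
      · have h2 : (n : R) = algebraMap ℚ R (n : ℚ) := by simp
        rw [← mul_assoc, h2, ← map_mul, mul_inv_cancel₀ (by exact_mod_cast hn.ne'), map_one,
          one_mul]
    rw [this, mul_assoc, mul_comm τi, hi, mul_one]

/-- recursively defined coefficients -/
noncomputable def Fseq (δ : R → R) (r : R) (n : ℕ) : R :=
  if n = 0 then 0 else if n = 1 then r else
    algebraMap ℚ R (1 / ((n : ℚ) ^ 2 * (n - 1))) *
      ∑ i : Fin n, if _h : 0 < (i : ℕ) then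
        ((i : ℕ) : R) ^ 2 * Fseq δ r i * δ (((n - i : ℕ) : R) * Fseq δ r (n - i)) else 0
termination_by n

theorem exists_rec (δ : R → R) (h0 : δ 0 = 0) (r : R) : ∃ F : R⟦X⟧, coeff 0 F = 0 ∧ coeff 1 F = r ∧
    eu (eu (eu F)) = eu (eu F) * (1 + PowerSeries.mk fun n => δ (coeff n (eu F))) := by
  refine ⟨PowerSeries.mk (Fseq δ r), ?_, ?_, ?_⟩
  · rw [coeff_mk, Fseq]; simp
  · rw [coeff_mk, Fseq]; simp
  · ext n
    rw [mul_add, mul_one, map_add, coeff_mul]
    simp only [coeff_eu, coeff_mk]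
    rcases Nat.lt_or_ge n 2 with hn | hn
    · have z : ∑ p ∈ HasAntidiagonal.antidiagonal n, ((p.1 : R) * ((p.1 : R) * Fseq δ r p.1))
          * δ ((p.2 : R) * Fseq δ r p.2) = 0 := by
        refine sum_eq_zero fun p hp => ?_
        rw [HasAntidiagonal.mem_antidiagonal] at hp
        rcases Nat.eq_zero_or_pos p.1 with h | h
        · simp [h]
        · have : p.2 = 0 := by omega
          simp [this, h0]
      rw [z]
      interval_cases n <;> simp
    · have e1 : ∑ p ∈ HasAntidiagonal.antidiagonal n, ((p.1 : R) * ((p.1 : R) * Fseq δ r p.1))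
          * δ ((p.2 : R) * Fseq δ r p.2)
          = ∑ i : Fin n, if _h : 0 < (i : ℕ) then
        ((i : ℕ) : R) ^ 2 * Fseq δ r i * δ (((n - i : ℕ) : R) * Fseq δ r (n - i)) else 0 := by
        rw [Finset.Nat.sum_antidiagonal_eq_sum_range_succ_mk, sum_range_succ]
        simp only [Nat.sub_self, Nat.cast_zero, zero_mul, h0, mul_zero, add_zero]
        rw [← Fin.sum_univ_eq_sum_range (fun i => ((i : R) * ((i : R) * Fseq δ r i))
          * δ (((n - i : ℕ) : R) * Fseq δ r (n - i))) n]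
        refine sum_congr rfl fun i _ => ?_
        split_ifs with h
        · ring
        · have : (i : ℕ) = 0 := by omega
          rw [this]; simp
      rw [e1]
      have e2 : Fseq δ r n = algebraMap ℚ R (1 / ((n : ℚ) ^ 2 * (n - 1))) *
          ∑ i : Fin n, if _h : 0 < (i : ℕ) then
        ((i : ℕ) : R) ^ 2 * Fseq δ r i * δ (((n - i : ℕ) : R) * Fseq δ r (n - i)) else 0 := by
        conv_lhs => rw [Fseq]
        rw [if_neg (by omega), if_neg (by omega)]
      set SS := ∑ i : Fin n, if _h : 0 < (i : ℕ) then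
        ((i : ℕ) : R) ^ 2 * Fseq δ r i * δ (((n - i : ℕ) : R) * Fseq δ r (n - i)) else 0
      have e3 : ((n : R) ^ 2 * ((n : R) - 1)) * algebraMap ℚ R (1 / ((n : ℚ) ^ 2 * (n - 1))) = 1 := by
        have h2 : (n : R) = algebraMap ℚ R (n : ℚ) := by simp
        have h3 : (n : ℚ) ^ 2 * (n - 1) ≠ 0 := by
          have a1 : (n : ℚ) ≠ 0 := by exact_mod_cast (by omega : n ≠ 0)
          have a2 : (n : ℚ) - 1 ≠ 0 := by
            intro h
            have : (n : ℚ) = 1 := by linarith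
            have : n = 1 := by exact_mod_cast this
            omega
          positivity
        rw [h2, ← map_pow, ← map_one (algebraMap ℚ R), ← map_sub, ← map_mul, ← map_mul]
        congr 1
        exact mul_one_div_cancel h3
      rw [e2]
      linear_combination SS * e3

end general

namespace Pot

variable {n : ℕ} {A : Type*} [CommRing A] [Algebra ℚ A] (P : Pot n A)

/-- shifted exponentials -/
noncomputable def rk (k : ℤ) : A⟦X⟧ := Tk P.dx k P.r

theorem rk_zero : P.rk 0 = C P.r := by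
  refine Tk_eq P.dx ?_ (by simp)
  simp

theorem Ek_rk (k l : ℤ) : Ek P.dx k (P.rk l) = P.rk (k + l) := Ek_Tk _ _ _ _

theorem rk_ne (hr : P.r ≠ 0) (k : ℤ) : P.rk k ≠ 0 := fun h => hr (by
  have := congrArg (coeff 0) h
  rwa [rk, coeff_zero_Tk, map_zero] at this)

/-- the sum over Young diagrams -/
noncomputable def ta (s : ℤ) : A⟦X⟧⟦X⟧ := tau P.rk s

theorem map_Ek_ta (k s : ℤ) : PowerSeries.map (Ek P.dx k) (P.ta s) = P.ta (k + s) := by
  ext1 m
  rw [coeff_map, ta, ta, tau, tau, coeff_mk, coeff_mk, map_sum]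
  refine sum_congr rfl fun μ _ => ?_
  rw [map_mul, RingHom.map_rat_algebraMap, map_prod]
  congr 1
  refine prod_congr rfl fun c _ => ?_
  rw [Ek_rk, add_assoc]

theorem cc_ta (s : ℤ) : constantCoeff (P.ta s) = 1 := by
  rw [← coeff_zero_eq_constantCoeff_apply]; exact coeff_zero_tau _ _

/-- the logarithm of `ta 0` -/
noncomputable def LL : A⟦X⟧⟦X⟧ := (exists_log (P.ta 0) (P.cc_ta 0)).choose
theorem LL_cc : constantCoeff P.LL = 0 := (exists_log (P.ta 0) (P.cc_ta 0)).choose_spec.1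
theorem LL_eu : eu P.LL * P.ta 0 = eu (P.ta 0) := (exists_log (P.ta 0) (P.cc_ta 0)).choose_spec.2

/-- second difference on `A[[h]][[w]]` -/
noncomputable def DD (f : A⟦X⟧⟦X⟧) : A⟦X⟧⟦X⟧ :=
  PowerSeries.map (Ek P.dx 1) f + PowerSeries.map (Ek P.dx (-1)) f - 2 * f

theorem eu_eu_LL [IsDomain A] (hr : P.r ≠ 0) : P.ta 0 ^ 2 * eu (eu P.LL)
    = X * C (P.rk 0) * (P.ta 1 * P.ta (-1)) := by
  have h := toda (P.rk_ne hr) 0
  change P.ta 0 * eu (eu (P.ta 0)) - eu (P.ta 0) ^ 2 = X * C (P.rk 0) * (P.ta (0 + 1) * P.ta (0 - 1)) at h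
  rw [zero_add, zero_sub] at h
  have h1 := P.LL_eu
  have h2 := congrArg eu h1
  rw [Derivation.leibniz] at h2
  simp only [smul_eq_mul] at h2
  rw [← h, ← h2, ← h1]
  ring

theorem LL_eq [IsDomain A] (hr : P.r ≠ 0) : eu (eu (eu P.LL)) = eu (eu P.LL) * (1 + P.DD (eu P.LL)) := by
  have h := P.eu_eu_LL hr
  have hS : ∀ k : ℤ, eu (P.ta k) = PowerSeries.map (Ek P.dx k) (eu P.LL) * P.ta k := by
    intro k
    have : P.ta k = PowerSeries.map (Ek P.dx k) (P.ta 0) := by rw [map_Ek_ta, add_zero]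
    rw [this, ← map_eu, ← P.LL_eu, map_mul]
  have h2 := congrArg eu h
  simp only [Derivation.leibniz, Derivation.leibniz_pow, eu_X, eu_C, hS, smul_eq_mul,
    nsmul_eq_mul] at h2
  have h0 : PowerSeries.map (Ek P.dx 0) (eu P.LL) = eu P.LL := by
    ext1 m
    rw [coeff_map]
    ext1 i
    rw [Ek, coeff_extT, Finset.sum_eq_single (0, i)]
    · rw [coeff_zero_Tk]
    · rintro ⟨a, b⟩ hp hne
      rw [HasAntidiagonal.mem_antidiagonal] at hp
      have ha : a ≠ 0 := by
        rintro rfl; exact hne (by simp at hp; simp [hp])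
      rw [coeff_Tk]
      simp [ha]
    · intro h; exact absurd (by simp) h
  rw [h0] at h2
  have hu : IsUnit (P.ta 0 ^ 2) := by
    refine IsUnit.pow 2 ?_
    rw [PowerSeries.isUnit_iff_constantCoeff, cc_ta]; exact isUnit_one
  refine hu.mul_left_cancel ?_
  rw [DD]
  push_cast at h2
  linear_combination h2 + (1 + PowerSeries.map (Ek P.dx 1) (eu P.LL)
    + PowerSeries.map (Ek P.dx (-1)) (eu P.LL)) * (-h)

theorem LL_one [IsDomain A] (hr : P.r ≠ 0) : coeff 1 P.LL = C P.r := by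
  have h := congrArg (coeff 1) (P.eu_eu_LL hr)
  obtain ⟨T, hT⟩ : X ∣ (P.ta 0 ^ 2 - 1) := by
    rw [X_dvd_iff, map_sub, map_pow, cc_ta, map_one]; ring
  obtain ⟨L', hL⟩ : X ∣ eu (eu P.LL) := by
    rw [X_dvd_iff, constantCoeff_eu]
  have e1 : coeff 1 (P.ta 0 ^ 2 * eu (eu P.LL)) = coeff 1 (eu (eu P.LL)) := by
    have : P.ta 0 ^ 2 * eu (eu P.LL) = X ^ 2 * (T * L') + eu (eu P.LL) := by
      have h3 : P.ta 0 ^ 2 = X * T + 1 := by rw [← hT]; ring
      rw [h3, hL]; ring
    rw [this, map_add, coeff_X_pow_mul', if_neg (by norm_num), zero_add]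
  rw [e1, coeff_eu, coeff_eu, mul_assoc, show (1 : ℕ) = 0 + 1 from rfl, coeff_succ_X_mul,
    coeff_C_mul, coeff_zero_eq_constantCoeff_apply, map_mul, cc_ta, cc_ta, rk_zero] at h
  simpa using h

/-- the exact genus expansion -/
theorem exists_FH : ∃ F : A⟦X⟧⟦X⟧, coeff 0 F = 0 ∧ coeff 1 F = C P.r ∧
    eu (eu (eu F)) = eu (eu F) * (1 + PowerSeries.mk fun m => Del P.dx (coeff m (eu F))) :=
  exists_rec (Del P.dx) (by
    have := Del_add P.dx 0 0
    rw [add_zero] at this
    exact left_eq_add.1 this) _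

/-- the genus expansion -/
noncomputable def FH : A⟦X⟧⟦X⟧ := P.exists_FH.choose
theorem FH_zero : coeff 0 P.FH = 0 := P.exists_FH.choose_spec.1
theorem FH_one : coeff 1 P.FH = C P.r := P.exists_FH.choose_spec.2.1
theorem FH_eq : eu (eu (eu P.FH)) = eu (eu P.FH)
    * (1 + PowerSeries.mk fun m => Del P.dx (coeff m (eu P.FH))) := P.exists_FH.choose_spec.2.2

/-- the substitution `H = h^2`, `z = h^2 w` -/
noncomputable def Psi {A : Type*} [CommRing A] : A⟦X⟧⟦X⟧ →+* A⟦X⟧⟦X⟧ :=
  (PowerSeries.rescale (X ^ 2 : A⟦X⟧)).comp (PowerSeries.map phi)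

theorem coeff_Psi (f : A⟦X⟧⟦X⟧) (m : ℕ) : coeff m (Psi f) = (X ^ 2) ^ m * phi (coeff m f) := by
  rw [Psi, RingHom.comp_apply, coeff_rescale, coeff_map]

theorem eu_Psi (f : A⟦X⟧⟦X⟧) : Psi (eu f) = eu (Psi f) := by
  ext1 m
  rw [coeff_Psi, coeff_eu, coeff_eu, coeff_Psi, map_mul, map_natCast]
  ring

theorem Ek_X (D : Derivation ℚ A A) (k : ℤ) : Ek D k (X : A⟦X⟧) = X := extT_X _

theorem DD_Psi (f : A⟦X⟧⟦X⟧) : P.DD (Psi f)
    = C (X ^ 2) * Psi (PowerSeries.mk fun m => Del P.dx (coeff m f)) := by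
  ext1 m
  have h2 : ∀ g : A⟦X⟧⟦X⟧, coeff m (2 * g) = 2 * coeff m g := by
    intro g
    have : (2 : A⟦X⟧⟦X⟧) = C (2 : A⟦X⟧) := (map_ofNat (C (R := A⟦X⟧)) 2).symm
    rw [this, coeff_C_mul]
  rw [DD, map_sub, map_add, coeff_map, coeff_map, h2, coeff_Psi, coeff_C_mul, coeff_Psi, coeff_mk,
    map_mul, map_mul, map_pow, map_pow, map_pow, map_pow, Ek_X, Ek_X]
  have := second_diff P.dx (coeff m f)
  linear_combination ((X ^ 2) ^ m) * this

theorem DD_C_mul (f : A⟦X⟧⟦X⟧) : P.DD (C (X ^ 2) * f) = C (X ^ 2) * P.DD f := by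
  have e : ∀ k : ℤ, Ek P.dx k (X ^ 2) = X ^ 2 := fun k => by rw [map_pow, Ek_X]
  rw [DD, DD, map_mul, map_mul, map_C, map_C, e, e]
  ring

theorem DD_coeff_congr {f g : A⟦X⟧⟦X⟧} {m : ℕ} (h : coeff m f = coeff m g) :
    coeff m (P.DD f) = coeff m (P.DD g) := by
  have h2 : ∀ g : A⟦X⟧⟦X⟧, coeff m (2 * g) = 2 * coeff m g := by
    intro g
    have : (2 : A⟦X⟧⟦X⟧) = C (2 : A⟦X⟧) := (map_ofNat (C (R := A⟦X⟧)) 2).symm
    rw [this, coeff_C_mul]
  rw [DD, DD, map_sub, map_sub, map_add, map_add, coeff_map, coeff_map, coeff_map, coeff_map, h2,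
    h2, h]

theorem unique_exact {Y Z : A⟦X⟧⟦X⟧}
    (hY : C (X ^ 2) * eu (eu (eu Y)) = eu (eu Y) * (C (X ^ 2) + P.DD (eu Y)))
    (hZ : C (X ^ 2) * eu (eu (eu Z)) = eu (eu Z) * (C (X ^ 2) + P.DD (eu Z)))
    (h0 : coeff 0 Y = coeff 0 Z) (h1 : coeff 1 Y = coeff 1 Z) : Y = Z := by
  have key : ∀ m, coeff m Y = coeff m Z := by
    intro m
    induction m using Nat.strong_induction_on with
    | _ m ih =>
      rcases Nat.lt_or_ge m 2 with hm | hm
      · interval_cases m
        · exact h0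
        · exact h1
      · have hDD0 : ∀ f : A⟦X⟧⟦X⟧, coeff 0 (P.DD (eu f)) = 0 := by
          intro f
          have : coeff 0 (P.DD (eu f)) = coeff 0 (P.DD 0) := P.DD_coeff_congr (by simp)
          rw [this, DD]; simp
        have e1 := congrArg (coeff m) hY
        have e2 := congrArg (coeff m) hZ
        rw [mul_add, map_add, coeff_mul_C, coeff_C_mul, coeff_mul,
          Finset.Nat.sum_antidiagonal_eq_sum_range_succ_mk, sum_range_succ] at e1 e2
        simp only [Nat.sub_self, hDD0, mul_zero, add_zero] at e1 e2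
        have e3 : ∑ x ∈ range m, coeff x (eu (eu Y)) * coeff (m - x) (P.DD (eu Y))
            = ∑ x ∈ range m, coeff x (eu (eu Z)) * coeff (m - x) (P.DD (eu Z)) := by
          refine sum_congr rfl fun x hx => ?_
          rw [mem_range] at hx
          rcases Nat.eq_zero_or_pos x with h | h
          · simp [h]
          · rw [coeff_eu, coeff_eu, coeff_eu, coeff_eu, ih x hx]
            congr 1
            refine P.DD_coeff_congr ?_
            rw [coeff_eu, coeff_eu, ih (m - x) (by omega)]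
        rw [e3] at e1
        simp only [coeff_eu] at e1 e2
        have e4 : X ^ 2 * (((m * m * (m - 1) : ℕ) : A⟦X⟧) * (coeff m Y - coeff m Z)) = 0 := by
          push_cast [Nat.cast_sub (show 1 ≤ m by omega)]
          linear_combination e1 - e2
        have e5 : ((m * m * (m - 1) : ℕ) : A⟦X⟧) * (coeff m Y - coeff m Z) = 0 := by
          have := X_pow_nzd (A := A) 2
          exact (mul_left_mem_nonZeroDivisors_eq_zero_iff this).1 e4
        have h5 : m * m * (m - 1) ≠ 0 := by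
          have : 0 < m - 1 := by omega
          positivity
        exact sub_eq_zero.1 (natCast_mul_eq_zero h5 e5)
  ext1 m; exact key m

/-- exactness: `h^2 log tau` is a series in `H = h^2` and `z = h^2 w` -/
theorem exact_LL [IsDomain A] (hr : P.r ≠ 0) : C (X ^ 2) * P.LL = Psi P.FH := by
  have heuC : ∀ f : A⟦X⟧⟦X⟧, eu (C (X ^ 2) * f) = C (X ^ 2) * eu f := by
    intro f
    rw [Derivation.leibniz, eu_C]; simp
  refine P.unique_exact ?_ ?_ ?_ ?_
  · rw [heuC, heuC, heuC, P.LL_eq hr, DD_C_mul]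
    ring
  · have h := congrArg Psi P.FH_eq
    rw [map_mul, map_add, map_one, eu_Psi, eu_Psi, eu_Psi] at h
    rw [h, ← eu_Psi P.FH, P.DD_Psi, eu_Psi]
    ring
  · rw [coeff_C_mul, coeff_Psi, FH_zero, map_zero, coeff_zero_eq_constantCoeff_apply, LL_cc]
    ring
  · rw [coeff_C_mul, coeff_Psi, FH_one, P.LL_one hr]
    have : phi (C P.r) = C P.r := PowerSeries.expand_C _ _ _
    rw [this, pow_one]

end Pot

end MP4a
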