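import Pool.Agent.Lib.MP_4a2528_ag.StatE

/-!
Positivity of the closed system.
-/

set_option linter.unusedSectionVars false

namespace MP4a

open PowerSeries Matrix

section up
variable {T : Type*} [CommRing T] [Algebra ℚ T] (P : Subsemiring T)

/-- a cone containing the nonnegative rationals -/
def QCone : Prop := ∀ q : ℚ, 0 ≤ q → algebraMap ℚ T q ∈ P

/-- all coefficients below `m` lie in the cone -/
def Up (m : ℕ) (f : T⟦X⟧) : Prop := ∀ i < m, coeff i f ∈ P

variable {P}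

theorem Up.mono {m m' : ℕ} {f : T⟦X⟧} (h : Up P m f) (hm : m' ≤ m) : Up P m' f :=
  fun i hi => h i (by omega)

theorem Up.add {m : ℕ} {f g : T⟦X⟧} (hf : Up P m f) (hg : Up P m g) : Up P m (f + g) :=
  fun i hi => by rw [map_add]; exact P.add_mem (hf i hi) (hg i hi)

theorem Up.sum {ι : Type*} (s : Finset ι) {m : ℕ} {f : ι → T⟦X⟧} (h : ∀ i ∈ s, Up P m (f i)) :
    Up P m (∑ i ∈ s, f i) :=
  fun i hi => by rw [map_sum]; exact P.sum_mem fun j hj => h j hj i hi

theorem Up.mul {m : ℕ} {f g : T⟦X⟧} (hf : Up P m f) (hg : Up P m g) : Up P m (f * g) := by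
  intro i hi
  rw [coeff_mul]
  refine P.sum_mem fun q hq => ?_
  rw [Finset.HasAntidiagonal.mem_antidiagonal] at hq
  exact P.mul_mem (hf _ (by omega)) (hg _ (by omega))

theorem Up.mul' {m : ℕ} {f g : T⟦X⟧} (h0 : constantCoeff f = 0) (hf : Up P (m + 1) f)
    (hg : Up P m g) : Up P (m + 1) (f * g) := by
  intro i hi
  rw [coeff_mul]
  refine P.sum_mem fun q hq => ?_
  rw [Finset.HasAntidiagonal.mem_antidiagonal] at hq
  rcases Nat.eq_zero_or_pos q.1 with h | h
  · rw [h, coeff_zero_eq_constantCoeff_apply, h0, zero_mul]; exact P.zero_mem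
  · exact P.mul_mem (hf _ (by omega)) (hg _ (by omega))

theorem Up.C {m : ℕ} {c : T} (h : c ∈ P) : Up P m (PowerSeries.C c) := by
  intro i _
  rw [coeff_C]
  split_ifs
  · exact h
  · exact P.zero_mem

theorem Up.one {m : ℕ} : Up P m 1 := by
  intro i _
  rw [coeff_one]
  split_ifs
  · exact P.one_mem
  · exact P.zero_mem

theorem Up.zero {m : ℕ} : Up P m 0 := by
  intro i _
  rw [map_zero]; exact P.zero_mem

theorem Up.pow {m : ℕ} {f : T⟦X⟧} (hf : Up P m f) (r : ℕ) : Up P m (f ^ r) := by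
  induction r with
  | zero => rw [pow_zero]; exact Up.one
  | succ r ih => rw [pow_succ]; exact ih.mul hf

theorem Up.natCast {m r : ℕ} : Up P m (r : T⟦X⟧) := by
  have : (r : T⟦X⟧) = PowerSeries.C (r : T) := by simp
  rw [this]; exact Up.C (natCast_mem P r)

theorem Up.eu {m : ℕ} {f : T⟦X⟧} (hf : Up P m f) : Up P m (MP4a.eu f) := by
  intro i hi
  rw [coeff_eu]; exact P.mul_mem (natCast_mem P i) (hf i hi)

theorem mem_of_natCast_mul (hP : QCone P) {r : ℕ} (hr : r ≠ 0) {x : T} (h : (r : T) * x ∈ P) :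
    x ∈ P := by
  have h1 : (algebraMap ℚ T (r : ℚ)⁻¹) * ((r : T) * x) = x := by
    rw [← mul_assoc]
    have : (algebraMap ℚ T (r : ℚ)⁻¹) * (r : T) = 1 := by
      have h2 : (r : T) = algebraMap ℚ T (r : ℚ) := by simp
      rw [h2, ← map_mul, inv_mul_cancel₀ (by exact_mod_cast hr), map_one]
    rw [this, one_mul]
  rw [← h1]
  exact P.mul_mem (hP _ (by positivity)) h

theorem Up.of_eu (hP : QCone P) {m : ℕ} {f : T⟦X⟧} (h : Up P m (MP4a.eu f))
    (h0 : constantCoeff f = 0) : Up P m f := by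
  intro i hi
  rcases Nat.eq_zero_or_pos i with h' | h'
  · rw [h', coeff_zero_eq_constantCoeff_apply, h0]; exact P.zero_mem
  · have := h i hi
    rw [coeff_eu] at this
    exact mem_of_natCast_mul hP h'.ne' this

theorem Up.algebraMap (hP : QCone P) {m : ℕ} {q : ℚ} (hq : 0 ≤ q) :
    Up P m (algebraMap ℚ T⟦X⟧ q) := by
  rw [PowerSeries.algebraMap_apply]; exact Up.C (hP q hq)

end up

namespace Sys

variable {n : ℕ} {T : Type*} [CommRing T] [Algebra ℚ T] (S : Sys n T) {P : Subsemiring T}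

theorem J_odd (j : Fin n) (h : Odd (j : ℕ)) : S.J j = 0 := by
  have e := congrFun S.ep_J j
  rw [ep, Matrix.mulVec_diagonal, h.neg_one_pow, neg_one_mul] at e
  have h2 : ((2 : ℕ) : T⟦X⟧) * S.J j = 0 := by
    push_cast; linear_combination -e
  exact natCast_mul_eq_zero (by norm_num) h2

theorem Q_mixed (i j : Fin n) (hi : Odd (i : ℕ)) (hj : Even (j : ℕ)) : S.Q i j = 0 := by
  have e := congrFun (congrFun S.ep_Q i) j
  rw [ep, Matrix.diagonal_mul, Matrix.mul_diagonal, hi.neg_one_pow, hj.neg_one_pow] at e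
  have h2 : ((2 : ℕ) : T⟦X⟧) * S.Q i j = 0 := by
    push_cast; linear_combination -e
  exact natCast_mul_eq_zero (by norm_num) h2

/-- `x = ⟨V, t b⟩` -/
noncomputable def xh : T⟦X⟧ := ∑ j : Fin n, S.V j * cc 2 0 S.R j

theorem Xs_xh : S.Xs = S.R * S.xh := by
  rw [Xs, xh]
  congr 1
  exact Finset.sum_congr rfl fun j _ => by rw [t_b]

theorem up_aa (hP : QCone P) {m : ℕ} (h : Up P m S.R) (j : ℕ) : Up P m (aa 0 0 S.R j) := by
  rw [aa_u_zero]
  split_ifs
  · exact (Up.algebraMap hP (by positivity)).mul (h.pow _)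
  · exact Up.zero

theorem up_cc0 (hP : QCone P) {m : ℕ} (h : Up P m S.R) (j : ℕ) : Up P m (cc 0 0 S.R j) := by
  rw [cc_u_zero]
  split_ifs
  · exact (Up.algebraMap hP (by positivity)).mul (h.pow _)
  · exact Up.zero

theorem up_cc (hP : QCone P) {m : ℕ} (h : Up P m S.R) (k j : ℕ) : Up P m (cc k 0 S.R j) := by
  induction k generalizing j with
  | zero => exact S.up_cc0 hP h j
  | succ k ih =>
    rcases j with _ | j
    · rw [cc_succ_zero]; exact Up.zero
    · rw [cc_succ_succ]; exact ih j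

theorem up_AJ (hk : ∀ i, S.k i ∈ P) {m : ℕ} (f : Fin n → T⟦X⟧)
    (h0 : ∀ j : Fin n, Odd (j : ℕ) → f j = 0) (h : ∀ j, Up P m (f j)) (i : ℕ) :
    Up P m (∑ l : Fin n, C (aK S.k i l) * f l) := by
  refine Up.sum _ fun l _ => ?_
  rcases Nat.even_or_odd (l : ℕ) with e | o
  · refine (Up.C ?_).mul (h l)
    rw [aK, e.neg_one_pow, one_mul]; exact hk _
  · rw [h0 l o, mul_zero]; exact Up.zero

theorem up_V (hk : ∀ i, S.k i ∈ P) {m : ℕ} (h : ∀ j, Up P m (S.J j)) (j : Fin n) :
    Up P m (S.V j) := by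
  rw [V_apply]
  exact (Up.C (hk _)).add (S.up_AJ hk S.J S.J_odd h j)

theorem up_xh (hP : QCone P) (hk : ∀ i, S.k i ∈ P) {m : ℕ} (hR : Up P m S.R)
    (h : ∀ j, Up P m (S.J j)) : Up P m S.xh :=
  Up.sum _ fun j _ => (S.up_V hk h j).mul (S.up_cc hP hR 2 j)

theorem Xs_cc : constantCoeff S.Xs = 0 := by rw [Xs_xh, map_mul, S.ccR, zero_mul]

theorem Th_cc : constantCoeff S.Th = 1 := by
  have h := congrArg (constantCoeff (R := T)) S.Th_X
  rw [map_mul, map_sub, map_one, S.Xs_cc, sub_zero, mul_one] at h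
  exact h

theorem up_main (hP : QCone P) (hk : ∀ i, S.k i ∈ P) (m : ℕ) :
    Up P (m + 1) S.R ∧ (∀ j, Up P m (S.J j)) ∧ Up P m S.Th := by
  induction m with
  | zero =>
    refine ⟨?_, fun j i hi => absurd hi (Nat.not_lt_zero _), fun i hi => absurd hi
      (Nat.not_lt_zero _)⟩
    intro i hi
    obtain rfl : i = 0 := by omega
    rw [S.R0]; exact P.zero_mem
  | succ m ih =>
    obtain ⟨hR, hJ, hTh⟩ := ih
    have hJ' : ∀ j, Up P (m + 1) (S.J j) := by
      intro j
      rcases Nat.even_or_odd (j : ℕ) with e | o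
      · refine Up.of_eu hP ?_ (S.ccJ j)
        rw [S.h4 j]
        refine (hR.mul (S.up_cc0 hP hR j)).add ?_
        refine Up.sum _ fun i _ => ?_
        rcases Nat.even_or_odd (i : ℕ) with ei | oi
        · refine Up.mul' (S.ccQ i j) ?_ ?_
          · refine Up.of_eu hP ?_ (S.ccQ i j)
            rw [S.h5]
            refine Up.mul ?_ hR.eu
            exact ((S.up_aa hP hR i).mul (S.up_aa hP hR j)).add
              (hR.mul ((S.up_cc hP hR 1 i).mul (S.up_cc hP hR 1 j)))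
          · exact S.up_AJ hk (fun l => eu (S.J l)) (fun l hl => by simp only [S.J_odd l hl, map_zero])
              (fun l => (hJ l).eu) i
        · rw [S.Q_mixed i j oi e, zero_mul]; exact Up.zero
      · rw [S.J_odd j o]; exact Up.zero
    have hX : Up P (m + 1) S.Xs := by
      rw [Xs_xh]
      exact Up.mul' S.ccR hR (S.up_xh hP hk (hR.mono (by omega)) hJ)
    have hTh' : Up P (m + 1) S.Th := by
      have e : S.Th = 1 + S.Xs * S.Th := by
        have := S.Th_X
        linear_combination this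
      rw [e]
      exact Up.one.add (Up.mul' S.Xs_cc hX hTh)
    refine ⟨?_, hJ', hTh'⟩
    intro i hi
    rcases Nat.lt_or_ge i (m + 1) with h | h
    · exact hR i h
    · obtain rfl : i = m + 1 := by omega
      rcases Nat.eq_zero_or_pos m with hm | hm
      · subst hm; rw [zero_add, S.R1]; exact P.one_mem
      · have e := congrArg (coeff (m + 1)) S.euR_Th
        rw [coeff_eu, coeff_mul, Finset.Nat.sum_antidiagonal_eq_sum_range_succ_mk,
          Finset.sum_range_succ] at e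
        simp only [Nat.sub_self] at e
        have h1 : coeff 0 (S.Th ^ 2) = 1 := by
          rw [coeff_zero_eq_constantCoeff_apply, map_pow, S.Th_cc, one_pow]
        rw [h1, mul_one] at e
        have e2 : ((m : ℕ) : T) * coeff (m + 1) S.R
            = ∑ x ∈ Finset.range (m + 1), coeff x S.R * coeff (m + 1 - x) (S.Th ^ 2) := by
          push_cast at e
          linear_combination e
        refine mem_of_natCast_mul hP hm.ne' ?_
        rw [e2]
        refine P.sum_mem fun x hx => ?_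
        rw [Finset.mem_range] at hx
        rcases Nat.eq_zero_or_pos x with h0 | h0
        · rw [h0, S.R0, zero_mul]; exact P.zero_mem
        · exact P.mul_mem (hR x hx) (hTh'.pow 2 _ (by omega))

/-- everything lies in the cone -/
def All (P : Subsemiring T) (f : T⟦X⟧) : Prop := ∀ m, Up P m f

theorem all_R (hP : QCone P) (hk : ∀ i, S.k i ∈ P) (m : ℕ) : Up P m S.R :=
  (S.up_main hP hk m).1.mono (by omega)
theorem all_J (hP : QCone P) (hk : ∀ i, S.k i ∈ P) (m : ℕ) (j : Fin n) : Up P m (S.J j) :=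
  (S.up_main hP hk m).2.1 j
theorem all_Th (hP : QCone P) (hk : ∀ i, S.k i ∈ P) (m : ℕ) : Up P m S.Th :=
  (S.up_main hP hk m).2.2
theorem all_xh (hP : QCone P) (hk : ∀ i, S.k i ∈ P) (m : ℕ) : Up P m S.xh :=
  S.up_xh hP hk (S.all_R hP hk m) (S.all_J hP hk m)
theorem all_X (hP : QCone P) (hk : ∀ i, S.k i ∈ P) (m : ℕ) : Up P m S.Xs := by
  rw [Xs_xh]; exact (S.all_R hP hk m).mul (S.all_xh hP hk m)
theorem all_dy (hP : QCone P) (hk : ∀ i, S.k i ∈ P) (m : ℕ) : Up P m S.dy := by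
  rw [S.dy_eq]; exact (S.all_Th hP hk m).mul (S.all_X hP hk m).eu

theorem dy_cc : constantCoeff S.dy = 0 := by
  rw [S.dy_eq, map_mul, constantCoeff_eu, mul_zero]

/-- the recursion for `mm` -/
theorem mm_rec (m : ℕ) (hm : 0 < m) : ((2 * m - 1 : ℕ) : T) * coeff m S.mm
    = ∑ x ∈ Finset.range m, coeff x S.mm * coeff (m - x) (4 * S.dy + S.Th ^ 2)
      + coeff m (2 * (S.Th ^ 2 * S.dy) + 4 * S.dy ^ 2) := by
  have e := congrArg (coeff m) S.eu_mm
  have h1 : coeff 0 (4 * S.dy + S.Th ^ 2) = 1 := by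
    rw [coeff_zero_eq_constantCoeff_apply, map_add, map_mul, map_pow, S.Th_cc, S.dy_cc]
    simp
  have h2 : coeff m (2 * eu S.mm) = 2 * (m * coeff m S.mm) := by
    have : (2 : T⟦X⟧) = C (2 : T) := (map_ofNat (C (R := T)) 2).symm
    rw [this, coeff_C_mul, coeff_eu]
  rw [h2, add_assoc, map_add, coeff_mul, Finset.Nat.sum_antidiagonal_eq_sum_range_succ_mk,
    Finset.sum_range_succ] at e
  simp only [Nat.sub_self] at e
  rw [h1, mul_one] at e
  have h3 : ((2 * m - 1 : ℕ) : T) = 2 * m - 1 := by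
    rw [Nat.cast_sub (by omega)]; push_cast; ring
  rw [h3]
  linear_combination e

theorem two_pos' {m : ℕ} : Up P m (2 : T⟦X⟧) := by
  have := Up.natCast (P := P) (m := m) (r := 2)
  exact_mod_cast this
theorem three_pos' {m : ℕ} : Up P m (3 : T⟦X⟧) := by
  have := Up.natCast (P := P) (m := m) (r := 3)
  exact_mod_cast this
theorem four_pos' {m : ℕ} : Up P m (4 : T⟦X⟧) := by
  have := Up.natCast (P := P) (m := m) (r := 4)
  exact_mod_cast this

theorem all_mm (hP : QCone P) (hk : ∀ i, S.k i ∈ P) (m : ℕ) : coeff m S.mm ∈ P := by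
  induction m using Nat.strong_induction_on with
  | _ m ih =>
    rcases Nat.eq_zero_or_pos m with hm | hm
    · subst hm
      rw [coeff_zero_eq_constantCoeff_apply, mm, map_mul, map_mul, constantCoeff_eu]
      simp
    · refine mem_of_natCast_mul hP (r := 2 * m - 1) (by omega) ?_
      rw [S.mm_rec m hm]
      refine P.add_mem (P.sum_mem fun x hx => ?_) ?_
      · rw [Finset.mem_range] at hx
        refine P.mul_mem (ih x hx) ?_
        exact ((four_pos'.mul (S.all_dy hP hk (m + 1))).add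
          ((S.all_Th hP hk (m + 1)).pow 2)) _ (by omega)
      · exact ((two_pos'.mul (((S.all_Th hP hk (m + 1)).pow 2).mul (S.all_dy hP hk (m + 1)))).add
          (four_pos'.mul ((S.all_dy hP hk (m + 1)).pow 2))) _ (by omega)

theorem euX : eu S.Xs = S.Th ^ 2 * S.Xs + S.R * eu S.xh := by
  rw [Xs_xh, Derivation.leibniz, S.euR_Th]
  simp only [smul_eq_mul]
  ring

theorem W_formula : 24 * eu S.W = 3 * (S.Xs ^ 2 * S.Th ^ 2) + 2 * (S.Xs ^ 3 * S.Th ^ 3)
    + 2 * (S.Th * (S.R * eu S.xh)) + 6 * S.mm := by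
  have h1 := S.W_eq
  have h2 := S.dy_eq
  have h3 := S.euX
  have h4 := S.Th_X
  rw [h1, h2, h3]
  have e : S.Th = 1 + S.Xs * S.Th := by linear_combination h4
  have e2 : S.Th ^ 2 = 1 + 2 * (S.Xs * S.Th) + (S.Xs * S.Th) ^ 2 := by
    conv_lhs => rw [e]
    ring
  have e3 : S.Th * S.Th ^ 2 * S.Xs = (S.Xs * S.Th) * (1 + 2 * (S.Xs * S.Th) + (S.Xs * S.Th) ^ 2) := by
    rw [e2]; ring
  linear_combination 2 * e3 - e2

theorem W_pos (hP : QCone P) (hk : ∀ i, S.k i ∈ P) (m : ℕ) (hm : 0 < m) : coeff m S.W ∈ P := by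
  have e := congrArg (coeff m) S.W_formula
  have h2 : coeff m (24 * eu S.W) = ((24 * m : ℕ) : T) * coeff m S.W := by
    have : (24 : T⟦X⟧) = C (24 : T) := (map_ofNat (C (R := T)) 24).symm
    rw [this, coeff_C_mul, coeff_eu]; push_cast; ring
  rw [h2] at e
  refine mem_of_natCast_mul hP (r := 24 * m) (by omega) ?_
  rw [e, map_add]
  have hTh := S.all_Th hP hk (m + 1)
  have hX := S.all_X hP hk (m + 1)
  refine P.add_mem ?_ ?_
  · exact (((three_pos'.mul ((hX.pow 2).mul (hTh.pow 2))).add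
      (two_pos'.mul ((hX.pow 3).mul (hTh.pow 3)))).add
      (two_pos'.mul (hTh.mul ((S.all_R hP hk (m + 1)).mul (S.all_xh hP hk (m + 1)).eu)))) m
      (by omega)
  · have : (6 : T⟦X⟧) = C (6 : T) := (map_ofNat (C (R := T)) 6).symm
    rw [this, coeff_C_mul]
    refine P.mul_mem ?_ (S.all_mm hP hk m)
    exact_mod_cast natCast_mem P 6

/-- lower bounds: `f ≥ g` in the cone -/
def Ge (P : Subsemiring T) (m : ℕ) (f g : T⟦X⟧) : Prop := Up P m (f - g)

/-- lower bound for `X` -/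
theorem X_lower (hP : QCone P) (hk : ∀ i, S.k i ∈ P) (q : ℕ) (hq : 0 < q) (hqn : 2 * q < n) :
    coeff q S.Xs - algebraMap ℚ T (1 / ((q - 1).factorial * q.factorial : ℚ)) * S.k (2 * q) ∈ P := by
  have e : S.Xs = S.R * (S.V ⟨2 * q, hqn⟩ * cc 2 0 S.R (2 * q))
      + S.R * ∑ j ∈ Finset.univ.erase (⟨2 * q, hqn⟩ : Fin n), S.V j * cc 2 0 S.R j := by
    rw [Xs_xh, xh, ← mul_add, Finset.add_sum_erase (Finset.univ) (fun j : Fin n => S.V j
      * cc 2 0 S.R j) (Finset.mem_univ (⟨2 * q, hqn⟩ : Fin n))]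
  have hcc : cc 2 0 S.R (2 * q) = algebraMap ℚ T⟦X⟧ (1 / ((q - 1).factorial * q.factorial : ℚ))
      * S.R ^ (q - 1) := by
    obtain ⟨r, rfl⟩ : ∃ r, q = r + 1 := ⟨q - 1, by omega⟩
    rw [show 2 * (r + 1) = 2 * r + 1 + 1 by ring, show (2 : ℕ) = 0 + 1 + 1 from rfl,
      cc_succ_succ, cc_succ_succ, cc_u_zero, if_pos (by simp)]
    have h1 : (0 + 1 + 1) * r / 2 = r := by omega
    rw [h1]
    simp
  have hV : S.V ⟨2 * q, hqn⟩ = C (S.k (2 * q)) + ∑ l : Fin n, C (aK S.k (2 * q) l) * S.J l :=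
    S.V_apply _
  have hRq : coeff q (S.R ^ q) = 1 := by
    obtain ⟨R', hR'⟩ : X ∣ S.R := X_dvd_iff.2 S.ccR
    have hc : constantCoeff R' = 1 := by
      have := S.R1
      rw [hR', show (1 : ℕ) = 0 + 1 from rfl, coeff_succ_X_mul] at this
      rwa [coeff_zero_eq_constantCoeff_apply] at this
    rw [hR', mul_pow]
    have h := coeff_X_pow_mul (R'^q) q 0
    rw [zero_add] at h
    rw [h, coeff_zero_eq_constantCoeff_apply, map_pow, hc, one_pow]
  have e2 : S.Xs = C (algebraMap ℚ T (1 / ((q - 1).factorial * q.factorial : ℚ)) * S.k (2 * q))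
        * S.R ^ q
      + (S.R * ((∑ l : Fin n, C (aK S.k (2 * q) l) * S.J l) * cc 2 0 S.R (2 * q))
      + S.R * ∑ j ∈ Finset.univ.erase (⟨2 * q, hqn⟩ : Fin n), S.V j * cc 2 0 S.R j) := by
    have h3 : S.R ^ q = S.R * S.R ^ (q - 1) := by
      rw [← pow_succ']; congr 1; omega
    rw [e, hV, h3, map_mul]
    have h4 : cc 2 0 S.R (2 * q) = C (algebraMap ℚ T (1 / ((q - 1).factorial * q.factorial : ℚ)))
        * S.R ^ (q - 1) := by
      rw [hcc, PowerSeries.algebraMap_apply]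
    rw [h4]
    ring
  rw [e2, map_add, coeff_C_mul, hRq, mul_one, add_sub_cancel_left]
  have hR := S.all_R hP hk (q + 1)
  have hJ := S.all_J hP hk (q + 1)
  exact ((hR.mul ((S.up_AJ hk S.J S.J_odd hJ _).mul (S.up_cc hP hR 2 _))).add
    (hR.mul (Up.sum _ fun j _ => (S.up_V hk hJ j).mul (S.up_cc hP hR 2 j)))) q (by omega)

theorem Th_sub_one (hP : QCone P) (hk : ∀ i, S.k i ∈ P) (m : ℕ) : Up P m (S.Th - 1) := by
  have e : S.Th - 1 = S.Xs * S.Th := by linear_combination S.Th_X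
  rw [e]; exact (S.all_X hP hk m).mul (S.all_Th hP hk m)

theorem dy_lower (hP : QCone P) (hk : ∀ i, S.k i ∈ P) (m : ℕ) : Up P m (S.dy - eu S.Xs) := by
  have e : S.dy - eu S.Xs = (S.Th - 1) * eu S.Xs := by rw [S.dy_eq]; ring
  rw [e]; exact (S.Th_sub_one hP hk m).mul (S.all_X hP hk m).eu

/-- strict lower bound for `W` -/
theorem W_lower (hP : QCone P) (hk : ∀ i, S.k i ∈ P) (q : ℕ) (hq : 0 < q) (hqn : 2 * q < n) :
    ∃ c : ℚ, 0 < c ∧ coeff q S.W - algebraMap ℚ T c * S.k (2 * q) ∈ P := by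
  have hTh := S.all_Th hP hk (q + 1)
  have hX := S.all_X hP hk (q + 1)
  have hdy := S.all_dy hP hk (q + 1)
  have hx := S.X_lower hP hk q hq hqn
  set c0 : ℚ := 1 / ((q - 1).factorial * q.factorial : ℚ) with hc0
  have hc0' : 0 < c0 := by rw [hc0]; positivity
  -- dy
  have h1 : coeff q S.dy - algebraMap ℚ T (q * c0) * S.k (2 * q) ∈ P := by
    have a1 := S.dy_lower hP hk (q + 1) q (by omega)
    rw [map_sub, coeff_eu] at a1
    have a2 : (q : T) * (coeff q S.Xs - algebraMap ℚ T c0 * S.k (2 * q)) ∈ P :=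
      P.mul_mem (natCast_mem P q) hx
    have a3 := P.add_mem a1 a2
    have a4 : algebraMap ℚ T (q * c0) = (q : T) * algebraMap ℚ T c0 := by
      rw [map_mul]; simp
    rw [a4]
    convert a3 using 1
    ring
  -- mm
  have h2 : ((2 * q - 1 : ℕ) : T) * coeff q S.mm - 2 * coeff q S.dy ∈ P := by
    rw [S.mm_rec q hq]
    have e : 2 * (S.Th ^ 2 * S.dy) + 4 * S.dy ^ 2 = 2 * S.dy + (2 * ((S.Th - 1) * (S.Th + 1) * S.dy)
        + 4 * S.dy ^ 2) := by ring
    have e2 : coeff q (2 * S.dy) = 2 * coeff q S.dy := by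
      have : (2 : T⟦X⟧) = C (2 : T) := (map_ofNat (C (R := T)) 2).symm
      rw [this, coeff_C_mul]
    rw [e, map_add, e2, add_sub_assoc, add_sub_cancel_left]
    refine P.add_mem (P.sum_mem fun x hx => ?_) ?_
    · rw [Finset.mem_range] at hx
      refine P.mul_mem (S.all_mm hP hk x) ?_
      exact ((four_pos'.mul hdy).add (hTh.pow 2)) _ (by omega)
    · exact ((two_pos'.mul (((S.Th_sub_one hP hk (q + 1)).mul (hTh.add Up.one)).mul hdy)).add
          (four_pos'.mul (hdy.pow 2))) _ (by omega)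
  -- W
  have h3 : ((24 * q : ℕ) : T) * coeff q S.W - 6 * coeff q S.mm ∈ P := by
    have e := congrArg (coeff q) S.W_formula
    have h2 : coeff q (24 * eu S.W) = ((24 * q : ℕ) : T) * coeff q S.W := by
      have : (24 : T⟦X⟧) = C (24 : T) := (map_ofNat (C (R := T)) 24).symm
      rw [this, coeff_C_mul, coeff_eu]; push_cast; ring
    have h6 : coeff q (6 * S.mm) = 6 * coeff q S.mm := by
      have : (6 : T⟦X⟧) = C (6 : T) := (map_ofNat (C (R := T)) 6).symm
      rw [this, coeff_C_mul]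
    rw [h2] at e
    rw [e, map_add, h6, add_sub_cancel_right]
    exact (((three_pos'.mul ((hX.pow 2).mul (hTh.pow 2))).add
      (two_pos'.mul ((hX.pow 3).mul (hTh.pow 3)))).add
      (two_pos'.mul (hTh.mul ((S.all_R hP hk (q + 1)).mul (S.all_xh hP hk (q + 1)).eu)))) q
      (by omega)
  refine ⟨(6 / (24 * q)) * ((2 / (2 * q - 1 : ℕ)) * (q * c0)), ?_, ?_⟩
  · have : 0 < ((2 * q - 1 : ℕ) : ℚ) := by
      have : 0 < 2 * q - 1 := by omega
      exact_mod_cast this
    have : 0 < (q : ℚ) := by exact_mod_cast hq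
    positivity
  · have hA : ((2 * q - 1 : ℕ) : T) * (coeff q S.mm - algebraMap ℚ T ((2 / (2 * q - 1 : ℕ))
        * (q * c0)) * S.k (2 * q)) ∈ P := by
      have a1 : (2 : T) * (coeff q S.dy - algebraMap ℚ T (q * c0) * S.k (2 * q)) ∈ P :=
        P.mul_mem (by exact_mod_cast natCast_mem P 2) h1
      have a2 := P.add_mem h2 a1
      have a3 : ((2 * q - 1 : ℕ) : T) * algebraMap ℚ T ((2 / (2 * q - 1 : ℕ)) * (q * c0))
          = 2 * algebraMap ℚ T (q * c0) := by
        have b1 : ((2 * q - 1 : ℕ) : T) = algebraMap ℚ T ((2 * q - 1 : ℕ) : ℚ) := by simp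
        have b2 : (2 : T) = algebraMap ℚ T 2 := (map_ofNat (algebraMap ℚ T) 2).symm
        have b3 : ((2 * q - 1 : ℕ) : ℚ) ≠ 0 := by
          have : 2 * q - 1 ≠ 0 := by omega
          exact_mod_cast this
        rw [b1, b2, ← map_mul, ← map_mul]
        congr 1
        field_simp
      convert a2 using 1
      linear_combination (-S.k (2 * q)) * a3
    have hA' := mem_of_natCast_mul hP (r := 2 * q - 1) (by omega) hA
    refine mem_of_natCast_mul hP (r := 24 * q) (by omega) ?_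
    have a1 := P.mul_mem (show (6 : T) ∈ P by exact_mod_cast natCast_mem P 6) hA'
    have a2 := P.add_mem h3 a1
    have a3 : ((24 * q : ℕ) : T) * algebraMap ℚ T ((6 / (24 * q)) * ((2 / (2 * q - 1 : ℕ))
        * (q * c0))) = 6 * algebraMap ℚ T ((2 / (2 * q - 1 : ℕ)) * (q * c0)) := by
      have b1 : ((24 * q : ℕ) : T) = algebraMap ℚ T ((24 * q : ℕ) : ℚ) :=
        (map_natCast (algebraMap ℚ T) _).symm
      have b2 : (6 : T) = algebraMap ℚ T 6 := (map_ofNat (algebraMap ℚ T) 6).symm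
      have b3 : (q : ℚ) ≠ 0 := by
        have : q ≠ 0 := by omega
        exact_mod_cast this
      rw [b1, b2, ← map_mul, ← map_mul]
      congr 1
      push_cast
      field_simp
    convert a2 using 1
    linear_combination (-S.k (2 * q)) * a3

end Sys

end MP4a
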