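import Pool.Agent.Lib.MP_4a2528_ag.Grade
import Pool.Agent.Lib.MP_4a2528_ag.Pos

/-!
Signs of the coefficients of the logarithm of the sum over Young diagrams, and of its exponential.
-/

set_option linter.unusedSectionVars false

namespace MP4a

open PowerSeries Finset

section final
variable {r : ℕ} (k : Fin r → ℕ)

/-- couplings -/
noncomputable def kap (m : ℕ) : MS r :=
  ∑ i, if m = 2 * k i then MvPowerSeries.monomial (Finsupp.single i 1) (2 : ℚ) else 0

/-- size of the truncation -/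
def nn : ℕ := 2 * (∑ i, k i) + 1

theorem le_nn (i : Fin r) : 2 * k i < nn k := by
  have : k i ≤ ∑ i, k i := single_le_sum (fun _ _ => Nat.zero_le _) (mem_univ i)
  rw [nn]; omega

theorem kap_even (hk : ∀ i, 0 < k i) : EvenSeq (nn k) (kap k) where
  zero := sum_eq_zero fun i _ => if_neg (by have := hk i; omega)
  odd := fun m hm => sum_eq_zero fun i _ => if_neg (by
    rintro rfl; exact (Nat.not_odd_iff_even.2 (even_two_mul _)) hm)
  big := fun m hm => sum_eq_zero fun i _ => if_neg (by have := le_nn k i; omega)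

/-- the sum `2 ∑ hook^(2 k_i) / (2 k_i)!` -/
def chq (μ : YoungDiagram) (i : Fin r) : ℚ :=
  ∑ c ∈ μ.cells, 2 * (hookLen μ c : ℚ) ^ (2 * k i) / (2 * k i).factorial

theorem monomial_mul_alg (e : Fin r →₀ ℕ) (a x : ℚ) :
    MvPowerSeries.monomial e a * algebraMap ℚ (MS r) x = MvPowerSeries.monomial e (a * x) := by
  rw [mul_comm, ← Algebra.smul_def, ← map_smul, smul_eq_mul, mul_comm]

theorem sum_fk (μ : YoungDiagram) : ∑ c ∈ μ.cells, fk (kap k) (hookLen μ c)
    = lin (fun i => 2 * k i) (chq k μ) := by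
  ext1 Q
  rw [lin, map_sum, map_sum]
  have e1 : ∀ i : Fin r, coeff Q (C (MvPowerSeries.monomial (Finsupp.single i 1) (chq k μ i))
      * X ^ (2 * k i)) = ∑ c ∈ μ.cells, if Q = 2 * k i then
        MvPowerSeries.monomial (Finsupp.single i 1) (2 * ((hookLen μ c : ℚ) ^ Q / Q.factorial))
        else 0 := by
    intro i
    rw [coeff_C_mul, coeff_X_pow]
    by_cases h : Q = 2 * k i
    · simp only [if_pos h, mul_one]
      rw [← map_sum]
      congr 1
      rw [chq]
      refine sum_congr rfl fun c _ => ?_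
      rw [h]; ring
    · simp only [if_neg h, mul_zero, sum_const_zero]
  rw [sum_congr rfl fun i _ => e1 i, sum_comm]
  refine sum_congr rfl fun c _ => ?_
  rw [fk, coeff_mk, kap, sum_mul]
  refine sum_congr rfl fun i _ => ?_
  rw [ite_mul, zero_mul, monomial_mul_alg]
  push_cast
  rfl

/-- total grading homomorphism -/
noncomputable def TH : (MS r)⟦X⟧ →+* (MS r)⟦X⟧⟦X⟧⟦X⟧ :=
  swapS.comp ((PowerSeries.rescale (-1)).comp (PowerSeries.map (th fun i => 2 * k i)))

theorem TH_apply (f : (MS r)⟦X⟧) :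
    TH k f = swapS (PowerSeries.rescale (-1) (PowerSeries.map (th fun i => 2 * k i) f)) := rfl

theorem coeff_TH (f : (MS r)⟦X⟧) (p m : ℕ) : coeff m (coeff p (TH k f))
    = (-1) ^ m * coeff p (th (fun i => 2 * k i) (coeff m f)) := by
  rw [TH_apply, coeff_swapS, coeff_rescale, coeff_map]
  have : ((-1 : (MS r)⟦X⟧⟦X⟧)) ^ m = C ((-1) ^ m) := by simp
  rw [this, coeff_C_mul]

theorem rescale_eu {R : Type*} [CommRing R] [Algebra ℚ R] (a : R) (f : R⟦X⟧) :
    rescale a (eu f) = eu (rescale a f) := by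
  ext m
  rw [coeff_rescale, coeff_eu, coeff_eu, coeff_rescale]; ring

theorem TH_eu (f : (MS r)⟦X⟧) : TH k (eu f) = Model.EU (TH k f) := by
  rw [TH_apply, TH_apply, map_eu, rescale_eu, EU_swapS]

theorem cci_TH (f : (MS r)⟦X⟧) : cci (TH k f) = th (fun i => 2 * k i) (constantCoeff f) := by
  rw [TH_apply, cci_swapS]
  rw [← coeff_zero_eq_constantCoeff_apply, coeff_rescale, coeff_map, pow_zero, one_mul,
    coeff_zero_eq_constantCoeff_apply]

variable {k}
variable {Z : (MS r)⟦X⟧} (hZ : ∀ m, coeff m Z = ∑ μ ∈ ydF m,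
  algebraMap ℚ (MS r) ((∏ c ∈ μ.cells, -(hookLen μ c : ℚ) ^ 2)⁻¹) * Exq (chq k μ))

include hZ in
theorem TH_Z (hk : ∀ i, 0 < k i) : TH k Z = eHH ((cP (nn k) (MS r)).ZZ (ck (kap k))) := by
  ext1 p
  ext1 m
  rw [coeff_TH, hZ, map_sum, map_sum, mul_sum, coeff_eHH_ZZ (kap_even k hk)]
  refine sum_congr rfl fun μ hμ => ?_
  rw [mem_ydF] at hμ
  have e1 : algebraMap ℚ (MS r)⟦X⟧⟦X⟧ ((∏ c ∈ μ.cells, -(hookLen μ c : ℚ) ^ 2)⁻¹)
      = C (algebraMap ℚ (MS r)⟦X⟧ ((∏ c ∈ μ.cells, -(hookLen μ c : ℚ) ^ 2)⁻¹)) :=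
    PowerSeries.algebraMap_apply
  have e2 : (-1 : (MS r)⟦X⟧) ^ m * algebraMap ℚ (MS r)⟦X⟧ ((∏ c ∈ μ.cells,
      -(hookLen μ c : ℚ) ^ 2)⁻¹) = algebraMap ℚ _ (wH μ) := by
    rw [neg_one_pow_alg, ← map_mul]
    congr 1
    have h1 : ∏ c ∈ μ.cells, -(hookLen μ c : ℚ) ^ 2
        = (-1) ^ m * ∏ c ∈ μ.cells, (hookLen μ c : ℚ) ^ 2 := by
      rw [prod_neg]
      congr 2
    have h2 : ((-1 : ℚ)) ^ m * (-1) ^ m = 1 := by rw [← mul_pow]; simp
    rw [h1, wH, mul_inv]
    have h3 : (((-1 : ℚ)) ^ m)⁻¹ = (-1) ^ m := by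
      rw [← inv_pow]; norm_num
    rw [h3, ← mul_assoc, h2, one_mul]
  rw [map_mul, RingHom.map_rat_algebraMap, e1, coeff_C_mul, ← mul_assoc, e2, coeff_th_Exq,
    sum_fk]

include hZ in
theorem Z_cc : constantCoeff Z = 1 := by
  rw [← coeff_zero_eq_constantCoeff_apply, hZ, ydF_zero, sum_singleton]
  have h1 : chq k ⊥ = 0 := by
    ext i; simp [chq]
  have h2 : Exq (0 : Fin r → ℚ) = 1 := by
    ext β
    rw [coeff_Exq, MvPowerSeries.coeff_one]
    by_cases h : β = 0
    · rw [if_pos h, h]; simp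
    · rw [if_neg h]
      obtain ⟨i, hi⟩ := Finsupp.ne_iff.1 h
      refine prod_eq_zero (mem_univ i) ?_
      rw [Finsupp.zero_apply] at hi
      simp [hi]
  rw [h1, h2]
  simp

theorem eHH_EU {n : ℕ} {S : Type*} [CommRing S] [Algebra ℚ S] (f : (PA n S)⟦X⟧⟦X⟧⟦X⟧) :
    eHH (Model.EU f) = Model.EU (eHH f) := by
  rw [eHH, Model.EU]
  exact map_liftD (PowerSeries.map eH) eu eu (fun a => map_eu _ _) f

theorem cci_eHH {n : ℕ} {S : Type*} [CommRing S] [Algebra ℚ S] {f : (PA n S)⟦X⟧⟦X⟧⟦X⟧}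
    (h : cci f = 0) : cci (eHH f) = 0 := by
  ext1 p
  have h1 := congrArg (coeff p) h
  rw [cci, coeff_map, map_zero] at h1
  rw [cci, coeff_map, eHH, coeff_map, map_zero, ← coeff_zero_eq_constantCoeff_apply, coeff_map,
    coeff_zero_eq_constantCoeff_apply, h1, map_zero]

include hZ in
theorem TH_log (hk : ∀ i, 0 < k i) :
    TH k (logOf Z) = eHH ((cP (nn k) (MS r)).LZ (ck (kap k))) := by
  have hZ1 := Z_cc hZ
  have a1 : Model.EU (TH k (logOf Z)) * TH k Z = Model.EU (TH k Z) := by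
    rw [← TH_eu, ← map_mul, logOf_eu Z hZ1, TH_eu]
  have a2 : Model.EU (eHH ((cP (nn k) (MS r)).LZ (ck (kap k)))) * TH k Z
      = Model.EU (TH k Z) := by
    rw [TH_Z hZ hk, ← eHH_EU, ← map_mul, Pot.LZ_EU, eHH_EU]
  have hu : IsUnit (TH k Z) := isUnit_of_cci (by rw [cci_TH, hZ1, map_one])
  refine sub_eq_zero.1 (eq_zero_of_EU ?_ ?_)
  · rw [map_sub, sub_eq_zero]
    exact hu.mul_right_cancel (a1.trans a2.symm)
  · rw [map_sub, cci_TH, constantCoeff_logOf hZ1, map_zero, cci_eHH (Pot.LZ_cci _ _), sub_zero]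

include hZ in
/-- coefficients of the genus one part -/
theorem coeff_Wb (hk : ∀ i, 0 < k i) (p m : ℕ) (β : Fin r →₀ ℕ) :
    MvPowerSeries.coeff β (coeff m (coeff p (cM (kap_even k hk)).Wb))
      = (-1) ^ m * if dg (fun i => 2 * k i) β = 2 * m then
        (if dg (fun _ => 1) β = p then MvPowerSeries.coeff β (coeff m (logOf Z)) else 0) else 0 := by
  have : IsDomain (MS r) := NoZeroDivisors.to_isDomain _
  rw [cM_W, ← TH_log hZ hk, coeff_TH]
  have : ((-1 : (MS r)⟦X⟧)) ^ m = C (MvPowerSeries.C ((-1) ^ m)) := by simp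
  rw [this, coeff_C_mul, MvPowerSeries.coeff_C_mul, coeff_th]

/-- series with nonnegative coefficients -/
def NN (r : ℕ) : Subsemiring (MS r)⟦X⟧ where
  carrier := {f | ∀ p β, 0 ≤ MvPowerSeries.coeff β (coeff p f)}
  mul_mem' {f g} hf hg := by
    intro p β
    rw [coeff_mul, map_sum]
    refine sum_nonneg fun x _ => ?_
    rw [MvPowerSeries.coeff_mul]
    exact sum_nonneg fun y _ => mul_nonneg (hf _ _) (hg _ _)
  one_mem' := by
    intro p β
    rw [coeff_one]
    split_ifs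
    · rw [MvPowerSeries.coeff_one]; split_ifs <;> norm_num
    · rw [map_zero]
  add_mem' {f g} hf hg := by
    intro p β
    rw [map_add, map_add]; exact add_nonneg (hf _ _) (hg _ _)
  zero_mem' := by
    intro p β
    rw [map_zero, map_zero]

theorem NN_Q (r : ℕ) : QCone (NN r) := by
  intro q hq p β
  rw [PowerSeries.algebraMap_apply, coeff_C]
  split_ifs
  · rw [MvPowerSeries.algebraMap_apply, MvPowerSeries.coeff_C]
    split_ifs
    · exact hq
    · exact le_rfl
  · rw [map_zero]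

theorem coeff_kap_nonneg (m : ℕ) (β : Fin r →₀ ℕ) : 0 ≤ MvPowerSeries.coeff β (kap k m) := by
  rw [kap, map_sum]
  refine sum_nonneg fun i _ => ?_
  split_ifs
  · rw [MvPowerSeries.coeff_monomial]
    split_ifs
    · norm_num
    · exact le_rfl
  · rw [map_zero]

theorem coeff_kap_single (i : Fin r) :
    MvPowerSeries.coeff (Finsupp.single i 1) (kap k (2 * k i)) = 2 := by
  rw [kap, map_sum, Finset.sum_eq_single i]
  · rw [if_pos rfl, MvPowerSeries.coeff_monomial_same]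
  · intro j _ hj
    split_ifs
    · rw [MvPowerSeries.coeff_monomial_ne]
      intro h
      exact hj (Finsupp.single_left_injective one_ne_zero h).symm
    · rw [map_zero]
  · intro h; exact absurd (mem_univ i) h

theorem odd_nn : Odd (nn k) := ⟨∑ i, k i, rfl⟩

theorem ks_mem (hk : ∀ i, 0 < k i) (i : ℕ) : (cM (kap_even k hk)).ks i ∈ NN r := by
  intro p β
  rw [Model.ks, cM_kb]
  rcases p with _ | p
  · rw [coeff_zero_X_mul, map_zero]
  · rw [coeff_succ_X_mul, coeff_C]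
    split_ifs
    · exact coeff_kap_nonneg _ _
    · rw [map_zero]

theorem dg_two (β : Fin r →₀ ℕ) : dg (fun i => 2 * k i) β = 2 * dg k β := by
  simp only [dg, mul_sum]
  exact sum_congr rfl fun i _ => by ring

include hZ in
theorem log_nonneg (hk : ∀ i, 0 < k i) (m : ℕ) (β : Fin r →₀ ℕ) (h : dg k β = m) :
    0 ≤ (-1) ^ m * MvPowerSeries.coeff β (coeff m (logOf Z)) := by
  rcases Nat.eq_zero_or_pos m with h0 | h0
  · rw [h0, coeff_zero_eq_constantCoeff_apply, constantCoeff_logOf (Z_cc hZ), map_zero, mul_zero]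
  · have h1 := ((cM (kap_even k hk)).sys odd_nn).W_pos (NN_Q r) (ks_mem hk) m h0
      (dg (fun _ => 1) β) β
    change 0 ≤ MvPowerSeries.coeff β (coeff _ (coeff m (swapS (cM (kap_even k hk)).Wb))) at h1
    rw [coeff_swapS, coeff_Wb hZ hk, if_pos (by rw [dg_two, h]), if_pos rfl] at h1
    exact h1

include hZ in
theorem log_pos (hk : ∀ i, 0 < k i) (i : Fin r) :
    0 < (-1) ^ (k i) * MvPowerSeries.coeff (Finsupp.single i 1) (coeff (k i) (logOf Z)) := by
  obtain ⟨c, hc, h1⟩ := ((cM (kap_even k hk)).sys odd_nn).W_lower (NN_Q r) (ks_mem hk) (k i) (hk i)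
    (le_nn k i)
  have h2 := h1 1 (Finsupp.single i 1)
  change 0 ≤ MvPowerSeries.coeff _ (coeff 1 (coeff (k i) (swapS (cM (kap_even k hk)).Wb)
    - algebraMap ℚ _ c * (cM (kap_even k hk)).ks (2 * k i))) at h2
  have hd : dg (fun _ => 1) (Finsupp.single i 1) = 1 := by
    rw [dg, Finset.sum_eq_single i]
    · simp
    · intro j _ hj
      rw [Finsupp.single_apply, if_neg (Ne.symm hj), zero_mul]
    · intro h; exact absurd (mem_univ i) h
  have hd2 : dg k (Finsupp.single i 1) = k i := by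
    rw [dg, Finset.sum_eq_single i]
    · simp
    · intro j _ hj
      rw [Finsupp.single_apply, if_neg (Ne.symm hj), zero_mul]
    · intro h; exact absurd (mem_univ i) h
  have e3 : MvPowerSeries.coeff (Finsupp.single i 1) (coeff 1 (algebraMap ℚ (MS r)⟦X⟧ c
      * (cM (kap_even k hk)).ks (2 * k i))) = c * 2 := by
    rw [PowerSeries.algebraMap_apply, coeff_C_mul, MvPowerSeries.algebraMap_apply,
      MvPowerSeries.coeff_C_mul, Model.ks, cM_kb, show (1 : ℕ) = 0 + 1 from rfl, coeff_succ_X_mul,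
      coeff_zero_C, coeff_kap_single]
    rfl
  rw [map_sub, map_sub, e3, coeff_swapS, coeff_Wb hZ hk, if_pos (by rw [dg_two, hd2]),
    if_pos hd] at h2
  linarith

end final

section expo
variable {r : ℕ} {k : Fin r → ℕ}

/-- signed coefficients -/
noncomputable def sg (f : (MS r)⟦X⟧) (m : ℕ) (β : Fin r →₀ ℕ) : ℚ :=
  (-1) ^ m * MvPowerSeries.coeff β (coeff m f)

theorem sg_mul (f g : (MS r)⟦X⟧) (m : ℕ) (β : Fin r →₀ ℕ) : sg (f * g) m β
    = ∑ x ∈ HasAntidiagonal.antidiagonal m, ∑ y ∈ HasAntidiagonal.antidiagonal β,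
      sg f x.1 y.1 * sg g x.2 y.2 := by
  rw [sg, coeff_mul, map_sum, mul_sum]
  refine sum_congr rfl fun x hx => ?_
  rw [HasAntidiagonal.mem_antidiagonal] at hx
  rw [MvPowerSeries.coeff_mul, mul_sum]
  refine sum_congr rfl fun y _ => ?_
  rw [sg, sg, ← hx, pow_add]
  ring

theorem sg_eu (f : (MS r)⟦X⟧) (m : ℕ) (β : Fin r →₀ ℕ) : sg (eu f) m β = m * sg f m β := by
  rw [sg, coeff_eu, sg]
  have : ((m : ℕ) : MS r) = MvPowerSeries.C (m : ℚ) := by simp
  rw [this, MvPowerSeries.coeff_C_mul]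
  ring

theorem sg_24 (f : (MS r)⟦X⟧) (m : ℕ) (β : Fin r →₀ ℕ) : sg (24 * f) m β = 24 * sg f m β := by
  have e : (24 : (MS r)⟦X⟧) = C (MvPowerSeries.C (24 : ℚ)) := by
    rw [map_ofNat, map_ofNat]
  rw [sg, e, coeff_C_mul, MvPowerSeries.coeff_C_mul, sg]
  ring

theorem le_dsum {ι κ : Type*} (s : Finset ι) (t : Finset κ) (f : ι → κ → ℚ)
    (hf : ∀ i j, 0 ≤ f i j) {a : ι} {b : κ} (ha : a ∈ s) (hb : b ∈ t) :
    f a b ≤ ∑ i ∈ s, ∑ j ∈ t, f i j :=
  (single_le_sum (f := fun j => f a j) (fun j _ => hf a j) hb).trans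
    (single_le_sum (f := fun i => ∑ j ∈ t, f i j) (fun i _ => sum_nonneg fun j _ => hf i j) ha)

theorem exp_coeff_pos (hk : ∀ i, 0 < k i) {G : (MS r)⟦X⟧} (h0 : constantCoeff G = 0)
    (hG : ∀ m β, 0 ≤ sg G m β) (hp : ∀ i, 0 < sg G (k i) (Finsupp.single i 1)) :
    0 < sg ((exp (MS r)).subst (24 * G)) (∑ i, k i) (∑ i, Finsupp.single i 1) := by
  have h24 : constantCoeff (24 * G) = 0 := by rw [map_mul, h0, mul_zero]
  have hE := exp_subst_eu (24 * G) h24
  have hc := cc_exp_subst (24 * G) h24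
  generalize (exp (MS r)).subst (24 * G) = E at hE hc ⊢
  have hrec : ∀ (m : ℕ) (β : Fin r →₀ ℕ), (m : ℚ) * sg E m β = ∑ x ∈ HasAntidiagonal.antidiagonal m,
      ∑ y ∈ HasAntidiagonal.antidiagonal β, (x.1 * (24 * sg G x.1 y.1)) * sg E x.2 y.2 := by
    intro m β
    rw [← sg_eu, hE, sg_mul]
    refine sum_congr rfl fun x _ => sum_congr rfl fun y _ => ?_
    rw [sg_eu, sg_24]
  have hz : ∀ β, 0 ≤ sg E 0 β := by
    intro β
    rw [sg, coeff_zero_eq_constantCoeff_apply, hc, MvPowerSeries.coeff_one]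
    split_ifs <;> norm_num
  have hnn : ∀ m β, 0 ≤ sg E m β := by
    intro m
    induction m using Nat.strong_induction_on with
    | _ m ih =>
      intro β
      rcases Nat.eq_zero_or_pos m with h | h
      · rw [h]; exact hz β
      · have h1 : 0 ≤ (m : ℚ) * sg E m β := by
          rw [hrec]
          refine sum_nonneg fun x hx => sum_nonneg fun y _ => ?_
          rw [HasAntidiagonal.mem_antidiagonal] at hx
          rcases Nat.eq_zero_or_pos x.1 with h2 | h2
          · rw [h2]; simp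
          · exact mul_nonneg (mul_nonneg (Nat.cast_nonneg _)
              (mul_nonneg (by norm_num) (hG _ _))) (ih x.2 (by omega) _)
        exact nonneg_of_mul_nonneg_right h1 (by exact_mod_cast h)
  have hpos : ∀ B : Finset (Fin r), 0 < sg E (∑ i ∈ B, k i) (∑ i ∈ B, Finsupp.single i 1) := by
    intro B
    induction B using Finset.induction_on with
    | empty =>
      rw [sum_empty, sum_empty, sg, coeff_zero_eq_constantCoeff_apply, hc,
        MvPowerSeries.coeff_one, if_pos rfl]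
      norm_num
    | insert b B hb ih =>
      rw [sum_insert hb, sum_insert hb]
      have h1 : 0 < ((k b + ∑ i ∈ B, k i : ℕ) : ℚ)
          * sg E (k b + ∑ i ∈ B, k i) (Finsupp.single b 1 + ∑ i ∈ B, Finsupp.single i 1) := by
        rw [hrec]
        have hnnt : ∀ x : ℕ × ℕ, ∀ y : (Fin r →₀ ℕ) × (Fin r →₀ ℕ),
            0 ≤ (x.1 * (24 * sg G x.1 y.1)) * sg E x.2 y.2 := fun x y =>
          mul_nonneg (mul_nonneg (Nat.cast_nonneg _) (mul_nonneg (by norm_num) (hG _ _))) (hnn _ _)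
        have h2 : 0 < ((k b : ℕ) * (24 * sg G (k b) (Finsupp.single b 1)))
            * sg E (∑ i ∈ B, k i) (∑ i ∈ B, Finsupp.single i 1) :=
          mul_pos (mul_pos (by exact_mod_cast hk b) (mul_pos (by norm_num) (hp b))) ih
        have hm1 : ((k b, ∑ i ∈ B, k i) : ℕ × ℕ)
            ∈ HasAntidiagonal.antidiagonal (k b + ∑ i ∈ B, k i) :=
          HasAntidiagonal.mem_antidiagonal.2 rfl
        have hm2 : ((Finsupp.single b 1, ∑ i ∈ B, Finsupp.single i 1)
            : (Fin r →₀ ℕ) × (Fin r →₀ ℕ)) ∈ HasAntidiagonal.antidiagonal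
              (Finsupp.single b 1 + ∑ i ∈ B, Finsupp.single i 1) :=
          HasAntidiagonal.mem_antidiagonal.2 rfl
        have h3 := le_dsum _ _ (fun (x : ℕ × ℕ) (y : (Fin r →₀ ℕ) × (Fin r →₀ ℕ)) =>
          (x.1 * (24 * sg G x.1 y.1)) * sg E x.2 y.2) hnnt hm1 hm2
        exact h2.trans_le h3
      exact pos_of_mul_pos_right h1 (Nat.cast_nonneg _)
  exact hpos univ

end expo

end MP4a
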