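import Pool.Agent.Lib.MP_4a2528_ag.Poly

/-!
Transport along the characteristics of the Hamilton-Jacobi equation, and the one-loop term.
-/

set_option linter.unusedSectionVars false

namespace MP4a

open PowerSeries Matrix

section mat
variable {m : Type*} [Fintype m] [DecidableEq m] {R : Type*} [CommRing R] [Algebra ℚ R]

/-- entrywise derivation of matrices -/
def dM (D : Derivation ℚ R R) (M : Matrix m m R) : Matrix m m R := M.map D

theorem dM_apply (D : Derivation ℚ R R) (M : Matrix m m R) (i j : m) : dM D M i j = D (M i j) := rfl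

theorem dM_add (D : Derivation ℚ R R) (M N : Matrix m m R) :
    dM D (M + N) = dM D M + dM D N := by
  ext i j; simp [dM]

theorem dM_sub (D : Derivation ℚ R R) (M N : Matrix m m R) :
    dM D (M - N) = dM D M - dM D N := by
  ext i j; simp [dM]

theorem dM_mul (D : Derivation ℚ R R) (M N : Matrix m m R) :
    dM D (M * N) = dM D M * N + M * dM D N := by
  ext i j
  simp only [dM, Matrix.map_apply, Matrix.mul_apply, Matrix.add_apply, map_sum,
    Derivation.leibniz, smul_eq_mul]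
  rw [← Finset.sum_add_distrib]
  exact Finset.sum_congr rfl fun k _ => by ring

theorem dM_one (D : Derivation ℚ R R) : dM D (1 : Matrix m m R) = 0 := by
  ext i j
  simp only [dM, Matrix.map_apply, Matrix.one_apply, Matrix.zero_apply]
  split_ifs <;> simp

theorem dM_smul (D : Derivation ℚ R R) (a : R) (M : Matrix m m R) :
    dM D (a • M) = D a • M + a • dM D M := by
  ext i j
  simp only [dM, Matrix.map_apply, Matrix.smul_apply, Matrix.add_apply, Derivation.leibniz,
    smul_eq_mul]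
  ring

theorem trace_dM (D : Derivation ℚ R R) (M : Matrix m m R) :
    (dM D M).trace = D M.trace := by
  simp [dM, Matrix.trace, map_sum]

theorem dM_transpose (D : Derivation ℚ R R) (M : Matrix m m R) : dM D Mᵀ = (dM D M)ᵀ := rfl

end mat

/-- `n` commuting derivations and a vector field depending on time -/
structure Flow (n : ℕ) (B : Type*) [CommRing B] [Algebra ℚ B] where
  d : Fin n → Derivation ℚ B B
  comm : ∀ i j b, d i (d j b) = d j (d i b)
  V : Fin n → B⟦X⟧

namespace Flow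

variable {n : ℕ} {B : Type*} [CommRing B] [Algebra ℚ B] (F : Flow n B)

/-- derivations on `B[[s]]` -/
noncomputable def L (k : Fin n) : Derivation ℚ B⟦X⟧ B⟦X⟧ := liftD (F.d k)

/-- `d/ds - sum V_k d_k` -/
noncomputable def TT : Derivation ℚ B⟦X⟧ B⟦X⟧ := dX - ∑ k, F.V k • F.L k

theorem TT_apply (Y : B⟦X⟧) : F.TT Y = dX Y - ∑ k, F.V k * F.L k Y := by
  simp only [TT, Derivation.sub_apply]
  congr 1
  have : ∀ s : Finset (Fin n), (∑ k ∈ s, F.V k • F.L k) Y = ∑ k ∈ s, F.V k * F.L k Y := by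
    intro s
    induction s using Finset.induction_on with
    | empty => simp
    | insert a s ha ih => rw [Finset.sum_insert ha, Finset.sum_insert ha, Derivation.add_apply, ih]; rfl
  exact this _

theorem TT_X : F.TT X = 1 := by
  rw [TT_apply]; simp [L]

theorem TT_C {b : B} (hb : ∀ k, F.d k b = 0) : F.TT (C b) = 0 := by
  rw [TT_apply]; simp [L, hb]

/-- uniqueness for linear homogeneous transport systems -/
theorem unique_sys {ι : Type*} [Fintype ι] (Y : ι → B⟦X⟧) (c : ι → ι → B⟦X⟧)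
    (h : ∀ i, F.TT (Y i) = ∑ j, c i j * Y j) (h0 : ∀ i, coeff 0 (Y i) = 0) : ∀ i, Y i = 0 := by
  have key : ∀ m, ∀ p ≤ m, ∀ i, coeff p (Y i) = 0 := by
    intro m
    induction m with
    | zero => intro p hp i; obtain rfl : p = 0 := by omega
              exact h0 i
    | succ m ih =>
      intro p hp i
      rcases Nat.lt_or_ge p (m + 1) with h' | h'
      · exact ih p (by omega) i
      · obtain rfl : p = m + 1 := by omega
        have e := congrArg (coeff m) (h i)
        rw [TT_apply, map_sub, coeff_dX, map_sum, map_sum] at e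
        have z1 : ∑ k, coeff m (F.V k * F.L k (Y i)) = 0 := by
          refine Finset.sum_eq_zero fun k _ => ?_
          rw [coeff_mul]
          refine Finset.sum_eq_zero fun q hq => ?_
          rw [Finset.HasAntidiagonal.mem_antidiagonal] at hq
          rw [L, coeff_liftD, ih q.2 (by omega) i, map_zero, mul_zero]
        have z2 : ∑ j, coeff m (c i j * Y j) = 0 := by
          refine Finset.sum_eq_zero fun k _ => ?_
          rw [coeff_mul]
          refine Finset.sum_eq_zero fun q hq => ?_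
          rw [Finset.HasAntidiagonal.mem_antidiagonal] at hq
          rw [ih q.2 (by omega) k, mul_zero]
        rw [z1, z2, sub_zero] at e
        refine natCast_mul_eq_zero (n := m + 1) (by omega) ?_
        rw [← e]; push_cast; ring
  intro i; ext m; simpa using key m m le_rfl i

theorem unique {Y : B⟦X⟧} (h : F.TT Y = 0) (h0 : coeff 0 Y = 0) : Y = 0 :=
  F.unique_sys (ι := Unit) (fun _ => Y) (fun _ _ => 0) (fun _ => by simp [h]) (fun _ => h0) ()

theorem unique' {Y Z : B⟦X⟧} (h : F.TT Y = F.TT Z) (h0 : coeff 0 Y = coeff 0 Z) : Y = Z :=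
  sub_eq_zero.1 (F.unique (by rw [map_sub, h, sub_self]) (by rw [map_sub, h0, sub_self]))

theorem exists_star (b : B) : ∃ Y : B⟦X⟧, F.TT Y = 0 ∧ coeff 0 Y = b := by
  have hG : Causal (fun f : B⟦X⟧ => ∑ k, F.V k * F.L k f) := by
    intro m f g h
    simp only [map_sum, coeff_mul]
    refine Finset.sum_congr rfl fun k _ => Finset.sum_congr rfl fun q hq => ?_
    rw [Finset.HasAntidiagonal.mem_antidiagonal] at hq
    rw [L, coeff_liftD, coeff_liftD, h q.2 (by omega)]
  obtain ⟨f, hf, h0⟩ := ode_exists hG b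
  exact ⟨f, by rw [TT_apply, hf, sub_self], h0⟩

/-- the transported element, as a function -/
noncomputable def starF (b : B) : B⟦X⟧ := (F.exists_star b).choose

theorem TT_starF (b : B) : F.TT (F.starF b) = 0 := (F.exists_star b).choose_spec.1
theorem coeff_zero_starF (b : B) : coeff 0 (F.starF b) = b := (F.exists_star b).choose_spec.2

/-- transport as a ring homomorphism -/
noncomputable def star : B →+* B⟦X⟧ where
  toFun := F.starF
  map_one' := F.unique' (by rw [TT_starF, Derivation.map_one_eq_zero])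
    (by rw [coeff_zero_starF]; simp)
  map_zero' := F.unique' (by rw [TT_starF, map_zero]) (by rw [coeff_zero_starF]; simp)
  map_add' a b := F.unique' (by rw [map_add, TT_starF, TT_starF, TT_starF, add_zero])
    (by rw [map_add, coeff_zero_starF, coeff_zero_starF, coeff_zero_starF])
  map_mul' a b := F.unique' (by rw [Derivation.leibniz, TT_starF, TT_starF, TT_starF]; simp)
    (by
      rw [coeff_zero_starF]
      simp only [coeff_zero_eq_constantCoeff_apply, map_mul]
      rw [← coeff_zero_eq_constantCoeff_apply, ← coeff_zero_eq_constantCoeff_apply,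
        coeff_zero_starF, coeff_zero_starF])

theorem TT_star (b : B) : F.TT (F.star b) = 0 := F.TT_starF b
theorem coeff_zero_star (b : B) : coeff 0 (F.star b) = b := F.coeff_zero_starF b

theorem star_eq {b : B} {Y : B⟦X⟧} (h : F.TT Y = 0) (h0 : coeff 0 Y = b) : F.star b = Y :=
  F.unique' (by rw [TT_star, h]) (by rw [coeff_zero_star, h0])

theorem star_const {b : B} (hb : ∀ k, F.d k b = 0) : F.star b = C b :=
  F.star_eq (F.TT_C hb) (by simp)

/-- commutation of `TT` with a coefficientwise derivation -/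
theorem TT_liftD (D : Derivation ℚ B B) (hD : ∀ k b, D (F.d k b) = F.d k (D b)) (Y : B⟦X⟧) :
    F.TT (liftD D Y) = liftD D (F.TT Y) + ∑ k, liftD D (F.V k) * F.L k Y := by
  rw [TT_apply, TT_apply, map_sub, dX_liftD, map_sum]
  have : ∀ k, liftD D (F.V k * F.L k Y) = F.V k * F.L k (liftD D Y) + liftD D (F.V k) * F.L k Y := by
    intro k
    rw [Derivation.leibniz, L, liftD_comm (hD k)]
    simp only [smul_eq_mul]; ring
  simp only [this, Finset.sum_add_distrib]
  ring

variable {F} in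
/-- the defect in the chain rule -/
noncomputable def defect (D : Derivation ℚ B B) (Y : B) : B⟦X⟧ :=
  liftD D (F.star Y) - F.star (D Y) - X * ∑ k, F.star (F.d k Y) * liftD D (F.V k)

theorem coeff_zero_defect (D : Derivation ℚ B B) (Y : B) : coeff 0 (F.defect D Y) = 0 := by
  rw [defect, map_sub, map_sub, coeff_liftD, coeff_zero_star, coeff_zero_star, coeff_zero_X_mul]
  ring

theorem TT_defect (hV : ∀ k, F.TT (F.V k) = 0) (D : Derivation ℚ B B)
    (hD : ∀ k b, D (F.d k b) = F.d k (D b)) (Y : B) :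
    F.TT (F.defect D Y) = ∑ k, liftD D (F.V k) * F.defect (F.d k) Y := by
  rw [defect, map_sub, map_sub, TT_star, TT_liftD F D hD, TT_star, map_zero, Derivation.leibniz,
    TT_X, map_sum]
  have e : ∀ k, F.TT (F.star (F.d k Y) * liftD D (F.V k))
      = F.star (F.d k Y) * ∑ l, liftD D (F.V l) * F.L l (F.V k) := by
    intro k
    rw [Derivation.leibniz, TT_star, TT_liftD F D hD, hV, map_zero, zero_add]
    simp
  simp only [e, defect, smul_eq_mul, L, mul_sub, Finset.sum_sub_distrib, mul_one]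
  have e2 : ∑ k, liftD D (F.V k) * (X * ∑ l, F.star (F.d l Y) * liftD (F.d k) (F.V l))
      = X * ∑ k, F.star (F.d k Y) * ∑ l, liftD D (F.V l) * liftD (F.d l) (F.V k) := by
    simp only [Finset.mul_sum]
    rw [Finset.sum_comm]
    refine Finset.sum_congr rfl fun k _ => Finset.sum_congr rfl fun l _ => ?_
    ring
  rw [e2]
  have e3 : ∑ k, liftD D (F.V k) * F.star (F.d k Y) = ∑ k, F.star (F.d k Y) * liftD D (F.V k) :=
    Finset.sum_congr rfl fun k _ => mul_comm _ _
  rw [e3]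
  ring

/-- the chain rule -/
theorem chain (hV : ∀ k, F.TT (F.V k) = 0) (D : Derivation ℚ B B)
    (hD : ∀ k b, D (F.d k b) = F.d k (D b)) (Y : B) :
    liftD D (F.star Y) = F.star (D Y) + X * ∑ k, F.star (F.d k Y) * liftD D (F.V k) := by
  have h1 : ∀ k, F.defect (F.d k) Y = 0 := by
    refine F.unique_sys (fun k => F.defect (F.d k) Y) (fun i k => liftD (F.d i) (F.V k)) ?_ ?_
    · intro i
      exact F.TT_defect hV (F.d i) (fun k b => F.comm i k b) Y
    · intro i; exact F.coeff_zero_defect _ _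
  have h2 : F.defect D Y = 0 := by
    refine F.unique ?_ (F.coeff_zero_defect _ _)
    rw [F.TT_defect hV D hD]
    simp [h1]
  rw [defect] at h2
  linear_combination h2

end Flow

/-! ### the Hamilton-Jacobi equation -/

/-- data of the coupling: `kap`, `A0`, `A1` constants and the two functions `W0`, `W1`. -/
structure HJ (n : ℕ) (B : Type*) [CommRing B] [Algebra ℚ B] where
  d : Fin n → Derivation ℚ B B
  comm : ∀ i j b, d i (d j b) = d j (d i b)
  kap : Fin n → B
  A0 : Fin n → Fin n → B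
  A1 : Fin n → Fin n → B
  W0 : B⟦X⟧
  W1 : B⟦X⟧
  kap_c : ∀ k j, d k (kap j) = 0
  A0_c : ∀ k i j, d k (A0 i j) = 0
  A1_c : ∀ k i j, d k (A1 i j) = 0
  A0_symm : ∀ i j, A0 i j = A0 j i
  A1_symm : ∀ i j, A1 i j = A1 j i
  eq0 : dX W0 = ∑ j, C (kap j) * liftD (d j) W0
    + algebraMap ℚ _ (1 / 2) * ∑ j, ∑ l, C (A0 j l) * (liftD (d j) W0 * liftD (d l) W0)
  eq1 : dX W1 = ∑ j, C (kap j) * liftD (d j) W1
    + ∑ j, ∑ l, C (A0 j l) * (liftD (d l) W0 * liftD (d j) W1)
    + algebraMap ℚ _ (1 / 2) * ∑ j, ∑ l, C (A0 j l) * liftD (d j) (liftD (d l) W0)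
    + algebraMap ℚ _ (1 / 2) * ∑ j, ∑ l, C (A1 j l) * (liftD (d j) W0 * liftD (d l) W0)

namespace HJ

variable {n : ℕ} {B : Type*} [CommRing B] [Algebra ℚ B] (S : HJ n B)

/-- gradient of `W0` -/
noncomputable def J (j : Fin n) : B⟦X⟧ := liftD (S.d j) S.W0

/-- velocity -/
noncomputable def V (k : Fin n) : B⟦X⟧ := C (S.kap k) + ∑ l, C (S.A0 k l) * S.J l

/-- the characteristic flow -/
noncomputable def fl : Flow n B := ⟨S.d, S.comm, S.V⟩

/-- Hessian of `W0` -/
noncomputable def Hs : Matrix (Fin n) (Fin n) B⟦X⟧ :=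
  Matrix.of fun i j => liftD (S.d i) (S.J j)

/-- `A0` as a matrix of constants -/
noncomputable def AM : Matrix (Fin n) (Fin n) B⟦X⟧ := Matrix.of fun i j => C (S.A0 i j)

/-- transported second derivatives of `F0` -/
noncomputable def QM : Matrix (Fin n) (Fin n) B⟦X⟧ :=
  Matrix.of fun i j => S.fl.star (S.d i (S.d j (coeff 0 S.W0)))

theorem Hs_symm : S.Hsᵀ = S.Hs := by
  ext i j
  simp only [Hs, Matrix.transpose_apply, Matrix.of_apply, J]
  exact congrArg _ (liftD_comm (S.comm j i) _)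

theorem AM_symm : S.AMᵀ = S.AM := by
  ext i j
  simp only [AM, Matrix.transpose_apply, Matrix.of_apply]
  rw [S.A0_symm]

theorem L_V (D : Derivation ℚ B B) (hk : ∀ j, D (S.kap j) = 0) (hA : ∀ i j, D (S.A0 i j) = 0)
    (k : Fin n) : liftD D (S.V k) = ∑ l, C (S.A0 k l) * liftD D (S.J l) := by
  rw [V, map_add, liftD_C, hk, map_zero, zero_add, map_sum]
  refine Finset.sum_congr rfl fun l _ => ?_
  rw [Derivation.leibniz, liftD_C, hA]
  simp

theorem TT_J (i : Fin n) : S.fl.TT (S.J i) = 0 := by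
  have h := congrArg (liftD (S.d i)) S.eq0
  rw [← dX_liftD] at h
  rw [Flow.TT_apply]
  change dX (liftD (S.d i) S.W0) - ∑ k, S.V k * liftD (S.d k) (liftD (S.d i) S.W0) = 0
  rw [h]
  have hh : ∀ f : B⟦X⟧, liftD (S.d i) (algebraMap ℚ _ (1 / 2) * f)
      = algebraMap ℚ _ (1 / 2) * liftD (S.d i) f := by
    intro f
    rw [← Algebra.smul_def, Derivation.map_smul, Algebra.smul_def]
  have hC : ∀ (a : B) (_ : S.d i a = 0) (f : B⟦X⟧), liftD (S.d i) (C a * f)
      = C a * liftD (S.d i) f := by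
    intro a ha f
    rw [Derivation.leibniz, liftD_C, ha]; simp
  have hcomm : ∀ j, liftD (S.d i) (liftD (S.d j) S.W0) = liftD (S.d j) (liftD (S.d i) S.W0) :=
    fun j => liftD_comm (S.comm i j) _
  simp only [map_add, map_sum, hh, hC _ (S.kap_c i _), hC _ (S.A0_c i _ _), V, add_mul,
    Finset.sum_add_distrib, hcomm]
  have e1 : ∑ j, ∑ l, C (S.A0 j l) * liftD (S.d i) (liftD (S.d j) S.W0 * liftD (S.d l) S.W0)
      = 2 * ∑ j, (∑ l, C (S.A0 j l) * S.J l) * liftD (S.d j) (liftD (S.d i) S.W0) := by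
    have e2 : ∑ j, ∑ l, C (S.A0 j l) * liftD (S.d i) (liftD (S.d j) S.W0 * liftD (S.d l) S.W0)
        = ∑ j, ∑ l, C (S.A0 j l) * (S.J l * liftD (S.d j) (liftD (S.d i) S.W0))
          + ∑ j, ∑ l, C (S.A0 j l) * (S.J j * liftD (S.d l) (liftD (S.d i) S.W0)) := by
      rw [← Finset.sum_add_distrib]
      refine Finset.sum_congr rfl fun j _ => ?_
      rw [← Finset.sum_add_distrib]
      refine Finset.sum_congr rfl fun l _ => ?_
      rw [Derivation.leibniz, hcomm, hcomm]
      simp only [smul_eq_mul, J]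
      ring
    have e3 : ∑ j, ∑ l, C (S.A0 j l) * (S.J j * liftD (S.d l) (liftD (S.d i) S.W0))
        = ∑ j, ∑ l, C (S.A0 j l) * (S.J l * liftD (S.d j) (liftD (S.d i) S.W0)) := by
      rw [Finset.sum_comm]
      refine Finset.sum_congr rfl fun j _ => Finset.sum_congr rfl fun l _ => ?_
      rw [S.A0_symm]
    rw [e2, e3, two_mul]
    congr 1 <;>
    · refine Finset.sum_congr rfl fun j _ => ?_
      rw [Finset.sum_mul]
      exact Finset.sum_congr rfl fun l _ => by ring
  rw [e1]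
  have h2 : (algebraMap ℚ B⟦X⟧ (1 / 2)) * 2 = 1 := by
    have : (2 : B⟦X⟧) = algebraMap ℚ _ 2 := (map_ofNat (algebraMap ℚ B⟦X⟧) 2).symm
    rw [this, ← map_mul]; norm_num
  linear_combination (∑ j, (∑ l, C (S.A0 j l) * S.J l) * liftD (S.d j) (liftD (S.d i) S.W0)) * h2

theorem TT_V (k : Fin n) : S.fl.TT (S.V k) = 0 := by
  rw [V, map_add, S.fl.TT_C (fun j => S.kap_c j k), zero_add, map_sum]
  refine Finset.sum_eq_zero fun l _ => ?_
  rw [Derivation.leibniz, TT_J, S.fl.TT_C (fun j => S.A0_c j k l)]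
  simp

theorem J_eq (j : Fin n) : S.J j = S.fl.star (S.d j (coeff 0 S.W0)) :=
  (S.fl.star_eq (S.TT_J j) (by rw [J, coeff_liftD])).symm

/-- the equation for the Hessian -/
theorem Hs_eq : S.Hs = S.QM + (X : B⟦X⟧) • (S.Hs * S.AM * S.QM) := by
  ext1 i j
  have h := S.fl.chain S.TT_V (S.d i) (fun k b => S.comm i k b) (S.d j (coeff 0 S.W0))
  rw [← J_eq] at h
  change liftD (S.d i) (S.J j) = _
  rw [h]
  simp only [Matrix.add_apply, Matrix.smul_apply, smul_eq_mul, QM, Matrix.of_apply,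
    Matrix.mul_apply]
  congr 2
  refine Finset.sum_congr rfl fun k _ => ?_
  have e : liftD (S.d i) (S.fl.V k) = ∑ l, S.Hs i l * S.AM l k := by
    change liftD (S.d i) (S.V k) = _
    rw [S.L_V (S.d i) (S.kap_c i) (S.A0_c i)]
    refine Finset.sum_congr rfl fun l _ => ?_
    simp only [Hs, AM, Matrix.of_apply]
    rw [S.A0_symm k l]; ring
  rw [e]
  exact mul_comm _ _

theorem QM_symm : S.QMᵀ = S.QM := by
  ext i j
  simp only [QM, Matrix.transpose_apply, Matrix.of_apply]
  rw [S.comm]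

theorem Hs_eq' : S.Hs = S.QM + (X : B⟦X⟧) • (S.QM * S.AM * S.Hs) := by
  have h := congrArg Matrix.transpose S.Hs_eq
  rw [Matrix.transpose_add, Matrix.transpose_smul, Matrix.transpose_mul, Matrix.transpose_mul,
    S.Hs_symm, S.QM_symm, S.AM_symm, ← Matrix.mul_assoc] at h
  exact h

/-- `N = 1 + s Hs A`, the inverse of `1 - s Q A` -/
noncomputable def NM : Matrix (Fin n) (Fin n) B⟦X⟧ := 1 + (X : B⟦X⟧) • (S.Hs * S.AM)

theorem NM_mul : S.NM * (1 - (X : B⟦X⟧) • (S.QM * S.AM)) = 1 := by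
  have h : S.Hs * S.AM = S.QM * S.AM + (X : B⟦X⟧) • (S.Hs * S.AM * (S.QM * S.AM)) := by
    conv_lhs => rw [S.Hs_eq]
    rw [Matrix.add_mul, Matrix.smul_mul]
    simp only [Matrix.mul_assoc]
  rw [NM, Matrix.add_mul, Matrix.one_mul, Matrix.mul_sub, Matrix.mul_one, Matrix.smul_mul,
    Matrix.mul_smul]
  nth_rewrite 1 [h]
  rw [smul_add]
  abel

theorem mul_NM : (1 - (X : B⟦X⟧) • (S.QM * S.AM)) * S.NM = 1 := mul_eq_one_comm.1 S.NM_mul

/-- `K = A + s A Hs A` -/
noncomputable def KM : Matrix (Fin n) (Fin n) B⟦X⟧ := S.AM + (X : B⟦X⟧) • (S.AM * S.Hs * S.AM)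

theorem KM_eq : S.KM = S.AM * S.NM := by
  rw [KM, NM, Matrix.mul_add, Matrix.mul_one, Matrix.mul_smul, Matrix.mul_assoc]

theorem dM_Hs (D : Derivation ℚ B⟦X⟧ B⟦X⟧) (hX : D X = 0) (hA : dM D S.AM = 0) :
    dM D S.Hs = S.NM * dM D S.QM * (1 + (X : B⟦X⟧) • (S.AM * S.Hs)) := by
  have h1 : dM D S.Hs = dM D S.QM + (X : B⟦X⟧) • (dM D S.QM * S.AM * S.Hs + S.QM * S.AM * dM D S.Hs) := by
    conv_lhs => rw [S.Hs_eq']
    rw [dM_add, dM_smul, hX, zero_smul, zero_add, dM_mul, dM_mul, hA, Matrix.mul_zero, add_zero]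
  have h2 : (1 - (X : B⟦X⟧) • (S.QM * S.AM)) * dM D S.Hs = dM D S.QM * (1 + (X : B⟦X⟧) • (S.AM * S.Hs)) := by
    rw [Matrix.sub_mul, Matrix.one_mul, Matrix.smul_mul, Matrix.mul_add, Matrix.mul_one,
      Matrix.mul_smul]
    nth_rewrite 1 [h1]
    rw [smul_add, Matrix.mul_assoc (dM D S.QM)]
    abel
  calc dM D S.Hs = S.NM * (1 - (X : B⟦X⟧) • (S.QM * S.AM)) * dM D S.Hs := by rw [NM_mul, Matrix.one_mul]
    _ = _ := by rw [Matrix.mul_assoc, h2, Matrix.mul_assoc]

theorem trace_id (D : Derivation ℚ B⟦X⟧ B⟦X⟧) (hX : D X = 0) (hA : dM D S.AM = 0) :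
    D (S.AM * S.Hs).trace = (S.KM * dM D S.QM).trace
      + X * (S.AM * S.Hs * S.KM * dM D S.QM).trace := by
  have hs : X * (S.AM * S.Hs * S.KM * dM D S.QM).trace
      = ((X : B⟦X⟧) • (S.AM * S.Hs * S.KM * dM D S.QM)).trace := by
    rw [Matrix.trace_smul, smul_eq_mul]
  rw [hs, ← trace_dM, dM_mul, hA, Matrix.zero_mul, zero_add, S.dM_Hs D hX hA, ← Matrix.mul_assoc,
    ← Matrix.mul_assoc, Matrix.trace_mul_comm, ← Matrix.mul_assoc, ← Matrix.trace_add,
    ← KM_eq, Matrix.add_mul, Matrix.one_mul, Matrix.smul_mul, Matrix.add_mul, Matrix.smul_mul]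

theorem TT_Hs : dM S.fl.TT S.Hs = S.Hs * S.AM * S.Hs := by
  ext1 i j
  rw [dM_apply]
  change S.fl.TT (liftD (S.d i) (S.J j)) = _
  rw [S.fl.TT_liftD (S.d i) (fun k b => S.comm i k b), S.TT_J, map_zero, zero_add, Matrix.mul_apply]
  refine Finset.sum_congr rfl fun k _ => ?_
  change liftD (S.d i) (S.V k) * liftD (S.d k) (S.J j) = _
  rw [S.L_V (S.d i) (S.kap_c i) (S.A0_c i), Matrix.mul_apply]
  congr 1
  refine Finset.sum_congr rfl fun l _ => ?_
  simp only [Hs, AM, Matrix.of_apply]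
  rw [S.A0_symm k l]; ring

theorem TT_AM : dM S.fl.TT S.AM = 0 := by
  ext1 i j
  exact S.fl.TT_C (fun k => S.A0_c k i j)

theorem TT_QM : dM S.fl.TT S.QM = 0 := by
  ext1 i j
  exact S.fl.TT_star _

theorem TT_KM : dM S.fl.TT S.KM = S.AM * S.Hs * S.KM := by
  rw [KM, dM_add, TT_AM, dM_smul, S.fl.TT_X, one_smul, dM_mul, dM_mul, TT_AM, TT_Hs,
    Matrix.zero_mul, Matrix.mul_zero, zero_add, zero_add, add_zero, Matrix.mul_add,
    Matrix.mul_smul]
  simp only [Matrix.mul_assoc]

/-- the quadratic term with `A1` -/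
noncomputable def S1 : B⟦X⟧ := ∑ j, ∑ l, C (S.A1 j l) * (S.J j * S.J l)

theorem TT_S1 : S.fl.TT S.S1 = 0 := by
  rw [S1, map_sum]
  refine Finset.sum_eq_zero fun j _ => ?_
  rw [map_sum]
  refine Finset.sum_eq_zero fun l _ => ?_
  rw [Derivation.leibniz, Derivation.leibniz, TT_J, TT_J, S.fl.TT_C (fun k => S.A1_c k j l)]
  simp

theorem TT_W1 : S.fl.TT S.W1 = algebraMap ℚ _ (1 / 2) * (S.AM * S.Hs).trace
    + algebraMap ℚ _ (1 / 2) * S.S1 := by
  rw [Flow.TT_apply]
  change dX S.W1 - ∑ k, S.V k * liftD (S.d k) S.W1 = _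
  rw [S.eq1]
  have e1 : ∑ k, S.V k * liftD (S.d k) S.W1 = ∑ j, C (S.kap j) * liftD (S.d j) S.W1
      + ∑ j, ∑ l, C (S.A0 j l) * (liftD (S.d l) S.W0 * liftD (S.d j) S.W1) := by
    rw [← Finset.sum_add_distrib]
    refine Finset.sum_congr rfl fun k _ => ?_
    rw [V, add_mul, Finset.sum_mul]
    congr 1
    exact Finset.sum_congr rfl fun l _ => by rw [J]; ring
  have e2 : (S.AM * S.Hs).trace = ∑ j, ∑ l, C (S.A0 j l) * liftD (S.d j) (liftD (S.d l) S.W0) := by
    simp only [Matrix.trace, Matrix.diag, Matrix.mul_apply, AM, Hs, Matrix.of_apply, J]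
    refine Finset.sum_congr rfl fun j _ => Finset.sum_congr rfl fun l _ => ?_
    rw [liftD_comm (S.comm l j)]
  rw [e1, e2, S1]
  simp only [J]
  ring

/-- the defect of the one-loop formula -/
noncomputable def G (D : Derivation ℚ B B) : B⟦X⟧ :=
  liftD D S.W1 - liftD D (S.fl.star (coeff 0 S.W1))
    - algebraMap ℚ _ (1 / 2) * (X * liftD D S.S1)
    - algebraMap ℚ _ (1 / 2) * (X * (S.KM * dM (liftD D) S.QM).trace)

theorem TT_G (D : Derivation ℚ B B) (hD : ∀ k b, D (S.d k b) = S.d k (D b))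
    (hA : ∀ i j, D (S.A0 i j) = 0) :
    S.fl.TT (S.G D) = ∑ k, liftD D (S.V k) * S.G (S.d k) := by
  have hD' : ∀ k b, D (S.fl.d k b) = S.fl.d k (D b) := hD
  have half : ∀ f : B⟦X⟧, S.fl.TT (algebraMap ℚ _ (1 / 2) * f)
      = algebraMap ℚ _ (1 / 2) * S.fl.TT f := by
    intro f
    rw [← Algebra.smul_def, Derivation.map_smul, Algebra.smul_def]
  have half2 : ∀ f : B⟦X⟧, liftD D (algebraMap ℚ _ (1 / 2) * f)
      = algebraMap ℚ _ (1 / 2) * liftD D f := by
    intro f
    rw [← Algebra.smul_def, Derivation.map_smul, Algebra.smul_def]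
  have hQ : dM S.fl.TT (dM (liftD D) S.QM)
      = ∑ k, liftD D (S.V k) • dM (liftD (S.d k)) S.QM := by
    ext1 i j
    rw [dM_apply, dM_apply, S.fl.TT_liftD D hD']
    have : S.fl.TT (S.QM i j) = 0 := S.fl.TT_star _
    rw [this, map_zero, zero_add, Matrix.sum_apply]
    rfl
  have hAM : dM (liftD D) S.AM = 0 := by
    ext1 i j
    rw [dM_apply]
    simp [AM, hA]
  have hX : liftD D (X : B⟦X⟧) = 0 := liftD_X D
  have t1 := S.trace_id (liftD D) hX hAM
  have t2 : S.fl.TT (S.KM * dM (liftD D) S.QM).trace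
      = (S.AM * S.Hs * S.KM * dM (liftD D) S.QM).trace
        + ∑ k, liftD D (S.V k) * (S.KM * dM (liftD (S.d k)) S.QM).trace := by
    rw [← trace_dM, dM_mul, TT_KM, hQ, Matrix.trace_add, Finset.mul_sum, Matrix.trace_sum]
    congr 1
    refine Finset.sum_congr rfl fun k _ => ?_
    rw [Matrix.mul_smul, Matrix.trace_smul, smul_eq_mul]
  rw [G, map_sub, map_sub, map_sub, half, half, S.fl.TT_liftD D hD', S.fl.TT_liftD D hD',
    S.fl.TT_star, map_zero, Derivation.leibniz, Derivation.leibniz, S.fl.TT_X,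
    S.fl.TT_liftD D hD', S.TT_S1, map_zero, S.TT_W1, map_add, half2, half2, t1, t2]
  simp only [G, mul_sub, Finset.sum_sub_distrib, smul_eq_mul, Finset.mul_sum, mul_add]
  have c1 : ∀ k, S.fl.L k = liftD (S.d k) := fun _ => rfl
  have c2 : ∀ k, S.fl.V k = S.V k := fun _ => rfl
  simp only [c1, c2]
  have m1 : ∀ a b c d : B⟦X⟧, a * (b * (c * d)) = c * (b * (a * d)) := fun a b c d => by ring
  have s1 : ∀ f : Fin n → B⟦X⟧, ∑ k, liftD D (S.V k) * (algebraMap ℚ _ (1 / 2) * (X * f k))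
      = ∑ k, algebraMap ℚ _ (1 / 2) * (X * (liftD D (S.V k) * f k)) := fun f =>
    Finset.sum_congr rfl fun k _ => by ring
  rw [s1, s1]
  ring

/-- the one-loop formula -/
theorem one_loop (D : Derivation ℚ B B) (hD : ∀ k b, D (S.d k b) = S.d k (D b))
    (hA : ∀ i j, D (S.A0 i j) = 0) :
    liftD D S.W1 = liftD D (S.fl.star (coeff 0 S.W1))
      + algebraMap ℚ _ (1 / 2) * (X * liftD D S.S1)
      + algebraMap ℚ _ (1 / 2) * (X * (S.KM * dM (liftD D) S.QM).trace) := by
  have h00 : ∀ D : Derivation ℚ B B, coeff 0 (S.G D) = 0 := by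
    intro D
    have e : ∀ f : B⟦X⟧, coeff 0 (algebraMap ℚ _ (1 / 2) * (X * f)) = 0 := by
      intro f
      rw [mul_left_comm, coeff_zero_X_mul]
    rw [G, map_sub, map_sub, map_sub, e, e, coeff_liftD, coeff_liftD, S.fl.coeff_zero_star]
    ring
  have h1 : ∀ k, S.G (S.d k) = 0 := by
    refine S.fl.unique_sys (fun k => S.G (S.d k)) (fun i k => liftD (S.d i) (S.V k)) ?_ ?_
    · intro i
      exact S.TT_G (S.d i) (fun k b => S.comm i k b) (S.A0_c i)
    · intro i; exact h00 _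
  have h2 : S.G D = 0 := by
    refine S.fl.unique ?_ (h00 D)
    rw [S.TT_G D hD hA]
    simp [h1]
  rw [G] at h2
  linear_combination h2

end HJ

end MP4a
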