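import Pool.Agent.Lib.MP_4a2528_ag.StatB
import Pool.Agent.Lib.MP_4a2528_ag.Flow

/-!
Parity, and evaluation of the coupled solution at the origin of the potentials.
-/

set_option linter.unusedSectionVars false

namespace MP4a

open PowerSeries Matrix

/-- sign-twisted coupling constants -/
def aK {A : Type*} [CommRing A] (k : ℕ → A) (j l : ℕ) : A := (-1) ^ l * k (j + l + 2)

/-- sign-twisted coupling constants, next order -/
noncomputable def bK {A : Type*} [CommRing A] [Algebra ℚ A] (k : ℕ → A) (j l : ℕ) : A :=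
  algebraMap ℚ A (1 / 12) * ((-1) ^ l * k (j + l + 4))

/-- even sequences of coupling constants -/
structure EvenSeq {A : Type*} [CommRing A] (n : ℕ) (k : ℕ → A) : Prop where
  zero : k 0 = 0
  odd : ∀ m, Odd m → k m = 0
  big : ∀ m, n ≤ m → k m = 0

theorem EvenSeq.neg_one_mul {A : Type*} [CommRing A] {n : ℕ} {k : ℕ → A} (h : EvenSeq n k)
    (m : ℕ) : (-1) ^ m * k m = k m := by
  rcases Nat.even_or_odd m with e | o
  · rw [e.neg_one_pow, one_mul]
  · rw [h.odd m o, mul_zero]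

theorem EvenSeq.symm' {A : Type*} [CommRing A] {n : ℕ} {k : ℕ → A} (h : EvenSeq n k)
    (i j m : ℕ) (hm : Even m) : (-1) ^ j * k (i + j + m) = (-1) ^ i * k (j + i + m) := by
  rcases Nat.even_or_odd (i + j + m) with e | o
  · have e' : Even (i + j) := by
      rw [Nat.even_add] at e; exact e.2 hm
    have : ((-1 : A)) ^ j = (-1) ^ i := by
      rcases Nat.even_or_odd i with hi | hi
      · have hj : Even j := (Nat.even_add.1 e').1 hi
        rw [hi.neg_one_pow, hj.neg_one_pow]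
      · have hj : Odd j := by
          rw [← Nat.not_even_iff_odd] at hi ⊢
          exact fun hj => hi ((Nat.even_add.1 e').2 hj)
        rw [hi.neg_one_pow, hj.neg_one_pow]
    rw [this, add_comm i j]
  · rw [h.odd _ o, add_comm j i, h.odd _ o, mul_zero, mul_zero]

theorem EvenSeq.parity {A : Type*} [CommRing A] {n : ℕ} {k : ℕ → A} (h : EvenSeq n k)
    (i j m : ℕ) (hm : Even m) : (-1) ^ i * ((-1) ^ j * k (i + j + m)) = k (i + j + m) := by
  rcases Nat.even_or_odd (i + j + m) with e | o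
  · have e' : Even (i + j) := by
      rw [Nat.even_add] at e; exact e.2 hm
    rw [← mul_assoc, ← pow_add, e'.neg_one_pow, one_mul]
  · rw [h.odd _ o, mul_zero, mul_zero]

/-- all the data of the coupled problem -/
structure Model (n : ℕ) (A S : Type*) [CommRing A] [Algebra ℚ A] [CommRing S] [Algebra ℚ S] where
  P : Pot n A
  k : ℕ → A
  k_dr : ∀ j m, P.dr j (k m) = 0
  k_even : EvenSeq n k
  F0 : A⟦X⟧
  F1 : A⟦X⟧
  sol0 : P.Sol0 F0
  sol1 : Pot.Sol1 P F0 F1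
  W0 : A⟦X⟧⟦X⟧
  W1 : A⟦X⟧⟦X⟧
  w0 : coeff 0 W0 = F0
  w1 : coeff 0 W1 = F1
  eq0 : dX W0 = ∑ j : Fin n, C (C (k j)) * liftD (P.Dr j) W0
    + algebraMap ℚ _ (1 / 2) * ∑ j : Fin n, ∑ l : Fin n, C (C (aK k j l))
      * (liftD (P.Dr j) W0 * liftD (P.Dr l) W0)
  eq1 : dX W1 = ∑ j : Fin n, C (C (k j)) * liftD (P.Dr j) W1
    + ∑ j : Fin n, ∑ l : Fin n, C (C (aK k j l)) * (liftD (P.Dr l) W0 * liftD (P.Dr j) W1)
    + algebraMap ℚ _ (1 / 2) * ∑ j : Fin n, ∑ l : Fin n, C (C (aK k j l))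
      * liftD (P.Dr j) (liftD (P.Dr l) W0)
    + algebraMap ℚ _ (1 / 2) * ∑ j : Fin n, ∑ l : Fin n, C (C (bK k j l))
      * (liftD (P.Dr j) W0 * liftD (P.Dr l) W0)
  pi : A →+* A
  ev : A →+* S
  pi_x : pi P.x = -P.x
  pi_rho : ∀ j : Fin n, pi (P.rho j) = (-1) ^ (j : ℕ) * P.rho j
  pi_r : pi P.r = P.r
  pi_k : ∀ m, pi (k m) = k m
  pi_dx : ∀ a, pi (P.dx a) = -P.dx (pi a)
  pi_dr : ∀ (j : Fin n) a, pi (P.dr j a) = (-1) ^ (j : ℕ) * P.dr j (pi a)
  ev_pi : ∀ a, ev (pi a) = ev a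
  ev_x : ev P.x = 0
  ev_rho : ∀ j, ev (P.rho j) = 0
  ev_r : ev P.r = 1

theorem Pot.Sol0.unique {n : ℕ} {A : Type*} [CommRing A] [Algebra ℚ A] {P : Pot n A}
    {F G : A⟦X⟧} (hF : P.Sol0 F) (hG : P.Sol0 G) : F = G := by
  have key : ∀ m, coeff m F = coeff m G := by
    intro m
    induction m using Nat.strong_induction_on with
    | _ m ih =>
      rcases Nat.lt_or_ge m 2 with hm | hm
      · interval_cases m
        · rw [hF.c0, hG.c0]
        · rw [hF.c1, hG.c1]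
      · have e1 := congrArg (coeff m) hF.eq
        have e2 := congrArg (coeff m) hG.eq
        rw [mul_add, mul_one, map_add, coeff_mul] at e1 e2
        have e3 : ∑ p ∈ Finset.HasAntidiagonal.antidiagonal m, coeff p.1 (eu (eu F)) * coeff p.2 (P.Dx (P.Dx (eu F)))
            = ∑ p ∈ Finset.HasAntidiagonal.antidiagonal m, coeff p.1 (eu (eu G))
              * coeff p.2 (P.Dx (P.Dx (eu G))) := by
          refine Finset.sum_congr rfl fun p hp => ?_
          rw [Finset.HasAntidiagonal.mem_antidiagonal] at hp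
          simp only [coeff_eu, Pot.Dx, coeff_liftD]
          rcases Nat.eq_zero_or_pos p.1 with h1 | h1
          · simp [h1]
          rcases Nat.eq_zero_or_pos p.2 with h2 | h2
          · simp [h2]
          rw [ih p.1 (by omega), ih p.2 (by omega)]
        rw [e3] at e1
        simp only [coeff_eu] at e1 e2
        have e4 : ((m * m * (m - 1) : ℕ) : A) * (coeff m F - coeff m G) = 0 := by
          push_cast [Nat.cast_sub (show 1 ≤ m by omega)]
          linear_combination e1 - e2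
        have h5 : m * m * (m - 1) ≠ 0 := by
          have : 0 < m - 1 := by omega
          positivity
        exact sub_eq_zero.1 (natCast_mul_eq_zero h5 e4)
  ext m; exact key m

namespace Model

variable {n : ℕ} {A S : Type*} [CommRing A] [Algebra ℚ A] [CommRing S] [Algebra ℚ S]
  (M : Model n A S)

/-- the Hamilton-Jacobi data of a model -/
noncomputable def hj : HJ n A⟦X⟧ where
  d := M.P.Dr
  comm := fun i j b => M.P.Dr_Dr i j b
  kap := fun j => C (M.k j)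
  A0 := fun i j => C (aK M.k i j)
  A1 := fun i j => C (bK M.k i j)
  W0 := M.W0
  W1 := M.W1
  kap_c := fun i j => by simp [Pot.Dr, M.k_dr]
  A0_c := fun i j l => by
    rw [Pot.Dr, liftD_C, aK, Derivation.leibniz, M.k_dr, Derivation.leibniz_pow]
    simp
  A1_c := fun i j l => by
    rw [Pot.Dr, liftD_C, bK, Derivation.leibniz, Derivation.leibniz, M.k_dr,
      Derivation.leibniz_pow]
    simp
  A0_symm := fun i j => by
    simp only [aK]
    rw [M.k_even.symm' i j 2 even_two]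
  A1_symm := fun i j => by
    simp only [bK]
    rw [M.k_even.symm' i j 4 (by decide)]
  eq0 := M.eq0
  eq1 := M.eq1

theorem hj_coeff0 : coeff 0 M.hj.W0 = M.F0 := M.w0
theorem hj_coeff1 : coeff 0 M.hj.W1 = M.F1 := M.w1

/-- the parity automorphism on `A[[z]]` -/
noncomputable def piB : A⟦X⟧ →+* A⟦X⟧ := PowerSeries.map M.pi
/-- the parity automorphism on `A[[z]][[s]]` -/
noncomputable def piS : A⟦X⟧⟦X⟧ →+* A⟦X⟧⟦X⟧ := PowerSeries.map M.piB
/-- evaluation on `A[[z]]` -/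
noncomputable def evB : A⟦X⟧ →+* S⟦X⟧ := PowerSeries.map M.ev
/-- evaluation on `A[[z]][[s]]` -/
noncomputable def evS : A⟦X⟧⟦X⟧ →+* S⟦X⟧⟦X⟧ := PowerSeries.map M.evB

theorem neg_one_pow_dr (j : Fin n) (m : ℕ) (a : A⟦X⟧) :
    M.P.Dr j ((-1) ^ m * a) = (-1) ^ m * M.P.Dr j a := by
  rcases Nat.even_or_odd m with h | h
  · rw [h.neg_one_pow, one_mul, one_mul]
  · rw [h.neg_one_pow, neg_one_mul, neg_one_mul, map_neg]

theorem piB_eu (f : A⟦X⟧) : M.piB (eu f) = eu (M.piB f) := map_eu _ _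

theorem piB_Dx (f : A⟦X⟧) : M.piB (M.P.Dx f) = -M.P.Dx (M.piB f) := by
  ext m; simp [piB, Pot.Dx, M.pi_dx]

theorem piB_Dr (j : Fin n) (f : A⟦X⟧) :
    M.piB (M.P.Dr j f) = (-1) ^ (j : ℕ) * M.P.Dr j (M.piB f) := by
  ext m
  have : ((-1 : A⟦X⟧)) ^ (j : ℕ) = C ((-1 : A) ^ (j : ℕ)) := by simp
  rw [this, coeff_C_mul]
  simp [piB, Pot.Dr, M.pi_dr]

theorem piB_F0 : M.piB M.F0 = M.F0 := by
  refine Pot.Sol0.unique (P := M.P) ⟨?_, ?_, ?_⟩ M.sol0
  · simp [piB, M.sol0.cc]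
  · simp [piB, M.sol0.c1, M.pi_r]
  · have h := congrArg M.piB M.sol0.eq
    simp only [map_mul, map_add, map_one, piB_eu, piB_Dx, map_neg, neg_neg] at h
    exact h

theorem piS_dX (f : A⟦X⟧⟦X⟧) : M.piS (dX f) = dX (M.piS f) := map_dX _ _

theorem piS_CC (a : A) (h : M.pi a = a) : M.piS (C (C a)) = C (C a) := by
  simp [piS, piB, h]

theorem piS_Dr (j : Fin n) (f : A⟦X⟧⟦X⟧) :
    M.piS (liftD (M.P.Dr j) f) = (-1) ^ (j : ℕ) * liftD (M.P.Dr j) (M.piS f) := by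
  ext1 m
  have : ((-1 : A⟦X⟧⟦X⟧)) ^ (j : ℕ) = C ((-1 : A⟦X⟧) ^ (j : ℕ)) := by simp
  rw [this, coeff_C_mul]
  simp [piS, piB_Dr]

theorem pi_aK (i j : ℕ) : M.pi (aK M.k i j) = aK M.k i j := by
  simp [aK, M.pi_k]

/-- right hand side of the Hamilton-Jacobi equation -/
noncomputable def rhs0 (W : A⟦X⟧⟦X⟧) : A⟦X⟧⟦X⟧ :=
  ∑ j : Fin n, C (C (M.k j)) * liftD (M.P.Dr j) W
    + algebraMap ℚ _ (1 / 2) * ∑ j : Fin n, ∑ l : Fin n, C (C (aK M.k j l))
      * (liftD (M.P.Dr j) W * liftD (M.P.Dr l) W)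

theorem causal_rhs0 : Causal M.rhs0 := by
  refine Causal.add ?_ ?_
  · exact Causal.sum _ fun j => (causal_const _).mul (causal_id.liftD _)
  · refine (causal_const _).mul ?_
    exact Causal.sum _ fun j => Causal.sum _ fun l => (causal_const _).mul
      ((causal_id.liftD _).mul (causal_id.liftD _))

theorem piS_term1 (j : Fin n) (W : A⟦X⟧⟦X⟧) :
    M.piS (C (C (M.k j)) * liftD (M.P.Dr j) W) = C (C (M.k j)) * liftD (M.P.Dr j) (M.piS W) := by
  rw [map_mul, piS_Dr, piS_CC _ _ (M.pi_k _), ← mul_assoc]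
  congr 1
  have := M.k_even.neg_one_mul j
  have e : (C (C (M.k j)) : A⟦X⟧⟦X⟧) * (-1) ^ (j : ℕ) = C (C ((-1) ^ (j : ℕ) * M.k j)) := by
    simp only [map_mul, map_pow, map_neg, map_one]; ring
  rw [e, this]

theorem piS_term2 (j l : Fin n) (W : A⟦X⟧⟦X⟧) :
    M.piS (C (C (aK M.k j l)) * (liftD (M.P.Dr j) W * liftD (M.P.Dr l) W))
      = C (C (aK M.k j l)) * (liftD (M.P.Dr j) (M.piS W) * liftD (M.P.Dr l) (M.piS W)) := by
  rw [map_mul, map_mul, piS_Dr, piS_Dr, piS_CC _ _ (M.pi_aK _ _)]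
  have h0 : ((-1) ^ (j : ℕ) * (-1) ^ (l : ℕ)) * aK M.k j l = aK M.k j l := by
    have h1 := M.k_even.parity j l 2 even_two
    rw [aK]
    linear_combination ((-1) ^ (l : ℕ)) * h1
  have e : (C (C (aK M.k j l)) : A⟦X⟧⟦X⟧) * ((-1) ^ (j : ℕ) * (-1) ^ (l : ℕ))
      = C (C (aK M.k j l)) := by
    conv_rhs => rw [← h0]
    simp only [map_mul, map_pow, map_neg, map_one]; ring
  linear_combination (liftD (M.P.Dr j) (M.piS W) * liftD (M.P.Dr l) (M.piS W)) * e

theorem piS_W0 : M.piS M.W0 = M.W0 := by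
  refine ode_unique M.causal_rhs0 ?_ M.eq0 ?_
  · rw [← piS_dX, M.eq0]
    have hh : M.piS (algebraMap ℚ _ (1 / 2)) = algebraMap ℚ _ (1 / 2) := by
      rw [RingHom.map_rat_algebraMap]
    rw [map_add, map_mul, hh, map_sum, map_sum, rhs0]
    congr 1
    · exact Finset.sum_congr rfl fun j _ => M.piS_term1 j _
    · congr 1
      refine Finset.sum_congr rfl fun j _ => ?_
      rw [map_sum]
      exact Finset.sum_congr rfl fun l _ => M.piS_term2 j l _
  · rw [piS, coeff_map, M.w0]; exact M.piB_F0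

theorem piS_neg_one (m : ℕ) : M.piS ((-1) ^ m) = (-1) ^ m := by simp

theorem piS_J (j : Fin n) : M.piS (M.hj.J j) = (-1) ^ (j : ℕ) * M.hj.J j := by
  change M.piS (liftD (M.P.Dr j) M.W0) = (-1) ^ (j : ℕ) * liftD (M.P.Dr j) M.W0
  rw [piS_Dr, piS_W0]

theorem piS_V (j : Fin n) : M.piS (M.hj.V j) = (-1) ^ (j : ℕ) * M.hj.V j := by
  rw [HJ.V, map_add, map_sum, mul_add, Finset.mul_sum]
  change M.piS (C (C (M.k j))) + ∑ l : Fin n, M.piS (C (C (aK M.k j l)) * M.hj.J l)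
    = (-1) ^ (j : ℕ) * C (C (M.k j)) + ∑ l : Fin n, (-1) ^ (j : ℕ) * (C (C (aK M.k j l)) * M.hj.J l)
  congr 1
  · rw [piS_CC _ _ (M.pi_k _)]
    conv_lhs => rw [← M.k_even.neg_one_mul j]
    simp only [map_mul, map_pow, map_neg, map_one]
  · refine Finset.sum_congr rfl fun l _ => ?_
    rw [map_mul, piS_J, piS_CC _ _ (M.pi_aK _ _)]
    have h0 : (-1) ^ (l : ℕ) * aK M.k j l = (-1) ^ (j : ℕ) * aK M.k j l := by
      have h1 := M.k_even.symm' j l 2 even_two
      have h2 := M.k_even.symm' l j 2 even_two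
      have h3 : ((-1 : A)) ^ (l : ℕ) * (-1) ^ (l : ℕ) = 1 := by
        rw [← mul_pow]; simp
      have h4 : ((-1 : A)) ^ (j : ℕ) * (-1) ^ (j : ℕ) = 1 := by
        rw [← mul_pow]; simp
      rw [aK]
      have h5 := M.k_even.parity j l 2 even_two
      rw [h5, ← mul_assoc, h3, one_mul]
    have e : (C (C (aK M.k j l)) : A⟦X⟧⟦X⟧) * (-1) ^ (l : ℕ)
        = (-1) ^ (j : ℕ) * C (C (aK M.k j l)) := by
      have := congrArg (fun a => (C (C a) : A⟦X⟧⟦X⟧)) h0
      simp only [map_mul, map_pow, map_neg, map_one] at this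
      linear_combination this
    linear_combination (M.hj.J l) * e

theorem piS_TT (Y : A⟦X⟧⟦X⟧) : M.piS (M.hj.fl.TT Y) = M.hj.fl.TT (M.piS Y) := by
  rw [Flow.TT_apply, Flow.TT_apply, map_sub, map_sum, piS_dX]
  congr 1
  refine Finset.sum_congr rfl fun j _ => ?_
  change M.piS (M.hj.V j * liftD (M.P.Dr j) Y) = M.hj.V j * liftD (M.P.Dr j) (M.piS Y)
  rw [map_mul, piS_V, piS_Dr]
  have h3 : ((-1 : A⟦X⟧⟦X⟧)) ^ (j : ℕ) * (-1) ^ (j : ℕ) = 1 := by
    rw [← mul_pow]; simp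
  linear_combination (M.hj.V j * liftD (M.P.Dr j) (M.piS Y)) * h3

/-- transport commutes with parity -/
theorem star_pi (b : A⟦X⟧) : M.hj.fl.star (M.piB b) = M.piS (M.hj.fl.star b) := by
  refine M.hj.fl.star_eq ?_ ?_
  · rw [← piS_TT, M.hj.fl.TT_star, map_zero]
  · rw [piS, coeff_map, M.hj.fl.coeff_zero_star]

theorem evS_pi (Y : A⟦X⟧⟦X⟧) : M.evS (M.piS Y) = M.evS Y := by
  ext m l
  simp [evS, piS, evB, piB, M.ev_pi]

/-- the transport of an odd element evaluates to zero -/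
theorem evS_odd {b : A⟦X⟧} (h : M.piB b = -b) : M.evS (M.hj.fl.star b) = 0 := by
  have h1 := congrArg M.evS (M.star_pi b)
  rw [h, map_neg, map_neg, evS_pi] at h1
  have h2 : ((2 : ℕ) : S⟦X⟧⟦X⟧) * M.evS (M.hj.fl.star b) = 0 := by
    push_cast; linear_combination -h1
  exact natCast_mul_eq_zero (by norm_num) h2

theorem piB_C (a : A) : M.piB (C a) = C (M.pi a) := by simp [piB]

theorem pi_aa_x (j : ℕ) : M.pi (aa 0 M.P.x 0 j) = (-1) ^ j * aa 0 M.P.x 0 j := by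
  rw [map_aa, M.pi_x, map_zero, aa_at_zero, aa_at_zero, neg_pow]
  ring

theorem pi_rx : M.pi M.P.rx = M.P.rx := by
  rw [Pot.rx, map_sum]
  refine Finset.sum_congr rfl fun j _ => ?_
  rw [map_mul, M.pi_rho, pi_aa_x]
  have h3 : ((-1 : A)) ^ (j : ℕ) * (-1) ^ (j : ℕ) = 1 := by
    rw [← mul_pow]; simp
  linear_combination (M.P.rho j * aa 0 M.P.x 0 j) * h3

theorem piB_uu : M.piB (M.P.uu M.F0) = -M.P.uu M.F0 := by
  rw [Pot.uu, map_add, piB_C, M.pi_x, piB_Dx, piB_eu, piB_F0, map_neg]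
  ring

theorem piB_RR : M.piB (Pot.RR M.F0) = Pot.RR M.F0 := by
  rw [Pot.RR, piB_eu, piB_eu, piB_F0]

theorem piB_vv : M.piB (M.P.vv M.F0) = M.P.vv M.F0 := by
  rw [Pot.vv, map_add, piB_C, pi_rx, piB_Dx, piB_Dx, piB_F0, map_neg, neg_neg]

theorem piB_DxRR : M.piB (M.P.Dx (Pot.RR M.F0)) = -M.P.Dx (Pot.RR M.F0) := by
  rw [piB_Dx, piB_RR]

theorem piB_Dxvv : M.piB (M.P.Dx (M.P.vv M.F0)) = -M.P.Dx (M.P.vv M.F0) := by
  rw [piB_Dx, piB_vv]

end Model

end MP4a
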