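import Pool.Agent.Lib.MP_4a2528_ag.Eval

/-!
Logarithm and exponential series; grading homomorphisms.
-/

set_option linter.unusedSectionVars false

namespace MP4a

open PowerSeries Finset

section series
variable {R : Type*} [CommRing R] [Algebra ℚ R]

theorem eu_eq_X_mul (f : R⟦X⟧) : eu f = X * d⁄dX R f := by
  ext m
  rcases m with _ | m
  · rw [coeff_eu, coeff_zero_X_mul]; simp
  · rw [coeff_eu, coeff_succ_X_mul, coeff_derivative]; push_cast; ring

theorem hasSubst_of_cc {G : R⟦X⟧} (h : constantCoeff G = 0) : HasSubst G :=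
  HasSubst.of_constantCoeff_zero' h

theorem deriv_log_mul : d⁄dX R (log R) * (1 + X) = 1 := by
  rw [deriv_log]
  ext m
  rw [mul_add, mul_one, map_add]
  rcases m with _ | m
  · rw [coeff_zero_mul_X, coeff_mk, coeff_one, if_pos rfl, pow_zero, map_one, add_zero]
  · rw [coeff_succ_mul_X, coeff_mk, coeff_mk, pow_succ, coeff_one, if_neg (by omega), ← map_add,
      mul_neg_one, neg_add_cancel, map_zero]

theorem logOf_eu (Z : R⟦X⟧) (h : constantCoeff Z = 1) : eu (logOf Z) * Z = eu Z := by
  have hs : HasSubst (Z - 1) := hasSubst_of_cc (by rw [map_sub, h, map_one, sub_self])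
  have h1 : (d⁄dX R (log R) * (1 + X) : R⟦X⟧).subst (Z - 1) = (1 : R⟦X⟧).subst (Z - 1) := by
    rw [deriv_log_mul]
  have h1a : (1 : R⟦X⟧).subst (Z - 1) = (1 : R⟦X⟧) := by
    rw [← coe_substAlgHom hs, map_one]
  have h1b : (1 + X : R⟦X⟧).subst (Z - 1) = Z := by
    rw [subst_add hs, h1a, subst_X hs]; ring
  rw [subst_mul hs, h1a, h1b] at h1
  rw [eu_eq_X_mul, eu_eq_X_mul, logOf_eq, derivative_subst hs, map_sub, derivative_one, sub_zero]
  linear_combination (X * d⁄dX R Z) * h1

theorem exp_subst_eu (G : R⟦X⟧) (h : constantCoeff G = 0) :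
    eu ((exp R).subst G) = eu G * (exp R).subst G := by
  rw [eu_eq_X_mul, eu_eq_X_mul, derivative_subst (hasSubst_of_cc h), derivative_exp]; ring

theorem cc_exp_subst (G : R⟦X⟧) (h : constantCoeff G = 0) :
    constantCoeff ((exp R).subst G) = 1 := by
  have hs := hasSubst_of_cc h
  have h0 : constantCoeff ((exp R - 1).subst G) = 0 :=
    constantCoeff_subst_eq_zero h _ (by rw [map_sub, constantCoeff_exp, map_one, sub_self])
  have h1a : (1 : R⟦X⟧).subst G = (1 : R⟦X⟧) := by
    rw [← coe_substAlgHom hs, map_one]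
  have h2 : (exp R - 1 + 1 : R⟦X⟧).subst G = (exp R - 1).subst G + 1 := by
    rw [subst_add hs, h1a]
  rw [sub_add_cancel] at h2
  rw [h2, map_add, h0, map_one, zero_add]

end series

section grade
variable {r : ℕ}

/-- power series in `r` variables -/
abbrev MS (r : ℕ) := MvPowerSeries (Fin r) ℚ

/-- the weighted degree -/
def dg (w : Fin r → ℕ) (β : Fin r →₀ ℕ) : ℕ := ∑ i, β i * w i

theorem dg_add (w : Fin r → ℕ) (β γ : Fin r →₀ ℕ) : dg w (β + γ) = dg w β + dg w γ := by
  simp [dg, add_mul, sum_add_distrib]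

theorem dg_zero (w : Fin r → ℕ) : dg w 0 = 0 := by simp [dg]

/-- the weight `q` part -/
def part (w : Fin r → ℕ) (q : ℕ) (f : MS r) : MS r :=
  fun β => if dg w β = q then MvPowerSeries.coeff β f else 0

theorem coeff_part (w : Fin r → ℕ) (q : ℕ) (f : MS r) (β : Fin r →₀ ℕ) :
    MvPowerSeries.coeff β (part w q f) = if dg w β = q then MvPowerSeries.coeff β f else 0 := rfl

/-- the grading homomorphism -/
noncomputable def gr (w : Fin r → ℕ) : MS r →+* (MS r)⟦X⟧ where
  toFun f := PowerSeries.mk fun q => part w q f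
  map_zero' := by
    ext q β
    rw [coeff_mk, coeff_part]; simp
  map_one' := by
    ext q β
    rw [coeff_mk, coeff_part, coeff_one]
    by_cases hq : q = 0
    · rw [if_pos hq]
      split_ifs with h
      · rfl
      · rw [MvPowerSeries.coeff_one, if_neg]
        rintro rfl
        exact h (by rw [dg_zero, hq])
    · rw [if_neg hq]
      split_ifs with h
      · rw [MvPowerSeries.coeff_one, if_neg, map_zero]
        rintro rfl
        exact hq (by rw [← h, dg_zero])
      · rw [map_zero]
  map_add' f g := by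
    ext q β
    rw [coeff_mk, coeff_part, map_add, map_add, map_add, coeff_mk, coeff_mk, coeff_part,
      coeff_part]
    split_ifs <;> simp
  map_mul' f g := by
    ext q β
    rw [coeff_mk, coeff_part, PowerSeries.coeff_mul, map_sum]
    simp only [coeff_mk, MvPowerSeries.coeff_mul, coeff_part]
    rw [sum_comm]
    have key : ∀ y ∈ HasAntidiagonal.antidiagonal β, ∑ x ∈ HasAntidiagonal.antidiagonal q,
        (if dg w y.1 = x.1 then MvPowerSeries.coeff y.1 f else 0)
          * (if dg w y.2 = x.2 then MvPowerSeries.coeff y.2 g else 0)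
        = if dg w β = q then MvPowerSeries.coeff y.1 f * MvPowerSeries.coeff y.2 g else 0 := by
      intro y hy
      rw [HasAntidiagonal.mem_antidiagonal] at hy
      have hd : dg w β = dg w y.1 + dg w y.2 := by rw [← hy, dg_add]
      by_cases h : dg w β = q
      · rw [if_pos h, Finset.sum_eq_single (dg w y.1, dg w y.2)]
        · rw [if_pos rfl, if_pos rfl]
        · rintro ⟨a, b⟩ _ hne
          by_cases ha : dg w y.1 = a
          · by_cases hb : dg w y.2 = b
            · exact absurd (by rw [ha, hb]) hne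
            · rw [if_neg hb, mul_zero]
          · rw [if_neg ha, zero_mul]
        · intro hn
          exact absurd (by rw [HasAntidiagonal.mem_antidiagonal, ← hd, h]) hn
      · rw [if_neg h]
        refine sum_eq_zero ?_
        rintro ⟨a, b⟩ hab
        rw [HasAntidiagonal.mem_antidiagonal] at hab
        by_cases ha : dg w y.1 = a
        · rw [if_neg (show dg w y.2 ≠ b by
            intro hb; exact h (by rw [hd, ha, hb]; exact hab)), mul_zero]
        · rw [if_neg ha, zero_mul]
    rw [sum_congr rfl key]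
    split_ifs <;> simp

theorem coeff_gr (w : Fin r → ℕ) (f : MS r) (q : ℕ) : coeff q (gr w f) = part w q f := by
  change coeff q (PowerSeries.mk fun q => part w q f) = _
  rw [coeff_mk]

/-- the exponential of a linear form -/
def Exq (q : Fin r → ℚ) : MS r := fun β => ∏ i, q i ^ β i / (β i).factorial

theorem coeff_Exq (q : Fin r → ℚ) (β : Fin r →₀ ℕ) :
    MvPowerSeries.coeff β (Exq q) = ∏ i, q i ^ β i / (β i).factorial := rfl

/-- weighted linear form -/
noncomputable def lin (w : Fin r → ℕ) (q : Fin r → ℚ) : (MS r)⟦X⟧ :=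
  ∑ i, C (MvPowerSeries.monomial (Finsupp.single i 1) (q i)) * X ^ w i

theorem lin_pow (w : Fin r → ℕ) (q : Fin r → ℚ) (p Q : ℕ) (β : Fin r →₀ ℕ) :
    MvPowerSeries.coeff β (coeff Q (lin w q ^ p))
      = if dg w β = Q then (if dg (fun _ => 1) β = p then
        (p.factorial : ℚ) * ∏ i, q i ^ β i / (β i).factorial else 0) else 0 := by
  have e1 : ∀ γ : Fin r → ℕ, ∏ i, (C (MvPowerSeries.monomial (Finsupp.single i 1) (q i))
      * X ^ w i : (MS r)⟦X⟧) ^ γ i
      = C (MvPowerSeries.monomial (Finsupp.equivFunOnFinite.symm γ) (∏ i, q i ^ γ i))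
        * X ^ (∑ i, γ i * w i) := by
    intro γ
    have e2 : ∀ i, (C (MvPowerSeries.monomial (Finsupp.single i 1) (q i)) * X ^ w i : (MS r)⟦X⟧)
        ^ γ i = C (MvPowerSeries.monomial (γ i • Finsupp.single i 1) (q i ^ γ i))
          * X ^ (γ i * w i) := by
      intro i
      rw [mul_pow, ← map_pow, MvPowerSeries.monomial_pow, ← pow_mul, mul_comm (w i)]
    rw [prod_congr rfl fun i _ => e2 i, prod_mul_distrib, ← map_prod, MvPowerSeries.prod_monomial,
      prod_pow_eq_pow_sum]
    congr 4
    ext j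
    rw [Finsupp.finsetSum_apply]
    simp [Finsupp.single_apply]
  rw [lin, sum_pow_eq_sum_piAntidiag, map_sum, map_sum]
  have e3 : ∀ γ : Fin r → ℕ, MvPowerSeries.coeff β (coeff Q ((Nat.multinomial univ γ : (MS r)⟦X⟧)
      * ∏ i, (C (MvPowerSeries.monomial (Finsupp.single i 1) (q i)) * X ^ w i) ^ γ i))
      = if γ = β ∧ dg w β = Q then (Nat.multinomial univ γ : ℚ) * ∏ i, q i ^ γ i else 0 := by
    intro γ
    have e4 : (Nat.multinomial univ γ : (MS r)⟦X⟧) = C ((Nat.multinomial univ γ : ℕ) : MS r) := by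
      simp
    rw [e1, e4, coeff_C_mul, coeff_C_mul, coeff_X_pow]
    have e5 : ((Nat.multinomial univ γ : ℕ) : MS r)
        = MvPowerSeries.C ((Nat.multinomial univ γ : ℕ) : ℚ) := by simp
    rw [e5, MvPowerSeries.coeff_C_mul]
    by_cases h1 : γ = β
    · have h2 : Finsupp.equivFunOnFinite.symm γ = β := by
        rw [h1]; ext i; rfl
      have h3 : ∑ i, γ i * w i = dg w β := by rw [h1, dg]
      rw [h2, h3]
      by_cases h4 : dg w β = Q
      · rw [if_pos h4.symm, mul_one, MvPowerSeries.coeff_monomial_same, if_pos ⟨h1, h4⟩]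
      · rw [if_neg (Ne.symm h4), mul_zero, map_zero, mul_zero, if_neg (fun h => h4 h.2)]
    · have hn : ¬ (γ = β ∧ dg w β = Q) := fun h => h1 h.1
      rw [if_neg hn]
      have h2 : β ≠ Finsupp.equivFunOnFinite.symm γ := by
        intro h; apply h1; rw [h]; rfl
      split_ifs
      · rw [mul_one, MvPowerSeries.coeff_monomial_ne h2, mul_zero]
      · rw [mul_zero, map_zero, mul_zero]
  rw [sum_congr rfl fun γ _ => e3 γ]
  by_cases h : dg w β = Q
  · rw [if_pos h]
    by_cases h1 : dg (fun _ => 1) β = p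
    · rw [if_pos h1, Finset.sum_eq_single (β : Fin r → ℕ)]
      · rw [if_pos ⟨rfl, h⟩]
        have hp : ∑ i, β i = p := by rw [← h1, dg]; simp
        have hm := Nat.multinomial_spec (univ : Finset (Fin r)) β
        rw [hp] at hm
        have hm2 : (∏ i, ((β i).factorial : ℚ)) * (Nat.multinomial univ β : ℚ)
            = (p.factorial : ℚ) := by exact_mod_cast hm
        have hne : (∏ i, ((β i).factorial : ℚ)) ≠ 0 :=
          prod_ne_zero_iff.2 fun i _ => by exact_mod_cast (β i).factorial_ne_zero
        rw [prod_div_distrib, ← hm2]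
        field_simp
      · intro γ _ hne
        rw [if_neg (fun hh => hne hh.1)]
      · intro hn
        refine absurd ?_ hn
        rw [mem_piAntidiag]
        refine ⟨by rw [← h1, dg]; simp, fun i _ => mem_univ i⟩
    · rw [if_neg h1]
      refine sum_eq_zero fun γ hγ => if_neg ?_
      rintro ⟨rfl, _⟩
      rw [mem_piAntidiag] at hγ
      exact h1 (by rw [dg]; simpa using hγ.1)
  · rw [if_neg h]
    exact sum_eq_zero fun γ _ => if_neg fun hh => h hh.2

/-- the grading homomorphism for the degree and the weight -/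
noncomputable def th (w : Fin r → ℕ) : MS r →+* (MS r)⟦X⟧⟦X⟧ :=
  (PowerSeries.map (gr w)).comp (gr fun _ => 1)

theorem coeff_th (w : Fin r → ℕ) (f : MS r) (p Q : ℕ) (β : Fin r →₀ ℕ) :
    MvPowerSeries.coeff β (coeff Q (coeff p (th w f)))
      = if dg w β = Q then (if dg (fun _ => 1) β = p then MvPowerSeries.coeff β f else 0)
        else 0 := by
  rw [th, RingHom.comp_apply, coeff_map, coeff_gr, coeff_gr, coeff_part, coeff_part]

theorem coeff_th_Exq (w : Fin r → ℕ) (q : Fin r → ℚ) (p : ℕ) : coeff p (th w (Exq q))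
    = algebraMap ℚ _ (1 / (p.factorial : ℚ)) * lin w q ^ p := by
  ext Q β
  rw [coeff_th, PowerSeries.algebraMap_apply, coeff_C_mul, MvPowerSeries.algebraMap_apply,
    MvPowerSeries.coeff_C_mul, lin_pow, coeff_Exq]
  have hp : (p.factorial : ℚ) ≠ 0 := by exact_mod_cast p.factorial_ne_zero
  split_ifs
  · rw [← mul_assoc]
    simp [hp]
  · simp
  · simp

end grade

end MP4a
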