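import Pool.Agent.Lib.MP_4a2528_ag.Hankel
import Pool.Agent.Lib.MP_4a2528_ag.Hook

/-!
Coefficients of the Hankel determinants as sums over strictly monotone sequences.
-/

set_option linter.unusedSectionVars false

namespace MP4a

open PowerSeries Matrix Finset

section
variable {A : Type*} [CommRing A] [Algebra ℚ A] (om : ℕ → A)

/-- the Vandermonde determinant of a sequence of natural numbers -/
noncomputable def Vd {N : ℕ} (g : Fin N → ℕ) : A := (vandermonde fun i => (g i : A)).det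

theorem Vd_perm {N : ℕ} (g : Fin N → ℕ) (π : Equiv.Perm (Fin N)) :
    (Vd (g ∘ π) : A) = Equiv.Perm.sign π * Vd g := by
  rw [Vd, Vd, ← Matrix.det_permute]
  rfl

theorem Vd_not_inj {N : ℕ} (g : Fin N → ℕ) (h : ¬ Function.Injective g) : (Vd g : A) = 0 := by
  rw [Function.not_injective_iff] at h
  obtain ⟨i, j, hij, hne⟩ := h
  refine Matrix.det_zero_of_row_eq hne ?_
  ext k
  simp only [vandermonde_apply]
  rw [hij]

/-- the summand before symmetrization -/
noncomputable def Ts {N : ℕ} (f : Fin N → ℕ) : A :=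
  (∏ i, om (f i)) * (∏ i, (f i : A) ^ (i : ℕ)) * Vd f

theorem coeff_Hd (N m : ℕ) : coeff m (Hd om N) = ∑ f ∈ piAntidiag (univ : Finset (Fin N)) m,
    Ts om f := by
  rw [Hd, Matrix.det_apply', map_sum]
  have e1 : ∀ σ : Equiv.Perm (Fin N), coeff m (((Equiv.Perm.sign σ : ℤ) : A⟦X⟧)
      * ∏ i, Hm om (fun i : Fin N => (i : ℕ)) (fun i => i) (σ i) i)
      = ∑ l ∈ finsuppAntidiag (univ : Finset (Fin N)) m, ((Equiv.Perm.sign σ : ℤ) : A)
        * ∏ i, ((l i : A) ^ ((σ i : ℕ) + i) * om (l i)) := by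
    intro σ
    have : (((Equiv.Perm.sign σ : ℤ) : A⟦X⟧)) = C (((Equiv.Perm.sign σ : ℤ) : A)) := by simp
    rw [this, coeff_C_mul, coeff_prod, Finset.mul_sum]
    refine sum_congr rfl fun l _ => ?_
    congr 1
    refine prod_congr rfl fun i _ => ?_
    rw [Hm, Matrix.of_apply, mom, coeff_mk]
  rw [sum_congr rfl fun σ _ => e1 σ, sum_comm]
  have e2 : ∀ l : Fin N →₀ ℕ, ∑ σ : Equiv.Perm (Fin N), ((Equiv.Perm.sign σ : ℤ) : A)
        * ∏ i, ((l i : A) ^ ((σ i : ℕ) + i) * om (l i)) = Ts om l := by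
    intro l
    rw [Ts, Vd, ← Matrix.det_transpose, Matrix.det_apply', Finset.mul_sum]
    refine sum_congr rfl fun σ _ => ?_
    have : ∏ i, ((l i : A) ^ ((σ i : ℕ) + i) * om (l i))
        = (∏ i, om (l i)) * (∏ i, (l i : A) ^ (i : ℕ)) * ∏ i, (l i : A) ^ (σ i : ℕ) := by
      rw [← prod_mul_distrib, ← prod_mul_distrib]
      refine prod_congr rfl fun i _ => ?_
      rw [pow_add]; ring
    rw [this]
    simp only [Matrix.transpose_apply, vandermonde_apply]
    ring
  rw [sum_congr rfl fun l _ => e2 l]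
  refine sum_bij' (fun l _ => (l : Fin N → ℕ)) (fun f _ => Finsupp.equivFunOnFinite.symm f)
    ?_ ?_ ?_ ?_ ?_
  · intro l hl
    rw [mem_finsuppAntidiag] at hl
    rw [mem_piAntidiag]
    exact ⟨hl.1, fun i _ => mem_univ i⟩
  · intro f hf
    rw [mem_piAntidiag] at hf
    rw [mem_finsuppAntidiag]
    exact ⟨by simpa using hf.1, fun i _ => mem_univ i⟩
  · intro l _; simp
  · intro f _; simp
  · intro l _; rfl

open Classical in
/-- strictly monotone sequences with given sum -/
noncomputable def SM (N m : ℕ) : Finset (Fin N → ℕ) :=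
  (piAntidiag (univ : Finset (Fin N)) m).filter StrictMono

theorem mem_SM {N m : ℕ} {g : Fin N → ℕ} : g ∈ SM N m ↔ ∑ i, g i = m ∧ StrictMono g := by
  classical
  rw [SM, mem_filter, mem_piAntidiag]
  constructor
  · rintro ⟨⟨h1, _⟩, h2⟩; exact ⟨h1, h2⟩
  · rintro ⟨h1, h2⟩; exact ⟨⟨h1, fun i _ => mem_univ i⟩, h2⟩

theorem Ts_perm {N : ℕ} (g : Fin N → ℕ) (π : Equiv.Perm (Fin N)) :
    Ts om (g ∘ π) = (∏ i, om (g i)) * Vd g * (((Equiv.Perm.sign π : ℤ) : A)
      * ∏ i, (g (π i) : A) ^ (i : ℕ)) := by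
  rw [Ts, Vd_perm]
  have : ∏ i, om ((g ∘ π) i) = ∏ i, om (g i) := Equiv.prod_comp π (fun i => om (g i))
  rw [this]
  simp only [Function.comp]
  ring

theorem sum_Ts_perm {N : ℕ} (g : Fin N → ℕ) :
    ∑ π : Equiv.Perm (Fin N), Ts om (g ∘ π) = Vd g ^ 2 * ∏ i, om (g i) := by
  rw [sum_congr rfl fun π _ => Ts_perm om g π, ← Finset.mul_sum]
  have : ∑ π : Equiv.Perm (Fin N), ((Equiv.Perm.sign π : ℤ) : A) * ∏ i, (g (π i) : A) ^ (i : ℕ)
      = Vd g := by
    rw [Vd, Matrix.det_apply']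
    rfl
  rw [this]; ring

theorem sort_comp {N : ℕ} {g : Fin N → ℕ} (hg : StrictMono g) (π : Equiv.Perm (Fin N)) :
    Tuple.sort (g ∘ π) = π⁻¹ := by
  have h1 : Monotone ((g ∘ π) ∘ Tuple.sort (g ∘ π)) := Tuple.monotone_sort _
  have h2 : Monotone (g ∘ (π * Tuple.sort (g ∘ π))) := h1
  have h3 : Monotone (g ∘ (1 : Equiv.Perm (Fin N))) := hg.monotone
  have h4 := Tuple.unique_monotone h2 h3
  have h5 : π * Tuple.sort (g ∘ π) = 1 := by
    ext i
    have := congrFun h4 i
    have := hg.injective this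
    rw [this]
  exact (inv_eq_of_mul_eq_one_right h5).symm

theorem coeff_Hd_SM (N m : ℕ) : coeff m (Hd om N) = ∑ g ∈ SM N m, Vd g ^ 2 * ∏ i, om (g i) := by
  classical
  rw [coeff_Hd]
  have e1 : ∑ f ∈ piAntidiag (univ : Finset (Fin N)) m, Ts om f
      = ∑ f ∈ (piAntidiag (univ : Finset (Fin N)) m).filter Function.Injective, Ts om f := by
    rw [sum_filter]
    refine sum_congr rfl fun f _ => ?_
    split_ifs with h
    · rfl
    · rw [Ts, Vd_not_inj f h, mul_zero]
  have e2 : ∑ g ∈ SM N m, Vd g ^ 2 * ∏ i, om (g i)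
      = ∑ x ∈ SM N m ×ˢ (univ : Finset (Equiv.Perm (Fin N))), Ts om (x.1 ∘ x.2) := by
    rw [sum_product]
    exact sum_congr rfl fun g _ => (sum_Ts_perm om g).symm
  rw [e1, e2]
  refine sum_bij' (fun f _ => (f ∘ Tuple.sort f, (Tuple.sort f)⁻¹)) (fun x _ => x.1 ∘ x.2)
    ?_ ?_ ?_ ?_ ?_
  · intro f hf
    rw [mem_filter, mem_piAntidiag] at hf
    rw [mem_product, mem_SM]
    refine ⟨⟨?_, ?_⟩, mem_univ _⟩
    · rw [← hf.1.1]
      exact Equiv.sum_comp (Tuple.sort f) f
    · exact (Tuple.monotone_sort f).strictMono_of_injective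
        (hf.2.comp (Tuple.sort f).injective)
  · rintro ⟨g, π⟩ hx
    rw [mem_product, mem_SM] at hx
    rw [mem_filter, mem_piAntidiag]
    refine ⟨⟨?_, fun i _ => mem_univ i⟩, hx.1.2.injective.comp π.injective⟩
    rw [← hx.1.1]
    exact Equiv.sum_comp π g
  · intro f _
    ext i
    simp
  · rintro ⟨g, π⟩ hx
    rw [mem_product, mem_SM] at hx
    simp only at hx ⊢
    rw [sort_comp hx.1.2, inv_inv]
    congr 1
    ext i
    simp
  · intro f _
    congr 1
    ext i
    simp

end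

/-! ### Young diagrams with a given number of cells -/

theorem finite_card (n : ℕ) : {μ : YoungDiagram | μ.card = n}.Finite := by
  refine Set.Finite.of_finite_image (f := YoungDiagram.cells) ?_ ?_
  · refine Set.Finite.subset (Finset.finite_toSet (powerset (range n ×ˢ range n))) ?_
    rintro s ⟨μ, hμ, rfl⟩
    rw [mem_coe, mem_powerset]
    rintro ⟨i, j⟩ hc
    rw [YoungDiagram.mem_cells] at hc
    rw [mem_product, mem_range, mem_range]
    have hμ' : μ.cells.card = n := hμ
    have h1 : (range (i + 1) ×ˢ {j}) ⊆ μ.cells := by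
      rintro ⟨a, b⟩ hab
      rw [mem_product, mem_range, mem_singleton] at hab
      simp only at hab
      rw [YoungDiagram.mem_cells]
      exact μ.up_left_mem (by omega) (by omega) hc
    have h2 : ({i} ×ˢ range (j + 1)) ⊆ μ.cells := by
      rintro ⟨a, b⟩ hab
      rw [mem_product, mem_range, mem_singleton] at hab
      simp only at hab
      rw [YoungDiagram.mem_cells]
      exact μ.up_left_mem (by omega) (by omega) hc
    have h3 := card_le_card h1
    have h4 := card_le_card h2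
    rw [card_product, card_range, card_singleton] at h3 h4
    simp only
    omega
  · intro μ _ ν _ h
    exact YoungDiagram.ext h

/-- the Young diagrams with `n` cells -/
noncomputable def ydF (n : ℕ) : Finset YoungDiagram := (finite_card n).toFinset

theorem mem_ydF {n : ℕ} {μ : YoungDiagram} : μ ∈ ydF n ↔ μ.card = n := by
  rw [ydF, Set.Finite.mem_toFinset]; rfl

theorem colLen_le_card (μ : YoungDiagram) : μ.colLen 0 ≤ μ.card := by
  rw [YoungDiagram.colLen_eq_card]
  exact card_le_card (by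
    intro c hc
    rw [YoungDiagram.mem_col_iff] at hc
    exact hc.1)

theorem card_eq_sum (μ : YoungDiagram) {N : ℕ} (hN : μ.colLen 0 ≤ N) :
    μ.card = ∑ i ∈ range N, μ.rowLen i := by
  have h := sum_cells μ hN (fun _ => 1)
  simp only [sum_const, card_range, smul_eq_mul, mul_one] at h
  exact h

/-- the strictly monotone sequence of a Young diagram -/
def gmu (N : ℕ) (μ : YoungDiagram) (i : Fin N) : ℕ := lN μ N (N - 1 - i)

theorem gmu_mem {n N : ℕ} (hnN : n ≤ N) {μ : YoungDiagram} (hμ : μ ∈ ydF n) :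
    gmu N μ ∈ SM N (n + ∑ i ∈ range N, i) := by
  rw [mem_ydF] at hμ
  have hc : μ.colLen 0 ≤ N := (colLen_le_card μ).trans (by omega)
  rw [mem_SM]
  constructor
  · have e1 : ∑ i : Fin N, gmu N μ i = ∑ i ∈ range N, lN μ N (N - 1 - i) :=
      Fin.sum_univ_eq_sum_range (fun i => lN μ N (N - 1 - i)) N
    rw [e1, Finset.sum_range_reflect (fun i => lN μ N i) N]
    simp only [lN, sum_add_distrib]
    rw [← card_eq_sum μ hc, hμ, Finset.sum_range_reflect (fun i => i) N]
  · intro i j hij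
    have h1 := μ.rowLen_anti (N - 1 - j) (N - 1 - i) (by omega)
    have := i.2
    have := j.2
    have h2 : (i : ℕ) < j := hij
    simp only [gmu, lN]
    omega

theorem rowLen_zero_of_le {μ : YoungDiagram} {i : ℕ} (h : μ.colLen 0 ≤ i) : μ.rowLen i = 0 := by
  by_contra hne
  have h1 : 0 < μ.rowLen i := Nat.pos_of_ne_zero hne
  have h2 := YoungDiagram.mem_iff_lt_colLen.1 (YoungDiagram.mem_iff_lt_rowLen.2 h1)
  omega

theorem gmu_inj {n N : ℕ} (hnN : n ≤ N) {μ ν : YoungDiagram} (hμ : μ ∈ ydF n) (hν : ν ∈ ydF n)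
    (h : gmu N μ = gmu N ν) : μ = ν := by
  rw [mem_ydF] at hμ hν
  have hc : μ.colLen 0 ≤ N := (colLen_le_card μ).trans (by omega)
  have hc' : ν.colLen 0 ≤ N := (colLen_le_card ν).trans (by omega)
  have hr : ∀ i, μ.rowLen i = ν.rowLen i := by
    intro i
    rcases Nat.lt_or_ge i N with hi | hi
    · have := congrFun h ⟨N - 1 - i, by omega⟩
      simp only [gmu, lN] at this
      rw [show N - 1 - (N - 1 - i) = i by omega] at this
      omega
    · rw [rowLen_zero_of_le (hc.trans hi), rowLen_zero_of_le (hc'.trans hi)]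
  refine YoungDiagram.ext ?_
  ext ⟨i, j⟩
  rw [YoungDiagram.mem_cells, YoungDiagram.mem_cells, YoungDiagram.mem_iff_lt_rowLen,
    YoungDiagram.mem_iff_lt_rowLen, hr]

/-- the Young diagram with given row lengths -/
def ofRows (N : ℕ) (lam : ℕ → ℕ) (h : Antitone lam) : YoungDiagram where
  cells := (range N).biUnion fun i => {i} ×ˢ range (lam i)
  isLowerSet := by
    rintro ⟨i, j⟩ ⟨i', j'⟩ hle hm
    rw [Prod.mk_le_mk] at hle
    simp only [coe_biUnion, coe_product, coe_singleton, coe_range,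
      Set.mem_iUnion, Set.mem_prod, Set.mem_singleton_iff, Set.mem_Iio, exists_prop] at hm ⊢
    obtain ⟨a, ha, rfl, hb⟩ := hm
    exact ⟨i', by omega, rfl, by have := h hle.1; omega⟩

theorem mem_ofRows {N : ℕ} {lam : ℕ → ℕ} {h : Antitone lam} {i j : ℕ} :
    (i, j) ∈ ofRows N lam h ↔ i < N ∧ j < lam i := by
  rw [← YoungDiagram.mem_cells]
  simp only [ofRows, mem_biUnion, mem_range, mem_product, mem_singleton]
  constructor
  · rintro ⟨a, ha, rfl, hb⟩; exact ⟨ha, hb⟩
  · rintro ⟨ha, hb⟩; exact ⟨i, ha, rfl, hb⟩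

theorem rowLen_ofRows {N : ℕ} {lam : ℕ → ℕ} {h : Antitone lam} {i : ℕ} (hi : i < N) :
    (ofRows N lam h).rowLen i = lam i := by
  have key : ∀ j, j < (ofRows N lam h).rowLen i ↔ j < lam i := by
    intro j
    rw [← YoungDiagram.mem_iff_lt_rowLen, mem_ofRows]
    exact ⟨fun h => h.2, fun h => ⟨hi, h⟩⟩
  have h1 := key (lam i)
  have h2 := key ((ofRows N lam h).rowLen i)
  omega

theorem gmu_surj {n N : ℕ} {g : Fin N → ℕ} (hg : g ∈ SM N (n + ∑ i ∈ range N, i)) :
    ∃ μ ∈ ydF n, gmu N μ = g := by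
  rw [mem_SM] at hg
  obtain ⟨hs, hm⟩ := hg
  -- extend `g`
  have hstep : ∀ a b : ℕ, ∀ (hb : b < N) (hab : a ≤ b), g ⟨a, by omega⟩ + (b - a) ≤ g ⟨b, hb⟩ := by
    intro a b hb hab
    induction b with
    | zero => obtain rfl : a = 0 := by omega
              simp
    | succ b ih =>
      rcases Nat.lt_or_ge b a with h | h
      · obtain rfl : a = b + 1 := by omega
        simp
      · have h1 := ih (by omega) h
        have h2 : g ⟨b, by omega⟩ < g ⟨b + 1, hb⟩ := hm (by
          rw [Fin.lt_def]; simp)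
        omega
  have hge : ∀ a (ha : a < N), a ≤ g ⟨a, ha⟩ := by
    intro a ha
    have := hstep 0 a ha (Nat.zero_le _)
    omega
  let lam : ℕ → ℕ := fun i => if h : i < N then g ⟨N - 1 - i, by omega⟩ - (N - 1 - i) else 0
  have hlam : Antitone lam := by
    intro i j hij
    simp only [lam]
    split_ifs with h1 h2 h2
    · have := hstep (N - 1 - j) (N - 1 - i) (by omega) (by omega)
      omega
    · omega
    · exact Nat.zero_le _
    · exact le_rfl
  have hrow : ∀ i, i < N → (ofRows N lam hlam).rowLen i = lam i := fun i hi => rowLen_ofRows hi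
  have hg' : gmu N (ofRows N lam hlam) = g := by
    ext ⟨i, hi⟩
    simp only [gmu, lN]
    rw [hrow _ (by omega)]
    simp only [lam]
    rw [dif_pos (by omega)]
    have h1 := hge i hi
    have h2 : N - 1 - (N - 1 - i) = i := by omega
    have h3 : g ⟨N - 1 - (N - 1 - i), by omega⟩ = g ⟨i, hi⟩ := by
      congr 1
      ext
      exact h2
    rw [h3, h2]
    omega
  have hcol : (ofRows N lam hlam).colLen 0 ≤ N := by
    by_contra hne
    rw [not_le] at hne
    have := YoungDiagram.mem_iff_lt_colLen.2 hne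
    rw [mem_ofRows] at this
    omega
  refine ⟨ofRows N lam hlam, ?_, hg'⟩
  rw [mem_ydF, card_eq_sum _ hcol]
  have e1 : ∑ i : Fin N, gmu N (ofRows N lam hlam) i
      = ∑ i ∈ range N, lN (ofRows N lam hlam) N (N - 1 - i) :=
    Fin.sum_univ_eq_sum_range (fun i => lN (ofRows N lam hlam) N (N - 1 - i)) N
  rw [hg', hs, Finset.sum_range_reflect (fun i => lN (ofRows N lam hlam) N i) N] at e1
  simp only [lN, sum_add_distrib] at e1
  rw [Finset.sum_range_reflect (fun i => i) N] at e1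
  omega

/-- sums over Young diagrams as sums over strictly monotone sequences -/
theorem sum_ydF {M : Type*} [AddCommMonoid M] {n N : ℕ} (hnN : n ≤ N) (F : (Fin N → ℕ) → M) :
    ∑ μ ∈ ydF n, F (gmu N μ) = ∑ g ∈ SM N (n + ∑ i ∈ range N, i), F g := by
  refine sum_bij (fun μ _ => gmu N μ) (fun μ hμ => gmu_mem hnN hμ)
    (fun μ hμ ν hν h => gmu_inj hnN hμ hν h) (fun g hg => ?_) (fun μ _ => rfl)
  obtain ⟨μ, hμ, rfl⟩ := gmu_surj hg
  exact ⟨μ, hμ, rfl⟩

/-- low coefficients vanish -/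
theorem SM_empty {N m : ℕ} (h : m < ∑ i ∈ range N, i) : SM N m = ∅ := by
  rw [Finset.eq_empty_iff_forall_notMem]
  intro g hg
  rw [mem_SM] at hg
  obtain ⟨hs, hm⟩ := hg
  have : ∀ i : Fin N, (i : ℕ) ≤ g i := by
    rintro ⟨i, hi⟩
    induction i with
    | zero => exact Nat.zero_le _
    | succ i ih =>
      have h1 := ih (by omega)
      have h2 : g ⟨i, by omega⟩ < g ⟨i + 1, hi⟩ := hm (by rw [Fin.lt_def]; simp)
      simp only at h1 ⊢
      omega
  have h3 : ∑ i : Fin N, (i : ℕ) ≤ ∑ i, g i := sum_le_sum fun i _ => this i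
  rw [Fin.sum_univ_eq_sum_range (fun i => i) N] at h3
  omega

end MP4a
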