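import Pool.Agent.Lib.MP_4a2528_ag.Der

/-!
Hankel determinants of moments and the Toda equation for them.
-/

set_option linter.unusedSectionVars false

namespace MP4a

open PowerSeries Matrix

section derdet
variable {R : Type*} [CommRing R] [Algebra ℚ R] {ι : Type*} [DecidableEq ι] [Fintype ι]

omit [Fintype ι] in
theorem der_prod (D : Derivation ℚ R R) (s : Finset ι) (f : ι → R) :
    D (∏ i ∈ s, f i) = ∑ j ∈ s, D (f j) * ∏ i ∈ s.erase j, f i := by
  induction s using Finset.induction_on with
  | empty => simp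
  | insert a s ha ih =>
    rw [Finset.prod_insert ha, Derivation.leibniz, ih, Finset.sum_insert ha,
      Finset.erase_insert ha, smul_eq_mul, smul_eq_mul, Finset.mul_sum, add_comm,
      mul_comm (∏ i ∈ s, f i)]
    congr 1
    refine Finset.sum_congr rfl fun j hj => ?_
    have hja : a ≠ j := fun h => ha (h ▸ hj)
    rw [Finset.erase_insert_of_ne hja, Finset.prod_insert (fun h => ha (Finset.mem_of_mem_erase h))]
    ring

theorem der_det (D : Derivation ℚ R R) (M : Matrix ι ι R) :
    D M.det = ∑ j, (M.updateCol j (fun i => D (M i j))).det := by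
  simp only [Matrix.det_apply', map_sum]
  rw [Finset.sum_comm]
  refine Finset.sum_congr rfl fun σ _ => ?_
  rw [Derivation.leibniz, Derivation.map_intCast, smul_zero, add_zero, smul_eq_mul, der_prod,
    Finset.mul_sum]
  refine Finset.sum_congr rfl fun j _ => ?_
  congr 1
  rw [← Finset.mul_prod_erase Finset.univ _ (Finset.mem_univ j)]
  rw [Matrix.updateCol_self]
  congr 1
  refine Finset.prod_congr rfl fun i hi => ?_
  rw [Matrix.updateCol_ne (Finset.ne_of_mem_erase hi)]

end derdet

section schur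
variable {R : Type*} [CommRing R]

theorem schur_gen {q m : Type*} [Fintype q] [DecidableEq q] [Fintype m] [DecidableEq m]
    (P : Matrix q q R) (B : Matrix q m R) (C : Matrix m q R) (D : Matrix m m R) :
    (fromBlocks P B C D).det * P.det ^ (Fintype.card q + Fintype.card m)
      = P.det ^ (Fintype.card q + 1) * (P.det • D - C * P.adjugate * B).det := by
  have e : fromBlocks P B C D * fromBlocks P.adjugate (-(P.adjugate * B)) 0
        (P.det • (1 : Matrix m m R))
      = fromBlocks (P.det • (1 : Matrix q q R)) 0 (C * P.adjugate)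
        (P.det • D - C * P.adjugate * B) := by
    rw [Matrix.fromBlocks_multiply]
    congr 1
    · rw [Matrix.mul_zero, add_zero, Matrix.mul_adjugate]
    · rw [Matrix.mul_neg, ← Matrix.mul_assoc, Matrix.mul_adjugate, Matrix.smul_mul, Matrix.one_mul,
        Matrix.mul_smul, Matrix.mul_one]
      simp
    · rw [Matrix.mul_zero, add_zero]
    · rw [Matrix.mul_neg, Matrix.mul_smul, Matrix.mul_one, ← Matrix.mul_assoc]
      abel
  have h := congrArg Matrix.det e
  rw [Matrix.det_mul, Matrix.det_fromBlocks_zero₂₁, Matrix.det_fromBlocks_zero₁₂,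
    Matrix.det_smul, Matrix.det_smul, Matrix.det_one, Matrix.det_one, mul_one, mul_one] at h
  have h2 : P.det * P.adjugate.det = P.det ^ Fintype.card q := by
    rw [← Matrix.det_mul, Matrix.mul_adjugate, Matrix.det_smul, Matrix.det_one, mul_one]
  calc (fromBlocks P B C D).det * P.det ^ (Fintype.card q + Fintype.card m)
      = P.det * ((fromBlocks P B C D).det * (P.adjugate.det * P.det ^ Fintype.card m)) := by
        rw [pow_add, ← h2]; ring
    _ = _ := by rw [h, pow_succ]; ring

theorem schur_one {q : ℕ} (P : Matrix (Fin q) (Fin q) R) (B : Matrix (Fin q) (Fin 1) R)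
    (C : Matrix (Fin 1) (Fin q) R) (D : Matrix (Fin 1) (Fin 1) R)
    (hP : P.det ∈ nonZeroDivisors R) :
    (fromBlocks P B C D).det = (P.det • D - C * P.adjugate * B).det := by
  have h := schur_gen P B C D
  simp only [Fintype.card_fin] at h
  have hp : P.det ^ (q + 1) ∈ nonZeroDivisors R := pow_mem hP _
  rw [mul_comm] at h
  exact (mul_cancel_left_mem_nonZeroDivisors hp).1 h

theorem schur_two {q : ℕ} (P : Matrix (Fin q) (Fin q) R) (B : Matrix (Fin q) (Fin 2) R)
    (C : Matrix (Fin 2) (Fin q) R) (D : Matrix (Fin 2) (Fin 2) R)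
    (hP : P.det ∈ nonZeroDivisors R) :
    (fromBlocks P B C D).det * P.det = (P.det • D - C * P.adjugate * B).det := by
  have h := schur_gen P B C D
  simp only [Fintype.card_fin] at h
  have hp : P.det ^ (q + 1) ∈ nonZeroDivisors R := pow_mem hP _
  refine (mul_cancel_left_mem_nonZeroDivisors hp).1 ?_
  rw [← h, show q + 2 = (q + 1) + 1 by ring, pow_succ]
  ring

end schur

section hankel
variable {A : Type*} [CommRing A] [Algebra ℚ A] (om : ℕ → A)

/-- moments -/
noncomputable def mom (j : ℕ) : A⟦X⟧ := PowerSeries.mk fun l => (l : A) ^ j * om l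

theorem eu_mom (j : ℕ) : eu (mom om j) = mom om (j + 1) := by
  ext l
  rw [coeff_eu, mom, mom, coeff_mk, coeff_mk, pow_succ]; ring

/-- Hankel type matrices with given row and column indices -/
noncomputable def Hm {N : ℕ} (a b : Fin N → ℕ) : Matrix (Fin N) (Fin N) A⟦X⟧ :=
  Matrix.of fun i j => mom om (a i + b j)

/-- the Hankel determinant -/
noncomputable def Hd (N : ℕ) : A⟦X⟧ := (Hm om (fun i : Fin N => (i : ℕ)) (fun i => i)).det

/-- indices with the last one raised by one -/
def sl (q : ℕ) (i : Fin (q + 1)) : ℕ := if (i : ℕ) < q then i else q + 1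

theorem eu_det_Hm (q : ℕ) (a : Fin (q + 1) → ℕ) :
    eu (Hm om a (fun i => (i : ℕ))).det = (Hm om a (sl q)).det := by
  rw [der_det, Finset.sum_eq_single (Fin.last q)]
  · congr 1
    ext1 i j
    by_cases hj : j = Fin.last q
    · subst hj
      rw [Matrix.updateCol_self, Hm, Matrix.of_apply, eu_mom, Hm, Matrix.of_apply, sl,
        if_neg (by simp)]
      rfl
    · rw [Matrix.updateCol_ne hj, Hm, Matrix.of_apply, Hm, Matrix.of_apply, sl, if_pos]
      have := j.2
      have h2 : (j : ℕ) ≠ q := fun h => hj (Fin.ext h)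
      omega
  · intro j _ hj
    have h2 : (j : ℕ) ≠ q := fun h => hj (Fin.ext h)
    have hj' : (j : ℕ) + 1 < q + 1 := by have := j.2; omega
    refine Matrix.det_zero_of_column_eq (i := j) (j := ⟨j + 1, hj'⟩) ?_ ?_
    · intro h; have := congrArg Fin.val h; simp at this
    · intro i
      rw [Matrix.updateCol_self, Matrix.updateCol_ne, Hm, Matrix.of_apply, eu_mom, Matrix.of_apply]
      · rfl
      · intro h; have := congrArg Fin.val h; simp at this
  · intro h; exact absurd (Finset.mem_univ _) h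

theorem det_Hm_comm {N : ℕ} (a b : Fin N → ℕ) : (Hm om a b).det = (Hm om b a).det := by
  rw [← Matrix.det_transpose]
  congr 1
  ext1 i j
  rw [Matrix.transpose_apply, Hm, Hm, Matrix.of_apply, Matrix.of_apply, add_comm]

theorem eu_Hd (q : ℕ) : eu (Hd om (q + 1)) = (Hm om (fun i : Fin (q + 1) => (i : ℕ)) (sl q)).det :=
  eu_det_Hm om q _

theorem eu_eu_Hd (q : ℕ) : eu (eu (Hd om (q + 1))) = (Hm om (sl q) (sl q)).det := by
  rw [eu_Hd, det_Hm_comm, eu_det_Hm]

/-- the Schur complement entries -/
noncomputable def Sc (q k l : ℕ) : A⟦X⟧ :=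
  Hd om q * mom om (q + k + (q + l))
    - ∑ i : Fin q, ∑ j : Fin q, mom om (q + k + i) *
      (Hm om (fun i : Fin q => (i : ℕ)) (fun i => i)).adjugate i j * mom om (j + (q + l))

theorem border_one (q : ℕ) (hP : Hd om q ∈ nonZeroDivisors A⟦X⟧) (a b : Fin (q + 1) → ℕ)
    (ha : ∀ i : Fin q, a (Fin.castSucc i) = i) (hb : ∀ i : Fin q, b (Fin.castSucc i) = i)
    (k l : ℕ) (hk : a (Fin.last q) = q + k) (hl : b (Fin.last q) = q + l) :
    (Hm om a b).det = Sc om q k l := by
  have h1 : (Hm om a b).submatrix finSumFinEquiv finSumFinEquiv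
      = fromBlocks (Hm om (fun i : Fin q => (i : ℕ)) (fun i => i))
        (Matrix.of fun (i : Fin q) (_ : Fin 1) => mom om (i + (q + l)))
        (Matrix.of fun (_ : Fin 1) (j : Fin q) => mom om (q + k + j))
        (Matrix.of fun (_ : Fin 1) (_ : Fin 1) => mom om (q + k + (q + l))) := by
    ext1 i j
    rcases i with i | i <;> rcases j with j | j
    · rw [Matrix.submatrix_apply, Matrix.fromBlocks_apply₁₁, Hm, Hm, Matrix.of_apply,
        Matrix.of_apply]
      have e1 : (finSumFinEquiv (Sum.inl i) : Fin (q + 1)) = Fin.castSucc i := rfl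
      have e2 : (finSumFinEquiv (Sum.inl j) : Fin (q + 1)) = Fin.castSucc j := rfl
      rw [e1, e2, ha, hb]
    · rw [Matrix.submatrix_apply, Matrix.fromBlocks_apply₁₂, Hm, Matrix.of_apply,
        Matrix.of_apply]
      have e1 : (finSumFinEquiv (Sum.inl i) : Fin (q + 1)) = Fin.castSucc i := rfl
      have e2 : (finSumFinEquiv (Sum.inr j) : Fin (q + 1)) = Fin.last q := by
        ext; simp
      rw [e1, e2, ha, hl]
    · rw [Matrix.submatrix_apply, Matrix.fromBlocks_apply₂₁, Hm, Matrix.of_apply,
        Matrix.of_apply]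
      have e1 : (finSumFinEquiv (Sum.inr i) : Fin (q + 1)) = Fin.last q := by
        ext; simp
      have e2 : (finSumFinEquiv (Sum.inl j) : Fin (q + 1)) = Fin.castSucc j := rfl
      rw [e1, e2, hb, hk]
    · rw [Matrix.submatrix_apply, Matrix.fromBlocks_apply₂₂, Hm, Matrix.of_apply,
        Matrix.of_apply]
      have e1 : (finSumFinEquiv (Sum.inr i) : Fin (q + 1)) = Fin.last q := by
        ext; simp
      have e2 : (finSumFinEquiv (Sum.inr j) : Fin (q + 1)) = Fin.last q := by
        ext; simp
      rw [e1, e2, hk, hl]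
  rw [← Matrix.det_submatrix_equiv_self finSumFinEquiv, h1, schur_one _ _ _ _ hP, Matrix.det_fin_one,
    Matrix.sub_apply, Matrix.smul_apply, smul_eq_mul, Sc]
  congr 1
  rw [Matrix.mul_apply]
  simp only [Matrix.mul_apply, Matrix.of_apply, Finset.sum_mul]
  rw [Finset.sum_comm]

theorem border_two (q : ℕ) (hP : Hd om q ∈ nonZeroDivisors A⟦X⟧) :
    Hd om (q + 2) * Hd om q = Sc om q 0 0 * Sc om q 1 1 - Sc om q 0 1 * Sc om q 1 0 := by
  have h1 : (Hm om (fun i : Fin (q + 2) => (i : ℕ)) (fun i => i)).submatrix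
        finSumFinEquiv finSumFinEquiv
      = fromBlocks (Hm om (fun i : Fin q => (i : ℕ)) (fun i => i))
        (Matrix.of fun (i : Fin q) (l : Fin 2) => mom om (i + (q + l)))
        (Matrix.of fun (k : Fin 2) (j : Fin q) => mom om (q + k + j))
        (Matrix.of fun (k : Fin 2) (l : Fin 2) => mom om (q + k + (q + l))) := by
    ext1 i j
    rcases i with i | i <;> rcases j with j | j <;>
    simp [Hm, Matrix.submatrix_apply]
  rw [Hd, ← Matrix.det_submatrix_equiv_self finSumFinEquiv, h1]
  have h2 := schur_two _ (Matrix.of fun (i : Fin q) (l : Fin 2) => mom om (i + (q + l)))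
    (Matrix.of fun (k : Fin 2) (j : Fin q) => mom om (q + k + j))
    (Matrix.of fun (k : Fin 2) (l : Fin 2) => mom om (q + k + (q + l))) hP
  have e : ∀ k l : Fin 2, ((Hm om (fun i : Fin q => (i : ℕ)) (fun i => i)).det
      • (Matrix.of fun (k : Fin 2) (l : Fin 2) => mom om (q + k + (q + l)))
      - (Matrix.of fun (k : Fin 2) (j : Fin q) => mom om (q + k + j))
        * (Hm om (fun i : Fin q => (i : ℕ)) (fun i => i)).adjugate
        * (Matrix.of fun (i : Fin q) (l : Fin 2) => mom om (i + (q + l)))) k l = Sc om q k l := by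
    intro k l
    rw [Matrix.sub_apply, Matrix.smul_apply, smul_eq_mul, Sc]
    congr 1
    rw [Matrix.mul_apply]
    simp only [Matrix.mul_apply, Matrix.of_apply, Finset.sum_mul]
    rw [Finset.sum_comm]
  rw [Matrix.det_fin_two, e, e, e, e] at h2
  exact h2

/-- the Toda equation for Hankel determinants -/
theorem toda_Hd (q : ℕ) (hP : Hd om q ∈ nonZeroDivisors A⟦X⟧) :
    Hd om (q + 1) * eu (eu (Hd om (q + 1))) - eu (Hd om (q + 1)) ^ 2
      = Hd om (q + 2) * Hd om q := by
  have c1 : ∀ i : Fin q, ((Fin.castSucc i : Fin (q + 1)) : ℕ) = i := fun i => rfl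
  have c2 : ∀ i : Fin q, sl q (Fin.castSucc i) = i := fun i => by
    rw [sl, if_pos (by simp)]; rfl
  have c3 : sl q (Fin.last q) = q + 1 := by rw [sl, if_neg (by simp)]
  have e1 : Hd om (q + 1) = Sc om q 0 0 :=
    border_one om q hP _ _ c1 c1 0 0 rfl rfl
  have e2 : eu (Hd om (q + 1)) = Sc om q 0 1 := by
    rw [eu_Hd]; exact border_one om q hP _ _ c1 c2 0 1 rfl c3
  have e2' : eu (Hd om (q + 1)) = Sc om q 1 0 := by
    rw [eu_Hd, det_Hm_comm]; exact border_one om q hP _ _ c2 c1 1 0 c3 rfl
  have e3 : eu (eu (Hd om (q + 1))) = Sc om q 1 1 := by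
    rw [eu_eu_Hd]; exact border_one om q hP _ _ c2 c2 1 1 c3 c3
  rw [border_two om q hP, e3, ← e1, ← e2, ← e2']
  ring

end hankel

end MP4a
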