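import Pool.Agent.Lib.MP_4a2528_ag.StatD
import Pool.Agent.Lib.MP_4a2528_ag.Pos

/-!
From a model to the closed system over `S[[s]]`.
-/

set_option linter.unusedSectionVars false

namespace MP4a

open PowerSeries Matrix

namespace Model

variable {n : ℕ} {A S : Type*} [CommRing A] [Algebra ℚ A] [CommRing S] [Algebra ℚ S]
  (M : Model n A S)

/-- couplings including the factor `s` -/
noncomputable def ks (m : ℕ) : S⟦X⟧ := X * C (M.kb m)

theorem ks_even : EvenSeq n M.ks where
  zero := by rw [ks, M.kb_even.zero, map_zero, mul_zero]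
  odd := fun m hm => by rw [ks, M.kb_even.odd m hm, map_zero, mul_zero]
  big := fun m hm => by rw [ks, M.kb_even.big m hm, map_zero, mul_zero]

theorem aK_ks (j l : ℕ) : aK M.ks j l = X * C (aK M.kb j l) := by
  simp only [aK, ks, map_mul, map_pow, map_neg, map_one]; ring

/-- the swapped gradient -/
noncomputable def Js (j : Fin n) : S⟦X⟧⟦X⟧ := swapS (M.Jb j)

theorem swap_XVb (j : ℕ) : swapS (X * M.Vb j) = C (M.ks j) + ∑ l : Fin n, C (aK M.ks j l) * M.Js l := by
  rw [map_mul, swapS_X, Vb, map_add, map_sum, mul_add, swapS_CC, Finset.mul_sum, ks, map_mul]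
  refine congrArg₂ (· + ·) rfl ?_
  refine Finset.sum_congr rfl fun l _ => ?_
  rw [map_mul, swapS_CC, aK_ks, map_mul, Js, mul_assoc]

theorem swap_cc {f : S⟦X⟧⟦X⟧} (h : PowerSeries.map (constantCoeff (R := S)) f = 0) :
    coeff 0 (swapS f) = 0 := by
  ext b
  rw [coeff_swapS, map_zero]
  have := congrArg (coeff b) h
  rwa [coeff_map, map_zero, ← coeff_zero_eq_constantCoeff_apply] at this

theorem swap_R0 : coeff 0 (swapS M.Rb) = 0 :=
  swap_cc (M.evst_cc (by simp))

theorem swap_J0 (j : Fin n) : coeff 0 (M.Js j) = 0 := by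
  have : M.Jb j = M.evst (M.P.Dr j M.F0) := by
    rw [Jb, M.hj.J_eq, M.hj_coeff0]; rfl
  rw [Js, this]
  exact swap_cc (M.evst_cc (by simp [M.sol0.cc]))

theorem swap_v : swapS M.vb = ∑ j : Fin n, (C (M.ks j) + ∑ l : Fin n, C (aK M.ks j l) * M.Js l)
    * aa 0 0 (swapS M.Rb) j := by
  rw [M.vb_eq, map_sum]
  refine Finset.sum_congr rfl fun j _ => ?_
  rw [map_mul, swap_XVb, map_aa, map_zero]

theorem swap_v0 : coeff 0 (swapS M.vb) = 0 := by
  rw [swap_v, map_sum]
  refine Finset.sum_eq_zero fun j _ => ?_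
  have hR : constantCoeff (swapS M.Rb) = 0 := by
    rw [← coeff_zero_eq_constantCoeff_apply, M.swap_R0]
  rw [coeff_zero_eq_constantCoeff_apply, map_mul, map_aa (constantCoeff (R := S⟦X⟧)), hR, map_zero]
  rcases Nat.eq_zero_or_pos (j : ℕ) with h | h
  · rw [h, M.ks_even.zero, map_zero, zero_add, map_sum]
    rw [Finset.sum_eq_zero, zero_mul]
    intro l _
    rw [map_mul, ← coeff_zero_eq_constantCoeff_apply (M.Js l), M.swap_J0, mul_zero]
  · rw [aa_at_zero, zero_pow (by omega), mul_zero, mul_zero]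

theorem swap_R1 : coeff 1 (swapS M.Rb) = 1 := by
  have h := congrArg swapS M.dX_Rb
  rw [map_mul, swapS_dX, swapS_dX] at h
  have h1 := congrArg (coeff 1) h
  rw [coeff_liftD, coeff_mul, Finset.Nat.antidiagonal_succ] at h1
  simp only [Finset.Nat.antidiagonal_zero, Finset.map_singleton, Finset.sum_cons,
    Finset.sum_singleton, coeff_liftD, M.swap_R0, zero_mul, zero_add,
    Function.Embedding.prodMap, Function.Embedding.coeFn_mk, Prod.map, Nat.succ_eq_add_one,
    Function.Embedding.refl_apply, M.swap_v0, map_zero, mul_zero] at h1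
  have h2 : coeff 0 (coeff 1 (swapS M.Rb)) = 1 := by
    rw [coeff_swapS, Rb, evS, coeff_map, M.hj.fl.coeff_zero_star, evB, coeff_map, Pot.RR, coeff_eu,
      coeff_eu, M.sol0.c1]
    simp [M.ev_r]
  ext b
  rcases b with _ | b
  · rw [h2]; simp
  · have h3 := congrArg (coeff b) h1
    rw [coeff_dX, map_zero] at h3
    have h4 : ((b + 1 : ℕ) : S) * coeff (b + 1) (coeff 1 (swapS M.Rb)) = 0 := by
      push_cast; rw [mul_comm]; exact h3
    rw [natCast_mul_eq_zero (by omega) h4, coeff_one, if_neg (by omega)]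

theorem swap_Ab (i j : Fin n) : C X * swapS (M.Ab i j) = C (aK M.ks i j) := by
  rw [Ab, Matrix.of_apply, swapS_CC, aK_ks, map_mul]

theorem swap_entry (i j : Fin n) : swapS ((1 - (X : S⟦X⟧⟦X⟧) • (M.Qb * M.Ab)) i j)
    = (1 - M.Qb.map swapS * Matrix.of fun i j : Fin n => (C (aK M.ks i j) : S⟦X⟧⟦X⟧)) i j := by
  rw [Matrix.sub_apply, Matrix.sub_apply, map_sub, Matrix.smul_apply, smul_eq_mul, map_mul,
    swapS_X, Matrix.mul_apply, Matrix.mul_apply, map_sum, Finset.mul_sum]
  refine congrArg₂ (· - ·) ?_ ?_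
  · simp only [Matrix.one_apply]
    split_ifs
    · exact map_one _
    · exact map_zero _
  · refine Finset.sum_congr rfl fun l _ => ?_
    rw [map_mul, Matrix.map_apply, Matrix.of_apply, ← swap_Ab, mul_left_comm]

theorem swap_hN : M.Nb.map swapS * (1 - M.Qb.map swapS
    * Matrix.of fun i j : Fin n => (C (aK M.ks i j) : S⟦X⟧⟦X⟧)) = 1 := by
  have h := congrArg (fun N : Matrix (Fin n) (Fin n) S⟦X⟧⟦X⟧ => N.map swapS) M.Nb_mul
  simp only [Matrix.map_mul] at h
  rw [Matrix.map_one _ (map_zero _) (map_one _)] at h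
  have e : (1 - (X : S⟦X⟧⟦X⟧) • (M.Qb * M.Ab)).map swapS
      = 1 - M.Qb.map swapS * Matrix.of fun i j : Fin n => (C (aK M.ks i j) : S⟦X⟧⟦X⟧) := by
    ext1 i j
    exact M.swap_entry i j
  rw [e] at h
  exact h

theorem swap_trace : swapS (X * (M.Kb * dM EU M.Qb).trace)
    = ((Matrix.of fun i j : Fin n => (C (aK M.ks i j) : S⟦X⟧⟦X⟧)) * M.Nb.map swapS
      * dM eu (M.Qb.map swapS)).trace := by
  rw [map_mul, swapS_X, Kb_eq, Matrix.trace, Matrix.trace, map_sum, Finset.mul_sum]
  refine Finset.sum_congr rfl fun i _ => ?_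
  rw [Matrix.diag_apply, Matrix.diag_apply, Matrix.mul_apply, Matrix.mul_apply, map_sum,
    Finset.mul_sum]
  refine Finset.sum_congr rfl fun j _ => ?_
  rw [map_mul, Matrix.mul_apply, Matrix.mul_apply, map_sum, Finset.sum_mul, Finset.sum_mul,
    Finset.mul_sum]
  refine Finset.sum_congr rfl fun l _ => ?_
  rw [map_mul, Matrix.of_apply, ← swap_Ab, dM_apply, dM_apply, Matrix.map_apply, Matrix.map_apply,
    swapS_EU, mul_assoc, mul_assoc, mul_assoc]

theorem swap_h6 : 24 * eu (swapS M.Wb) = eu (swapS (M.evst (Pot.Phi M.P M.F0 M.F1)))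
    - eu (swapS M.vb) + 12 * ((Matrix.of fun i j : Fin n => (C (aK M.ks i j) : S⟦X⟧⟦X⟧))
      * M.Nb.map swapS * dM eu (M.Qb.map swapS)).trace := by
  have h := congrArg swapS M.EU_Wb
  rw [map_mul, map_add, map_sub, map_mul, swap_trace, swapS_EU, swapS_EU, swapS_EU,
    map_ofNat, map_ofNat] at h
  exact h

/-- the closed system of a model -/
noncomputable def sys (hn : Odd n) : Sys n S⟦X⟧ where
  hn := hn
  k := M.ks
  k_even := M.ks_even
  R := swapS M.Rb
  v := swapS M.vb
  Th := swapS M.Th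
  W := swapS M.Wb
  Ph := swapS (M.evst (Pot.Phi M.P M.F0 M.F1))
  J := M.Js
  Q := M.Qb.map swapS
  N := M.Nb.map swapS
  R0 := M.swap_R0
  R1 := M.swap_R1
  J0 := M.swap_J0
  Q0 := fun i j => by
    have e3 : M.Qb i j = M.evst (M.P.Dr i (M.P.Dr j M.F0)) := by
      rw [Qb, Matrix.map_apply, HJ.QM, Matrix.of_apply, M.hj_coeff0]
      rfl
    rw [Matrix.map_apply, e3]
    exact swap_cc (M.evst_cc (by simp [M.sol0.cc]))
  h1 := by
    rw [← swapS_EU, M.EU_Rb, map_mul, map_add, map_one, swapS_EU]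
  h2 := M.swap_v
  h3 := by
    have h := congrArg swapS M.Th_eq
    rw [map_add, map_one, map_sum] at h
    rw [h]
    refine congrArg₂ (· + ·) rfl ?_
    refine Finset.sum_congr rfl fun j _ => ?_
    rw [map_mul, swap_XVb, map_mul, map_mul, map_cc, map_zero, ← h]
  h4 := fun j => by
    have h := congrArg swapS (M.EU_Jb j)
    rw [map_add, map_mul, map_cc, map_zero, map_mul, map_sum, swapS_EU, swapS_X,
      Finset.mul_sum] at h
    rw [Js, h]
    refine congrArg₂ (· + ·) rfl ?_
    refine Finset.sum_congr rfl fun i _ => ?_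
    rw [map_mul, map_sum, Matrix.map_apply, mul_left_comm, Finset.mul_sum]
    refine congrArg₂ (· * ·) rfl ?_
    refine Finset.sum_congr rfl fun l _ => ?_
    rw [map_mul, swapS_CC, swapS_EU, aK_ks, map_mul, Js, mul_assoc]
  h5 := fun i j => by
    rw [Matrix.map_apply, ← swapS_EU, M.EU_Qb, map_mul, map_alph, map_zero, swapS_EU]
  Qs := by
    ext1 i j
    have h := congrFun (congrFun M.Qb_symm i) j
    rw [Matrix.transpose_apply] at h
    rw [Matrix.transpose_apply, Matrix.map_apply, Matrix.map_apply, h]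
  hN := M.swap_hN
  h6 := M.swap_h6
  h7 := by
    have h := congrArg swapS M.EU_Phi
    rw [map_mul, map_pow, swapS_EU, swapS_EU, map_pow] at h
    exact h

end Model

end MP4a
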