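import Pool.Agent.Lib.MP_4a2528_ag.Der

/-!
The polynomials `aa`, `cc` in `(u,R)`: coefficients in `T` of `exp(uT) I0(R T^2)`, `exp(uT) I1(R T^2)`.
-/

namespace MP4a

open PowerSeries

variable {A : Type*} [CommRing A] [Algebra ℚ A]

/-- `exp(u T)` -/
noncomputable def Es (u : A) : A⟦X⟧ := rescale u (exp A)

/-- `∑ R^m T^(2m) / m!^2` -/
noncomputable def I0 (R : A) : A⟦X⟧ := PowerSeries.mk fun j =>
  if Even j then algebraMap ℚ A (1 / ((j / 2).factorial ^ 2 : ℚ)) * R ^ (j / 2) else 0

/-- `∑ R^m T^(2m) / (m! (m+1)!)` -/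
noncomputable def I1 (R : A) : A⟦X⟧ := PowerSeries.mk fun j =>
  if Even j then algebraMap ℚ A (1 / ((j / 2).factorial * (j / 2 + 1).factorial : ℚ)) * R ^ (j / 2)
  else 0

/-- `aa k u R j` is the coefficient `a_{j-k}(u,R)` (zero when `j < k`) -/
noncomputable def aa (k : ℕ) (u R : A) (j : ℕ) : A := coeff j (X ^ k * (Es u * I0 R))

/-- `cc k u R j` is the coefficient `c_{j-k}(u,R)` (zero when `j < k`) -/
noncomputable def cc (k : ℕ) (u R : A) (j : ℕ) : A := coeff j (X ^ k * (Es u * I1 R))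

theorem liftD_Es (D : Derivation ℚ A A) (u : A) : liftD D (Es u) = X * C (D u) * Es u := by
  ext n
  rcases n with _ | n
  · simp [Es, coeff_rescale, mul_assoc]
  · rw [mul_assoc, coeff_succ_X_mul, coeff_C_mul]
    simp only [Es, coeff_liftD, coeff_rescale, coeff_exp, Derivation.leibniz, Derivation.leibniz_pow,
      Derivation.map_algebraMap, smul_eq_mul, nsmul_eq_mul, Nat.add_sub_cancel, mul_zero,
      zero_add]
    have h : algebraMap ℚ A (1 / ((n + 1).factorial : ℚ)) * ((n + 1 : ℕ) : A)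
        = algebraMap ℚ A (1 / (n.factorial : ℚ)) := by
      have h2 : ((n + 1 : ℕ) : A) = algebraMap ℚ A ((n + 1 : ℕ) : ℚ) := by simp
      rw [h2, ← map_mul]
      congr 1
      rw [Nat.factorial_succ]
      push_cast
      field_simp
    rw [← h]
    ring

theorem liftD_I0 (D : Derivation ℚ A A) (R : A) :
    liftD D (I0 R) = X ^ 2 * C (D R) * I1 R := by
  ext n
  rw [mul_assoc, coeff_X_pow_mul', coeff_liftD]
  split_ifs with h2
  · rw [coeff_C_mul, I0, I1, coeff_mk, coeff_mk]
    obtain ⟨m, rfl⟩ : ∃ m, n = m + 2 := ⟨n - 2, by omega⟩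
    simp only [Nat.add_sub_cancel, Nat.even_add, even_two, iff_true]
    split_ifs with he
    · obtain ⟨q, rfl⟩ := he
      have e1 : (q + q + 2) / 2 = q + 1 := by omega
      have e2 : (q + q) / 2 = q := by omega
      rw [e1, e2]
      simp only [Derivation.leibniz, Derivation.leibniz_pow,
        Derivation.map_algebraMap, smul_eq_mul, nsmul_eq_mul, Nat.add_sub_cancel,
        mul_zero]
      have h : algebraMap ℚ A (1 / ((q + 1).factorial ^ 2 : ℚ)) * ((q + 1 : ℕ) : A)
          = algebraMap ℚ A (1 / (q.factorial * (q + 1).factorial : ℚ)) := by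
        have h2 : ((q + 1 : ℕ) : A) = algebraMap ℚ A ((q + 1 : ℕ) : ℚ) := by simp
        rw [h2, ← map_mul]
        congr 1
        rw [Nat.factorial_succ]
        push_cast
        field_simp
      rw [← h]
      ring
    · simp
  · interval_cases n
    · simp [I0]
    · simp [I0]

theorem liftD_I1 (D : Derivation ℚ A A) (R : A) :
    liftD D (C R * I1 R) = C (D R) * I0 R := by
  ext n
  rw [coeff_liftD, coeff_C_mul, coeff_C_mul, I0, I1, coeff_mk, coeff_mk]
  split_ifs with he
  · obtain ⟨q, rfl⟩ := he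
    have e2 : (q + q) / 2 = q := by omega
    rw [e2]
    simp only [Derivation.leibniz, Derivation.leibniz_pow,
      Derivation.map_algebraMap, smul_eq_mul, nsmul_eq_mul, mul_zero]
    have h : algebraMap ℚ A (1 / (q.factorial * (q + 1).factorial : ℚ)) * ((q + 1 : ℕ) : A)
        = algebraMap ℚ A (1 / (q.factorial ^ 2 : ℚ)) := by
      have h2 : ((q + 1 : ℕ) : A) = algebraMap ℚ A ((q + 1 : ℕ) : ℚ) := by simp
      rw [h2, ← map_mul]
      congr 1
      rw [Nat.factorial_succ]
      push_cast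
      field_simp
    rw [← h]
    rcases q with _ | q
    · simp
    · simp only [Nat.add_sub_cancel]
      push_cast
      ring
  · simp

theorem der_aa (D : Derivation ℚ A A) (k : ℕ) (u R : A) (j : ℕ) :
    D (aa k u R j) = D u * aa (k + 1) u R j + D R * cc (k + 2) u R j := by
  have h : liftD D (X ^ k * (Es u * I0 R))
      = C (D u) * (X ^ (k + 1) * (Es u * I0 R)) + C (D R) * (X ^ (k + 2) * (Es u * I1 R)) := by
    rw [Derivation.leibniz, Derivation.leibniz, Derivation.leibniz_pow, liftD_Es, liftD_I0]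
    simp only [liftD_X, smul_eq_mul, smul_zero, mul_zero, add_zero]
    ring
  have := congrArg (coeff j) h
  rw [coeff_liftD, map_add, coeff_C_mul, coeff_C_mul] at this
  exact this

theorem der_Rcc (D : Derivation ℚ A A) (k : ℕ) (u R : A) (j : ℕ) :
    D (R * cc k u R j) = D u * (R * cc (k + 1) u R j) + D R * aa k u R j := by
  have h : liftD D (X ^ k * (Es u * (C R * I1 R)))
      = C (D u) * (C R * (X ^ (k + 1) * (Es u * I1 R))) + C (D R) * (X ^ k * (Es u * I0 R)) := by
    rw [Derivation.leibniz, Derivation.leibniz, Derivation.leibniz_pow, liftD_Es, liftD_I1]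
    simp only [liftD_X, smul_eq_mul, smul_zero, mul_zero, add_zero]
    ring
  have h2 := congrArg (coeff j) h
  have h3 : X ^ k * (Es u * (C R * I1 R)) = C R * (X ^ k * (Es u * I1 R)) := by ring
  rw [coeff_liftD, map_add, coeff_C_mul, coeff_C_mul, coeff_C_mul, h3, coeff_C_mul] at h2
  exact h2

/-- the second derivatives, coefficient of `dR` -/
noncomputable def alph (u R : A) (i j : ℕ) : A :=
  aa 0 u R i * aa 0 u R j + R * (cc 1 u R i * cc 1 u R j)

/-- the second derivatives, coefficient of `du` -/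
noncomputable def bet (u R : A) (i j : ℕ) : A :=
  R * (cc 1 u R j * aa 0 u R i + aa 0 u R j * cc 1 u R i)

/-- common mixed derivative of `alph` and `bet` -/
noncomputable def gam (u R : A) (i j : ℕ) : A :=
  aa 1 u R i * aa 0 u R j + aa 0 u R i * aa 1 u R j
    + R * (cc 1 u R i * cc 2 u R j + cc 1 u R j * cc 2 u R i)

theorem der_alph (u R : A) (i j : ℕ) :
    ∃ w, ∀ D : Derivation ℚ A A, D (alph u R i j) = D u * gam u R i j + D R * w := by
  refine ⟨cc 2 u R i * aa 0 u R j + aa 0 u R i * cc 2 u R j + cc 1 u R i * aa 1 u R j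
    + cc 1 u R j * aa 1 u R i - cc 1 u R i * cc 1 u R j, fun D => ?_⟩
  have h1 : D (R * (cc 1 u R i * cc 1 u R j)) = cc 1 u R i * D (R * cc 1 u R j)
      + cc 1 u R j * D (R * cc 1 u R i) - cc 1 u R i * cc 1 u R j * D R := by
    simp only [Derivation.leibniz, smul_eq_mul]; ring
  have h2 : D (aa 0 u R i * aa 0 u R j) = aa 0 u R i * D (aa 0 u R j)
      + aa 0 u R j * D (aa 0 u R i) := by rw [Derivation.leibniz]; rfl
  rw [alph, map_add, h1, h2, der_aa, der_aa, der_Rcc, der_Rcc, gam]
  ring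

theorem der_bet (u R : A) (i j : ℕ) :
    ∃ w, ∀ D : Derivation ℚ A A, D (bet u R i j) = D u * w + D R * gam u R i j := by
  refine ⟨R * (cc 2 u R j * aa 0 u R i + cc 1 u R j * aa 1 u R i + cc 2 u R i * aa 0 u R j
    + cc 1 u R i * aa 1 u R j), fun D => ?_⟩
  have h1 : bet u R i j = (R * cc 1 u R j) * aa 0 u R i + aa 0 u R j * (R * cc 1 u R i) := by
    rw [bet]; ring
  have h2 : D ((R * cc 1 u R j) * aa 0 u R i) = (R * cc 1 u R j) * D (aa 0 u R i)
      + aa 0 u R i * D (R * cc 1 u R j) := by rw [Derivation.leibniz]; rfl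
  have h3 : D (aa 0 u R j * (R * cc 1 u R i)) = aa 0 u R j * D (R * cc 1 u R i)
      + (R * cc 1 u R i) * D (aa 0 u R j) := by rw [Derivation.leibniz]; rfl
  rw [h1, map_add, h2, h3, der_aa, der_aa, der_Rcc, der_Rcc, gam]
  ring

theorem aa_succ_succ (k : ℕ) (u R : A) (j : ℕ) : aa (k + 1) u R (j + 1) = aa k u R j := by
  rw [aa, aa, pow_succ', mul_assoc, coeff_succ_X_mul]

theorem cc_succ_succ (k : ℕ) (u R : A) (j : ℕ) : cc (k + 1) u R (j + 1) = cc k u R j := by
  rw [cc, cc, pow_succ', mul_assoc, coeff_succ_X_mul]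

theorem aa_succ_zero (k : ℕ) (u R : A) : aa (k + 1) u R 0 = 0 := by
  rw [aa, pow_succ', mul_assoc, coeff_zero_X_mul]

theorem cc_succ_zero (k : ℕ) (u R : A) : cc (k + 1) u R 0 = 0 := by
  rw [cc, pow_succ', mul_assoc, coeff_zero_X_mul]

theorem aa_zero_zero (u R : A) : aa 0 u R 0 = 1 := by
  simp [aa, Es, I0, coeff_mul, coeff_rescale]

theorem cc_zero_zero (u R : A) : cc 0 u R 0 = 1 := by
  simp [cc, Es, I1, coeff_mul, coeff_rescale]

theorem aa_at_zero (u : A) (j : ℕ) : aa 0 u 0 j = algebraMap ℚ A (1 / (j.factorial : ℚ)) * u ^ j := by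
  have h : I0 (0 : A) = 1 := by
    ext n
    rw [I0, coeff_mk, coeff_one]
    rcases Nat.lt_or_ge n 2 with hn | hn
    · interval_cases n <;> simp
    · rw [zero_pow (by omega), mul_zero, if_neg (show n ≠ 0 by omega)]; simp
  rw [aa, h]
  simp [Es, coeff_rescale, mul_comm]

theorem aa_u_zero (R : A) (j : ℕ) : aa 0 0 R j =
    if Even j then algebraMap ℚ A (1 / ((j / 2).factorial ^ 2 : ℚ)) * R ^ (j / 2) else 0 := by
  simp [aa, Es, I0]

theorem cc_u_zero (R : A) (j : ℕ) : cc 0 0 R j =
    if Even j then algebraMap ℚ A (1 / ((j / 2).factorial * (j / 2 + 1).factorial : ℚ)) * R ^ (j / 2)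
    else 0 := by
  simp [cc, Es, I1]

section maps
variable {A' : Type*} [CommRing A'] [Algebra ℚ A'] (g : A →+* A')

theorem map_aa (k : ℕ) (u R : A) (j : ℕ) : g (aa k u R j) = aa k (g u) (g R) j := by
  have h1 : PowerSeries.map g (Es u) = Es (g u) := by
    ext n; simp [Es, coeff_rescale]
  have h2 : PowerSeries.map g (I0 R) = I0 (g R) := by
    ext n; simp only [I0, coeff_map, coeff_mk]; split_ifs <;> simp
  have : PowerSeries.map g (X ^ k * (Es u * I0 R)) = X ^ k * (Es (g u) * I0 (g R)) := by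
    simp [h1, h2]
  rw [aa, aa, ← this, coeff_map]

theorem map_cc (k : ℕ) (u R : A) (j : ℕ) : g (cc k u R j) = cc k (g u) (g R) j := by
  have h1 : PowerSeries.map g (Es u) = Es (g u) := by
    ext n; simp [Es, coeff_rescale]
  have h2 : PowerSeries.map g (I1 R) = I1 (g R) := by
    ext n; simp only [I1, coeff_map, coeff_mk]; split_ifs <;> simp
  have : PowerSeries.map g (X ^ k * (Es u * I1 R)) = X ^ k * (Es (g u) * I1 (g R)) := by
    simp [h1, h2]
  rw [cc, cc, ← this, coeff_map]

theorem map_alph (u R : A) (i j : ℕ) : g (alph u R i j) = alph (g u) (g R) i j := by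
  simp only [alph, map_add, map_mul, map_aa, map_cc]

theorem map_bet (u R : A) (i j : ℕ) : g (bet u R i j) = bet (g u) (g R) i j := by
  simp only [bet, map_add, map_mul, map_aa, map_cc]

end maps

end MP4a
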