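import Pool.Agent.Lib.MP_4a2528_ag.Flow

/-!
Taylor shift operators `exp(k h D)` on `A[[h]]`.
-/

set_option linter.unusedSectionVars false

namespace MP4a

open PowerSeries Finset

section ext
variable {A : Type*} [CommRing A]

/-- extension of a ring homomorphism `A → A[[h]]` to `A[[h]]`, `h`-linearly -/
noncomputable def extT (T : A →+* A⟦X⟧) : A⟦X⟧ →+* A⟦X⟧ where
  toFun f := PowerSeries.mk fun m => ∑ p ∈ HasAntidiagonal.antidiagonal m, coeff p.1 (T (coeff p.2 f))
  map_zero' := by ext m; simp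
  map_one' := by
    ext m
    rw [coeff_mk, Finset.sum_eq_single (m, 0)]
    · simp
    · rintro ⟨i, j⟩ hp hne
      rw [HasAntidiagonal.mem_antidiagonal] at hp
      have hj : j ≠ 0 := by
        rintro rfl; exact hne (by simp at hp; simp [hp])
      simp [coeff_one, hj]
    · intro h; exact absurd (by simp) h
  map_add' f g := by
    ext m; simp [Finset.sum_add_distrib]
  map_mul' f g := by
    ext m
    simp only [coeff_mk, coeff_mul, map_sum, map_mul]
    have lhs : ∑ p ∈ HasAntidiagonal.antidiagonal m, ∑ q ∈ HasAntidiagonal.antidiagonal p.2,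
        ∑ u ∈ HasAntidiagonal.antidiagonal p.1, coeff u.1 (T (coeff q.1 f))
          * coeff u.2 (T (coeff q.2 g))
        = ∑ x ∈ (HasAntidiagonal.antidiagonal m).sigma (fun p : ℕ × ℕ =>
          HasAntidiagonal.antidiagonal p.2 ×ˢ HasAntidiagonal.antidiagonal p.1),
          coeff x.2.2.1 (T (coeff x.2.1.1 f)) * coeff x.2.2.2 (T (coeff x.2.1.2 g)) := by
      rw [Finset.sum_sigma]
      refine sum_congr rfl fun p _ => ?_
      rw [sum_product]
    have rhs : ∑ p ∈ HasAntidiagonal.antidiagonal m,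
        (∑ q ∈ HasAntidiagonal.antidiagonal p.1, coeff q.1 (T (coeff q.2 f)))
          * ∑ u ∈ HasAntidiagonal.antidiagonal p.2, coeff u.1 (T (coeff u.2 g))
        = ∑ x ∈ (HasAntidiagonal.antidiagonal m).sigma (fun p : ℕ × ℕ =>
          HasAntidiagonal.antidiagonal p.1 ×ˢ HasAntidiagonal.antidiagonal p.2),
          coeff x.2.1.1 (T (coeff x.2.1.2 f)) * coeff x.2.2.1 (T (coeff x.2.2.2 g)) := by
      rw [Finset.sum_sigma]
      refine sum_congr rfl fun p _ => ?_
      rw [sum_product, Finset.sum_mul_sum]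
    rw [lhs, rhs]
    refine sum_bij' (fun x _ => ⟨(x.2.2.1 + x.2.1.1, x.2.2.2 + x.2.1.2),
        ((x.2.2.1, x.2.1.1), (x.2.2.2, x.2.1.2))⟩)
      (fun x _ => ⟨(x.2.1.1 + x.2.2.1, x.2.1.2 + x.2.2.2),
        ((x.2.1.2, x.2.2.2), (x.2.1.1, x.2.2.1))⟩) ?_ ?_ ?_ ?_ ?_
    · rintro ⟨⟨i, j⟩, ⟨a, b⟩, ⟨c, d⟩⟩ h
      simp only [mem_sigma, mem_product, HasAntidiagonal.mem_antidiagonal] at h ⊢
      obtain ⟨h1, h2, h3⟩ := h
      exact ⟨by omega, trivial, trivial⟩
    · rintro ⟨⟨i, j⟩, ⟨a, b⟩, ⟨c, d⟩⟩ h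
      simp only [mem_sigma, mem_product, HasAntidiagonal.mem_antidiagonal] at h ⊢
      obtain ⟨h1, h2, h3⟩ := h
      exact ⟨by omega, trivial, trivial⟩
    · rintro ⟨⟨i, j⟩, ⟨a, b⟩, ⟨c, d⟩⟩ h
      simp only [mem_sigma, mem_product, HasAntidiagonal.mem_antidiagonal] at h ⊢
      obtain ⟨h1, h2, h3⟩ := h
      subst h2 h3
      rfl
    · rintro ⟨⟨i, j⟩, ⟨a, b⟩, ⟨c, d⟩⟩ h
      simp only [mem_sigma, mem_product, HasAntidiagonal.mem_antidiagonal] at h ⊢
      obtain ⟨h1, h2, h3⟩ := h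
      subst h2 h3
      rfl
    · rintro ⟨⟨i, j⟩, ⟨a, b⟩, ⟨c, d⟩⟩ h
      rfl

theorem coeff_extT (T : A →+* A⟦X⟧) (f : A⟦X⟧) (m : ℕ) : coeff m (extT T f)
    = ∑ p ∈ HasAntidiagonal.antidiagonal m, coeff p.1 (T (coeff p.2 f)) := by
  simp [extT]

theorem extT_C (T : A →+* A⟦X⟧) (a : A) : extT T (C a) = T a := by
  ext m
  rw [coeff_extT, Finset.sum_eq_single (m, 0)]
  · simp
  · rintro ⟨i, j⟩ hp hne
    rw [HasAntidiagonal.mem_antidiagonal] at hp
    have hj : j ≠ 0 := by
      rintro rfl; exact hne (by simp at hp; simp [hp])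
    simp [coeff_C, hj]
  · intro h; exact absurd (by simp) h

end ext

section shift
variable {A : Type*} [CommRing A] [Algebra ℚ A] (D : Derivation ℚ A A)

/-- flow of `k D` -/
noncomputable def shF (k : ℤ) : Flow 1 A := ⟨fun _ => D, fun _ _ _ => rfl, fun _ => (k : A⟦X⟧)⟩

/-- `a ↦ exp(k h D) a` -/
noncomputable def Tk (k : ℤ) : A →+* A⟦X⟧ := (shF D k).star

theorem dX_Tk (k : ℤ) (a : A) : dX (Tk D k a) = (k : A⟦X⟧) * liftD D (Tk D k a) := by
  have h := (shF D k).TT_star a
  rw [Flow.TT_apply, sub_eq_zero] at h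
  rw [Tk, h]
  simp [shF, Flow.L]

theorem coeff_zero_Tk (k : ℤ) (a : A) : coeff 0 (Tk D k a) = a := (shF D k).coeff_zero_star a

theorem Tk_eq {k : ℤ} {a : A} {Y : A⟦X⟧} (h : dX Y = (k : A⟦X⟧) * liftD D Y)
    (h0 : coeff 0 Y = a) : Tk D k a = Y := by
  refine (shF D k).star_eq ?_ h0
  rw [Flow.TT_apply, h]
  simp [shF, Flow.L]

/-- coefficients of the shift -/
theorem coeff_Tk (k : ℤ) (a : A) (i : ℕ) : coeff i (Tk D k a)
    = algebraMap ℚ A ((k : ℚ) ^ i / i.factorial) * D^[i] a := by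
  induction i with
  | zero => rw [coeff_zero_Tk]; simp
  | succ i ih =>
    have h := congrArg (coeff i) (dX_Tk D k a)
    have hk : (k : A⟦X⟧) = C (k : A) := by simp
    rw [coeff_dX, hk, coeff_C_mul, coeff_liftD, ih, Derivation.leibniz, Derivation.map_algebraMap,
      smul_zero, add_zero, smul_eq_mul] at h
    have h1 : ((i + 1 : ℕ) : A) * (coeff (i + 1) (Tk D k a)
        - algebraMap ℚ A ((k : ℚ) ^ (i + 1) / (i + 1).factorial) * D^[i + 1] a) = 0 := by
      have e : ((i + 1 : ℕ) : A) * algebraMap ℚ A ((k : ℚ) ^ (i + 1) / (i + 1).factorial)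
          = (k : A) * algebraMap ℚ A ((k : ℚ) ^ i / i.factorial) := by
        have h2 : ((i + 1 : ℕ) : A) = algebraMap ℚ A ((i + 1 : ℕ) : ℚ) := by simp
        have h3 : (k : A) = algebraMap ℚ A (k : ℚ) := by simp
        rw [h2, h3, ← map_mul, ← map_mul]
        congr 1
        rw [Nat.factorial_succ, pow_succ]
        push_cast
        field_simp
      rw [mul_sub, ← mul_assoc, e, Function.iterate_succ_apply']
      push_cast
      linear_combination h
    exact sub_eq_zero.1 (natCast_mul_eq_zero (by omega) h1)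

/-- shifts commute with derivations commuting with `D` -/
theorem liftD_Tk (E : Derivation ℚ A A) (hE : ∀ a, D (E a) = E (D a)) (k : ℤ) (a : A) :
    liftD E (Tk D k a) = Tk D k (E a) := by
  refine (Tk_eq D ?_ ?_).symm
  · rw [dX_liftD, dX_Tk, Derivation.leibniz, liftD_comm hE, Derivation.map_intCast]
    simp
  · rw [coeff_liftD, coeff_zero_Tk]

/-- shift on `A[[h]]` -/
noncomputable def Ek (k : ℤ) : A⟦X⟧ →+* A⟦X⟧ := extT (Tk D k)

theorem Ek_C (k : ℤ) (a : A) : Ek D k (C a) = Tk D k a := extT_C _ _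

theorem dX_Ek (k : ℤ) (f : A⟦X⟧) :
    dX (Ek D k f) = (k : A⟦X⟧) * liftD D (Ek D k f) + Ek D k (dX f) := by
  ext m
  have hk : (k : A⟦X⟧) = C (k : A) := by simp
  rw [coeff_dX, map_add, hk, coeff_C_mul, coeff_liftD, Ek, coeff_extT, coeff_extT, coeff_extT,
    map_sum]
  have e1 : (∑ p ∈ HasAntidiagonal.antidiagonal (m + 1), coeff p.1 (Tk D k (coeff p.2 f)))
        * ((m : A) + 1)
      = ∑ p ∈ HasAntidiagonal.antidiagonal (m + 1), (p.1 : A) * coeff p.1 (Tk D k (coeff p.2 f))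
        + ∑ p ∈ HasAntidiagonal.antidiagonal (m + 1), (p.2 : A) * coeff p.1 (Tk D k (coeff p.2 f)) := by
    rw [← sum_add_distrib, sum_mul]
    refine sum_congr rfl fun p hp => ?_
    rw [HasAntidiagonal.mem_antidiagonal] at hp
    have : ((m : A) + 1) = (p.1 : A) + p.2 := by
      rw [← Nat.cast_add, hp]; push_cast; ring
    rw [this]; ring
  rw [e1, Finset.Nat.sum_antidiagonal_succ, Finset.Nat.sum_antidiagonal_succ']
  simp only [Nat.cast_zero, zero_mul, zero_add]
  congr 1
  · rw [mul_sum]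
    refine sum_congr rfl fun p _ => ?_
    have h := congrArg (coeff p.1) (dX_Tk D k (coeff p.2 f))
    rw [coeff_dX, hk, coeff_C_mul, coeff_liftD] at h
    rw [← h]; push_cast; ring
  · refine sum_congr rfl fun p _ => ?_
    rw [coeff_dX, map_mul]
    have : Tk D k ((p.2 : A) + 1) = C ((p.2 : A) + 1) := by
      rw [map_add, map_natCast, map_one]; simp
    rw [this, coeff_mul_C]; push_cast; ring

theorem Ek_Tk (k l : ℤ) (a : A) : Ek D k (Tk D l a) = Tk D (k + l) a := by
  refine (Tk_eq D ?_ ?_).symm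
  · rw [dX_Ek, dX_Tk, map_mul, map_intCast]
    have : Ek D k (liftD D (Tk D l a)) = liftD D (Ek D k (Tk D l a)) := by
      ext m
      rw [Ek, coeff_extT, coeff_liftD, coeff_extT, map_sum]
      refine sum_congr rfl fun p _ => ?_
      rw [coeff_liftD, ← liftD_Tk D D (fun _ => rfl), coeff_liftD]
    rw [this]; push_cast; ring
  · rw [Ek, coeff_extT]
    simp [coeff_zero_Tk]

theorem liftD_Ek (E : Derivation ℚ A A) (hE : ∀ a, D (E a) = E (D a)) (k : ℤ) (f : A⟦X⟧) :
    liftD E (Ek D k f) = Ek D k (liftD E f) := by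
  ext m
  rw [Ek, coeff_liftD, coeff_extT, coeff_extT, map_sum]
  refine sum_congr rfl fun p _ => ?_
  rw [coeff_liftD, ← liftD_Tk D E hE, coeff_liftD]

/-- the substitution `H = h^2` -/
noncomputable def phi : A⟦X⟧ →+* A⟦X⟧ := (PowerSeries.expand (R := A) 2 two_ne_zero).toRingHom

theorem coeff_phi_even (f : A⟦X⟧) (m : ℕ) : coeff (2 * m) (phi f) = coeff m f := by
  exact PowerSeries.coeff_expand_mul _ _ _ _

theorem coeff_phi_odd (f : A⟦X⟧) (m : ℕ) (h : ¬ 2 ∣ m) : coeff m (phi f) = 0 := by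
  exact PowerSeries.coeff_expand_of_not_dvd _ _ _ h

/-- the second difference operator divided by `h^2` -/
noncomputable def Del (f : A⟦X⟧) : A⟦X⟧ := PowerSeries.mk fun m =>
  ∑ p ∈ HasAntidiagonal.antidiagonal m,
    algebraMap ℚ A (2 / ((2 * p.1 + 2).factorial : ℚ)) * D^[2 * p.1 + 2] (coeff p.2 f)

theorem Del_zero (f : A⟦X⟧) : coeff 0 (Del D f) = D (D (coeff 0 f)) := by
  simp [Del]

theorem Del_one (f : A⟦X⟧) : coeff 1 (Del D f) = D (D (coeff 1 f))
    + algebraMap ℚ A (1 / 12) * D (D (D (D (coeff 0 f)))) := by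
  rw [Del, coeff_mk, Finset.Nat.antidiagonal_succ]
  simp only [Finset.Nat.antidiagonal_zero, Finset.map_singleton, Finset.sum_cons,
    Finset.sum_singleton, Function.Embedding.prodMap, Function.Embedding.coeFn_mk, Prod.map,
    Nat.succ_eq_add_one, Function.Embedding.refl_apply]
  norm_num [Nat.factorial]

/-- sums over even antidiagonals -/
theorem sum_even_antidiagonal (m : ℕ) (g : ℕ × ℕ → A)
    (hg : ∀ p ∈ HasAntidiagonal.antidiagonal (2 * m), ¬ 2 ∣ p.1 → g p = 0) :
    ∑ p ∈ HasAntidiagonal.antidiagonal (2 * m), g p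
      = ∑ p ∈ HasAntidiagonal.antidiagonal m, g (2 * p.1, 2 * p.2) := by
  symm
  refine Finset.sum_of_injOn (fun p => (2 * p.1, 2 * p.2)) ?_ ?_ ?_ ?_
  · rintro ⟨a, b⟩ _ ⟨c, d⟩ _ h
    simp only [Prod.mk.injEq] at h
    ext <;> simp <;> omega
  · rintro ⟨a, b⟩ h
    simp only [mem_coe, HasAntidiagonal.mem_antidiagonal] at h ⊢
    omega
  · rintro ⟨a, b⟩ hp hn
    refine hg _ hp fun hd => hn ?_
    rw [HasAntidiagonal.mem_antidiagonal] at hp
    simp only at hp hd
    refine ⟨(a / 2, b / 2), ?_, ?_⟩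
    · simp only [mem_coe, HasAntidiagonal.mem_antidiagonal]; omega
    · simp only [Prod.mk.injEq]; omega
  · intro p _; rfl

/-- (d): second difference -/
theorem second_diff (f : A⟦X⟧) :
    Ek D 1 (phi f) + Ek D (-1) (phi f) - 2 * phi f = X ^ 2 * phi (Del D f) := by
  ext m
  have h2 : coeff m (2 * phi f) = 2 * coeff m (phi f) := by
    have : (2 : A⟦X⟧) = C (2 : A) := (map_ofNat (C (R := A)) 2).symm
    rw [this, coeff_C_mul]
  rw [map_sub, map_add, h2, Ek, Ek, coeff_extT, coeff_extT, ← sum_add_distrib]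
  have e1 : ∀ p : ℕ × ℕ, coeff p.1 (Tk D 1 (coeff p.2 (phi f)))
      + coeff p.1 (Tk D (-1) (coeff p.2 (phi f)))
      = algebraMap ℚ A ((1 + (-1) ^ p.1) / p.1.factorial) * D^[p.1] (coeff p.2 (phi f)) := by
    intro p
    rw [coeff_Tk, coeff_Tk, ← add_mul, ← map_add]
    congr 2
    push_cast
    ring
  rw [sum_congr rfl fun p _ => e1 p]
  have hD0 : ∀ i, D^[i] (0 : A) = 0 := by
    intro i
    induction i with
    | zero => rfl
    | succ i ih => rw [Function.iterate_succ_apply', ih, map_zero]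
  rcases Nat.even_or_odd' m with ⟨M, hM | hM⟩
  · subst hM
    rw [sum_even_antidiagonal]
    · simp only [coeff_phi_even]
      have e2 : ∀ i : ℕ, (1 + (-1) ^ (2 * i)) / ((2 * i).factorial : ℚ)
          = 2 / ((2 * i).factorial : ℚ) := by
        intro i
        rw [pow_mul]; norm_num
      rcases M with _ | M
      · rw [coeff_X_pow_mul', if_neg (by norm_num)]
        simp
        norm_num
      · rw [Finset.Nat.sum_antidiagonal_succ, coeff_X_pow_mul', if_pos (by omega),
          show 2 * (M + 1) - 2 = 2 * M by omega, coeff_phi_even, Del, coeff_mk]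
        have e3 : algebraMap ℚ A ((1 + (-1) ^ (2 * 0)) / ((2 * 0).factorial : ℚ))
            * D^[2 * 0] (coeff (M + 1) f) = 2 * coeff (M + 1) f := by
          norm_num
          rw [map_ofNat]
        rw [e3, add_sub_cancel_left]
        refine sum_congr rfl fun p _ => ?_
        rw [e2]
        rfl
    · rintro ⟨a, b⟩ _ hd
      have ho : Odd a := by
        rw [← Nat.not_even_iff_odd]; exact fun h => hd h.two_dvd
      simp [ho.neg_one_pow]
  · subst hM
    rw [coeff_X_pow_mul']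
    rw [coeff_phi_odd f _ (by omega), mul_zero, sub_zero]
    have z : ∑ p ∈ HasAntidiagonal.antidiagonal (2 * M + 1),
        algebraMap ℚ A ((1 + (-1) ^ p.1) / p.1.factorial) * D^[p.1] (coeff p.2 (phi f)) = 0 := by
      refine sum_eq_zero fun p hp => ?_
      rw [HasAntidiagonal.mem_antidiagonal] at hp
      rcases Nat.even_or_odd p.1 with he | ho
      · rw [coeff_phi_odd f p.2 (by have := he.two_dvd; omega), hD0, mul_zero]
      · simp [ho.neg_one_pow]
    rw [z]
    split_ifs with h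
    · rw [coeff_phi_odd _ _ (by omega)]
    · rfl

theorem Del_add (f g : A⟦X⟧) : Del D (f + g) = Del D f + Del D g := by
  ext m
  simp only [Del, coeff_mk, map_add, ← sum_add_distrib]
  refine sum_congr rfl fun p _ => ?_
  have : ∀ i, ∀ a b : A, D^[i] (a + b) = D^[i] a + D^[i] b := by
    intro i
    induction i with
    | zero => intro a b; rfl
    | succ i ih => intro a b; rw [Function.iterate_succ_apply', Function.iterate_succ_apply',
        Function.iterate_succ_apply', ih, map_add]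
  rw [this]; ring

end shift

end MP4a
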