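import Pool.Agent.Lib.MP_4a2528_ag.Couple
import Pool.Agent.Lib.MP_4a2528_ag.Link

/-!
Extraction of the genus zero and genus one parts.
-/

set_option linter.unusedSectionVars false

namespace MP4a

open PowerSeries Finset

section split
variable {A : Type*} [CommRing A] [Algebra ℚ A]

theorem coeff_one_mul_ps (a b : A⟦X⟧) : coeff 1 (a * b) = coeff 0 a * coeff 1 b
    + coeff 1 a * coeff 0 b := by
  rw [coeff_mul, Finset.Nat.antidiagonal_succ]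
  simp only [Finset.Nat.antidiagonal_zero, Finset.map_singleton, Finset.sum_cons,
    Finset.sum_singleton, Function.Embedding.prodMap, Function.Embedding.coeFn_mk, Prod.map,
    Nat.succ_eq_add_one, Function.Embedding.refl_apply, zero_add]

/-- the coefficient of `H^0` -/
noncomputable def h0 : A⟦X⟧⟦X⟧ →+* A⟦X⟧ := PowerSeries.map (constantCoeff (R := A))

/-- the coefficient of `H^1` -/
noncomputable def h1 : A⟦X⟧⟦X⟧ →+ A⟦X⟧ where
  toFun f := PowerSeries.mk fun m => coeff 1 (coeff m f)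
  map_zero' := by ext m; simp
  map_add' f g := by ext m; simp

theorem coeff_h0 (f : A⟦X⟧⟦X⟧) (m : ℕ) : coeff m (h0 f) = coeff 0 (coeff m f) := by
  rw [h0, coeff_map, coeff_zero_eq_constantCoeff_apply]

theorem coeff_h1 (f : A⟦X⟧⟦X⟧) (m : ℕ) : coeff m (h1 f) = coeff 1 (coeff m f) := by
  simp [h1]

theorem h1_mul (f g : A⟦X⟧⟦X⟧) : h1 (f * g) = h0 f * h1 g + h1 f * h0 g := by
  ext m
  rw [coeff_h1, map_add, coeff_mul, coeff_mul, coeff_mul, map_sum, ← sum_add_distrib]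
  refine sum_congr rfl fun p _ => ?_
  rw [coeff_one_mul_ps, coeff_h0, coeff_h1, coeff_h0, coeff_h1]

/-- the coefficient of `H^0` -/
noncomputable def H0 : A⟦X⟧⟦X⟧⟦X⟧ →+* A⟦X⟧⟦X⟧ := PowerSeries.map h0

/-- the coefficient of `H^1` -/
noncomputable def H1 : A⟦X⟧⟦X⟧⟦X⟧ →+ A⟦X⟧⟦X⟧ where
  toFun f := PowerSeries.mk fun p => h1 (coeff p f)
  map_zero' := by ext m; simp
  map_add' f g := by ext m; simp

theorem coeff_H0 (f : A⟦X⟧⟦X⟧⟦X⟧) (m : ℕ) : coeff m (H0 f) = h0 (coeff m f) := by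
  rw [H0, coeff_map]

theorem coeff_H1 (f : A⟦X⟧⟦X⟧⟦X⟧) (m : ℕ) : coeff m (H1 f) = h1 (coeff m f) := by
  simp [H1]

theorem H1_mul (f g : A⟦X⟧⟦X⟧⟦X⟧) : H1 (f * g) = H0 f * H1 g + H1 f * H0 g := by
  ext1 m
  rw [coeff_H1, map_add, coeff_mul, coeff_mul, coeff_mul, map_sum, ← sum_add_distrib]
  refine sum_congr rfl fun p _ => ?_
  rw [h1_mul, coeff_H0, coeff_H1, coeff_H0, coeff_H1]

theorem H0_CC (a : A⟦X⟧) : H0 (C (C a)) = C (C (coeff 0 a)) := by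
  rw [H0, map_C, h0, map_C, coeff_zero_eq_constantCoeff_apply]

theorem H1_CC (a : A⟦X⟧) : H1 (C (C a)) = C (C (coeff 1 a)) := by
  ext p m
  rw [coeff_H1, coeff_h1, coeff_C, coeff_C]
  split_ifs with h
  · rw [coeff_C, coeff_C]
    split_ifs
    · rfl
    · rw [map_zero]
  · rw [map_zero, map_zero, map_zero]

theorem h0_dX_aux (f : A⟦X⟧⟦X⟧) (m : ℕ) : h0 (f * ((m : A⟦X⟧⟦X⟧) + 1)) = h0 f * ((m : A⟦X⟧) + 1) := by
  rw [map_mul, map_add, map_natCast, map_one]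

theorem h1_dX_aux (f : A⟦X⟧⟦X⟧) (m : ℕ) : h1 (f * ((m : A⟦X⟧⟦X⟧) + 1)) = h1 f * ((m : A⟦X⟧) + 1) := by
  have h : h1 ((m : A⟦X⟧⟦X⟧) + 1) = 0 := by
    ext b
    have e : ((m : A⟦X⟧⟦X⟧) + 1) = C (C ((m : A) + 1)) := by simp
    rw [coeff_h1, e, coeff_C]
    split_ifs
    · rw [coeff_C, if_neg one_ne_zero, map_zero]
    · rw [map_zero, map_zero]
  rw [h1_mul, h, mul_zero, zero_add, map_add, map_natCast, map_one]

theorem H0_dX (f : A⟦X⟧⟦X⟧⟦X⟧) : H0 (dX f) = dX (H0 f) := map_dX _ _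

theorem H1_dX (f : A⟦X⟧⟦X⟧⟦X⟧) : H1 (dX f) = dX (H1 f) := by
  ext1 p
  rw [coeff_H1, coeff_dX, coeff_dX, h1_dX_aux, coeff_H1]

theorem H1_rat (q : ℚ) : H1 (algebraMap ℚ A⟦X⟧⟦X⟧⟦X⟧ q) = 0 := by
  rw [PowerSeries.algebraMap_apply, PowerSeries.algebraMap_apply, H1_CC,
    PowerSeries.algebraMap_apply, coeff_C, if_neg one_ne_zero, map_zero, map_zero]

theorem H0_rat (q : ℚ) : H0 (algebraMap ℚ A⟦X⟧⟦X⟧⟦X⟧ q) = algebraMap ℚ _ q := by
  rw [RingHom.map_rat_algebraMap]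

end split

namespace Pot

variable {n : ℕ} {A : Type*} [CommRing A] [Algebra ℚ A] (P : Pot n A) (k : ℕ → A)

theorem h0_D2 (j : Fin n) (f : A⟦X⟧⟦X⟧) : h0 (P.D2 j f) = P.Dr j (h0 f) := by
  ext m
  rw [coeff_h0, D2, coeff_liftD, D1, coeff_liftD, Dr, coeff_liftD, coeff_h0]

theorem h1_D2 (j : Fin n) (f : A⟦X⟧⟦X⟧) : h1 (P.D2 j f) = P.Dr j (h1 f) := by
  ext m
  rw [coeff_h1, D2, coeff_liftD, D1, coeff_liftD, Dr, coeff_liftD, coeff_h1]

theorem H0_D3 (j : Fin n) (f : A⟦X⟧⟦X⟧⟦X⟧) : H0 (P.D3 j f) = liftD (P.Dr j) (H0 f) := by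
  ext1 m
  rw [coeff_H0, D3, coeff_liftD, h0_D2, coeff_liftD, coeff_H0]

theorem H1_D3 (j : Fin n) (f : A⟦X⟧⟦X⟧⟦X⟧) : H1 (P.D3 j f) = liftD (P.Dr j) (H1 f) := by
  ext1 m
  rw [coeff_H1, D3, coeff_liftD, h1_D2, coeff_liftD, coeff_H1]

theorem coeff_zero_AH (j l : ℕ) : coeff 0 (AH k j l) = aK k j l := by
  rw [AH, coeff_mk, aK]
  simp

theorem coeff_one_AH (j l : ℕ) : coeff 1 (AH k j l) = bK k j l := by
  rw [AH, coeff_mk, bK]
  norm_num [Nat.factorial]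

theorem FH_sol0 : P.Sol0 (h0 P.FH) where
  c0 := by rw [coeff_h0, FH_zero, map_zero]
  c1 := by rw [coeff_h0, FH_one]; simp
  eq := by
    have h := congrArg h0 P.FH_eq
    rw [h0, map_eu, map_eu, map_eu, map_mul, map_eu, map_eu, map_add, map_one] at h
    rw [h0, h]
    refine congrArg₂ (· * ·) rfl (congrArg₂ (· + ·) rfl ?_)
    ext m
    rw [coeff_map, coeff_mk, ← coeff_zero_eq_constantCoeff_apply, Del_zero, Dx, coeff_liftD,
      coeff_liftD, ← map_eu, coeff_map, coeff_zero_eq_constantCoeff_apply]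

theorem h1_eu (f : A⟦X⟧⟦X⟧) : h1 (eu f) = eu (h1 f) := by
  ext m
  rw [coeff_h1, coeff_eu, coeff_eu, coeff_h1]
  have : ((m : ℕ) : A⟦X⟧) = C (m : A) := by simp
  rw [this, coeff_C_mul]

theorem h0_eu (f : A⟦X⟧⟦X⟧) : h0 (eu f) = eu (h0 f) := map_eu _ _

theorem FH_sol1 : Pot.Sol1 P (h0 P.FH) (h1 P.FH) where
  c0 := by rw [coeff_h1, FH_zero, map_zero]
  c1 := by rw [coeff_h1, FH_one, coeff_C, if_neg one_ne_zero]
  eq := by
    have h := congrArg h1 P.FH_eq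
    have e1 : h1 (1 : A⟦X⟧⟦X⟧) = 0 := by
      ext m
      rw [coeff_h1, coeff_one]
      split_ifs
      · rw [coeff_one, if_neg one_ne_zero, map_zero]
      · rw [map_zero, map_zero]
    have e2 : h0 (PowerSeries.mk fun m => Del P.dx (coeff m (eu P.FH)))
        = P.Dx (P.Dx (eu (h0 P.FH))) := by
      ext m
      rw [coeff_h0, coeff_mk, Del_zero, Dx, coeff_liftD, coeff_liftD, ← h0_eu, coeff_h0]
    have e3 : h1 (PowerSeries.mk fun m => Del P.dx (coeff m (eu P.FH)))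
        = P.Dx (P.Dx (eu (h1 P.FH)))
          + algebraMap ℚ _ (1 / 12) * P.Dx (P.Dx (P.Dx (P.Dx (eu (h0 P.FH))))) := by
      ext m
      rw [coeff_h1, coeff_mk, Del_one, map_add, Dx, coeff_liftD, coeff_liftD, ← h1_eu, coeff_h1,
        PowerSeries.algebraMap_apply, coeff_C_mul, coeff_liftD, coeff_liftD, coeff_liftD,
        coeff_liftD, ← h0_eu, coeff_h0]
    rw [h1_eu, h1_eu, h1_eu, h1_mul, h1_eu, h1_eu, h0_eu, h0_eu, map_add, map_add, map_one h0, e1,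
      e2, e3] at h
    rw [h]
    ring

/-- genus zero part of the coupled expansion -/
noncomputable def W0 : A⟦X⟧⟦X⟧ := H0 (P.WH k)
/-- genus one part of the coupled expansion -/
noncomputable def W1 : A⟦X⟧⟦X⟧ := H1 (P.WH k)

theorem W0_zero : coeff 0 (P.W0 k) = h0 P.FH := by
  rw [W0, coeff_H0, WH_zero]

theorem W1_zero : coeff 0 (P.W1 k) = h1 P.FH := by
  rw [W1, coeff_H1, WH_zero]

theorem W0_eq : dX (P.W0 k) = ∑ j : Fin n, C (C (k j)) * liftD (P.Dr j) (P.W0 k)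
    + algebraMap ℚ _ (1 / 2) * ∑ j : Fin n, ∑ l : Fin n, C (C (aK k j l))
      * (liftD (P.Dr j) (P.W0 k) * liftD (P.Dr l) (P.W0 k)) := by
  rw [W0, ← H0_dX, WH_eq, gR, map_add, map_mul, map_sum, map_sum, H0_rat]
  refine congrArg₂ (· + ·) ?_ (congrArg₂ (· * ·) rfl ?_)
  · refine sum_congr rfl fun j _ => ?_
    rw [map_mul, H0_CC, H0_D3, coeff_zero_C]
  · refine sum_congr rfl fun j _ => ?_
    rw [map_sum]
    refine sum_congr rfl fun l _ => ?_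
    rw [map_mul, map_add, map_mul, map_mul, H0_CC, H0_CC, H0_D3, H0_D3, H0_D3, coeff_zero_AH,
      coeff_zero_X, map_zero, map_zero, zero_mul, zero_add]

theorem W1_eq (hk : EvenSeq n k) : dX (P.W1 k) = ∑ j : Fin n, C (C (k j)) * liftD (P.Dr j) (P.W1 k)
    + ∑ j : Fin n, ∑ l : Fin n, C (C (aK k j l))
      * (liftD (P.Dr l) (P.W0 k) * liftD (P.Dr j) (P.W1 k))
    + algebraMap ℚ _ (1 / 2) * ∑ j : Fin n, ∑ l : Fin n, C (C (aK k j l))
      * liftD (P.Dr j) (liftD (P.Dr l) (P.W0 k))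
    + algebraMap ℚ _ (1 / 2) * ∑ j : Fin n, ∑ l : Fin n, C (C (bK k j l))
      * (liftD (P.Dr j) (P.W0 k) * liftD (P.Dr l) (P.W0 k)) := by
  have h := congrArg H1 (P.WH_eq k)
  have e1 : ∀ j : Fin n, H1 (C (C (C (k j))) * P.D3 j (P.WH k))
      = C (C (k j)) * liftD (P.Dr j) (P.W1 k) := by
    intro j
    rw [H1_mul, H0_CC, H1_CC, H1_D3, coeff_zero_C, coeff_C, if_neg one_ne_zero, map_zero, map_zero,
      zero_mul, add_zero, W1]
  have e2 : ∀ j l : Fin n, H1 (C (C (AH k j l))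
      * (C (C X) * P.D3 j (P.D3 l (P.WH k)) + P.D3 j (P.WH k) * P.D3 l (P.WH k)))
      = C (C (aK k j l)) * (liftD (P.Dr j) (liftD (P.Dr l) (P.W0 k))
        + (liftD (P.Dr j) (P.W0 k) * liftD (P.Dr l) (P.W1 k)
          + liftD (P.Dr j) (P.W1 k) * liftD (P.Dr l) (P.W0 k)))
        + C (C (bK k j l)) * (liftD (P.Dr j) (P.W0 k) * liftD (P.Dr l) (P.W0 k)) := by
    intro j l
    rw [H1_mul, H0_CC, H1_CC, map_add, map_add, H1_mul, H1_mul, map_mul, map_mul, H0_CC, H1_CC,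
      H0_D3, H1_D3, H0_D3, H1_D3, H0_D3, H1_D3, coeff_zero_AH, coeff_one_AH, coeff_zero_X, coeff_one_X,
      W0, W1]
    simp only [map_zero, map_one, zero_mul, one_mul, zero_add]
  rw [H1_dX, gR, map_add, H1_mul, H1_rat, zero_mul, add_zero, H0_rat, map_sum, map_sum] at h
  simp only [map_sum, e1, e2] at h
  rw [W1, h, ← W1]
  have hsym : ∑ j : Fin n, ∑ l : Fin n, C (C (aK k j l))
      * (liftD (P.Dr j) (P.W0 k) * liftD (P.Dr l) (P.W1 k))
      = ∑ j : Fin n, ∑ l : Fin n, C (C (aK k j l))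
      * (liftD (P.Dr l) (P.W0 k) * liftD (P.Dr j) (P.W1 k)) := by
    rw [sum_comm]
    refine sum_congr rfl fun j _ => sum_congr rfl fun l _ => ?_
    have := hk.symm' j l 2 even_two
    rw [aK, aK, this]
  have hsym2 : ∑ j : Fin n, ∑ l : Fin n, C (C (aK k j l))
      * (liftD (P.Dr j) (P.W1 k) * liftD (P.Dr l) (P.W0 k))
      = ∑ j : Fin n, ∑ l : Fin n, C (C (aK k j l))
      * (liftD (P.Dr l) (P.W0 k) * liftD (P.Dr j) (P.W1 k)) :=
    sum_congr rfl fun j _ => sum_congr rfl fun l _ => by ring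
  have hh : (algebraMap ℚ A⟦X⟧⟦X⟧ (1 / 2)) * 2 = 1 := by
    have : (2 : A⟦X⟧⟦X⟧) = algebraMap ℚ _ (2 : ℚ) := (map_ofNat (algebraMap ℚ A⟦X⟧⟦X⟧) 2).symm
    rw [this, ← map_mul]; norm_num
  simp only [mul_add, sum_add_distrib, hsym, hsym2]
  linear_combination (∑ j : Fin n, ∑ l : Fin n, C (C (aK k j l))
      * (liftD (P.Dr l) (P.W0 k) * liftD (P.Dr j) (P.W1 k))) * hh

theorem coeff_one_eq_coeff (f : A⟦X⟧) : coeff 2 (phi f) = coeff 1 f := coeff_phi_even f 1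

/-- extraction of genus one from the logarithm of the coupled sum -/
theorem extract (hk : ∀ j m, P.dr j (k m) = 0) [IsDomain A] (hr : P.r ≠ 0) (m p : ℕ) :
    coeff (2 * m) (coeff m (coeff p (P.LZ k))) = coeff m (coeff p (P.W1 k)) := by
  have h := congrArg (coeff m) (congrArg (coeff p) (P.couple k hk hr))
  rw [coeff_C_mul, coeff_C_mul, PsS, coeff_map, coeff_Psi, ← pow_mul] at h
  have h2 := congrArg (coeff (2 * m + 2)) h
  rw [coeff_X_pow_mul', if_pos (by omega), coeff_X_pow_mul', if_pos (by omega),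
    show 2 * m + 2 - 2 = 2 * m by omega, show 2 * m + 2 - 2 * m = 2 * 1 by omega,
    coeff_phi_even] at h2
  rw [h2, W1, coeff_H1, coeff_h1]

/-- the model attached to potentials, couplings, a parity and an evaluation -/
noncomputable def model {S : Type*} [CommRing S] [Algebra ℚ S] (hk : ∀ j m, P.dr j (k m) = 0)
    (ke : EvenSeq n k) (pi : A →+* A) (ev : A →+* S) (pi_x : pi P.x = -P.x)
    (pi_rho : ∀ j : Fin n, pi (P.rho j) = (-1) ^ (j : ℕ) * P.rho j)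
    (pi_r : pi P.r = P.r) (pi_k : ∀ m, pi (k m) = k m)
    (pi_dx : ∀ a, pi (P.dx a) = -P.dx (pi a))
    (pi_dr : ∀ (j : Fin n) a, pi (P.dr j a) = (-1) ^ (j : ℕ) * P.dr j (pi a))
    (ev_pi : ∀ a, ev (pi a) = ev a) (ev_x : ev P.x = 0) (ev_rho : ∀ j, ev (P.rho j) = 0)
    (ev_r : ev P.r = 1) : Model n A S where
  P := P
  k := k
  k_dr := hk
  k_even := ke
  F0 := h0 P.FH
  F1 := h1 P.FH
  sol0 := P.FH_sol0
  sol1 := P.FH_sol1
  W0 := P.W0 k
  W1 := P.W1 k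
  w0 := P.W0_zero k
  w1 := P.W1_zero k
  eq0 := P.W0_eq k
  eq1 := P.W1_eq k ke
  pi := pi
  ev := ev
  pi_x := pi_x
  pi_rho := pi_rho
  pi_r := pi_r
  pi_k := pi_k
  pi_dx := pi_dx
  pi_dr := pi_dr
  ev_pi := ev_pi
  ev_x := ev_x
  ev_rho := ev_rho
  ev_r := ev_r

end Pot

end MP4a
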