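import Pool.Agent.Lib.MP_4a2528_ag.Glue

/-!
The matrix differential equations for the closed system at the origin.
-/

set_option linter.unusedSectionVars false

namespace MP4a

open PowerSeries Matrix

section vec
variable {m : Type*} [Fintype m] [DecidableEq m] {R : Type*} [CommRing R] [Algebra ℚ R]

/-- entrywise derivation of vectors -/
def dV (D : Derivation ℚ R R) (f : m → R) : m → R := fun i => D (f i)

theorem dV_add (D : Derivation ℚ R R) (f g : m → R) : dV D (f + g) = dV D f + dV D g := by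
  ext i; simp [dV]

theorem dV_sub (D : Derivation ℚ R R) (f g : m → R) : dV D (f - g) = dV D f - dV D g := by
  ext i; simp [dV]

theorem dV_smul (D : Derivation ℚ R R) (a : R) (f : m → R) :
    dV D (a • f) = D a • f + a • dV D f := by
  ext i
  simp only [dV, Pi.smul_apply, Pi.add_apply, Derivation.leibniz, smul_eq_mul]
  ring

theorem dV_mulVec (D : Derivation ℚ R R) (M : Matrix m m R) (f : m → R) :
    dV D (M *ᵥ f) = dM D M *ᵥ f + M *ᵥ dV D f := by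
  ext i
  simp only [dV, dM, Matrix.mulVec, dotProduct, Matrix.map_apply, Pi.add_apply, map_sum,
    Derivation.leibniz, smul_eq_mul]
  rw [← Finset.sum_add_distrib]
  exact Finset.sum_congr rfl fun k _ => by ring

theorem der_dot (D : Derivation ℚ R R) (f g : m → R) :
    D (f ⬝ᵥ g) = dV D f ⬝ᵥ g + f ⬝ᵥ dV D g := by
  simp only [dV, dotProduct, map_sum, Derivation.leibniz, smul_eq_mul]
  rw [← Finset.sum_add_distrib]
  exact Finset.sum_congr rfl fun k _ => by ring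

end vec

/-- the closed system -/
structure Sys (n : ℕ) (T : Type*) [CommRing T] [Algebra ℚ T] where
  hn : Odd n
  k : ℕ → T
  k_even : EvenSeq n k
  R : T⟦X⟧
  v : T⟦X⟧
  Th : T⟦X⟧
  W : T⟦X⟧
  Ph : T⟦X⟧
  J : Fin n → T⟦X⟧
  Q : Matrix (Fin n) (Fin n) T⟦X⟧
  N : Matrix (Fin n) (Fin n) T⟦X⟧
  R0 : coeff 0 R = 0
  R1 : coeff 1 R = 1
  J0 : ∀ j, coeff 0 (J j) = 0
  Q0 : ∀ i j, coeff 0 (Q i j) = 0
  h1 : eu R = R * (1 + eu v)
  h2 : v = ∑ j : Fin n, (C (k j) + ∑ l : Fin n, C (aK k j l) * J l) * aa 0 0 R j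
  h3 : Th = 1 + ∑ j : Fin n, (C (k j) + ∑ l : Fin n, C (aK k j l) * J l)
    * (Th * (R * cc 2 0 R j))
  h4 : ∀ j : Fin n, eu (J j) = R * cc 0 0 R j
    + ∑ i : Fin n, Q i j * ∑ l : Fin n, C (aK k i l) * eu (J l)
  h5 : ∀ i j : Fin n, eu (Q i j) = alph 0 R i j * eu R
  Qs : Qᵀ = Q
  hN : N * (1 - Q * Matrix.of fun i j : Fin n => (C (aK k i j) : T⟦X⟧)) = 1
  h6 : 24 * eu W = eu Ph - eu v
    + 12 * ((Matrix.of fun i j : Fin n => (C (aK k i j) : T⟦X⟧)) * N * dM eu Q).trace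
  h7 : Th ^ 2 * eu Ph = eu (Th ^ 2)

namespace Sys

variable {n : ℕ} {T : Type*} [CommRing T] [Algebra ℚ T] (S : Sys n T)

/-- constants -/
noncomputable def AM : Matrix (Fin n) (Fin n) T⟦X⟧ := Matrix.of fun i j => C (aK S.k i j)
/-- the vector `a` -/
noncomputable def a (j : Fin n) : T⟦X⟧ := aa 0 0 S.R j
/-- the vector `b` -/
noncomputable def b (j : Fin n) : T⟦X⟧ := cc 1 0 S.R j
/-- the vector `R c_j` -/
noncomputable def bv (j : Fin n) : T⟦X⟧ := S.R * cc 0 0 S.R j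
/-- the shift -/
noncomputable def t (n : ℕ) (T : Type*) [CommRing T] : Matrix (Fin n) (Fin n) T⟦X⟧ :=
  Matrix.of fun i j => if (i : ℕ) = j + 1 then 1 else 0

/-- the vector of couplings -/
noncomputable def kv (j : Fin n) : T⟦X⟧ := C (S.k j)
/-- the shifted vector of couplings -/
noncomputable def kh (j : Fin n) : T⟦X⟧ := C (S.k (j + 1))
/-- velocity -/
noncomputable def V : Fin n → T⟦X⟧ := S.kv + S.AM *ᵥ S.J

theorem t_mulVec_zero (f : Fin n → T⟦X⟧) (i : Fin n) (hi : (i : ℕ) = 0) :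
    (t n T *ᵥ f) i = 0 := by
  simp only [t, Matrix.mulVec, dotProduct, Matrix.of_apply]
  refine Finset.sum_eq_zero fun j _ => ?_
  rw [if_neg (by omega), zero_mul]

theorem t_mulVec_succ (f : Fin n → T⟦X⟧) (i : Fin n) (m : ℕ) (hi : (i : ℕ) = m + 1) :
    (t n T *ᵥ f) i = f ⟨m, by omega⟩ := by
  simp only [t, Matrix.mulVec, dotProduct, Matrix.of_apply]
  rw [Finset.sum_eq_single ⟨m, by omega⟩]
  · rw [if_pos hi, one_mul]
  · intro j _ hj
    rw [if_neg, zero_mul]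
    intro h
    exact hj (Fin.ext (by simp; omega))
  · intro h; exact absurd (Finset.mem_univ _) h

theorem tT_mulVec (f : Fin n → T⟦X⟧) (i : Fin n) :
    ((t n T)ᵀ *ᵥ f) i = if h : (i : ℕ) + 1 < n then f ⟨i + 1, h⟩ else 0 := by
  simp only [t, Matrix.mulVec, dotProduct, Matrix.of_apply, Matrix.transpose_apply]
  split_ifs with h
  · rw [Finset.sum_eq_single ⟨i + 1, h⟩]
    · rw [if_pos rfl, one_mul]
    · intro j _ hj
      rw [if_neg, zero_mul]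
      intro h'
      exact hj (Fin.ext h')
    · intro h; exact absurd (Finset.mem_univ _) h
  · refine Finset.sum_eq_zero fun j _ => ?_
    rw [if_neg (by have := j.2; omega), zero_mul]

/-- (E1) -/
theorem AM_t : S.AM * t n T = -((t n T)ᵀ * S.AM) := by
  ext1 i j
  rw [Matrix.neg_apply, Matrix.mul_apply, Matrix.mul_apply]
  have e1 : ∑ l, S.AM i l * t n T l j = C (-((-1) ^ (j : ℕ) * S.k (i + j + 3))) := by
    by_cases h : (j : ℕ) + 1 < n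
    · rw [Finset.sum_eq_single ⟨j + 1, h⟩]
      · simp only [AM, t, Matrix.of_apply, if_true, mul_one, aK, pow_succ]
        congr 1
        rw [show (i : ℕ) + (j + 1) + 2 = i + j + 3 by ring]; ring
      · intro l _ hl
        simp only [t, Matrix.of_apply]
        rw [if_neg (fun h' => hl (Fin.ext h')), mul_zero]
      · intro h; exact absurd (Finset.mem_univ _) h
    · rw [S.k_even.big _ (by omega), mul_zero, neg_zero, map_zero]
      refine Finset.sum_eq_zero fun l _ => ?_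
      simp only [t, Matrix.of_apply]
      rw [if_neg (by have := l.2; omega), mul_zero]
  have e2 : ∑ l, (t n T)ᵀ i l * S.AM l j = C ((-1) ^ (j : ℕ) * S.k (i + j + 3)) := by
    by_cases h : (i : ℕ) + 1 < n
    · rw [Finset.sum_eq_single ⟨i + 1, h⟩]
      · simp only [AM, t, Matrix.of_apply, Matrix.transpose_apply, if_true, one_mul, aK]
        congr 3
        ring
      · intro l _ hl
        simp only [t, Matrix.of_apply, Matrix.transpose_apply]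
        rw [if_neg (fun h' => hl (Fin.ext h')), zero_mul]
      · intro h; exact absurd (Finset.mem_univ _) h
    · rw [S.k_even.big _ (by omega), mul_zero, map_zero]
      refine Finset.sum_eq_zero fun l _ => ?_
      simp only [t, Matrix.of_apply, Matrix.transpose_apply]
      rw [if_neg (by have := l.2; omega), zero_mul]
  rw [e1, e2, map_neg]

theorem AM_symm : S.AMᵀ = S.AM := by
  ext1 i j
  rw [Matrix.transpose_apply, AM, Matrix.of_apply, Matrix.of_apply, aK, aK]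
  rw [S.k_even.symm' i j 2 even_two]

theorem dM_AM : dM eu S.AM = 0 := by
  ext1 i j
  rw [dM_apply, AM, Matrix.of_apply, eu_C]; rfl

theorem dM_t : dM eu (t n T) = 0 := by
  ext1 i j
  rw [dM_apply, t, Matrix.of_apply]
  split_ifs <;> simp

theorem dM_tT : dM eu (t n T)ᵀ = 0 := by
  rw [dM_transpose, dM_t]; simp

theorem dV_a : dV eu S.a = eu S.R • (t n T *ᵥ S.b) := by
  ext1 j
  change eu (aa 0 0 S.R j) = eu S.R * (t n T *ᵥ S.b) j
  rw [der_aa, map_zero, zero_mul, zero_add]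
  congr 1
  rcases Nat.eq_zero_or_pos (j : ℕ) with h | h
  · rw [t_mulVec_zero _ _ h, h, zero_add, show (2 : ℕ) = 1 + 1 from rfl, cc_succ_zero]
  · obtain ⟨m, hm⟩ : ∃ m, (j : ℕ) = m + 1 := ⟨j - 1, by omega⟩
    rw [t_mulVec_succ _ _ m hm, hm, zero_add, show (2 : ℕ) = 1 + 1 from rfl, cc_succ_succ]
    rfl

theorem dV_Rb : dV eu (S.R • S.b) = eu S.R • (t n T *ᵥ S.a) := by
  ext1 j
  change eu (S.R * cc 1 0 S.R j) = eu S.R * (t n T *ᵥ S.a) j
  rw [der_Rcc, map_zero, zero_mul, zero_add]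
  congr 1
  rcases Nat.eq_zero_or_pos (j : ℕ) with h | h
  · rw [t_mulVec_zero _ _ h, h, show (1 : ℕ) = 0 + 1 from rfl, aa_succ_zero]
  · obtain ⟨m, hm⟩ : ∃ m, (j : ℕ) = m + 1 := ⟨j - 1, by omega⟩
    rw [t_mulVec_succ _ _ m hm, hm, show (1 : ℕ) = 0 + 1 from rfl, aa_succ_succ]
    rfl

theorem dM_Q : dM eu S.Q = eu S.R • (vecMulVec S.a S.a + S.R • vecMulVec S.b S.b) := by
  ext1 i j
  rw [dM_apply, S.h5, Matrix.smul_apply, Matrix.add_apply, Matrix.smul_apply, vecMulVec_apply,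
    vecMulVec_apply, alph, smul_eq_mul, smul_eq_mul]
  simp only [a, b]
  ring

theorem coeff0_mulVec_zero {M : Matrix (Fin n) (Fin n) T⟦X⟧} (f : Fin n → T⟦X⟧)
    (h : ∀ i j, constantCoeff (M i j) = 0) (i : Fin n) : constantCoeff ((M *ᵥ f) i) = 0 := by
  simp [Matrix.mulVec, dotProduct, h]

theorem coeff0_mulVec_zero' {M : Matrix (Fin n) (Fin n) T⟦X⟧} (f : Fin n → T⟦X⟧)
    (h : ∀ j, constantCoeff (f j) = 0) (i : Fin n) : constantCoeff ((M *ᵥ f) i) = 0 := by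
  simp [Matrix.mulVec, dotProduct, h]

theorem ccR : constantCoeff S.R = 0 := by
  rw [← coeff_zero_eq_constantCoeff_apply, S.R0]
theorem ccQ (i j : Fin n) : constantCoeff (S.Q i j) = 0 := by
  rw [← coeff_zero_eq_constantCoeff_apply, S.Q0]
theorem ccJ (i : Fin n) : constantCoeff (S.J i) = 0 := by
  rw [← coeff_zero_eq_constantCoeff_apply, S.J0]

/-- (E2) -/
theorem tQ : t n T * S.Q + S.Q * (t n T)ᵀ = S.R • (vecMulVec S.a S.b + vecMulVec S.b S.a) := by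
  have key : dM eu (t n T * S.Q + S.Q * (t n T)ᵀ)
      = dM eu (S.R • (vecMulVec S.a S.b + vecMulVec S.b S.a)) := by
    have r : S.R • (vecMulVec S.a S.b + vecMulVec S.b S.a)
        = vecMulVec S.a (S.R • S.b) + vecMulVec (S.R • S.b) S.a := by
      rw [smul_add, vecMulVec_smul, smul_vecMulVec]
    have d : ∀ f g : Fin n → T⟦X⟧, dM eu (vecMulVec f g)
        = vecMulVec (dV eu f) g + vecMulVec f (dV eu g) := by
      intro f g
      ext1 i j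
      simp only [dM_apply, vecMulVec_apply, Matrix.add_apply, Derivation.leibniz, smul_eq_mul, dV]
      ring
    rw [r, dM_add, dM_add, dM_mul, dM_mul, dM_t, dM_tT, Matrix.zero_mul, Matrix.mul_zero, zero_add,
      add_zero, dM_Q, d, d, dV_a, dV_Rb, Matrix.mul_smul, Matrix.smul_mul, Matrix.mul_add,
      Matrix.add_mul, Matrix.mul_smul, Matrix.smul_mul, Matrix.mul_vecMulVec,
      Matrix.mul_vecMulVec, Matrix.vecMulVec_mul, Matrix.vecMulVec_mul, Matrix.vecMul_transpose,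
      Matrix.vecMul_transpose]
    ext1 i j
    simp only [Matrix.add_apply, Matrix.smul_apply, vecMulVec_apply, Pi.smul_apply, smul_eq_mul]
    ring
  ext1 i j
  refine eq_of_eu (congrFun (congrFun key i) j) ?_
  rw [coeff_zero_eq_constantCoeff_apply, coeff_zero_eq_constantCoeff_apply]
  simp [Matrix.mul_apply, S.ccQ, S.ccR]

/-- the vector `Φ = N a` -/
noncomputable def Phi : Fin n → T⟦X⟧ := S.N *ᵥ S.a
/-- the vector `Ψ = N b` -/
noncomputable def Psi : Fin n → T⟦X⟧ := S.N *ᵥ S.b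
/-- `K = A N` -/
noncomputable def K : Matrix (Fin n) (Fin n) T⟦X⟧ := S.AM * S.N

theorem N_mul : S.N * (1 - S.Q * S.AM) = 1 := S.hN
theorem mul_N : (1 - S.Q * S.AM) * S.N = 1 := mul_eq_one_comm.1 S.N_mul

theorem N_eq : S.N = 1 + S.Q * S.AM * S.N := by
  have h := S.mul_N
  rw [Matrix.sub_mul, Matrix.one_mul, sub_eq_iff_eq_add] at h
  exact h

theorem NT_mul : S.Nᵀ * (1 - S.AM * S.Q) = 1 := by
  have h := congrArg Matrix.transpose S.mul_N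
  rw [Matrix.transpose_mul, Matrix.transpose_sub, Matrix.transpose_mul, S.AM_symm, S.Qs,
    Matrix.transpose_one] at h
  exact h

/-- (E4) -/
theorem K_symm : S.Kᵀ = S.K := by
  have e : (1 - S.AM * S.Q) * S.K = S.AM := by
    have : (1 - S.AM * S.Q) * S.AM = S.AM * (1 - S.Q * S.AM) := by
      rw [Matrix.sub_mul, Matrix.one_mul, Matrix.mul_sub, Matrix.mul_one, Matrix.mul_assoc]
    rw [K, ← Matrix.mul_assoc, this, Matrix.mul_assoc, S.mul_N, Matrix.mul_one]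
  calc S.Kᵀ = S.Nᵀ * S.AM := by rw [K, Matrix.transpose_mul, S.AM_symm]
    _ = S.Nᵀ * ((1 - S.AM * S.Q) * S.K) := by rw [e]
    _ = S.K := by rw [← Matrix.mul_assoc, S.NT_mul, Matrix.one_mul]

theorem dot_K (f g : Fin n → T⟦X⟧) : f ⬝ᵥ (S.K *ᵥ g) = g ⬝ᵥ (S.K *ᵥ f) := by
  rw [Matrix.dotProduct_mulVec, ← Matrix.mulVec_transpose, S.K_symm, dotProduct_comm]

/-- (E3) -/
theorem N_t : S.N * t n T = t n T * S.N
    - S.R • ((vecMulVec S.Phi S.b + vecMulVec S.Psi S.a) * S.K) := by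
  have e1 : (1 - S.Q * S.AM) * t n T = t n T * (1 - S.Q * S.AM)
      + S.R • ((vecMulVec S.a S.b + vecMulVec S.b S.a) * S.AM) := by
    have h := S.tQ
    have h2 : S.Q * S.AM * t n T = -(S.Q * (t n T)ᵀ * S.AM) := by
      rw [Matrix.mul_assoc, S.AM_t, Matrix.mul_neg, Matrix.mul_assoc]
    have h3 : S.Q * (t n T)ᵀ * S.AM = S.R • ((vecMulVec S.a S.b + vecMulVec S.b S.a) * S.AM)
        - t n T * S.Q * S.AM := by
      rw [← Matrix.smul_mul, ← h, Matrix.add_mul]; abel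
    rw [Matrix.sub_mul, Matrix.one_mul, h2, h3, Matrix.mul_sub, Matrix.mul_one,
      ← Matrix.mul_assoc]
    abel
  have e2 : S.N * ((1 - S.Q * S.AM) * t n T) * S.N = t n T * S.N := by
    rw [← Matrix.mul_assoc, S.N_mul, Matrix.one_mul]
  rw [e1, Matrix.mul_add, Matrix.add_mul, ← Matrix.mul_assoc, Matrix.mul_assoc (S.N * t n T),
    S.mul_N, Matrix.mul_one, Matrix.mul_smul, Matrix.smul_mul, ← Matrix.mul_assoc,
    Matrix.mul_add, Matrix.mul_vecMulVec, Matrix.mul_vecMulVec, Matrix.mul_assoc _ S.AM] at e2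
  rw [← e2]
  change _ = _ + S.R • ((vecMulVec S.Phi S.b + vecMulVec S.Psi S.a) * S.K) - _
  abel

/-! ### parity -/

/-- the sign matrix -/
noncomputable def ep (n : ℕ) (T : Type*) [CommRing T] : Matrix (Fin n) (Fin n) T⟦X⟧ :=
  Matrix.diagonal fun i => (-1) ^ (i : ℕ)

theorem ep_AM : ep n T * S.AM = S.AM * ep n T := by
  ext1 i j
  rw [ep, Matrix.diagonal_mul, Matrix.mul_diagonal, AM, Matrix.of_apply]
  have h1 := S.k_even.parity i j 2 even_two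
  have h2 := S.k_even.parity j i 2 even_two
  rw [add_comm (j : ℕ) i] at h2
  have h3 : ((-1 : T)) ^ (j : ℕ) * (-1) ^ (j : ℕ) = 1 := by rw [← mul_pow]; simp
  have h4 : ((-1 : T)) ^ (i : ℕ) * (-1) ^ (i : ℕ) = 1 := by rw [← mul_pow]; simp
  have : (-1) ^ (i : ℕ) * aK S.k i j = aK S.k i j * (-1) ^ (j : ℕ) := by
    rw [aK, h1]
    linear_combination (-S.k (i + j + 2)) * h3
  have h := congrArg (C (R := T)) this
  simpa only [map_mul, map_pow, map_neg, map_one] using h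

theorem a_odd (j : Fin n) (h : Odd (j : ℕ)) : S.a j = 0 := by
  rw [a, aa_u_zero, if_neg (Nat.not_even_iff_odd.2 h)]

theorem b_even (j : Fin n) (h : Even (j : ℕ)) : S.b j = 0 := by
  rw [b]
  rcases Nat.eq_zero_or_pos (j : ℕ) with h0 | h0
  · rw [h0, show (1 : ℕ) = 0 + 1 from rfl, cc_succ_zero]
  · obtain ⟨m, hm⟩ : ∃ m, (j : ℕ) = m + 1 := ⟨j - 1, by omega⟩
    rw [hm, show (1 : ℕ) = 0 + 1 from rfl, cc_succ_succ, cc_u_zero, if_neg]
    rw [hm, Nat.even_add_one] at h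
    exact h

theorem bv_odd (j : Fin n) (h : Odd (j : ℕ)) : S.bv j = 0 := by
  rw [bv, cc_u_zero, if_neg (Nat.not_even_iff_odd.2 h), mul_zero]

theorem ep_even {f : Fin n → T⟦X⟧} (h : ∀ j : Fin n, Odd (j : ℕ) → f j = 0) : ep n T *ᵥ f = f := by
  ext1 j
  rw [ep, Matrix.mulVec_diagonal]
  rcases Nat.even_or_odd (j : ℕ) with e | o
  · rw [e.neg_one_pow, one_mul]
  · rw [h j o, mul_zero]

theorem ep_odd {f : Fin n → T⟦X⟧} (h : ∀ j : Fin n, Even (j : ℕ) → f j = 0) : ep n T *ᵥ f = -f := by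
  ext1 j
  rw [ep, Matrix.mulVec_diagonal, Pi.neg_apply]
  rcases Nat.even_or_odd (j : ℕ) with e | o
  · rw [h j e, mul_zero, neg_zero]
  · rw [o.neg_one_pow, neg_one_mul]

theorem ep_Q : ep n T * S.Q = S.Q * ep n T := by
  have key : ∀ i j : Fin n, ¬ (Even (i : ℕ) ↔ Even (j : ℕ)) → S.Q i j = 0 := by
    intro i j hij
    refine eq_zero_of_eu ?_ (S.Q0 i j)
    rw [S.h5]
    have : alph 0 S.R i j = S.a i * S.a j + S.R * (S.b i * S.b j) := rfl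
    rw [this]
    rcases Nat.even_or_odd (i : ℕ) with hi | hi <;> rcases Nat.even_or_odd (j : ℕ) with hj | hj
    · exact absurd (iff_of_true hi hj) hij
    · rw [S.a_odd j hj, S.b_even i hi]; ring
    · rw [S.a_odd i hi, S.b_even j hj]; ring
    · exact absurd (iff_of_false (Nat.not_even_iff_odd.2 hi) (Nat.not_even_iff_odd.2 hj)) hij
  ext1 i j
  rw [ep, Matrix.diagonal_mul, Matrix.mul_diagonal]
  by_cases h : (Even (i : ℕ) ↔ Even (j : ℕ))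
  · have : ((-1 : T⟦X⟧)) ^ (i : ℕ) = (-1) ^ (j : ℕ) := by
      rcases Nat.even_or_odd (i : ℕ) with hi | hi
      · rw [hi.neg_one_pow, (h.1 hi).neg_one_pow]
      · have hj : Odd (j : ℕ) := by
          rw [← Nat.not_even_iff_odd] at hi ⊢; exact fun hj => hi (h.2 hj)
        rw [hi.neg_one_pow, hj.neg_one_pow]
    rw [this, mul_comm]
  · rw [key i j h]; simp

theorem ep_N : ep n T * S.N = S.N * ep n T := by
  have h : ep n T * (1 - S.Q * S.AM) = (1 - S.Q * S.AM) * ep n T := by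
    rw [Matrix.mul_sub, Matrix.sub_mul, Matrix.mul_one, Matrix.one_mul, ← Matrix.mul_assoc, S.ep_Q,
      Matrix.mul_assoc, S.ep_AM, Matrix.mul_assoc]
  calc ep n T * S.N = S.N * (1 - S.Q * S.AM) * ep n T * S.N := by
        rw [S.N_mul, Matrix.one_mul]
    _ = S.N * (ep n T * (1 - S.Q * S.AM)) * S.N := by rw [h, Matrix.mul_assoc S.N]
    _ = S.N * ep n T * ((1 - S.Q * S.AM) * S.N) := by simp only [Matrix.mul_assoc]
    _ = S.N * ep n T := by rw [S.mul_N, Matrix.mul_one]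

theorem ep_K : ep n T * S.K = S.K * ep n T := by
  rw [K, ← Matrix.mul_assoc, S.ep_AM, Matrix.mul_assoc, S.ep_N, Matrix.mul_assoc]

theorem ep_t : ep n T * t n T = -(t n T * ep n T) := by
  ext1 i j
  rw [ep, Matrix.diagonal_mul, Matrix.neg_apply, Matrix.mul_diagonal, t, Matrix.of_apply]
  split_ifs with h
  · rw [h, pow_succ]; ring
  · simp

/-- a pairing of vectors of opposite parity vanishes -/
theorem dot_parity {f g : Fin n → T⟦X⟧} (hf : ep n T *ᵥ f = f) (hg : ep n T *ᵥ g = -g) :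
    f ⬝ᵥ g = 0 := by
  have e : f ⬝ᵥ g = -(f ⬝ᵥ g) := by
    conv_lhs => rw [← hf]
    have : (ep n T *ᵥ f) ⬝ᵥ g = f ⬝ᵥ (ep n T *ᵥ g) := by
      simp only [ep, dotProduct, Matrix.mulVec_diagonal]
      exact Finset.sum_congr rfl fun i _ => by ring
    rw [this, hg, dotProduct_neg]
  have h2 : ((2 : ℕ) : T⟦X⟧) * (f ⬝ᵥ g) = 0 := by
    push_cast; linear_combination e
  exact natCast_mul_eq_zero (by norm_num) h2

theorem ep_a : ep n T *ᵥ S.a = S.a := ep_even S.a_odd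
theorem ep_b : ep n T *ᵥ S.b = -S.b := ep_odd S.b_even
theorem ep_bv : ep n T *ᵥ S.bv = S.bv := ep_even S.bv_odd

theorem ep_N_vec (f : Fin n → T⟦X⟧) : ep n T *ᵥ (S.N *ᵥ f) = S.N *ᵥ (ep n T *ᵥ f) := by
  rw [Matrix.mulVec_mulVec, S.ep_N, Matrix.mulVec_mulVec]
theorem ep_K_vec (f : Fin n → T⟦X⟧) : ep n T *ᵥ (S.K *ᵥ f) = S.K *ᵥ (ep n T *ᵥ f) := by
  rw [Matrix.mulVec_mulVec, S.ep_K, Matrix.mulVec_mulVec]
theorem ep_AM_vec (f : Fin n → T⟦X⟧) : ep n T *ᵥ (S.AM *ᵥ f) = S.AM *ᵥ (ep n T *ᵥ f) := by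
  rw [Matrix.mulVec_mulVec, S.ep_AM, Matrix.mulVec_mulVec]
theorem ep_t_vec (f : Fin n → T⟦X⟧) : ep n T *ᵥ (t n T *ᵥ f) = -(t n T *ᵥ (ep n T *ᵥ f)) := by
  rw [Matrix.mulVec_mulVec, ep_t, Matrix.neg_mulVec, Matrix.mulVec_mulVec]

/-- the scalar `⟨a, K a⟩` -/
noncomputable def aA : T⟦X⟧ := S.a ⬝ᵥ (S.K *ᵥ S.a)
/-- the scalar `R ⟨b, K b⟩` -/
noncomputable def cA : T⟦X⟧ := S.R * (S.b ⬝ᵥ (S.K *ᵥ S.b))

theorem a_K_b : S.a ⬝ᵥ (S.K *ᵥ S.b) = 0 :=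
  dot_parity S.ep_a (by rw [S.ep_K_vec, S.ep_b, Matrix.mulVec_neg])
theorem b_K_a : S.b ⬝ᵥ (S.K *ᵥ S.a) = 0 := by rw [S.dot_K, S.a_K_b]
theorem b_K_bv : S.b ⬝ᵥ (S.K *ᵥ S.bv) = 0 := by
  rw [S.dot_K]
  exact dot_parity S.ep_bv (by rw [S.ep_K_vec, S.ep_b, Matrix.mulVec_neg])

theorem vecMulVec_mulVec' (f g h : Fin n → T⟦X⟧) : vecMulVec f g *ᵥ h = (g ⬝ᵥ h) • f := by
  ext1 i
  simp only [Matrix.mulVec, dotProduct, vecMulVec_apply, Pi.smul_apply, smul_eq_mul,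
    Finset.sum_mul]
  exact Finset.sum_congr rfl fun j _ => by ring

/-- (E3) applied to a vector -/
theorem N_t_vec (f : Fin n → T⟦X⟧) : S.N *ᵥ (t n T *ᵥ f) = t n T *ᵥ (S.N *ᵥ f)
    - S.R • ((S.b ⬝ᵥ (S.K *ᵥ f)) • S.Phi + (S.a ⬝ᵥ (S.K *ᵥ f)) • S.Psi) := by
  rw [Matrix.mulVec_mulVec, S.N_t, Matrix.sub_mulVec, ← Matrix.mulVec_mulVec, Matrix.smul_mulVec,
    ← Matrix.mulVec_mulVec, Matrix.add_mulVec, vecMulVec_mulVec', vecMulVec_mulVec']

theorem N_t_b : S.N *ᵥ (t n T *ᵥ S.b) = t n T *ᵥ S.Psi - S.cA • S.Phi := by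
  rw [S.N_t_vec, S.a_K_b, zero_smul, add_zero, smul_smul]; rfl

theorem N_t_a : S.N *ᵥ (t n T *ᵥ S.a) = t n T *ᵥ S.Phi - S.aA • (S.R • S.Psi) := by
  rw [S.N_t_vec, S.b_K_a, zero_smul, zero_add, smul_comm]; rfl

theorem der_N (f : Fin n → T⟦X⟧) : dV eu (S.N *ᵥ f) = S.N *ᵥ (dV eu f
    + dM eu S.Q *ᵥ (S.K *ᵥ f)) := by
  have h1 : S.N *ᵥ f = f + (S.Q * S.AM) *ᵥ (S.N *ᵥ f) := by
    rw [Matrix.mulVec_mulVec]
    nth_rewrite 1 [S.N_eq]
    rw [Matrix.add_mulVec, Matrix.one_mulVec]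
  have h2 : dV eu (S.N *ᵥ f) = dV eu f + dM eu S.Q *ᵥ (S.K *ᵥ f)
      + (S.Q * S.AM) *ᵥ dV eu (S.N *ᵥ f) := by
    nth_rewrite 1 [h1]
    rw [dV_add, dV_mulVec, dM_mul, S.dM_AM, Matrix.mul_zero, add_zero, ← Matrix.mulVec_mulVec, K,
      ← Matrix.mulVec_mulVec f]
    abel
  have h3 : (1 - S.Q * S.AM) *ᵥ dV eu (S.N *ᵥ f) = dV eu f + dM eu S.Q *ᵥ (S.K *ᵥ f) := by
    rw [Matrix.sub_mulVec, Matrix.one_mulVec]
    nth_rewrite 1 [h2]
    abel
  rw [← h3, Matrix.mulVec_mulVec, S.N_mul, Matrix.one_mulVec]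

theorem dM_Q_vec (g : Fin n → T⟦X⟧) : dM eu S.Q *ᵥ g
    = eu S.R • ((S.a ⬝ᵥ g) • S.a + (S.b ⬝ᵥ g) • (S.R • S.b)) := by
  rw [S.dM_Q, Matrix.smul_mulVec, Matrix.add_mulVec, vecMulVec_mulVec', Matrix.smul_mulVec,
    vecMulVec_mulVec', smul_comm S.R]

/-- (E5) -/
theorem dPhi : dV eu S.Phi = eu S.R • ((S.aA - S.cA) • S.Phi + t n T *ᵥ S.Psi) := by
  rw [Phi, S.der_N, S.dM_Q_vec, S.dV_a, S.b_K_a, zero_smul, add_zero, ← smul_add,
    Matrix.mulVec_smul, Matrix.mulVec_add, S.N_t_b, Matrix.mulVec_smul]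
  congr 1
  change _ + S.aA • S.Phi = _
  rw [sub_smul]
  change _ = S.aA • S.Phi - S.cA • S.Phi + _
  abel

/-- (E6) -/
theorem dPsi : dV eu (S.R • S.Psi)
    = eu S.R • ((S.cA - S.aA) • (S.R • S.Psi) + t n T *ᵥ S.Phi) := by
  have e1 : S.R • S.Psi = S.N *ᵥ (S.R • S.b) := by rw [Matrix.mulVec_smul]; rfl
  have e2 : S.a ⬝ᵥ (S.K *ᵥ (S.R • S.b)) = 0 := by
    rw [Matrix.mulVec_smul, dotProduct_smul, S.a_K_b, smul_zero]
  have e3 : S.b ⬝ᵥ (S.K *ᵥ (S.R • S.b)) = S.cA := by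
    rw [Matrix.mulVec_smul, dotProduct_smul, smul_eq_mul]; rfl
  rw [e1, S.der_N, S.dM_Q_vec, S.dV_Rb, e2, e3, zero_smul, zero_add, ← smul_add,
    Matrix.mulVec_smul, Matrix.mulVec_add, S.N_t_a, Matrix.mulVec_smul, ← e1]
  congr 1
  rw [sub_smul]
  abel

theorem dJ_eq : dV eu S.J = S.N *ᵥ S.bv := by
  have h : (1 - S.Q * S.AM) *ᵥ dV eu S.J = S.bv := by
    rw [Matrix.sub_mulVec, Matrix.one_mulVec, sub_eq_iff_eq_add]
    ext1 j
    rw [Pi.add_apply, ← Matrix.mulVec_mulVec]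
    have hh := S.h4 j
    change eu (S.J j) = _
    rw [hh]
    congr 1
    simp only [Matrix.mulVec, dotProduct, AM, Matrix.of_apply, dV]
    refine Finset.sum_congr rfl fun i _ => ?_
    have : S.Q i j = S.Q j i := congrFun (congrFun S.Qs j) i
    rw [this]
  rw [← h, Matrix.mulVec_mulVec, S.N_mul, Matrix.one_mulVec]

theorem t_bv : t n T *ᵥ S.bv = S.R • S.b := by
  ext1 j
  rw [Pi.smul_apply, smul_eq_mul, b]
  rcases Nat.eq_zero_or_pos (j : ℕ) with h0 | h0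
  · rw [t_mulVec_zero _ _ h0, h0, show (1 : ℕ) = 0 + 1 from rfl, cc_succ_zero, mul_zero]
  · obtain ⟨m, hm⟩ : ∃ m, (j : ℕ) = m + 1 := ⟨j - 1, by omega⟩
    rw [t_mulVec_succ _ _ m hm, hm, show (1 : ℕ) = 0 + 1 from rfl, cc_succ_succ]
    rfl

/-- the index zero -/
def i0 : Fin n := ⟨0, S.hn.pos⟩

theorem a_zero : S.a S.i0 = 1 := aa_zero_zero _ _

/-- the scalar `1 + ⟨a, A dJ⟩` -/
theorem Phi0_eq : S.Phi S.i0 = 1 + S.a ⬝ᵥ (S.AM *ᵥ dV eu S.J) := by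
  have hQ : ∀ l, S.Q S.i0 l = S.bv l := by
    intro l
    refine eq_of_eu ?_ ?_
    · rw [S.h5, bv, der_Rcc, map_zero, zero_mul, zero_add]
      have : alph 0 S.R S.i0 l = S.a S.i0 * S.a l + S.R * (S.b S.i0 * S.b l) := rfl
      rw [this, a_zero, S.b_even S.i0 (by simp [i0])]
      simp only [a]
      ring
    · rw [S.Q0, coeff_zero_eq_constantCoeff_apply, bv, map_mul, S.ccR, zero_mul]
  have e1 : S.Phi S.i0 = S.a S.i0 + (S.Q *ᵥ (S.K *ᵥ S.a)) S.i0 := by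
    have h1 : S.N *ᵥ S.a = S.a + S.Q *ᵥ (S.K *ᵥ S.a) := by
      rw [K, Matrix.mulVec_mulVec, ← Matrix.mul_assoc]
      nth_rewrite 1 [S.N_eq]
      rw [Matrix.add_mulVec, Matrix.one_mulVec]
    rw [Phi]
    exact congrFun h1 S.i0
  have e2 : (S.Q *ᵥ (S.K *ᵥ S.a)) S.i0 = S.bv ⬝ᵥ (S.K *ᵥ S.a) := by
    simp only [Matrix.mulVec, dotProduct]
    exact Finset.sum_congr rfl fun l _ => by rw [hQ]
  rw [e1, a_zero, e2, S.dot_K, S.dJ_eq, K, Matrix.mulVec_mulVec]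

/-- (E7) -/
theorem t_dJ : t n T *ᵥ dV eu S.J = (S.R * S.Phi S.i0) • S.Psi := by
  have h := S.N_t_vec S.bv
  rw [S.t_bv, S.b_K_bv, zero_smul, zero_add, ← S.dJ_eq] at h
  have h1 : S.N *ᵥ (S.R • S.b) = S.R • S.Psi := by rw [Matrix.mulVec_smul]; rfl
  have h2 : S.a ⬝ᵥ (S.K *ᵥ S.bv) = S.Phi S.i0 - 1 := by
    rw [S.Phi0_eq, S.dJ_eq, K, Matrix.mulVec_mulVec]; ring
  rw [h1, h2, eq_sub_iff_add_eq] at h
  rw [← h]
  ext1 i
  simp only [Pi.add_apply, Pi.smul_apply, smul_eq_mul]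
  ring

theorem dV_V : dV eu S.V = S.AM *ᵥ dV eu S.J := by
  rw [V, dV_add, dV_mulVec, S.dM_AM, Matrix.zero_mulVec, zero_add]
  have : dV eu S.kv = 0 := by
    ext1 i
    change eu (C _) = _
    rw [eu_C]; rfl
  rw [this, zero_add]

theorem V_apply (j : Fin n) : S.V j = C (S.k j) + ∑ l : Fin n, C (aK S.k j l) * S.J l := rfl

/-- the scalar `X = R ⟨V, t b⟩` -/
noncomputable def Xs : T⟦X⟧ := S.R * (S.V ⬝ᵥ (t n T *ᵥ S.b))

theorem t_b (j : Fin n) : (t n T *ᵥ S.b) j = cc 2 0 S.R j := by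
  rcases Nat.eq_zero_or_pos (j : ℕ) with h | h
  · rw [t_mulVec_zero _ _ h, h, show (2 : ℕ) = 1 + 1 from rfl, cc_succ_zero]
  · obtain ⟨m, hm⟩ : ∃ m, (j : ℕ) = m + 1 := ⟨j - 1, by omega⟩
    rw [t_mulVec_succ _ _ m hm, hm, show (2 : ℕ) = 1 + 1 from rfl, cc_succ_succ]
    rfl

theorem Th_X : S.Th * (1 - S.Xs) = 1 := by
  have h := S.h3
  have e : ∑ j : Fin n, (C (S.k j) + ∑ l : Fin n, C (aK S.k j l) * S.J l)
      * (S.Th * (S.R * cc 2 0 S.R j)) = S.Th * S.Xs := by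
    rw [Xs, dotProduct, Finset.mul_sum, Finset.mul_sum]
    refine Finset.sum_congr rfl fun j _ => ?_
    rw [← V_apply, t_b]; ring
  rw [e] at h
  linear_combination h

theorem v_eq : S.v = S.V ⬝ᵥ S.a := S.h2

theorem eu_v : eu S.v = S.a ⬝ᵥ (S.AM *ᵥ dV eu S.J) + eu S.R * (S.V ⬝ᵥ (t n T *ᵥ S.b)) := by
  rw [S.v_eq, der_dot, S.dV_V, S.dV_a, dotProduct_smul, smul_eq_mul, dotProduct_comm]

/-- (E9) -/
theorem euR_X : eu S.R * (1 - S.Xs) = S.R * S.Phi S.i0 := by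
  have h := S.h1
  have h2 := S.eu_v
  have h3 := S.Phi0_eq
  rw [Xs]
  linear_combination h + S.R * h2 - S.R * h3

/-! ### the defects -/

/-- `y = A t J - kh` -/
noncomputable def y : Fin n → T⟦X⟧ := S.AM *ᵥ (t n T *ᵥ S.J) - S.kh

theorem ep_J : ep n T *ᵥ S.J = S.J := by
  have h : dV eu (ep n T *ᵥ S.J) = dV eu S.J := by
    have e : dM eu (ep n T) = 0 := by
      ext1 i j
      rw [dM_apply, ep, Matrix.diagonal_apply]
      split_ifs with h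
      · rw [Derivation.leibniz_pow, map_neg, Derivation.map_one_eq_zero]; simp
      · simp
    rw [dV_mulVec, e, Matrix.zero_mulVec, zero_add, S.dJ_eq, S.ep_N_vec, S.ep_bv]
  ext1 i
  refine eq_of_eu (congrFun h i) ?_
  rw [coeff_zero_eq_constantCoeff_apply, coeff_zero_eq_constantCoeff_apply,
    coeff0_mulVec_zero' _ S.ccJ, S.ccJ]

theorem ep_kh : ep n T *ᵥ S.kh = -S.kh := by
  refine ep_odd fun j hj => ?_
  rw [kh, S.k_even.odd _ hj.add_one, map_zero]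

theorem ep_y : ep n T *ᵥ S.y = -S.y := by
  rw [y, Matrix.mulVec_sub, S.ep_AM_vec, ep_t_vec, S.ep_J, S.ep_kh, Matrix.mulVec_neg]
  abel

theorem a_y : S.a ⬝ᵥ S.y = 0 := dot_parity S.ep_a S.ep_y

theorem tT_kv : (t n T)ᵀ *ᵥ S.kv = S.kh := by
  ext1 j
  rw [tT_mulVec, kh]
  split_ifs with h
  · rfl
  · rw [S.k_even.big _ (by omega), map_zero]

theorem tT_V : (t n T)ᵀ *ᵥ S.V = -S.y := by
  rw [V, y, Matrix.mulVec_add, S.tT_kv, Matrix.mulVec_mulVec, Matrix.mulVec_mulVec]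
  have : (t n T)ᵀ * S.AM = -(S.AM * t n T) := by rw [S.AM_t, neg_neg]
  rw [this, Matrix.neg_mulVec]
  abel

theorem Xs_eq : S.Xs = -(S.R * (S.b ⬝ᵥ S.y)) := by
  have : S.V ⬝ᵥ (t n T *ᵥ S.b) = S.b ⬝ᵥ ((t n T)ᵀ *ᵥ S.V) := by
    rw [Matrix.dotProduct_mulVec, ← Matrix.mulVec_transpose, dotProduct_comm]
  rw [Xs, this, S.tT_V, dotProduct_neg]; ring

theorem tT_t_b : (t n T)ᵀ *ᵥ (t n T *ᵥ S.b) = S.b := by
  ext1 j
  rw [tT_mulVec]
  split_ifs with h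
  · rw [t_mulVec_succ _ _ j rfl]
  · rw [S.b_even j]
    have h1 : (j : ℕ) = n - 1 := by have := j.2; omega
    rw [h1]
    obtain ⟨m, hm⟩ := S.hn
    exact ⟨m, by omega⟩

theorem dV_kh : dV eu S.kh = 0 := by
  ext1 i
  change eu (C _) = _
  rw [eu_C]; rfl

theorem dV_y : dV eu S.y = S.AM *ᵥ (t n T *ᵥ dV eu S.J) := by
  rw [y, dV_sub, S.dV_kh, sub_zero, dV_mulVec, S.dM_AM, Matrix.zero_mulVec, zero_add, dV_mulVec,
    dM_t, Matrix.zero_mulVec, zero_add]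

/-- (E10) -/
theorem omega_eq : t n T *ᵥ S.J - (t n T)ᵀ *ᵥ S.a - S.Q *ᵥ S.y = 0 := by
  have h : dV eu (t n T *ᵥ S.J - (t n T)ᵀ *ᵥ S.a - S.Q *ᵥ S.y) = 0 := by
    have e1 : S.Q *ᵥ (S.AM *ᵥ (t n T *ᵥ dV eu S.J)) = t n T *ᵥ dV eu S.J
        - (S.R * S.Phi S.i0) • S.b := by
      rw [S.t_dJ, Matrix.mulVec_smul, Matrix.mulVec_smul, ← smul_sub]
      congr 1
      rw [Psi, Matrix.mulVec_mulVec, Matrix.mulVec_mulVec]
      nth_rewrite 2 [S.N_eq]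
      rw [Matrix.add_mulVec, Matrix.one_mulVec]
      abel
    rw [dV_sub, dV_sub, dV_mulVec, dV_mulVec, dV_mulVec, dM_t, dM_tT, Matrix.zero_mulVec,
      Matrix.zero_mulVec, zero_add, zero_add, S.dV_a, Matrix.mulVec_smul, S.tT_t_b, S.dM_Q_vec,
      S.a_y, S.dV_y, e1]
    have e2 := S.euR_X
    rw [S.Xs_eq] at e2
    ext1 i
    simp only [Pi.add_apply, Pi.sub_apply, Pi.smul_apply, smul_eq_mul, Pi.zero_apply]
    linear_combination (-S.b i) * e2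
  ext1 i
  refine eq_zero_of_eu (congrFun h i) ?_
  rw [coeff_zero_eq_constantCoeff_apply, Pi.sub_apply, Pi.sub_apply, map_sub, map_sub,
    coeff0_mulVec_zero' _ S.ccJ, coeff0_mulVec_zero _ S.ccQ, tT_mulVec]
  split_ifs with hi
  · have : constantCoeff (S.a ⟨i + 1, hi⟩) = 0 := by
      rw [a, map_aa (constantCoeff (R := T)), S.ccR, map_zero]
      rw [aa_at_zero]
      simp
    rw [this]; simp
  · simp

theorem tt_apply (f : Fin n → T⟦X⟧) (i : Fin n) :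
    (t n T *ᵥ ((t n T)ᵀ *ᵥ f)) i = if (i : ℕ) = 0 then 0 else f i := by
  split_ifs with h
  · rw [t_mulVec_zero _ _ h]
  · obtain ⟨m, hm⟩ : ∃ m, (i : ℕ) = m + 1 := ⟨i - 1, by omega⟩
    rw [t_mulVec_succ _ _ m hm, tT_mulVec, dif_pos (by simp; have := i.2; omega)]
    congr 1
    exact Fin.ext hm.symm

/-- unit vector -/
noncomputable def e0 (n : ℕ) (T : Type*) [CommRing T] : Fin n → T⟦X⟧ := fun i => if (i : ℕ) = 0 then 1 else 0

theorem tt_a : t n T *ᵥ ((t n T)ᵀ *ᵥ S.a) = S.a - e0 n T := by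
  ext1 i
  rw [tt_apply, Pi.sub_apply, e0]
  split_ifs with h
  · have : i = S.i0 := Fin.ext h
    rw [this, S.a_zero, sub_self]
  · rw [sub_zero]

theorem AM_e0 : S.AM *ᵥ e0 n T = (t n T)ᵀ *ᵥ S.kh := by
  ext1 i
  have e : (S.AM *ᵥ e0 n T) i = S.AM i S.i0 := by
    simp only [Matrix.mulVec, dotProduct]
    rw [Finset.sum_eq_single S.i0]
    · simp [e0, i0]
    · intro j _ hj
      rw [e0, if_neg, mul_zero]
      intro h; exact hj (Fin.ext h)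
    · intro h; exact absurd (Finset.mem_univ _) h
  rw [e, tT_mulVec, AM, Matrix.of_apply, aK, i0]
  simp only [pow_zero, one_mul, add_zero]
  split_ifs with h
  · rfl
  · rw [S.k_even.big _ (by omega), map_zero]

theorem tT_y : (t n T)ᵀ *ᵥ S.y = -(S.AM *ᵥ (t n T *ᵥ (t n T *ᵥ S.J) + e0 n T)) := by
  rw [y, Matrix.mulVec_sub, Matrix.mulVec_add, S.AM_e0, Matrix.mulVec_mulVec]
  have : (t n T)ᵀ * S.AM = -(S.AM * t n T) := by rw [S.AM_t, neg_neg]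
  rw [this, Matrix.neg_mulVec, ← Matrix.mulVec_mulVec]
  abel

/-- (E11) -/
theorem eta_eq : e0 n T + t n T *ᵥ (t n T *ᵥ S.J) = (1 - S.Xs) • S.Phi := by
  have h1 : t n T *ᵥ (t n T *ᵥ S.J) = S.a - e0 n T + t n T *ᵥ (S.Q *ᵥ S.y) := by
    have h := S.omega_eq
    rw [sub_sub, sub_eq_zero] at h
    rw [h, Matrix.mulVec_add, S.tt_a]
  have h2 : t n T *ᵥ (S.Q *ᵥ S.y) = -(S.Xs • S.a) + S.Q *ᵥ (S.AM *ᵥ (t n T *ᵥ (t n T *ᵥ S.J)
      + e0 n T)) := by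
    have h : (t n T * S.Q + S.Q * (t n T)ᵀ) *ᵥ S.y
        = (S.R • (vecMulVec S.a S.b + vecMulVec S.b S.a)) *ᵥ S.y := by rw [S.tQ]
    rw [Matrix.add_mulVec, ← Matrix.mulVec_mulVec, ← Matrix.mulVec_mulVec, S.tT_y,
      Matrix.smul_mulVec, Matrix.add_mulVec, vecMulVec_mulVec', vecMulVec_mulVec', S.a_y,
      zero_smul, add_zero, Matrix.mulVec_neg] at h
    rw [← sub_eq_iff_eq_add, sub_eq_add_neg, h, S.Xs_eq]
    ext1 i
    simp only [Pi.smul_apply, Pi.neg_apply, smul_eq_mul]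
    ring
  have h3 : (1 - S.Q * S.AM) *ᵥ (e0 n T + t n T *ᵥ (t n T *ᵥ S.J)) = (1 - S.Xs) • S.a := by
    rw [Matrix.sub_mulVec, Matrix.one_mulVec, ← Matrix.mulVec_mulVec,
      add_comm (e0 n T)]
    nth_rewrite 1 [h1]
    rw [h2, sub_smul, one_smul]
    abel
  calc e0 n T + t n T *ᵥ (t n T *ᵥ S.J)
      = S.N *ᵥ ((1 - S.Q * S.AM) *ᵥ (e0 n T + t n T *ᵥ (t n T *ᵥ S.J))) := by
        rw [Matrix.mulVec_mulVec (e0 n T + t n T *ᵥ (t n T *ᵥ S.J)), S.N_mul, Matrix.one_mulVec]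
    _ = _ := by rw [h3, Matrix.mulVec_smul]; rfl

theorem Phi0_X : (1 - S.Xs) * S.Phi S.i0 = 1 := by
  have h := congrFun S.eta_eq S.i0
  rw [Pi.add_apply, Pi.smul_apply, smul_eq_mul, t_mulVec_zero _ _ rfl, add_zero] at h
  rw [← h]
  simp [e0, i0]

theorem Th_eq_Phi0 : S.Th = S.Phi S.i0 := by
  have h1 := S.Th_X
  have h2 := S.Phi0_X
  linear_combination S.Phi S.i0 * h1 - S.Th * h2

/-- (E12) -/
theorem euR_Th : eu S.R = S.R * S.Th ^ 2 := by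
  have h1 := S.euR_X
  have h2 := S.Th_X
  rw [← S.Th_eq_Phi0] at h1
  linear_combination S.Th * h1 - eu S.R * h2

/-- the logarithmic derivative of `Th` -/
noncomputable def dy : T⟦X⟧ := eu S.R * (S.aA - S.cA)

/-- (E13) -/
theorem eu_Th : eu S.Th = S.Th * S.dy := by
  have h := congrFun S.dPhi S.i0
  rw [Pi.smul_apply, Pi.add_apply, Pi.smul_apply, t_mulVec_zero _ _ rfl, add_zero, smul_eq_mul,
    smul_eq_mul] at h
  rw [S.Th_eq_Phi0, dy]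
  change eu (S.Phi S.i0) = _ at h
  rw [h]; ring

theorem dy_eq : S.dy = S.Th * eu S.Xs := by
  have h1 := congrArg eu S.Th_X
  rw [Derivation.leibniz, map_sub, Derivation.map_one_eq_zero, S.eu_Th] at h1
  simp only [smul_eq_mul] at h1
  have h2 := S.Th_X
  linear_combination h1 - S.dy * h2

/-- (E14) -/
theorem trace_eq : (S.AM * S.N * dM eu S.Q).trace = eu S.R * (S.aA + S.cA) := by
  have h : ∀ f g : Fin n → T⟦X⟧, (S.K * vecMulVec f g).trace = g ⬝ᵥ (S.K *ᵥ f) := by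
    intro f g
    rw [Matrix.mul_vecMulVec, Matrix.trace_vecMulVec, dotProduct_comm]
  change (S.K * dM eu S.Q).trace = _
  rw [S.dM_Q, Matrix.mul_smul, Matrix.trace_smul, Matrix.mul_add, Matrix.trace_add,
    Matrix.mul_smul, Matrix.trace_smul, h, h]
  rfl

theorem eu_v_eq : 1 + eu S.v = S.Th ^ 2 := by
  have h2 := S.eu_v
  have h3 := S.Phi0_eq
  rw [← S.Th_eq_Phi0] at h3
  have h4 := S.euR_Th
  have h5 := S.Th_X
  have h6 : S.Xs = S.R * (S.V ⬝ᵥ (t n T *ᵥ S.b)) := rfl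
  linear_combination h2 - h3 + (S.V ⬝ᵥ (t n T *ᵥ S.b)) * h4 - S.Th ^ 2 * h6 - S.Th * h5

theorem eu_Ph : eu S.Ph = 2 * S.dy := by
  have h1 := S.h7
  rw [Derivation.leibniz_pow, S.eu_Th] at h1
  simp only [nsmul_eq_mul, smul_eq_mul, pow_one, Nat.add_one_sub_one] at h1
  have h5 := S.Th_X
  push_cast at h1
  have hh : S.Th ^ 2 * (1 - S.Xs) ^ 2 = 1 := by
    rw [← mul_pow, h5, one_pow]
  linear_combination (1 - S.Xs) ^ 2 * h1 - (eu S.Ph - 2 * S.dy) * hh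

/-- the scalar `m` -/
noncomputable def mm : T⟦X⟧ := 2 * (eu S.R * (S.aA + S.cA))

/-- (E17) -/
theorem W_eq : 24 * eu S.W = 1 - S.Th ^ 2 + 2 * S.dy + 6 * S.mm := by
  have h := S.h6
  have e : (Matrix.of fun i j : Fin n => (C (aK S.k i j) : T⟦X⟧)) = S.AM := rfl
  rw [e, S.trace_eq, S.eu_Ph] at h
  have h2 := S.eu_v_eq
  rw [mm]
  linear_combination h - h2

/-- the auxiliary scalar -/
noncomputable def dA : T⟦X⟧ := (t n T *ᵥ S.b) ⬝ᵥ (S.AM *ᵥ S.Phi)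

theorem AM_Phi : S.AM *ᵥ S.Phi = S.K *ᵥ S.a := by rw [Phi, K, Matrix.mulVec_mulVec]
theorem AM_Psi : S.AM *ᵥ S.Psi = S.K *ᵥ S.b := by rw [Psi, K, Matrix.mulVec_mulVec]

theorem t_dot (f g : Fin n → T⟦X⟧) : (t n T *ᵥ f) ⬝ᵥ g = f ⬝ᵥ ((t n T)ᵀ *ᵥ g) := by
  rw [dotProduct_comm, Matrix.dotProduct_mulVec, ← Matrix.mulVec_transpose, dotProduct_comm]

theorem tT_AM_vec (f : Fin n → T⟦X⟧) : (t n T)ᵀ *ᵥ (S.AM *ᵥ f) = -(S.AM *ᵥ (t n T *ᵥ f)) := by
  rw [Matrix.mulVec_mulVec, Matrix.mulVec_mulVec]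
  have : (t n T)ᵀ * S.AM = -(S.AM * t n T) := by rw [S.AM_t, neg_neg]
  rw [this, Matrix.neg_mulVec]

theorem b_AM_t_Phi : S.b ⬝ᵥ (S.AM *ᵥ (t n T *ᵥ S.Phi)) = -S.dA := by
  rw [dA, t_dot, S.tT_AM_vec, dotProduct_neg, neg_neg]

theorem a_AM_t_Psi : S.a ⬝ᵥ (S.AM *ᵥ (t n T *ᵥ S.Psi)) = S.dA + S.aA * S.cA := by
  have h : S.dA = S.a ⬝ᵥ (S.K *ᵥ (t n T *ᵥ S.b)) := by
    rw [dA, S.AM_Phi, S.dot_K]
  rw [h, K, ← Matrix.mulVec_mulVec, S.N_t_b, Matrix.mulVec_sub, Matrix.mulVec_smul,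
    dotProduct_sub, dotProduct_smul, S.AM_Phi]
  change _ = _ - S.cA * S.aA + _
  ring

theorem ta_AM_Psi : (t n T *ᵥ S.a) ⬝ᵥ (S.AM *ᵥ S.Psi) = -(S.dA + S.aA * S.cA) := by
  rw [t_dot, S.tT_AM_vec, dotProduct_neg, S.a_AM_t_Psi]

theorem eu_aA : eu S.aA = eu S.R * (2 * S.dA + S.aA ^ 2) := by
  have e : S.aA = S.a ⬝ᵥ (S.AM *ᵥ S.Phi) := by rw [S.AM_Phi]; rfl
  have h : eu S.aA = dV eu S.a ⬝ᵥ (S.AM *ᵥ S.Phi) + S.a ⬝ᵥ (S.AM *ᵥ dV eu S.Phi) := by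
    rw [e, der_dot, dV_mulVec, S.dM_AM, Matrix.zero_mulVec, zero_add]
  rw [h, S.dV_a, S.dPhi, smul_dotProduct, Matrix.mulVec_smul, dotProduct_smul, Matrix.mulVec_add,
    dotProduct_add, Matrix.mulVec_smul, dotProduct_smul, S.a_AM_t_Psi, ← e]
  change eu S.R * S.dA + eu S.R * ((S.aA - S.cA) * S.aA + _) = _
  ring

theorem eu_RcA : eu (S.R * S.cA) = eu S.R * (S.R * (-(2 * S.dA) + S.cA ^ 2
    - 2 * S.aA * S.cA)) := by
  have e0 : S.cA = S.R * (S.b ⬝ᵥ (S.AM *ᵥ S.Psi)) := by rw [S.AM_Psi]; rfl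
  have e : S.R * S.cA = (S.R • S.b) ⬝ᵥ (S.AM *ᵥ (S.R • S.Psi)) := by
    rw [Matrix.mulVec_smul, smul_dotProduct, dotProduct_smul, smul_eq_mul, smul_eq_mul, e0]
  have h : eu (S.R * S.cA) = dV eu (S.R • S.b) ⬝ᵥ (S.AM *ᵥ (S.R • S.Psi))
      + (S.R • S.b) ⬝ᵥ (S.AM *ᵥ dV eu (S.R • S.Psi)) := by
    rw [e, der_dot, dV_mulVec, S.dM_AM, Matrix.zero_mulVec, zero_add]
  rw [h, S.dV_Rb, S.dPsi]
  simp only [smul_dotProduct, Matrix.mulVec_smul, dotProduct_smul, Matrix.mulVec_add,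
    dotProduct_add, S.ta_AM_Psi, S.b_AM_t_Phi, smul_eq_mul]
  linear_combination (-(eu S.R * S.R * (S.cA - S.aA))) * e0

/-- (E18) -/
theorem eu_mm : 2 * eu S.mm = S.mm * (4 * S.dy + S.Th ^ 2) + 2 * (S.Th ^ 2 * S.dy)
    + 4 * S.dy ^ 2 := by
  have hR := S.euR_Th
  have h1 := S.eu_aA
  have h2 := S.eu_RcA
  have h3 := S.eu_Th
  have m1 : S.mm = 2 * (S.Th ^ 2 * (S.R * S.aA + S.R * S.cA)) := by
    rw [mm, hR]; ring
  have d1 : S.dy = S.Th ^ 2 * (S.R * S.aA - S.R * S.cA) := by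
    rw [dy, hR]; ring
  have h4 : eu (S.R * S.aA) = S.R * (eu S.R * (2 * S.dA + S.aA ^ 2)) + S.aA * eu S.R := by
    rw [Derivation.leibniz, h1]; rfl
  have two : ∀ f : T⟦X⟧, eu (2 * f) = 2 * eu f := by
    intro f
    have h' : ∀ f : T⟦X⟧, (2 : T⟦X⟧) * f = (2 : ℚ) • f := fun f => by
      rw [Algebra.smul_def, map_ofNat (algebraMap ℚ T⟦X⟧) 2]
    rw [h', h', Derivation.map_smul]
  have h5 : eu S.mm = 2 * (S.Th ^ 2 * (eu (S.R * S.aA) + eu (S.R * S.cA))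
      + (S.R * S.aA + S.R * S.cA) * (2 * S.Th * (S.Th * S.dy))) := by
    rw [m1, two, Derivation.leibniz, Derivation.leibniz_pow, map_add, h3]
    simp only [smul_eq_mul, nsmul_eq_mul, Nat.add_one_sub_one, pow_one]
    push_cast
    ring
  rw [h5, h4, h2, hR, m1, d1]
  ring

end Sys

end MP4a
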